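import Pool.Agent.Lib_helper36.SRC.Coef

set_option autoImplicit false

/-! # Tools: membership in terms of series in `t`, the one-line lemma, lower bounds for coins -/

namespace Pool.Agent.Lib_helper36.SRC

open Finset PowerSeries

/-- membership, everything written in `t` -/
theorem inW_S_iff (ν : ℝ) (τ : ℝ⟦X⟧) : InW ν (S τ) ↔ NN (ab (-ν) * τ) := by
  rw [inW_iff]
  constructor
  · rintro ⟨σ, hσ, h⟩
    have : ab (-ν) * τ = σ := by
      apply S_injective
      rw [map_mul, S_ab, h, ← mul_assoc, ← Ex_add, neg_add_cancel, Ex_zero, one_mul]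
    rw [this]; exact hσ
  · intro h
    refine ⟨ab (-ν) * τ, h, ?_⟩
    rw [map_mul, S_ab, ← mul_assoc, ← Ex_add, add_neg_cancel, Ex_zero, one_mul]

lemma E_eq_S (c : ℝ) : E c = S (C (Real.exp (-c)) * ab c) := by
  rw [map_mul, S_C, S_ab, E_eq]

lemma X_eq_S : (X : ℝ⟦X⟧) = S (X * ab 1) := S_X_ab.symm

lemma coin_eq_S (s : ℝ) : 1 + C s * (X - 1) = S (kc s * ab s) := by
  rw [map_mul, S_kc, S_ab, mul_assoc, mul_comm (Ex (-s)), Ex_mul_neg, mul_one]

/-- `exp c * (n - c)^(n-1)` increases on `c ≤ 1` -/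
lemma exp_mul_pow_mono {c d : ℝ} (hcd : c ≤ d) (hd : d ≤ 1) (n : ℕ) (hn : 1 ≤ n) :
    Real.exp c * ((n : ℝ) - c) ^ (n - 1) ≤ Real.exp d * ((n : ℝ) - d) ^ (n - 1) := by
  have hn' : (1 : ℝ) ≤ n := by exact_mod_cast hn
  rcases Nat.lt_or_ge 1 n with h1 | h1
  · have hn2 : (2 : ℝ) ≤ n := by exact_mod_cast h1
    have hpos : 0 < (n : ℝ) - d := by linarith
    have hpos' : 0 ≤ (n : ℝ) - c := by linarith
    have e1 : (n : ℝ) - c = ((n : ℝ) - d) * (1 + (d - c) / (n - d)) := by field_simp; ring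
    have e2 : 1 + (d - c) / (n - d) ≤ Real.exp ((d - c) / (n - d)) := by
      have := Real.add_one_le_exp ((d - c) / (n - d)); linarith
    have h0 : 0 ≤ 1 + (d - c) / (n - d) := by
      have : 0 ≤ (d - c) / (n - d) := div_nonneg (by linarith) hpos.le
      linarith
    have e3 : (1 + (d - c) / (n - d)) ^ (n - 1) ≤ Real.exp (d - c) := by
      calc (1 + (d - c) / (n - d)) ^ (n - 1) ≤ (Real.exp ((d - c) / (n - d))) ^ (n - 1) :=
            pow_le_pow_left₀ h0 e2 _
        _ = Real.exp (((n - 1 : ℕ) : ℝ) * ((d - c) / (n - d))) := by rw [← Real.exp_nat_mul]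
        _ ≤ Real.exp (d - c) := by
            apply Real.exp_le_exp.2
            rw [Nat.cast_sub hn, Nat.cast_one, ← mul_div_assoc, div_le_iff₀ hpos]
            nlinarith
    calc Real.exp c * ((n : ℝ) - c) ^ (n - 1)
        = Real.exp c * ((n : ℝ) - d) ^ (n - 1) * (1 + (d - c) / (n - d)) ^ (n - 1) := by
          rw [e1, mul_pow]; ring
      _ ≤ Real.exp c * ((n : ℝ) - d) ^ (n - 1) * Real.exp (d - c) := by
          apply mul_le_mul_of_nonneg_left e3
          positivity
      _ = Real.exp d * ((n : ℝ) - d) ^ (n - 1) := by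
          have : Real.exp d = Real.exp c * Real.exp (d - c) := by rw [← Real.exp_add]; congr 1; ring
          rw [this]; ring
  · have : n = 1 := by omega
    subst this
    simp only [Nat.sub_self, pow_zero, mul_one]
    exact Real.exp_le_exp.2 hcd

/-- `c * exp d ≤ d * exp c` for `0 ≤ c ≤ d ≤ 1` -/
lemma mul_exp_le {c d : ℝ} (hc : 0 ≤ c) (hcd : c ≤ d) (hd : d ≤ 1) :
    c * Real.exp d ≤ d * Real.exp c := by
  rcases hc.eq_or_lt with h0 | h0
  · rw [← h0]
    have : 0 ≤ d := by rw [← h0] at hcd; exact hcd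
    simp; exact this
  · have hd0 : 0 < d := lt_of_lt_of_le h0 hcd
    have h1 : 1 - (d / c)⁻¹ ≤ Real.log (d / c) := Real.one_sub_inv_le_log_of_pos (by positivity)
    have h2 : d - c ≤ 1 - (d / c)⁻¹ := by
      rw [inv_div]
      have : 1 - c / d = (d - c) / d := by field_simp
      rw [this, le_div_iff₀ hd0]
      nlinarith
    have h3 : Real.exp (d - c) ≤ d / c := by
      rw [← Real.le_log_iff_exp_le (by positivity)]
      linarith
    have h4 : Real.exp d = Real.exp c * Real.exp (d - c) := by rw [← Real.exp_add]; congr 1; ring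
    rw [h4]
    calc c * (Real.exp c * Real.exp (d - c)) ≤ c * (Real.exp c * (d / c)) := by
          apply mul_le_mul_of_nonneg_left _ hc
          exact mul_le_mul_of_nonneg_left h3 (Real.exp_pos c).le
      _ = d * Real.exp c := by field_simp

/-- **One-line lemma.** `1 - (c / d) E (c - d) ∈ W c` for `0 ≤ c ≤ d ≤ 1` -/
theorem InW.one_sub_E {c d : ℝ} (hc : 0 ≤ c) (hcd : c ≤ d) (hd0 : 0 < d) (hd : d ≤ 1) :
    InW c (1 - C (c / d) * SRC.E (c - d)) := by
  have e : (1 : ℝ⟦X⟧) - C (c / d) * SRC.E (c - d)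
      = S (1 - C (c / d) * (C (Real.exp (-(c - d))) * ab (c - d))) := by
    rw [map_sub, map_one, map_mul, S_C, E_eq_S]
  rw [e, inW_S_iff]
  have e2 : ab (-c) * (1 - C (c / d) * (C (Real.exp (-(c - d))) * ab (c - d)))
      = ab (-c) - C (c / d * Real.exp (d - c)) * ab (-d) := by
    have : ab (-d) = ab (-c) * ab (c - d) := by rw [← ab_add]; congr 1; ring
    rw [this, map_mul, neg_sub]; ring
  rw [e2]
  intro n
  rw [map_sub, coeff_C_mul, sub_nonneg]
  have hexp : Real.exp (d - c) = Real.exp d / Real.exp c := Real.exp_sub _ _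
  rcases Nat.eq_zero_or_pos n with h | h
  · subst h
    rw [coeff_ab_zero, coeff_ab_zero, mul_one, hexp]
    rw [div_mul_div_comm, div_le_one (by positivity)]
    exact mul_exp_le hc hcd hd
  · rw [coeff_ab_pos h, coeff_ab_pos h]
    have hm := exp_mul_pow_mono hcd hd n h
    have f : (0 : ℝ) < n.factorial := by exact_mod_cast n.factorial_pos
    have e3 : (-c + (n : ℝ)) = n - c := by ring
    have e4 : (-d + (n : ℝ)) = n - d := by ring
    rw [e3, e4, ← sub_nonneg]
    have : -c * ((n : ℝ) - c) ^ (n - 1) / n.factorial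
        - c / d * Real.exp (d - c) * (-d * ((n : ℝ) - d) ^ (n - 1) / n.factorial)
        = c / (n.factorial * Real.exp c) * (Real.exp d * ((n : ℝ) - d) ^ (n - 1)
          - Real.exp c * ((n : ℝ) - c) ^ (n - 1)) := by
      rw [hexp]
      field_simp
      ring
    rw [this]
    apply mul_nonneg (by positivity)
    linarith

/-- the exponential in `t` is a lower bound of `ab` -/
lemma LE_Ex_ab {c : ℝ} (hc : 0 ≤ c) : LE (Ex c) (ab c) := by
  intro n
  rw [coeff_Ex]
  rcases Nat.eq_zero_or_pos n with h | h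
  · subst h; rw [coeff_ab_zero]; simp
  · rw [coeff_ab_pos h]
    apply div_le_div_of_nonneg_right _ (by positivity)
    have e : c ^ n = c * c ^ (n - 1) := by rw [← pow_succ']; congr 1; omega
    rw [e]
    apply mul_le_mul_of_nonneg_left _ hc
    apply pow_le_pow_left₀ hc
    have : (0 : ℝ) ≤ n := Nat.cast_nonneg n
    linarith

/-- lower bound for a coin -/
lemma LE_kc {s : ℝ} (hs0 : 0 ≤ s) (hs : s ≤ 1 / 2) :
    LE (C (1 - s) * Ex (s ^ 2 / (1 - s))) (kc s) := by
  have h1 : 0 < 1 - s := by linarith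
  intro n
  rw [coeff_C_mul, coeff_Ex]
  match n with
  | 0 => rw [coeff_kc_zero]; simp
  | 1 => rw [coeff_kc_one]; simp; field_simp; exact le_refl _
  | n + 2 =>
    rw [coeff_kc, ← mul_div_assoc]
    apply div_le_div_of_nonneg_right _ (by positivity)
    have hb0 : 0 ≤ s ^ 2 / (1 - s) := by positivity
    have hb : s ^ 2 / (1 - s) ≤ 1 / 2 := by
      rw [div_le_iff₀ h1]; nlinarith
    have hb2 : (s ^ 2 / (1 - s)) ^ 2 ≤ s ^ 2 := by
      have : s ^ 2 / (1 - s) ≤ s := by rw [div_le_iff₀ h1]; nlinarith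
      exact pow_le_pow_left₀ hb0 this 2
    have hpow : (s ^ 2 / (1 - s)) ^ n ≤ ((n : ℝ) + 2 - s) ^ n := by
      apply pow_le_pow_left₀ hb0
      have : (0 : ℝ) ≤ n := Nat.cast_nonneg n
      linarith
    calc (1 - s) * (s ^ 2 / (1 - s)) ^ (n + 2)
        = (1 - s) * ((s ^ 2 / (1 - s)) ^ 2 * (s ^ 2 / (1 - s)) ^ n) := by rw [pow_add]; ring
      _ ≤ (1 - s) * (s ^ 2 * ((n : ℝ) + 2 - s) ^ n) := by
          apply mul_le_mul_of_nonneg_left _ h1.le
          exact mul_le_mul hb2 hpow (by positivity) (by positivity)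
      _ = s ^ 2 * (1 - s) * ((n : ℝ) + 2 - s) ^ n := by ring

lemma NN_Ex {c : ℝ} (hc : 0 ≤ c) : NN (Ex c) := fun n => by rw [coeff_Ex]; positivity

/-- lower bound for a product of coins -/
lemma LE_prod_kc (l : List ℝ) (hl : ∀ s ∈ l, 0 ≤ s ∧ s ≤ 1 / 2) :
    LE (C (l.map (fun s => 1 - s)).prod * Ex (l.map (fun s => s ^ 2 / (1 - s))).sum)
      (l.map kc).prod := by
  induction l with
  | nil => simp [Ex_zero]; exact LE.refl _
  | cons s l ih =>
    have hs := hl s (by simp)
    have ih' := ih (fun r hr => hl r (List.mem_cons_of_mem _ hr))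
    rw [List.map_cons, List.prod_cons, List.map_cons, List.sum_cons, List.map_cons, List.prod_cons,
      map_mul, Ex_add]
    have h1 := (LE_kc hs.1 hs.2).mul ih' (NN.kc (by linarith [hs.2])) (by
      apply (NN.C _).mul (NN_Ex _)
      · apply List.prod_nonneg
        intro a ha
        obtain ⟨b, hb, rfl⟩ := List.mem_map.1 ha
        have := hl b (List.mem_cons_of_mem _ hb)
        linarith [this.2]
      · apply List.sum_nonneg
        intro a ha
        obtain ⟨b, hb, rfl⟩ := List.mem_map.1 ha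
        have := hl b (List.mem_cons_of_mem _ hb)
        exact div_nonneg (by positivity) (by linarith [this.2]))
    refine LE.trans ?_ h1
    intro n
    apply le_of_eq
    congr 1
    ring

/-- absolute bound for `ab (-c)` on the levels `n ≤ 2 c` -/
lemma abs_coeff_ab_neg {c : ℝ} (hc : 0 ≤ c) (n : ℕ) (hn : (n : ℝ) ≤ 2 * c) :
    |coeff n (ab (-c))| ≤ c ^ n / n.factorial := by
  rcases Nat.eq_zero_or_pos n with h | h
  · subst h; rw [coeff_ab_zero]; simp
  · rw [coeff_ab_pos h, abs_div, abs_mul, abs_neg, abs_of_nonneg hc, abs_pow,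
      abs_of_pos (show (0 : ℝ) < n.factorial by exact_mod_cast n.factorial_pos)]
    apply div_le_div_of_nonneg_right _ (by positivity)
    have e : c ^ n = c * c ^ (n - 1) := by rw [← pow_succ']; congr 1; omega
    rw [e]
    apply mul_le_mul_of_nonneg_left _ hc
    apply pow_le_pow_left₀ (abs_nonneg _)
    rw [abs_le]
    constructor <;> [skip; linarith]
    have : (0 : ℝ) ≤ n := Nat.cast_nonneg n
    linarith

end Pool.Agent.Lib_helper36.SRC
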