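import Pool.Agent.Lib_helper36.SRC.Drop
import Pool.Agent.Lib_helper13.GC6.CaseIIIBH
import Pool.Agent.Lib_helper6.SRC.K7

set_option autoImplicit false

/-! # Case (IIIA), at least two honest star children at `u` -/

namespace Pool.Agent.Lib_helper36.SRC

open PowerSeries RT Pool.Agent.Lib_helper13.GC6 Pool.Agent.Lib_helper6.SRC

/-- **(X)** -/
def StatX : Prop := ∀ (h l : ℕ) (ls : List ℕ) (t ρ : ℝ), ls ≠ [] → h + ls.length + 2 ≤ l →
  (∀ j ∈ ls, l ≤ j) → t = (1 / 2) ^ (h + ls.length + 2) → 0 ≤ ρ → 2 * ρ ≤ t →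
  InW (HM ls + (t - (1 / 2) ^ (l + 1) + ρ))
    (HD ls * (1 + C (t - (1 / 2) ^ (l + 1) + ρ) * (X - 1)) +
      C (2 * t * (2 * (t - (1 / 2) ^ (l + 1)) + ρ)) * ((X - 1) ^ 2 * HN ls))

lemma prodE_rep (l : ℕ) : prodE (List.replicate l (1 / 2)) = kap ^ l := by
  induction l with
  | zero => simp [prodE_nil]
  | succ l ih => rw [List.replicate_succ, prodE_cons, ih, pow_succ']; rfl

lemma sum_rep (l : ℕ) : (List.replicate l (1 / 2 : ℝ)).sum = (l : ℝ) / 2 := by
  rw [List.sum_replicate, nsmul_eq_mul]; ring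

/-- **(K1)** -/
lemma inW_K1 (l : ℕ) (t ρ : ℝ) (ht : (1 / 2) ^ (l + 1) ≤ t) (ht1 : t ≤ 1 / 8) (hρ0 : 0 ≤ ρ)
    (hρ : ρ ≤ t) :
    InW ((l : ℝ) / 2 + (1 / 2) ^ (l + 1) - t)
      (kap ^ l * (1 + C (-(t - (1 / 2) ^ (l + 1))) * (X - 1))
        - C ((1 / 2) ^ (l + 1) * (2 * (t - (1 / 2) ^ (l + 1)) + ρ)) * (X - 1) ^ 2) := by
  obtain ⟨p, hp⟩ : ∃ p : ℝ, p = (1 / 2) ^ (l + 1) := ⟨_, rfl⟩
  rw [← hp] at ht ⊢
  have hp0 : 0 < p := by rw [hp]; positivity
  have hf : Lf (List.replicate l (1 / 2 : ℝ)) := by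
    intro s hs
    rw [List.eq_of_mem_replicate hs]
    norm_num
  have hpl : (2 : ℝ) ^ (List.replicate l (1 / 2 : ℝ)).length * (2 * p) ≤ 1 := by
    rw [List.length_replicate, hp, pow_succ]
    have e : (2 : ℝ) ^ l * (2 * ((1 / 2) ^ l * (1 / 2))) = (2 * (1 / 2)) ^ l := by
      rw [mul_pow]; ring
    rw [e]; norm_num
  have key := inW_K (List.replicate l (1 / 2)) hf p (t - p) hp0.le hpl (by linarith) (by linarith)
  rw [prodE_rep, sum_rep] at key
  have k0 : InW ((l : ℝ) / 2 + p - t) (kap ^ l * (1 + C (-(t - p)) * (X - 1))) := by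
    have h1 : InW ((l : ℝ) / 2) (kap ^ l) := by
      have : InW (l * (1 / 2 : ℝ)) (kap ^ l) := by
        clear key hpl hf ht hp
        induction l with
        | zero => simpa using InW.one (le_refl (0 : ℝ))
        | succ l ih =>
          rw [pow_succ]
          refine (ih.mul (InW.coin (s := 1 / 2) (by norm_num))).congr ?_ rfl
          push_cast; ring
      refine this.congr (by ring) rfl
    refine (h1.mul (InW.coin (s := -(t - p)) (by linarith))).congr (by ring) rfl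
  set c0 := 2 * p * (2 * (t - p) + p) with hc0
  have hc0p : 0 < c0 := by rw [hc0]; apply mul_pos; linarith; linarith
  set lam := p * (2 * (t - p) + ρ) / c0 with hlam
  have hlam0 : 0 ≤ lam := by
    rw [hlam]; apply div_nonneg _ hc0p.le
    apply mul_nonneg hp0.le; linarith
  have hlam1 : lam ≤ 1 := by
    rw [hlam, div_le_one hc0p, hc0]; nlinarith
  have e : lam * c0 = p * (2 * (t - p) + ρ) := by rw [hlam]; field_simp
  have k1 := (InW.smul (show (0 : ℝ) ≤ 1 - lam by linarith) k0).add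
    ((InW.smul hlam0 key).congr (show _ = (l : ℝ) / 2 + p - t by ring) rfl)
  refine k1.congr rfl ?_
  rw [← e]
  simp only [map_sub, map_mul, map_one]
  ring

/-- **(K2)** from `(K7)` -/
lemma inW_K2 (l : ℕ) (hl : 3 ≤ l) (hg : InW ((l : ℝ) / 2 + 2 * (1 / 2) ^ (l + 1))
      (kap ^ l + C (2 * (1 / 2) ^ (l + 1)) * (X - 1)))
    (θ : ℝ) (hp : 2 * (1 / 2) ^ (l + 1) ≤ (1 / 8 : ℝ)) (hθ0 : 0 ≤ θ) (hθ : θ ≤ 1 / 8) :
    InW ((l : ℝ) / 2 + (1 / 2) ^ (l + 1) + θ)
      ((kap ^ l + C ((1 / 2) ^ (l + 1)) * (X - 1)) * (1 + C θ * (X - 1))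
        + C (2 * θ * (1 / 2) ^ (l + 1)) * (X - 1) ^ 2) := by
  have h7 : InW ((l : ℝ) / 2 + (θ + (1 / 2) ^ (l + 1))) (kap ^ l * (1 + C (θ + (1 / 2) ^ (l + 1)) *
      (X - 1)) + C ((4 * θ + 2 * (1 / 2) ^ (l + 1)) * (1 / 2) ^ (l + 1)) * (X - 1) ^ 2) :=
    inW_K7 hl rfl (by positivity) (by linarith) (by positivity) (by linarith)
  obtain ⟨p, hp'⟩ : ∃ p : ℝ, p = (1 / 2) ^ (l + 1) := ⟨_, rfl⟩
  rw [← hp'] at hg hp h7 ⊢
  have h1 := hg.mul (InW.coin (s := θ - p) (by
    have : 0 ≤ p := by rw [hp']; positivity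
    linarith))
  have h2 := (InW.smul (show (0 : ℝ) ≤ 1 / 2 by norm_num) h1).add
    ((InW.smul (show (0 : ℝ) ≤ 1 / 2 by norm_num) h7).congr
      (show _ = (l : ℝ) / 2 + 2 * p + (θ - p) by ring) rfl)
  refine h2.congr (by ring) ?_
  have hC : C (1 / 2 : ℝ) * 2 = (1 : ℝ⟦X⟧) := by
    rw [← map_ofNat (C (R := ℝ)) 2, ← map_mul]; norm_num
  simp only [map_sub, map_add, map_mul, map_ofNat]
  linear_combination ((kap ^ l + C p * (X - 1)) * (1 + C θ * (X - 1)) +
    2 * C θ * C p * (X - 1) ^ 2) * hC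

lemma A_hon (l : ℕ) : A (hon l) = kap ^ l + C (2 * (1 / 2) ^ (l + 1)) * (X - 1) := by
  unfold A
  rw [B_hon, N_hon, t_hon, mul_one]

lemma exists_min_mem : ∀ ls : List ℕ, ls ≠ [] → ∃ l ∈ ls, ∀ j ∈ ls, l ≤ j := by
  intro ls
  induction ls with
  | nil => intro h; exact absurd rfl h
  | cons a ls ih =>
    intro _
    rcases ls.eq_nil_or_concat with h | h
    · subst h; exact ⟨a, by simp, by simp⟩
    · have hne : ls ≠ [] := by
        rintro rfl
        obtain ⟨_, _, h⟩ := h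
        simp at h
      obtain ⟨l, hl, hmin⟩ := ih hne
      rcases le_total a l with hal | hal
      · exact ⟨a, by simp, fun j hj => by
          rcases List.mem_cons.1 hj with rfl | hj
          · exact le_refl _
          · exact hal.trans (hmin j hj)⟩
      · exact ⟨l, by simp [hl], fun j hj => by
          rcases List.mem_cons.1 hj with rfl | hj
          · exact hal
          · exact hmin j hj⟩

/-- **Case (IIIA) with at least two honest star children.** -/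
theorem goodJ_A4 (sx : StatX) {n : ℕ} (hn : GoodUpTo n) (h : ℕ) (ls : List ℕ)
    (W : RT) (hs : size (node h (ls.map hon)) + size W ≤ n + 1) (h2 : 2 ≤ ls.length)
    (hls : ∀ l ∈ ls, 2 * RT.t (hon l) ≤ RT.t (node h (ls.map hon)))
    (ht : 2 * RT.t W ≤ RT.t (node h (ls.map hon))) : GoodJ (node h (ls.map hon)) W := by
  have hne : ls ≠ [] := by rintro rfl; simp at h2
  -- the smallest star
  obtain ⟨l, hl, hmin⟩ := exists_min_mem ls hne
  obtain ⟨l1, l2, rfl⟩ := List.append_of_mem hl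
  have hp : (l1 ++ l :: l2).Perm (l :: (l1 ++ l2)) := List.perm_middle
  have hpm : ((l1 ++ l :: l2).map hon).Perm ((l :: (l1 ++ l2)).map hon) := hp.map hon
  rw [goodJ_perm h hpm]
  rw [t_perm h hpm] at hls ht
  rw [size_node, sizeL_perm hpm] at hs
  obtain ⟨ks, hks⟩ : ∃ ks, ks = l1 ++ l2 := ⟨_, rfl⟩
  have hlen : 1 ≤ ks.length := by
    rw [hks]; simp at h2 ⊢; omega
  have hmin' : ∀ j ∈ ks, l ≤ j := by
    intro j hj
    apply hmin
    rw [hks] at hj
    rcases List.mem_append.1 hj with h' | h'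
    · exact List.mem_append_left _ h'
    · exact List.mem_append_right _ (List.mem_cons_of_mem _ h')
  have hlt := hls l hl
  rw [← hks] at hlt ht hs ⊢
  rw [List.map_cons] at hlt ht hs ⊢
  have hU : RT.t (node h (hon l :: ks.map hon)) = (1 / 2) ^ (h + ks.length + 2) := by
    have := t_honF h (l :: ks)
    rw [List.map_cons, List.length_cons] at this
    exact this
  obtain ⟨t, ht0⟩ : ∃ t, t = RT.t (node h (hon l :: ks.map hon)) := ⟨_, rfl⟩
  have hW0 := t_pos W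
  have ht8 : t ≤ 1 / 8 := by
    rw [ht0, hU]
    calc (1 / 2 : ℝ) ^ (h + ks.length + 2) ≤ (1 / 2) ^ 3 :=
          pow_le_pow_of_le_one (by norm_num) (by norm_num) (by omega)
      _ = 1 / 8 := by norm_num
  rw [t_hon, ← ht0] at hlt
  rw [← ht0] at ht
  have hl3 : h + ks.length + 2 ≤ l := by
    by_contra hcon
    push Not at hcon
    have h3 : (1 / 2 : ℝ) ^ (h + ks.length + 2) ≤ (1 / 2) ^ (l + 1) :=
      pow_le_pow_of_le_one (by norm_num) (by norm_num) (by omega)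
    have h4 : (0 : ℝ) < (1 / 2) ^ (l + 1) := by positivity
    rw [ht0, hU] at hlt
    linarith
  have hsl := size_pos (hon l)
  rw [sizeL_cons] at hs
  have hp0 : (0 : ℝ) < (1 / 2) ^ (l + 1) := by positivity
  have hg : InW ((l : ℝ) / 2 + 2 * (1 / 2) ^ (l + 1))
      (kap ^ l + C (2 * (1 / 2) ^ (l + 1)) * (X - 1)) := by
    have h1 := hn.A (hon l) (by omega)
    rw [A_hon] at h1
    refine h1.congr ?_ rfl
    unfold α
    rw [β_hon, t_hon]
  apply goodJ_drop hn h (hon l) (ks.map hon) W (N_hon l)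
  · rw [size_node, sizeL_cons]; omega
  · rw [← ht0]; linarith
  · rw [← ht0, β_hon, B_hon, t_hon]
    exact inW_K1 l t (RT.t W) (by linarith) ht8 hW0.le (by linarith)
  · rw [← ht0, β_hon, H_hon, t_hon]
    exact inW_K2 l (by omega) hg (t - RT.t W) (by linarith) (by linarith) (by linarith)
  · rw [← ht0, t_hon, β_honF, B_honF, N_honF]
    exact sx h l ks t (RT.t W) (by rintro rfl; simp at hlen) hl3 hmin' (ht0.trans hU) hW0.le ht

end Pool.Agent.Lib_helper36.SRC
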