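import Pool.Agent.Lib_helper36.SRC.LinkRT

set_option autoImplicit false
set_option linter.unusedSectionVars false

/-! # Forests, and the sharp form below the mean -/

namespace Pool.Agent.Lib_helper36.SRC

open Finset PowerSeries
open Pool.Agent.Lib_helper19.Src (prob Unimodal)

/-- **Below the mean the ratio of consecutive coefficients is at least the one of the Poisson
law.** -/
theorem InW.coeff_ratio {μ : ℝ} {P : ℝ⟦X⟧} (hP : InW μ P) (j : ℕ) (hj : ((j : ℝ) + 1) ≤ μ) :
    μ * coeff j P ≤ ((j : ℝ) + 1) * coeff (j + 1) P := by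
  obtain ⟨w, hw, h⟩ := hP
  have h1 := h (j + 2)
  rw [X_pow_dvd_iff] at h1
  have c0 := h1 j (by omega)
  have c1 := h1 (j + 1) (by omega)
  rw [map_sub, sub_eq_zero, map_sum] at c0 c1
  rw [c0, c1, mul_sum, mul_sum]
  apply sum_le_sum
  intro a ha
  rw [coeff_C_mul, coeff_C_mul, mul_left_comm, mul_left_comm ((j : ℝ) + 1)]
  apply mul_le_mul_of_nonneg_left _ (hw a)
  rw [coeff_X_pow_mul', coeff_X_pow_mul']
  by_cases h2 : a ≤ j
  · rw [if_pos h2, if_pos (by omega), coeff_E, coeff_E]
    have e : j + 1 - a = (j - a) + 1 := by omega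
    rw [e, Nat.factorial_succ, pow_succ]
    have hja : ((j - a : ℕ) : ℝ) = (j : ℝ) - a := by rw [Nat.cast_sub h2]
    have ha0 : (0 : ℝ) ≤ a := Nat.cast_nonneg a
    have hj0 : (0 : ℝ) ≤ ((j - a : ℕ) : ℝ) := Nat.cast_nonneg _
    have hc : μ * (((j - a : ℕ) : ℝ) + 1) ≤ ((j : ℝ) + 1) * (μ - a) := by
      rw [hja]; nlinarith
    have hpos : (0 : ℝ) ≤ μ - a := by rw [hja] at hj0; linarith
    push_cast
    have f1 : (0 : ℝ) < ((j - a).factorial : ℝ) := by exact_mod_cast Nat.factorial_pos _
    have f2 : (0 : ℝ) < ((j - a : ℕ) : ℝ) + 1 := by positivity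
    rw [mul_div_assoc', mul_div_assoc', div_le_div_iff₀ f1 (by positivity)]
    have hX : 0 ≤ Real.exp (-(μ - a)) * (μ - a) ^ (j - a) * ((j - a).factorial : ℝ) := by positivity
    calc μ * (Real.exp (-(μ - a)) * (μ - a) ^ (j - a))
          * ((((j - a : ℕ) : ℝ) + 1) * ((j - a).factorial : ℝ))
        = (Real.exp (-(μ - a)) * (μ - a) ^ (j - a) * ((j - a).factorial : ℝ)) *
          (μ * (((j - a : ℕ) : ℝ) + 1)) := by ring
      _ ≤ (Real.exp (-(μ - a)) * (μ - a) ^ (j - a) * ((j - a).factorial : ℝ)) *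
          (((j : ℝ) + 1) * (μ - a)) := mul_le_mul_of_nonneg_left hc hX
      _ = _ := by ring
  · rw [if_neg h2, mul_zero]
    by_cases h3 : a ≤ j + 1
    · rw [if_pos h3, coeff_E]
      have : j + 1 - a = 0 := by omega
      rw [this]; simp; positivity
    · rw [if_neg h3, mul_zero]

variable {V : Type} [DecidableEq V]

/-- the weighted independence series of a forest is in the cone -/
theorem forest_InW (hgood : ∀ T : RT, RT.Good T) (G : SimpleGraph V) (hG : G.IsAcyclic)
    (p : V → ℝ) (g : V → ℕ) (n : ℕ) :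
    ∀ (S : Finset V), S.card = n → (∀ v ∈ S, p v = (1 / 2 : ℝ) ^ (dg G S v + g v)) →
      InW (∑ v ∈ S, p v) (IS G p S) := by
  classical
  induction n using Nat.strong_induction_on with
  | _ n ih =>
  intro S hn hp
  rcases S.eq_empty_or_nonempty with rfl | ⟨u, hu⟩
  · rw [IS_empty, sum_empty]; exact InW.one le_rfl
  · -- the component of `u`
    set K := S.filter (fun x => Relation.ReflTransGen (fun a b => G.Adj a b ∧ b ∈ S) u x) with hK
    have huK : u ∈ K := mem_filter.2 ⟨hu, Relation.ReflTransGen.refl⟩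
    have hKS : K ⊆ S := filter_subset _ _
    have hcl : ∀ a ∈ K, ∀ b ∈ S, G.Adj a b → b ∈ K := by
      intro a ha b hb hab
      exact mem_filter.2 ⟨hb, (mem_filter.1 ha).2.tail ⟨hab, hb⟩⟩
    have hno : ∀ a ∈ K, ∀ b ∈ S \ K, ¬ G.Adj a b := by
      intro a ha b hb hab
      exact (mem_sdiff.1 hb).2 (hcl a ha b (mem_sdiff.1 hb).1 hab)
    have hd1 : ∀ v ∈ K, dg G K v = dg G S v := by
      intro v hv
      rw [dg_eq_card, dg_eq_card]
      congr 1
      ext x
      simp only [mem_filter]
      constructor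
      · rintro ⟨h1, h2⟩; exact ⟨hKS h1, h2⟩
      · rintro ⟨h1, h2⟩; exact ⟨hcl v hv x h1 h2, h2⟩
    have hd2 : ∀ v ∈ S \ K, dg G (S \ K) v = dg G S v := by
      intro v hv
      rw [dg_eq_card, dg_eq_card]
      congr 1
      ext x
      simp only [mem_filter]
      constructor
      · rintro ⟨h1, h2⟩; exact ⟨(mem_sdiff.1 h1).1, h2⟩
      · rintro ⟨h1, h2⟩
        refine ⟨mem_sdiff.2 ⟨h1, fun h => ?_⟩, h2⟩
        exact hno x h v hv h2.symm
    have hconn : Conn G K u := by
      intro x hx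
      have hx' := (mem_filter.1 hx).2
      induction hx' with
      | refl => exact Relation.ReflTransGen.refl
      | tail hab hbc ih =>
        rename_i b c
        have hbK : b ∈ K := by
          have hbS : b ∈ S := by
            rcases hab.cases_tail with h | ⟨_, _, h⟩
            · rw [h]; exact hu
            · exact h.2
          exact mem_filter.2 ⟨hbS, hab⟩
        exact (ih hbK).tail ⟨hbc.1, hx⟩
    obtain ⟨T, _, _, h3, _, _, h6⟩ := exists_RT_aux G hG p _ K rfl u huK hconn g (by
      intro v hv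
      rw [hd1 v hv]; exact hp v (hKS hv))
    have hK1 : InW (∑ v ∈ K, p v) (IS G p K) := by
      rw [h3, h6]; exact hgood T
    have hcard : (S \ K).card < n := by
      rw [← hn]
      apply card_lt_card
      refine ⟨sdiff_subset, fun h => ?_⟩
      exact (mem_sdiff.1 (h hu)).2 huK
    have hK2 := ih _ hcard (S \ K) rfl (by
      intro v hv
      rw [hd2 v hv]; exact hp v (mem_sdiff.1 hv).1)
    have hun : K ∪ (S \ K) = S := union_sdiff_of_subset hKS
    have hdis : Disjoint K (S \ K) := disjoint_sdiff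
    have h7 := hK1.mul hK2
    rw [← IS_union G p K (S \ K) hdis hno, ← sum_union hdis, hun] at h7
    exact h7

variable [Fintype V]

/-- **Forests.** The generating function of the number of sources of a forest is in the cone. -/
theorem inW_forest (hgood : ∀ T : RT, RT.Good T) (G : SimpleGraph V) (hG : G.IsAcyclic) :
    InW (∑ v, wt G v) (IS G (wt G) univ) := by
  classical
  refine forest_InW hgood G hG (wt G) (fun _ => 0) _ univ rfl ?_
  intro v _
  rw [dg_eq_card, add_zero]
  unfold wt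
  congr 1
  rw [← SimpleGraph.card_neighborFinset_eq_degree]
  congr 1
  ext x
  simp

/-- below the mean: `μ p_j ≤ (j+1) p_{j+1}` and `p_j ≤ p_{j+1}` -/
theorem lower_half_forest (hgood : ∀ T : RT, RT.Good T) (G : SimpleGraph V) (hG : G.IsAcyclic)
    (j : ℕ) (hj : (j : ℝ) + 1 ≤ ∑ v, wt G v) :
    (∑ v, wt G v) * prob G j ≤ ((j : ℝ) + 1) * prob G (j + 1) ∧ prob G j ≤ prob G (j + 1) := by
  have h := inW_forest hgood G hG
  rw [prob_eq_coeff, prob_eq_coeff]
  exact ⟨h.coeff_ratio j hj, h.coeff_mono j hj⟩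

/-- unimodality -/
theorem unimodal_forest (hgood : ∀ T : RT, RT.Good T) (G : SimpleGraph V) (hG : G.IsAcyclic) :
    Unimodal (Fintype.card V) (prob G) :=
  unimodal_of_W G (inW_forest hgood G hG)

end Pool.Agent.Lib_helper36.SRC
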