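import Pool.Agent.Lib_helper36.SRC.IIIBDone
import Pool.Agent.Lib_helper36.SRC.Forest
import Pool.Agent.Lib_helper79.SRC.PartB

set_option autoImplicit false

/-! # All rooted trees are good -/

namespace Pool.Agent.Lib_helper36.SRC

/-- **All rooted trees (with half-edges) are good.** -/
theorem good_all (T : RT) : RT.Good T :=
  good_of_parts Pool.Agent.Lib_helper79.SRC.partA_done Pool.Agent.Lib_helper79.SRC.partB_done T

end Pool.Agent.Lib_helper36.SRC
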