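import Pool.Agent.Lib_helper36.SRC.WCone

set_option autoImplicit false

/-! # Coefficient calculus for the cone `W ν`

`Ex c = exp (c x)`, `S` is the substitution `t ↦ x exp (-x)`; `F ∈ W ν` iff
`F = Ex ν * S τ` with `τ` having nonnegative coefficients; `S (ab c) = Ex c` with
`ab c = ∑ c (c + n)^(n-1) / n! t^n` for every real `c`. -/

namespace Pool.Agent.Lib_helper36.SRC

open Finset PowerSeries

/-- `exp (c x)` -/
noncomputable def Ex (c : ℝ) : ℝ⟦X⟧ := rescale c (exp ℝ)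

lemma coeff_Ex (c : ℝ) (n : ℕ) : coeff n (Ex c) = c ^ n / n.factorial := by
  unfold Ex
  rw [coeff_rescale, coeff_exp]
  simp
  ring

lemma Ex_zero : Ex 0 = 1 := by unfold Ex; simp

lemma Ex_add (c d : ℝ) : Ex (c + d) = Ex c * Ex d := by
  unfold Ex; rw [← exp_mul_exp_eq_exp_add]

lemma Ex_mul_neg (c : ℝ) : Ex c * Ex (-c) = 1 := by rw [← Ex_add, add_neg_cancel, Ex_zero]

lemma Ex_pow (c : ℝ) (n : ℕ) : Ex c ^ n = Ex (n * c) := by
  induction n with
  | zero => simp [Ex_zero]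
  | succ n ih => rw [pow_succ, ih, ← Ex_add]; congr 1; push_cast; ring

lemma E_eq (c : ℝ) : E c = C (Real.exp (-c)) * Ex c := rfl

/-- `x exp (-x)` -/
noncomputable def ss : ℝ⟦X⟧ := X * Ex (-1)

lemma hasSubst_ss : HasSubst ss := by
  apply HasSubst.of_constantCoeff_zero'
  unfold ss; simp

/-- the substitution `t ↦ x exp (-x)` -/
noncomputable def S : ℝ⟦X⟧ →ₐ[ℝ] ℝ⟦X⟧ := substAlgHom hasSubst_ss

lemma S_X : S X = X * Ex (-1) := by
  unfold S
  rw [substAlgHom_X]; rfl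

lemma S_C (r : ℝ) : S (C r) = C r := by
  have := S.commutes r
  simpa using this

lemma S_X_pow (n : ℕ) : S (X ^ n) = X ^ n * Ex (-n) := by
  rw [map_pow, S_X, mul_pow, Ex_pow]; congr 2; ring

lemma dvd_S {N : ℕ} {f : ℝ⟦X⟧} (h : (X : ℝ⟦X⟧) ^ N ∣ f) : (X : ℝ⟦X⟧) ^ N ∣ S f := by
  obtain ⟨g, rfl⟩ := h
  rw [map_mul, S_X_pow, mul_assoc]
  exact dvd_mul_right _ _

lemma dvd_sub_trunc (N : ℕ) (f : ℝ⟦X⟧) : (X : ℝ⟦X⟧) ^ N ∣ f - ∑ a ∈ range N, C (coeff a f) * X ^ a := by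
  rw [X_pow_dvd_iff]
  intro m hm
  rw [map_sub, map_sum, sub_eq_zero, sum_eq_single m]
  · simp
  · intro b _ hb
    rw [coeff_C_mul, coeff_X_pow, if_neg (Ne.symm hb), mul_zero]
  · intro h; exact absurd (mem_range.2 hm) h

lemma dvd_S_sub (N : ℕ) (f : ℝ⟦X⟧) :
    (X : ℝ⟦X⟧) ^ N ∣ S f - ∑ a ∈ range N, C (coeff a f) * (X ^ a * Ex (-a)) := by
  have h := dvd_S (dvd_sub_trunc N f)
  rw [map_sub, map_sum] at h
  convert h using 2
  apply sum_congr rfl
  intro a _
  rw [map_mul, S_C, S_X_pow]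

lemma coeff_S (f : ℝ⟦X⟧) (n : ℕ) : coeff n (S f)
    = ∑ a ∈ range (n + 1), coeff a f * ((-(a : ℝ)) ^ (n - a) / (n - a).factorial) := by
  have h := dvd_S_sub (n + 1) f
  rw [X_pow_dvd_iff] at h
  have := h n (by omega)
  rw [map_sub, sub_eq_zero, map_sum] at this
  rw [this]
  apply sum_congr rfl
  intro a ha
  have ha' : a ≤ n := Nat.lt_succ_iff.1 (mem_range.1 ha)
  rw [coeff_C_mul, coeff_X_pow_mul', if_pos ha', coeff_Ex]

lemma S_injective : Function.Injective S := by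
  intro f g h
  rw [← sub_eq_zero] at h ⊢
  rw [← map_sub] at h
  set d := f - g
  ext n
  induction n using Nat.strong_induction_on with
  | _ n ih =>
    have h1 : coeff n (S d) = 0 := by rw [h]; simp
    rw [coeff_S, sum_range_succ] at h1
    have h2 : ∑ a ∈ range n, coeff a d * ((-(a : ℝ)) ^ (n - a) / (n - a).factorial) = 0 := by
      apply sum_eq_zero
      intro a ha
      rw [ih a (mem_range.1 ha)]; simp
    rw [h2] at h1
    simpa using h1

/-- all coefficients are nonnegative -/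
def NN (f : ℝ⟦X⟧) : Prop := ∀ n, 0 ≤ coeff n f

lemma NN.zero : NN 0 := fun n => by simp
lemma NN.one : NN 1 := fun n => by rw [coeff_one]; split_ifs <;> norm_num
lemma NN.X : NN (X : ℝ⟦X⟧) := fun n => by rw [coeff_X]; split_ifs <;> norm_num
lemma NN.add {f g : ℝ⟦X⟧} (hf : NN f) (hg : NN g) : NN (f + g) :=
  fun n => by rw [map_add]; exact add_nonneg (hf n) (hg n)
lemma NN.mul {f g : ℝ⟦X⟧} (hf : NN f) (hg : NN g) : NN (f * g) :=
  fun n => by rw [coeff_mul]; exact sum_nonneg (fun ij _ => mul_nonneg (hf _) (hg _))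
lemma NN.C {c : ℝ} (hc : 0 ≤ c) : NN (C c) := fun n => by rw [coeff_C]; split_ifs <;> [exact hc; exact le_refl _]
lemma NN.smul {c : ℝ} {f : ℝ⟦X⟧} (hc : 0 ≤ c) (hf : NN f) : NN (PowerSeries.C c * f) := (NN.C hc).mul hf
lemma NN.pow {f : ℝ⟦X⟧} (hf : NN f) (k : ℕ) : NN (f ^ k) := by
  induction k with
  | zero => rw [pow_zero]; exact NN.one
  | succ k ih => rw [pow_succ]; exact ih.mul hf
lemma NN.sum {ι : Type*} (s : Finset ι) (f : ι → ℝ⟦X⟧) (h : ∀ i ∈ s, NN (f i)) : NN (∑ i ∈ s, f i) :=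
  fun n => by rw [map_sum]; exact sum_nonneg (fun i hi => h i hi n)
lemma NN.prod {ι : Type*} (s : Finset ι) (f : ι → ℝ⟦X⟧) (h : ∀ i ∈ s, NN (f i)) : NN (∏ i ∈ s, f i) := by
  classical
  induction s using Finset.induction_on with
  | empty => rw [prod_empty]; exact NN.one
  | insert i s hi ih =>
    rw [prod_insert hi]
    exact (h i (mem_insert_self _ _)).mul (ih (fun j hj => h j (mem_insert_of_mem hj)))

/-- **Characterization of the cone.** -/
theorem inW_iff (ν : ℝ) (F : ℝ⟦X⟧) : InW ν F ↔ ∃ τ : ℝ⟦X⟧, NN τ ∧ F = Ex ν * S τ := by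
  have key : ∀ (w : ℕ → ℝ) (N : ℕ), ∑ a ∈ range N, C (w a) * (X ^ a * E (ν - a))
      = Ex ν * ∑ a ∈ range N, C (w a * Real.exp (-(ν - a))) * (X ^ a * Ex (-a)) := by
    intro w N
    rw [mul_sum]
    apply sum_congr rfl
    intro a _
    rw [E_eq, sub_eq_add_neg ν (a : ℝ), Ex_add, map_mul]
    ring
  constructor
  · rintro ⟨w, hw, h⟩
    refine ⟨PowerSeries.mk (fun a => w a * Real.exp (-(ν - a))), fun n => ?_, ?_⟩
    · rw [coeff_mk]; exact mul_nonneg (hw n) (Real.exp_pos _).le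
    · set τ : ℝ⟦X⟧ := PowerSeries.mk (fun a => w a * Real.exp (-(ν - a))) with hτ
      rw [← sub_eq_zero]
      ext n
      have h1 := h (n + 1)
      have h2 := Dvd.dvd.mul_left (dvd_S_sub (n + 1) τ) (Ex ν)
      have e : F - Ex ν * S τ = (F - ∑ a ∈ range (n + 1), C (w a) * (X ^ a * E (ν - a)))
          - Ex ν * (S τ - ∑ a ∈ range (n + 1), C (coeff a τ) * (X ^ a * Ex (-a))) := by
        rw [key]
        have : ∑ a ∈ range (n + 1), C (coeff a τ) * (X ^ a * Ex (-a))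
            = ∑ a ∈ range (n + 1), C (w a * Real.exp (-(ν - a))) * (X ^ a * Ex (-a)) := by
          apply sum_congr rfl
          intro a _
          rw [hτ, coeff_mk]
        rw [this]; ring
      have h3 : (X : ℝ⟦X⟧) ^ (n + 1) ∣ F - Ex ν * S τ := by rw [e]; exact dvd_sub h1 h2
      rw [X_pow_dvd_iff] at h3
      rw [h3 n (by omega)]; simp
  · rintro ⟨τ, hτ, rfl⟩
    refine ⟨fun a => coeff a τ * Real.exp (ν - a), fun a => mul_nonneg (hτ a) (Real.exp_pos _).le,
      fun N => ?_⟩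
    rw [key]
    have e : ∀ a ∈ range N, C (coeff a τ * Real.exp (ν - a) * Real.exp (-(ν - a))) * (X ^ a * Ex (-a))
        = C (coeff a τ) * (X ^ a * Ex (-a)) := by
      intro a _
      rw [mul_assoc, ← Real.exp_add, add_neg_cancel, Real.exp_zero, mul_one]
    rw [sum_congr rfl e, ← mul_sub]
    exact Dvd.dvd.mul_left (dvd_S_sub N τ) _

/-- the coefficients of `exp (c x)` in powers of `x exp (-x)` -/
noncomputable def ab (c : ℝ) : ℝ⟦X⟧ :=
  PowerSeries.mk fun n => if n = 0 then 1 else c * (c + n) ^ (n - 1) / n.factorial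

lemma coeff_ab_zero (c : ℝ) : coeff 0 (ab c) = 1 := by unfold ab; rw [coeff_mk]; simp

lemma coeff_ab_succ (c : ℝ) (n : ℕ) :
    coeff (n + 1) (ab c) = c * (c + (n + 1)) ^ n / (n + 1).factorial := by
  unfold ab; rw [coeff_mk, if_neg (by omega)]; push_cast; simp

lemma coeff_ab_pos {c : ℝ} {n : ℕ} (hn : 0 < n) :
    coeff n (ab c) = c * (c + n) ^ (n - 1) / n.factorial := by
  unfold ab; rw [coeff_mk, if_neg (by omega)]

/-- Abel's identity for every `c` -/
lemma abel_all (c : ℝ) (n : ℕ) :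
    ∑ a ∈ range (n + 1), coeff a (ab c) * ((-(a : ℝ)) ^ (n - a) / (n - a).factorial)
      = c ^ n / n.factorial := by
  -- polynomials in `c`
  let q : ℕ → Polynomial ℝ := fun a => if a = 0 then 1 else
    Polynomial.C (1 / (a.factorial : ℝ)) * (Polynomial.X * (Polynomial.X + Polynomial.C (a : ℝ)) ^ (a - 1))
  let P : Polynomial ℝ := ∑ a ∈ range (n + 1), q a *
    Polynomial.C ((-(a : ℝ)) ^ (n - a) / (n - a).factorial) - Polynomial.C (1 / (n.factorial : ℝ)) *
      Polynomial.X ^ n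
  have hq : ∀ (a : ℕ) (c : ℝ), (q a).eval c = coeff a (ab c) := by
    intro a c
    simp only [q]
    unfold ab
    rw [coeff_mk]
    split_ifs with h
    · simp
    · simp; ring
  have hP : ∀ c : ℝ, P.eval c = ∑ a ∈ range (n + 1), coeff a (ab c) *
      ((-(a : ℝ)) ^ (n - a) / (n - a).factorial) - c ^ n / n.factorial := by
    intro c
    simp only [P, Polynomial.eval_sub, Polynomial.eval_finsetSum, Polynomial.eval_mul,
      Polynomial.eval_C, Polynomial.eval_pow, Polynomial.eval_X, hq]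
    ring
  have h0 : ∀ c : ℝ, 0 < c → P.eval c = 0 := by
    intro c hc
    rw [hP, sub_eq_zero, ← abel c hc n, sum_div]
    apply sum_congr rfl
    intro a ha
    have ha' : a ≤ n := Nat.lt_succ_iff.1 (mem_range.1 ha)
    have f0 : (n.factorial : ℝ) ≠ 0 := by exact_mod_cast n.factorial_ne_zero
    have f1 : (a.factorial : ℝ) ≠ 0 := by exact_mod_cast a.factorial_ne_zero
    have f2 : ((n - a).factorial : ℝ) ≠ 0 := by exact_mod_cast (n - a).factorial_ne_zero
    rw [Nat.cast_choose ℝ ha']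
    rcases Nat.eq_zero_or_pos a with h | h
    · subst h
      rw [coeff_ab_zero]
      simp
      field_simp
    · rw [coeff_ab_pos h]
      have e : ((a : ℝ) + c) ^ a = ((a : ℝ) + c) ^ (a - 1) * ((a : ℝ) + c) := by
        rw [← pow_succ]; congr 1; omega
      rw [e]
      have hne : (a : ℝ) + c ≠ 0 := by positivity
      rw [add_comm c (a : ℝ)]
      field_simp
  have hP0 : P = 0 := by
    apply Polynomial.eq_zero_of_infinite_isRoot
    apply Set.Infinite.mono (s := Set.Ioi (0 : ℝ))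
    · intro c hc
      exact h0 c hc
    · exact Set.Ioi_infinite 0
  have := hP c
  rw [hP0, Polynomial.eval_zero] at this
  linarith

theorem S_ab (c : ℝ) : S (ab c) = Ex c := by
  ext n
  rw [coeff_S, coeff_Ex, abel_all]

lemma ab_zero : ab 0 = 1 := by
  apply S_injective
  rw [S_ab, Ex_zero, map_one]

lemma ab_add (c d : ℝ) : ab (c + d) = ab c * ab d := by
  apply S_injective
  rw [map_mul, S_ab, S_ab, S_ab, Ex_add]

lemma ab_pow (c : ℝ) (n : ℕ) : ab c ^ n = ab (n * c) := by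
  apply S_injective
  rw [map_pow, S_ab, S_ab, Ex_pow]

/-- `x` in powers of `x exp (-x)` -/
lemma S_X_ab : S (X * ab 1) = X := by
  rw [map_mul, S_X, S_ab, mul_assoc, mul_comm (Ex (-1)), Ex_mul_neg, mul_one]

lemma NN.ab {c : ℝ} (hc : 0 ≤ c) : NN (ab c) := by
  intro n
  rcases Nat.eq_zero_or_pos n with h | h
  · subst h; rw [coeff_ab_zero]; norm_num
  · rw [coeff_ab_pos h]; positivity

/-- membership from an explicit series -/
lemma InW.intro {ν : ℝ} {F τ : ℝ⟦X⟧} (hτ : NN τ) (h : F = Ex ν * S τ) : InW ν F :=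
  (inW_iff ν F).2 ⟨τ, hτ, h⟩

/-- the normalized coin `(1 - s + s x) exp (-s x)` -/
noncomputable def kc (s : ℝ) : ℝ⟦X⟧ := C (1 - s) * ab (-s) + C s * (X * ab (1 - s))

lemma S_kc (s : ℝ) : S (kc s) = (1 + C s * (X - 1)) * Ex (-s) := by
  unfold kc
  rw [map_add, map_mul, map_mul, map_mul, S_C, S_C, S_X, S_ab, S_ab]
  have : Ex (1 - s) = Ex 1 * Ex (-s) := by rw [← Ex_add]; congr 1
  rw [this, map_sub, map_one]
  have e := Ex_mul_neg 1
  linear_combination (C s * X * Ex (-s)) * e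

lemma coeff_kc (s : ℝ) (n : ℕ) : coeff (n + 2) (kc s)
    = s ^ 2 * (1 - s) * ((n : ℝ) + 2 - s) ^ n / (n + 2).factorial := by
  unfold kc
  rw [map_add, coeff_C_mul, coeff_C_mul, coeff_succ_X_mul, coeff_ab_succ, coeff_ab_succ]
  rw [Nat.factorial_succ (n + 1)]
  push_cast
  have f : (((n + 1).factorial : ℕ) : ℝ) ≠ 0 := by exact_mod_cast (n + 1).factorial_ne_zero
  have g : (n : ℝ) + 1 + 1 ≠ 0 := by positivity
  have e1 : (-s + ((n : ℝ) + 1 + 1)) = (n : ℝ) + 2 - s := by ring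
  have e2 : (1 - s + ((n : ℝ) + 1)) = (n : ℝ) + 2 - s := by ring
  rw [e1, e2, pow_succ]
  field_simp
  ring

lemma coeff_kc_zero (s : ℝ) : coeff 0 (kc s) = 1 - s := by
  unfold kc
  rw [map_add, coeff_C_mul, coeff_C_mul, coeff_ab_zero]
  simp

lemma coeff_kc_one (s : ℝ) : coeff 1 (kc s) = s ^ 2 := by
  unfold kc
  rw [map_add, coeff_C_mul, coeff_C_mul, show (1 : ℕ) = 0 + 1 by rfl, coeff_succ_X_mul,
    coeff_ab_succ, coeff_ab_zero]
  simp
  ring

lemma NN.kc {s : ℝ} (hs1 : s ≤ 1) : NN (kc s) := by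
  intro n
  match n with
  | 0 => rw [coeff_kc_zero]; linarith
  | 1 => rw [coeff_kc_one]; positivity
  | n + 2 =>
    rw [coeff_kc]
    have h1 : 0 ≤ 1 - s := by linarith
    have h2 : 0 ≤ (n : ℝ) + 2 - s := by
      have : (0 : ℝ) ≤ n := Nat.cast_nonneg n
      linarith
    positivity

/-- coefficientwise order -/
def LE (f g : ℝ⟦X⟧) : Prop := ∀ n, coeff n f ≤ coeff n g

lemma LE.refl (f : ℝ⟦X⟧) : LE f f := fun _ => le_refl _
lemma LE.trans {f g h : ℝ⟦X⟧} (a : LE f g) (b : LE g h) : LE f h := fun n => (a n).trans (b n)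
lemma LE.add {f g f' g' : ℝ⟦X⟧} (a : LE f g) (b : LE f' g') : LE (f + f') (g + g') :=
  fun n => by rw [map_add, map_add]; exact add_le_add (a n) (b n)
lemma LE.iff_sub {f g : ℝ⟦X⟧} : LE f g ↔ NN (g - f) := by
  constructor
  · intro h n; rw [map_sub]; have := h n; linarith
  · intro h n; have := h n; rw [map_sub] at this; linarith
lemma LE.mul {f g f' g' : ℝ⟦X⟧} (a : LE f g) (b : LE f' g') (hg : NN g) (hf' : NN f') :
    LE (f * f') (g * g') := by
  intro n
  rw [coeff_mul, coeff_mul]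
  apply sum_le_sum
  intro ij _
  exact mul_le_mul (a _) (b _) (hf' _) (hg _)

lemma LE.nn {f g : ℝ⟦X⟧} (a : LE f g) (hf : NN f) : NN g := fun n => (hf n).trans (a n)

end Pool.Agent.Lib_helper36.SRC
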