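import Pool.Agent.Lib_helper36.SRC.IIIA

set_option autoImplicit false

/-! # Removing one star child at `u` (helper78's certificate, case (IIIA), `m ≥ 2`) -/

namespace Pool.Agent.Lib_helper36.SRC

open PowerSeries

namespace RT

/-- the first residual, scalar identity -/
lemma drop_ident_A (k t ρ η p : ℝ) (hk : k * (2 * t - ρ) = 1) (D' E : ℝ⟦X⟧) :
    (E + C p * (X - 1)) * D' -
      C ((t - ρ) * k) * (E * (1 + C (-η) * (X - 1)) - C (p * (2 * η + ρ)) * (X - 1) ^ 2) * D'
    = C k * (D' * (C ρ * ((E + C p * (X - 1)) * (1 + C (t - ρ) * (X - 1))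
        + C (2 * (t - ρ) * p) * (X - 1) ^ 2)
        + C (t - ρ) * ((E + C (2 * p) * (X - 1)) * (1 + C (η - ρ) * (X - 1))))) := by
  have hC : C k * (2 * C t - C ρ) = (1 : ℝ⟦X⟧) := by
    rw [← map_ofNat (C (R := ℝ)) 2, ← map_mul, ← map_sub, ← map_mul, hk, map_one]
  simp only [map_sub, map_add, map_mul, map_neg, map_ofNat]
  linear_combination (-(E + C p * (X - 1)) * D') * hC

/-- the second residual, scalar identity -/
lemma drop_ident_B (k t ρ η p : ℝ) (hk : k * (2 * t - ρ) = 1) (D' N' E : ℝ⟦X⟧) :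
    ((E + C p * (X - 1)) * D' + C (2 * t) * ((X - 1) * (E * N'))) -
      C ((t - ρ) * k) * (E * (1 + C (-η) * (X - 1)) - C (p * (2 * η + ρ)) * (X - 1) ^ 2) *
        (D' + C (2 * (2 * t)) * ((X - 1) * N'))
    = C k * (C ρ * (((E + C p * (X - 1)) * D' + C (2 * t) * ((X - 1) * (E * N')))
          * (1 + C (-(t - ρ)) * (X - 1)))
        + C (t - ρ) * ((E + C (2 * p) * (X - 1)) * (D' * (1 + C (η + ρ) * (X - 1))
          + C (2 * t * (2 * η + ρ)) * ((X - 1) ^ 2 * N')))) := by
  have hC : C k * (2 * C t - C ρ) = (1 : ℝ⟦X⟧) := by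
    rw [← map_ofNat (C (R := ℝ)) 2, ← map_mul, ← map_sub, ← map_mul, hk, map_one]
  simp only [map_sub, map_add, map_mul, map_neg, map_ofNat]
  linear_combination (-((E + C p * (X - 1)) * D' + 2 * C t * ((X - 1) * (E * N')))) * hC

/-- **Removing the child `c` of `u`.** -/
theorem goodJ_drop {n : ℕ} (hn : GoodUpTo n) (h : ℕ) (c : RT) (ks : List RT) (W : RT)
    (hc : N c = 1) (hs : size (node h (c :: ks)) + size W ≤ n + 1)
    (hρ : t W < t (node h (c :: ks)))
    (hK1 : InW (β c + t c - t (node h (c :: ks)))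
      (B c * (1 + C (-(t (node h (c :: ks)) - t c)) * (X - 1))
        - C (t c * (2 * (t (node h (c :: ks)) - t c) + t W)) * (X - 1) ^ 2))
    (hK2 : InW (β c + t c + (t (node h (c :: ks)) - t W))
      (H c * (1 + C (t (node h (c :: ks)) - t W) * (X - 1))
        + C (2 * (t (node h (c :: ks)) - t W) * t c) * (X - 1) ^ 2))
    (hX : InW (β (node h ks) + (t (node h (c :: ks)) - t c + t W))
      (B (node h ks) * (1 + C (t (node h (c :: ks)) - t c + t W) * (X - 1))
        + C (2 * t (node h (c :: ks)) * (2 * (t (node h (c :: ks)) - t c) + t W)) *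
          ((X - 1) ^ 2 * N (node h ks)))) :
    GoodJ (node h (c :: ks)) W := by
  obtain ⟨t0, ht0⟩ : ∃ t0, t0 = t (node h (c :: ks)) := ⟨_, rfl⟩
  obtain ⟨p, hp⟩ : ∃ p, p = t c := ⟨_, rfl⟩
  obtain ⟨ρ, hρ'⟩ : ∃ ρ, ρ = t W := ⟨_, rfl⟩
  have ht2 : t (node h ks) = 2 * t0 := by rw [ht0]; exact (t_cons h c ks).symm
  have hρ0 : 0 < ρ := by rw [hρ']; exact t_pos W
  have hp0 : 0 < p := by rw [hp]; exact t_pos c
  have htl : t0 ≤ 1 / 2 := by rw [ht0]; exact t_le_half _
  rw [← ht0, ← hρ'] at hρ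
  rw [← ht0, ← hp, ← hρ'] at hK1 hX
  rw [← ht0, ← hρ', ← hp] at hK2
  have hH : H c = B c + C p * (X - 1) := by unfold H; rw [hc, mul_one, hp]
  have hBU : B (node h (c :: ks)) = (B c + C p * (X - 1)) * B (node h ks) := by rw [B_cons, hH]
  have hNU : N (node h (c :: ks)) = B c * N (node h ks) := N_cons h c ks
  have hAc : A c = B c + C (2 * p) * (X - 1) := by unfold A; rw [hc, mul_one, hp]
  have hsc := size_pos c
  have hsW := size_pos W
  rw [size_node, sizeL_cons] at hs
  -- the smaller tree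
  have hJ : GoodJ (node h ks) W := by
    have h1 : Good (node h (W :: ks)) := by
      apply hn
      rw [size_node, sizeL_cons]
      omega
    exact ((good_cons h W ks).1 h1).comm
  have hGc : InW (α c) (A c) := hn.A c (by omega)
  have hGU : InW (α (node h (c :: ks))) (A (node h (c :: ks))) := by
    apply hn.A
    rw [size_node, sizeL_cons]
    omega
  have hD' : InW (β (node h ks)) (B (node h ks)) := by
    apply hn.B
    rw [size_node]
    omega
  set k := 1 / (2 * t0 - ρ) with hk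
  have hden : 0 < 2 * t0 - ρ := by linarith
  have hkm : k * (2 * t0 - ρ) = 1 := by rw [hk]; field_simp
  have hk0 : 0 ≤ k := by positivity
  have hθ : 0 < t0 - ρ := by linarith
  set F : ℝ⟦X⟧ := C ((t0 - ρ) * k) * (B c * (1 + C (-(t0 - p)) * (X - 1))
    - C (p * (2 * (t0 - p) + ρ)) * (X - 1) ^ 2) with hF
  have hβ : β (node h (c :: ks)) = β c + p + β (node h ks) := by rw [β_cons, hp]
  apply goodJ_gadgets hn (node h (c :: ks)) W (by omega) ({0} : Finset ℕ)
    (fun _ => A (node h ks)) (fun _ => B (node h ks)) (fun _ => F) (fun _ => mJ (node h ks) W)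
  · intro i _
    exact hJ
  · intro i _
    refine (InW.smul (by positivity) hK1).congr ?_ rfl
    unfold mJ
    rw [hβ, ht2, ← ht0, ← hρ']
    ring
  · rw [Finset.sum_singleton, hBU, hF, drop_ident_A k t0 ρ (t0 - p) p hkm]
    apply InW.smul hk0
    rw [mul_add]
    apply InW.add
    · rw [← mul_assoc, mul_comm _ (C ρ), mul_assoc]
      apply InW.smul hρ0.le
      rw [hH] at hK2
      refine (hD'.mul hK2).congr ?_ rfl
      rw [hβ, ← ht0, ← hρ']; ring
    · rw [← mul_assoc, mul_comm _ (C (t0 - ρ)), mul_assoc]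
      apply InW.smul hθ.le
      rw [← hAc]
      refine (hD'.mul (hGc.mul (InW.coin (s := t0 - p - ρ) (by linarith)))).congr ?_ rfl
      unfold α
      rw [hβ, ← ht0, ← hρ', ← hp]; ring
  · have hA' : A (node h ks) = B (node h ks) + C (2 * (2 * t0)) * ((X - 1) * N (node h ks)) := by
      unfold A; rw [ht2]
    have hAU : A (node h (c :: ks)) = (B c + C p * (X - 1)) * B (node h ks)
        + C (2 * t0) * ((X - 1) * (B c * N (node h ks))) := by
      unfold A; rw [hBU, hNU, ← ht0]
    rw [Finset.sum_singleton, hAU, hA', hF, drop_ident_B k t0 ρ (t0 - p) p hkm]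
    apply InW.smul hk0
    apply InW.add
    · apply InW.smul hρ0.le
      rw [← hAU]
      refine (hGU.mul (InW.coin (s := -(t0 - ρ)) (by linarith))).congr ?_ rfl
      unfold α
      rw [← ht0, ← hρ']; ring
    · apply InW.smul hθ.le
      rw [← hAc]
      refine (hGc.mul hX).congr ?_ rfl
      unfold α
      rw [hβ, ← ht0, ← hρ', ← hp]; ring

end RT

end Pool.Agent.Lib_helper36.SRC
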