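import Pool.Agent.Lib_helper36.SRC.WCone

set_option autoImplicit false

/-! # Rooted trees with half-edges and their laws -/

namespace Pool.Agent.Lib_helper36.SRC

open PowerSeries

/-- rooted trees: the root has `h` half-edges and `k` subtrees `f 0, ..., f (k - 1)` -/
inductive RT : Type
  | mk (h k : ℕ) (f : Fin k → RT) : RT

namespace RT

/-- the tree whose root has `h` half-edges and the list `cs` of subtrees -/
def node (h : ℕ) (cs : List RT) : RT := mk h cs.length (fun i => cs.get i)

/-- half-edges at the root -/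
def hh : RT → ℕ
  | mk h _ _ => h

/-- subtrees at the children of the root -/
def kids : RT → List RT
  | mk _ _ f => List.ofFn f

@[simp] lemma hh_node (h : ℕ) (cs : List RT) : (node h cs).hh = h := rfl
@[simp] lemma kids_node (h : ℕ) (cs : List RT) : (node h cs).kids = cs := List.ofFn_get cs

lemma mk_eq (h : ℕ) {k k' : ℕ} (f : Fin k → RT) (f' : Fin k' → RT)
    (e : List.ofFn f = List.ofFn f') : mk h k f = mk h k' f' := by
  have e' := List.ofFn_inj'.1 e
  rw [Sigma.mk.injEq] at e'
  obtain ⟨rfl, e2⟩ := e'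
  rw [eq_of_heq e2]

lemma eta (T : RT) : node T.hh T.kids = T := by
  cases T with
  | mk h k f => exact mk_eq h _ _ (List.ofFn_get (List.ofFn f))

lemma exists_node (T : RT) : ∃ (h : ℕ) (cs : List RT), T = node h cs := ⟨T.hh, T.kids, (eta T).symm⟩

/-- recursion over the subtrees -/
def fold {α : Type} (F : ℕ → List α → α) : RT → α
  | mk h _ f => F h (List.ofFn fun i => fold F (f i))

lemma fold_node {α : Type} (F : ℕ → List α → α) (h : ℕ) (cs : List RT) :
    fold F (node h cs) = F h (cs.map (fold F)) := by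
  have e : (List.ofFn fun i => fold F (cs.get i)) = cs.map (fold F) := by
    conv_rhs => rw [← List.ofFn_get cs, List.map_ofFn]
    rfl
  rw [← e]
  rfl

/-- weight of the root when one more edge is attached to it -/
noncomputable def t (T : RT) : ℝ := (1 / 2) ^ (T.hh + T.kids.length + 1)

lemma t_pos (T : RT) : 0 < t T := by unfold t; positivity

lemma t_le_half (T : RT) : t T ≤ 1 / 2 := by
  unfold t
  calc ((1 : ℝ) / 2) ^ (T.hh + T.kids.length + 1) ≤ (1 / 2) ^ 1 :=
        pow_le_pow_of_le_one (by norm_num) (by norm_num) (by omega)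
    _ = 1 / 2 := by norm_num

/-- number of vertices -/
def size : RT → ℕ := fold fun _ l => l.sum + 1

/-- number of vertices -/
def sizeL : List RT → ℕ
  | [] => 0
  | c :: cs => size c + sizeL cs

/-- depth -/
def depth : RT → ℕ := fold fun _ l => l.foldr (fun a b => max (a + 1) b) 0

/-- depth of a vertex with the given subtrees -/
def depthL : List RT → ℕ
  | [] => 0
  | c :: cs => max (depth c + 1) (depthL cs)

/-- laws: (root with one more half-edge, root dead) -/
noncomputable def law : RT → ℝ⟦X⟧ × ℝ⟦X⟧ := fold fun h l =>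
  ((l.map Prod.fst).prod + C ((1 / 2 : ℝ) ^ (h + l.length + 1)) * ((X - 1) * (l.map Prod.snd).prod),
    (l.map Prod.fst).prod)

/-- products of the laws -/
noncomputable def lawL : List RT → ℝ⟦X⟧ × ℝ⟦X⟧
  | [] => (1, 1)
  | c :: cs => ((law c).1 * (lawL cs).1, (law c).2 * (lawL cs).2)

/-- means: (root with one more half-edge, root dead) -/
noncomputable def mn : RT → ℝ × ℝ := fold fun h l =>
  ((l.map Prod.fst).sum + (1 / 2 : ℝ) ^ (h + l.length + 1), (l.map Prod.fst).sum)

/-- sums of the means -/
noncomputable def mnL : List RT → ℝ × ℝ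
  | [] => (0, 0)
  | c :: cs => ((mn c).1 + (mnL cs).1, (mn c).2 + (mnL cs).2)

lemma sizeL_eq (cs : List RT) : sizeL cs = (cs.map size).sum := by
  induction cs with
  | nil => rfl
  | cons c cs ih => rw [sizeL, ih, List.map_cons, List.sum_cons]

lemma size_node (h : ℕ) (cs : List RT) : size (node h cs) = sizeL cs + 1 := by
  rw [sizeL_eq]; exact fold_node _ h cs

lemma depthL_eq (cs : List RT) : depthL cs = (cs.map depth).foldr (fun a b => max (a + 1) b) 0 := by
  induction cs with
  | nil => rfl
  | cons c cs ih => rw [depthL, ih, List.map_cons, List.foldr_cons]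

lemma depth_node (h : ℕ) (cs : List RT) : depth (node h cs) = depthL cs := by
  rw [depthL_eq]; exact fold_node _ h cs

lemma lawL_eq (cs : List RT) :
    lawL cs = (((cs.map law).map Prod.fst).prod, ((cs.map law).map Prod.snd).prod) := by
  induction cs with
  | nil => rfl
  | cons c cs ih => rw [lawL, ih]; simp only [List.map_cons, List.prod_cons]

lemma law_node (h : ℕ) (cs : List RT) : law (node h cs) =
    ((lawL cs).1 + C ((1 / 2 : ℝ) ^ (h + cs.length + 1)) * ((X - 1) * (lawL cs).2),
      (lawL cs).1) := by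
  rw [lawL_eq]
  refine (fold_node _ h cs).trans ?_
  simp only [List.length_map]
  rfl

lemma mnL_eq_fst (cs : List RT) : (mnL cs).1 = ((cs.map mn).map Prod.fst).sum := by
  induction cs with
  | nil => rfl
  | cons c cs ih => rw [mnL, List.map_cons, List.map_cons, List.sum_cons, ← ih]

lemma mn_node (h : ℕ) (cs : List RT) :
    mn (node h cs) = ((mnL cs).1 + (1 / 2 : ℝ) ^ (h + cs.length + 1), (mnL cs).1) := by
  rw [mnL_eq_fst]
  refine (fold_node _ h cs).trans ?_
  simp only [List.length_map]
  rfl

/-- root dead -/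
noncomputable def B (T : RT) : ℝ⟦X⟧ := (lawL T.kids).1
/-- root and its neighbours dead -/
noncomputable def N (T : RT) : ℝ⟦X⟧ := (lawL T.kids).2
/-- root with one more half-edge -/
noncomputable def H (T : RT) : ℝ⟦X⟧ := B T + C (t T) * ((X - 1) * N T)
/-- the law of the tree -/
noncomputable def A (T : RT) : ℝ⟦X⟧ := B T + C (2 * t T) * ((X - 1) * N T)
/-- mean of `B` -/
noncomputable def β (T : RT) : ℝ := (mnL T.kids).1
/-- mean of `A` -/
noncomputable def α (T : RT) : ℝ := β T + 2 * t T

lemma law_fst (T : RT) : (law T).1 = H T := by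
  conv_lhs => rw [← eta T, law_node]
  rfl

lemma law_snd (T : RT) : (law T).2 = B T := by
  conv_lhs => rw [← eta T, law_node]
  rfl

lemma mn_fst (T : RT) : (mn T).1 = β T + t T := by
  conv_lhs => rw [← eta T, mn_node]
  rfl

lemma mn_snd (T : RT) : (mn T).2 = β T := by
  conv_lhs => rw [← eta T, mn_node]
  rfl

@[simp] lemma B_nil (h : ℕ) : B (node h []) = 1 := by unfold B; rw [kids_node, lawL]
@[simp] lemma N_nil (h : ℕ) : N (node h []) = 1 := by unfold N; rw [kids_node, lawL]
@[simp] lemma β_nil (h : ℕ) : β (node h []) = 0 := by unfold β; rw [kids_node, mnL]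

lemma B_cons (h : ℕ) (c : RT) (cs : List RT) : B (node h (c :: cs)) = H c * B (node h cs) := by
  unfold B; rw [kids_node, kids_node, lawL, law_fst]

lemma N_cons (h : ℕ) (c : RT) (cs : List RT) : N (node h (c :: cs)) = B c * N (node h cs) := by
  unfold N; rw [kids_node, kids_node, lawL, law_snd]

lemma β_cons (h : ℕ) (c : RT) (cs : List RT) :
    β (node h (c :: cs)) = β c + t c + β (node h cs) := by
  unfold β; rw [kids_node, kids_node, mnL, mn_fst]; rfl

lemma t_cons (h : ℕ) (c : RT) (cs : List RT) : 2 * t (node h (c :: cs)) = t (node h cs) := by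
  unfold t
  simp only [hh_node, kids_node, List.length_cons]
  rw [← add_assoc, pow_succ ((1 : ℝ) / 2) (h + cs.length + 1)]
  ring

lemma t_succ (h : ℕ) (cs : List RT) : 2 * t (node (h + 1) cs) = t (node h cs) := by
  unfold t
  simp only [hh_node, kids_node]
  have : h + 1 + cs.length + 1 = (h + cs.length + 1) + 1 := by ring
  rw [this, pow_succ ((1 : ℝ) / 2) (h + cs.length + 1)]
  ring

/-- `B`, `N`, `β` do not depend on the half-edges of the root -/
lemma B_hh (h h' : ℕ) (cs : List RT) : B (node h cs) = B (node h' cs) := rfl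
lemma N_hh (h h' : ℕ) (cs : List RT) : N (node h cs) = N (node h' cs) := rfl
lemma β_hh (h h' : ℕ) (cs : List RT) : β (node h cs) = β (node h' cs) := rfl

/-- the law with one more half-edge is again the law of a tree -/
lemma A_succ (h : ℕ) (cs : List RT) : A (node (h + 1) cs) = H (node h cs) := by
  unfold A H
  rw [B_hh (h + 1) h, N_hh (h + 1) h, t_succ]

lemma α_succ (h : ℕ) (cs : List RT) : α (node (h + 1) cs) = β (node h cs) + t (node h cs) := by
  unfold α
  rw [β_hh (h + 1) h, t_succ]

lemma H_eq (T : RT) : C 2 * H T = A T + B T := by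
  unfold H A
  rw [map_mul]
  have : C (2 : ℝ) = (2 : ℝ⟦X⟧) := by
    rw [show (2 : ℝ) = ((2 : ℕ) : ℝ) by norm_num, map_natCast]; norm_num
  rw [this]; ring

lemma C_half_mul_two (F : ℝ⟦X⟧) : C (1 / 2 : ℝ) * (C 2 * F) = F := by
  rw [← mul_assoc, ← map_mul]; norm_num

/-- the law of the tree obtained by joining the two roots by an edge -/
noncomputable def J (U W : RT) : ℝ⟦X⟧ := C (1 / 2) * (A U * B W + B U * A W)

/-- its mean -/
noncomputable def mJ (U W : RT) : ℝ := β U + β W + t U + t W

lemma J_comm (U W : RT) : J U W = J W U := by unfold J; ring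
lemma mJ_comm (U W : RT) : mJ U W = mJ W U := by unfold mJ; ring

lemma A_cons (h : ℕ) (c : RT) (cs : List RT) : A (node h (c :: cs)) = J c (node h cs) := by
  have h2 : C (1 / 2 : ℝ) * C 2 = 1 := by rw [← map_mul]; norm_num
  have e : A (node h (c :: cs)) = H c * B (node h cs) +
      C (t (node h cs)) * ((X - 1) * (B c * N (node h cs))) := by
    unfold A
    rw [B_cons, N_cons, t_cons]
  rw [e]
  unfold J
  have e1 : H c = C (1 / 2) * (A c + B c) := by rw [← H_eq, C_half_mul_two]
  rw [e1]
  have e2 : A (node h cs) = B (node h cs) + C 2 * (C (t (node h cs)) * ((X - 1) * N (node h cs))) := by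
    unfold A; rw [map_mul]; ring
  rw [e2]
  linear_combination (- C (t (node h cs)) * ((X - 1) * (B c * N (node h cs)))) * h2

lemma α_cons (h : ℕ) (c : RT) (cs : List RT) : α (node h (c :: cs)) = mJ c (node h cs) := by
  unfold α mJ
  rw [β_cons, t_cons]; ring

/-- permutations of the children -/
lemma lawL_perm {cs ds : List RT} (h : cs.Perm ds) : lawL cs = lawL ds := by
  induction h with
  | nil => rfl
  | cons c _ ih => rw [lawL, lawL, ih]
  | swap a b l =>
    rw [lawL, lawL, lawL, lawL]
    ext1 <;> simp only <;> ring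
  | trans _ _ ih1 ih2 => rw [ih1, ih2]

lemma mnL_perm {cs ds : List RT} (h : cs.Perm ds) : mnL cs = mnL ds := by
  induction h with
  | nil => rfl
  | cons c _ ih => rw [mnL, mnL, ih]
  | swap a b l =>
    rw [mnL, mnL, mnL, mnL]
    ext1 <;> simp only <;> ring
  | trans _ _ ih1 ih2 => rw [ih1, ih2]

lemma sizeL_perm {cs ds : List RT} (h : cs.Perm ds) : sizeL cs = sizeL ds := by
  induction h with
  | nil => rfl
  | cons c _ ih => rw [sizeL, sizeL, ih]
  | swap a b l => rw [sizeL, sizeL, sizeL, sizeL]; omega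
  | trans _ _ ih1 ih2 => rw [ih1, ih2]

lemma B_perm (h : ℕ) {cs ds : List RT} (hp : cs.Perm ds) : B (node h cs) = B (node h ds) := by
  unfold B; rw [kids_node, kids_node, lawL_perm hp]

lemma N_perm (h : ℕ) {cs ds : List RT} (hp : cs.Perm ds) : N (node h cs) = N (node h ds) := by
  unfold N; rw [kids_node, kids_node, lawL_perm hp]

lemma β_perm (h : ℕ) {cs ds : List RT} (hp : cs.Perm ds) : β (node h cs) = β (node h ds) := by
  unfold β; rw [kids_node, kids_node, mnL_perm hp]

lemma t_perm (h : ℕ) {cs ds : List RT} (hp : cs.Perm ds) : t (node h cs) = t (node h ds) := by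
  unfold t; rw [kids_node, kids_node, hp.length_eq, hh_node, hh_node]

lemma A_perm (h : ℕ) {cs ds : List RT} (hp : cs.Perm ds) : A (node h cs) = A (node h ds) := by
  unfold A; rw [B_perm h hp, N_perm h hp, t_perm h hp]

lemma α_perm (h : ℕ) {cs ds : List RT} (hp : cs.Perm ds) : α (node h cs) = α (node h ds) := by
  unfold α; rw [β_perm h hp, t_perm h hp]

lemma J_perm (h : ℕ) {cs ds : List RT} (hp : cs.Perm ds) (W : RT) :
    J (node h cs) W = J (node h ds) W := by
  unfold J; rw [A_perm h hp, B_perm h hp]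

lemma mJ_perm (h : ℕ) {cs ds : List RT} (hp : cs.Perm ds) (W : RT) :
    mJ (node h cs) W = mJ (node h ds) W := by
  unfold mJ; rw [β_perm h hp, t_perm h hp]

/-- moving the root -/
lemma J_move (h : ℕ) (c W : RT) (cs : List RT) :
    J (node h (c :: cs)) W = J c (node h (W :: cs)) := by
  rw [J_comm, ← A_cons, ← A_cons]
  exact A_perm h (List.Perm.swap _ _ _)

lemma mJ_move (h : ℕ) (c W : RT) (cs : List RT) :
    mJ (node h (c :: cs)) W = mJ c (node h (W :: cs)) := by
  rw [mJ_comm, ← α_cons, ← α_cons]
  exact α_perm h (List.Perm.swap _ _ _)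

lemma size_pos (T : RT) : 0 < size T := by rw [← eta T, size_node]; omega
lemma sizeL_cons (c : RT) (cs : List RT) : sizeL (c :: cs) = size c + sizeL cs := by rw [sizeL]
@[simp] lemma sizeL_nil : sizeL [] = 0 := by rw [sizeL]

lemma size_lt_of_mem {c : RT} {cs : List RT} (hc : c ∈ cs) : size c ≤ sizeL cs := by
  induction cs with
  | nil => simp at hc
  | cons d ds ih =>
    rw [sizeL_cons]
    rcases List.mem_cons.1 hc with rfl | h
    · omega
    · have := ih h; omega

/-- good trees -/
def Good (T : RT) : Prop := InW (α T) (A T)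

/-- all trees with at most `n` vertices are good -/
def GoodUpTo (n : ℕ) : Prop := ∀ T : RT, size T ≤ n → Good T

lemma GoodUpTo.mono {m n : ℕ} (h : GoodUpTo n) (hmn : m ≤ n) : GoodUpTo m :=
  fun T hT => h T (hT.trans hmn)

lemma GoodUpTo.A {n : ℕ} (h : GoodUpTo n) (T : RT) (hT : size T ≤ n) : InW (α T) (A T) := h T hT

lemma GoodUpTo.H {n : ℕ} (h : GoodUpTo n) (T : RT) (hT : size T ≤ n) : InW (β T + t T) (H T) := by
  have := h (node (T.hh + 1) T.kids) (by rw [size_node]; rw [← eta T, size_node] at hT; exact hT)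
  unfold Good at this
  rw [A_succ, α_succ, eta] at this
  exact this

lemma GoodUpTo.BL {n : ℕ} (h : GoodUpTo n) (g : ℕ) (cs : List RT) (hcs : sizeL cs ≤ n) :
    InW (β (node g cs)) (B (node g cs)) := by
  induction cs with
  | nil => rw [B_nil, β_nil]; exact InW.one (le_refl _)
  | cons c cs ih =>
    rw [sizeL_cons] at hcs
    rw [B_cons, β_cons]
    exact (h.H c (by omega)).mul (ih (by omega))

lemma GoodUpTo.B {n : ℕ} (h : GoodUpTo n) (T : RT) (hT : size T ≤ n + 1) : InW (β T) (B T) := by
  have e := eta T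
  rw [← e]
  apply h.BL
  rw [← e, size_node] at hT
  omega

lemma GoodUpTo.NL {n : ℕ} (h : GoodUpTo n) (g : ℕ) (cs : List RT) (hcs : sizeL cs ≤ n) :
    InW (mnL cs).2 (N (node g cs)) := by
  induction cs with
  | nil => rw [N_nil, mnL]; exact InW.one (le_refl _)
  | cons c cs ih =>
    rw [sizeL_cons] at hcs
    rw [N_cons, mnL, mn_snd]
    exact (h.B c (by omega)).mul (ih (by omega))

/-- joined trees -/
def GoodJ (U W : RT) : Prop := InW (mJ U W) (J U W)

lemma good_cons (h : ℕ) (c : RT) (cs : List RT) : Good (node h (c :: cs)) ↔ GoodJ c (node h cs) := by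
  unfold Good GoodJ; rw [A_cons, α_cons]

lemma GoodJ.comm {U W : RT} (h : GoodJ U W) : GoodJ W U := by
  unfold GoodJ at *; rw [J_comm, mJ_comm]; exact h

lemma goodJ_move (h : ℕ) (c W : RT) (cs : List RT) :
    GoodJ (node h (c :: cs)) W ↔ GoodJ c (node h (W :: cs)) := by
  unfold GoodJ; rw [J_move, mJ_move]

lemma goodJ_perm (h : ℕ) {cs ds : List RT} (hp : cs.Perm ds) (W : RT) :
    GoodJ (node h cs) W ↔ GoodJ (node h ds) W := by
  unfold GoodJ; rw [J_perm h hp, mJ_perm h hp]

lemma good_perm (h : ℕ) {cs ds : List RT} (hp : cs.Perm ds) : Good (node h cs) ↔ Good (node h ds) := by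
  unfold Good; rw [A_perm h hp, α_perm h hp]

/-- **equal weights**: the average of two products with the same mean -/
theorem goodJ_of_t_eq {n : ℕ} (hn : GoodUpTo n) (U W : RT) (hU : size U ≤ n) (hW : size W ≤ n)
    (ht : t U = t W) : GoodJ U W := by
  unfold GoodJ J
  apply InW.smul (by norm_num)
  apply InW.add
  · refine ((hn.A U hU).mul (hn.B W (by omega))).congr ?_ rfl
    unfold α mJ; rw [ht]; ring
  · refine ((hn.B U (by omega)).mul (hn.A W hW)).congr ?_ rfl
    unfold α mJ; rw [ht]; ring

/-- **a thin leaf** -/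
theorem goodJ_thin_leaf {n : ℕ} (hn : GoodUpTo n) (g : ℕ) (W : RT) (hW : size W ≤ n)
    (ht : t (node g []) ≤ t W) : GoodJ (node g []) W := by
  set s := t (node g []) with hs
  set r := t W with hr
  have hs0 : 0 < s := t_pos _
  have hr0 : 0 < r := t_pos _
  have hr1 : r ≤ 1 / 2 := t_le_half _
  have key : J (node g []) W = C (1 - s / r) * ((1 + C s * (X - 1)) * H W)
      + C (s / (2 * r)) * ((1 + C (s - r) * (X - 1)) * A W)
      + C (s / (2 * r)) * ((1 + C (s + r) * (X - 1)) * B W) := by
    have e1 : H W = C (1 / 2) * (A W + B W) := by rw [← H_eq, C_half_mul_two]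
    have e2 : A (node g []) = 1 + C 2 * (C s * (X - 1)) := by
      unfold A; rw [B_nil, N_nil, ← hs, map_mul]; ring
    unfold J
    rw [e1, e2, B_nil]
    have e3 : C (s / r) = C 2 * C (s / (2 * r)) := by rw [← map_mul]; congr 1; field_simp
    have e4 : C (s / (2 * r)) * C r = C (1 / 2) * C s := by
      rw [← map_mul, ← map_mul]; congr 1; field_simp
    have e6 : (C (2 : ℝ) : ℝ⟦X⟧) = 2 := by
      rw [show (2 : ℝ) = ((2 : ℕ) : ℝ) by norm_num, map_natCast]; norm_num
    have e5 : C (1 / 2 : ℝ) * 2 = 1 := by rw [← e6, ← map_mul]; norm_num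
    rw [e6] at e3
    simp only [map_sub, map_add, map_one, e3, e6]
    linear_combination ((X - 1) * A W - (X - 1) * B W) * e4
      + (C (s / (2 * r)) * (1 + C s * (X - 1)) * (A W + B W)) * e5
  unfold GoodJ
  rw [key]
  have m1 : mJ (node g []) W = s + (β W + r) := by unfold mJ; rw [β_nil]; ring
  have m2 : mJ (node g []) W = (s - r) + α W := by unfold mJ α; rw [β_nil]; ring
  have m3 : mJ (node g []) W = (s + r) + β W := by unfold mJ; rw [β_nil]; ring
  have hsr : s / r ≤ 1 := by rw [div_le_one hr0]; exact ht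
  apply InW.add
  · apply InW.add
    · apply InW.smul (by linarith)
      rw [m1]
      exact (InW.coin (by linarith)).mul (hn.H W hW)
    · apply InW.smul (by positivity)
      rw [m2]
      exact (InW.coin (by linarith)).mul (hn.A W hW)
  · apply InW.smul (by positivity)
    rw [m3]
    exact (InW.coin (by linarith)).mul (hn.B W (by omega))

end RT

end Pool.Agent.Lib_helper36.SRC
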