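import Pool.Agent.Lib_helper36.SRC.Glue
import Pool.Agent.Lib_helper36.SRC.RT

set_option autoImplicit false
set_option linter.unusedSectionVars false

/-! # Link: every tree is an `RT` -/

namespace Pool.Agent.Lib_helper36.SRC

open Finset PowerSeries
open Pool.Agent.Lib_helper19.Src (prob Unimodal)

variable {V : Type} [DecidableEq V]

/-- every vertex of `S` is reachable from `u` inside `S` -/
def Conn (G : SimpleGraph V) (S : Finset V) (u : V) : Prop :=
  ∀ x ∈ S, Relation.ReflTransGen (fun a b => G.Adj a b ∧ b ∈ S) u x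

/-- steps inside `S` which do not use the edge `uw` -/
def Stp (G : SimpleGraph V) (S : Finset V) (u w : V) (a b : V) : Prop :=
  G.Adj a b ∧ b ∈ S ∧ s(a, b) ≠ s(u, w)

open Classical in
/-- the part of `S` on the side of `w` -/
noncomputable def side (G : SimpleGraph V) (S : Finset V) (u w : V) : Finset V :=
  S.filter (fun x => Relation.ReflTransGen (Stp G S u w) w x)

open Classical in
lemma mem_side {G : SimpleGraph V} {S : Finset V} {u w x : V} :
    x ∈ side G S u w ↔ x ∈ S ∧ Relation.ReflTransGen (Stp G S u w) w x := by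
  unfold side; rw [mem_filter]

lemma not_mem_side (G : SimpleGraph V) (hG : G.IsAcyclic) (S : Finset V) (u w : V)
    (huw : G.Adj u w) : u ∉ side G S u w := by
  intro h
  have h2 := (mem_side.1 h).2
  have hb := (SimpleGraph.isAcyclic_iff_forall_adj_isBridge.1 hG) huw
  rw [SimpleGraph.isBridge_iff] at hb
  apply hb
  apply SimpleGraph.Reachable.symm
  rw [SimpleGraph.reachable_iff_reflTransGen]
  have hle : Stp G S u w ≤ (G.deleteEdges {s(u, w)}).Adj := by
    intro a b hab
    rw [SimpleGraph.deleteEdges_adj]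
    exact ⟨hab.1, fun h => hab.2.2 (by simpa using h)⟩
  exact Relation.ReflTransGen.mono hle _ _ h2

lemma side_edge (G : SimpleGraph V) (hG : G.IsAcyclic) (S : Finset V) (u w : V)
    (huw : G.Adj u w) {x y : V} (hx : x ∈ side G S u w) (hy : y ∈ S \ side G S u w)
    (hxy : G.Adj x y) : x = w ∧ y = u := by
  have hyS := (mem_sdiff.1 hy).1
  have hyn := (mem_sdiff.1 hy).2
  have hx' := mem_side.1 hx
  by_contra hne
  apply hyn
  rw [mem_side]
  refine ⟨hyS, hx'.2.tail ⟨hxy, hyS, ?_⟩⟩
  intro h
  rw [Sym2.eq_iff] at h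
  rcases h with ⟨h1, h2⟩ | ⟨h1, h2⟩
  · exact not_mem_side G hG S u w huw (h1 ▸ hx)
  · exact hne ⟨h1, h2⟩

lemma conn_side (G : SimpleGraph V) (S : Finset V) (u w : V) : Conn G (side G S u w) w := by
  intro x hx
  have hx' := (mem_side.1 hx).2
  clear hx
  induction hx' with
  | refl => exact Relation.ReflTransGen.refl
  | tail hab hbc ih =>
    refine ih.tail ⟨hbc.1, ?_⟩
    rw [mem_side]
    exact ⟨hbc.2.1, hab.tail hbc⟩

lemma conn_rest (G : SimpleGraph V) (hG : G.IsAcyclic) (S : Finset V) (u w : V)
    (huw : G.Adj u w) (hc : Conn G S u) : Conn G (S \ side G S u w) u := by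
  intro x hx
  have key : ∀ x, Relation.ReflTransGen (fun a b => G.Adj a b ∧ b ∈ S) u x →
      x ∈ side G S u w ∨
      Relation.ReflTransGen (fun a b => G.Adj a b ∧ b ∈ S \ side G S u w) u x := by
    intro x hx
    induction hx with
    | refl => exact Or.inr Relation.ReflTransGen.refl
    | tail hab hbc ih =>
      rename_i b c
      by_cases hcS : c ∈ side G S u w
      · exact Or.inl hcS
      · have hc' : c ∈ S \ side G S u w := mem_sdiff.2 ⟨hbc.2, hcS⟩
        rcases ih with h | h
        · have := (side_edge G hG S u w huw h hc' hbc.1).2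
          rw [this]
          exact Or.inr Relation.ReflTransGen.refl
        · exact Or.inr (h.tail ⟨hbc.1, hc'⟩)
  rcases key x (hc x (mem_sdiff.1 hx).1) with h | h
  · exact absurd h (mem_sdiff.1 hx).2
  · exact h

lemma mem_side_self (G : SimpleGraph V) (S : Finset V) (u w : V) (hw : w ∈ S) :
    w ∈ side G S u w := mem_side.2 ⟨hw, Relation.ReflTransGen.refl⟩

lemma side_subset (G : SimpleGraph V) (S : Finset V) (u w : V) : side G S u w ⊆ S := by
  intro x hx; exact (mem_side.1 hx).1

lemma dg_eq_card (G : SimpleGraph V) [DecidableRel G.Adj] (S : Finset V) (v : V) :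
    dg G S v = (S.filter (fun w => G.Adj v w)).card := by
  unfold dg
  congr

lemma dg_rest_ne (G : SimpleGraph V) (hG : G.IsAcyclic) (S : Finset V) (u w : V)
    (huw : G.Adj u w) {v : V} (hv : v ∈ S \ side G S u w) (hvu : v ≠ u) :
    dg G S v = dg G (S \ side G S u w) v := by
  classical
  rw [dg_eq_card, dg_eq_card]
  congr 1
  ext x
  simp only [mem_filter, mem_sdiff]
  constructor
  · rintro ⟨h1, h2⟩
    exact ⟨⟨h1, fun h => hvu (side_edge G hG S u w huw h hv h2.symm).2⟩, h2⟩
  · rintro ⟨⟨h1, _⟩, h2⟩; exact ⟨h1, h2⟩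

lemma dg_rest_root (G : SimpleGraph V) (hG : G.IsAcyclic) (S : Finset V) (u w : V)
    (huw : G.Adj u w) (hu : u ∈ S) (hw : w ∈ S) :
    dg G S u = dg G (S \ side G S u w) u + 1 := by
  classical
  have huS : u ∈ S \ side G S u w := mem_sdiff.2 ⟨hu, not_mem_side G hG S u w huw⟩
  rw [dg_eq_card, dg_eq_card]
  have : S.filter (fun x => G.Adj u x) = insert w ((S \ side G S u w).filter (fun x => G.Adj u x)) := by
    ext x
    simp only [mem_filter, mem_sdiff, mem_insert]
    constructor
    · rintro ⟨h1, h2⟩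
      by_cases h : x ∈ side G S u w
      · exact Or.inl (side_edge G hG S u w huw h huS h2.symm).1
      · exact Or.inr ⟨⟨h1, h⟩, h2⟩
    · rintro (rfl | ⟨⟨h1, _⟩, h2⟩)
      · exact ⟨hw, huw⟩
      · exact ⟨h1, h2⟩
  rw [this, card_insert_of_notMem]
  simp only [mem_filter, mem_sdiff, not_and]
  intro h
  exact absurd (mem_side_self G S u w hw) h.2

lemma dg_side_ne (G : SimpleGraph V) (hG : G.IsAcyclic) (S : Finset V) (u w : V)
    (huw : G.Adj u w) {v : V} (hv : v ∈ side G S u w) (hvw : v ≠ w) :
    dg G S v = dg G (side G S u w) v := by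
  classical
  rw [dg_eq_card, dg_eq_card]
  congr 1
  ext x
  simp only [mem_filter]
  constructor
  · rintro ⟨h1, h2⟩
    refine ⟨?_, h2⟩
    by_contra h
    exact hvw (side_edge G hG S u w huw hv (mem_sdiff.2 ⟨h1, h⟩) h2).1
  · rintro ⟨h1, h2⟩; exact ⟨side_subset G S u w h1, h2⟩

lemma dg_side_root (G : SimpleGraph V) (hG : G.IsAcyclic) (S : Finset V) (u w : V)
    (huw : G.Adj u w) (hu : u ∈ S) (hw : w ∈ S) :
    dg G S w = dg G (side G S u w) w + 1 := by
  classical
  have hun := not_mem_side G hG S u w huw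
  have hws := mem_side_self G S u w hw
  rw [dg_eq_card, dg_eq_card]
  have : S.filter (fun x => G.Adj w x) = insert u ((side G S u w).filter (fun x => G.Adj w x)) := by
    ext x
    simp only [mem_filter, mem_insert]
    constructor
    · rintro ⟨h1, h2⟩
      by_cases h : x ∈ side G S u w
      · exact Or.inr ⟨h, h2⟩
      · exact Or.inl (side_edge G hG S u w huw hws (mem_sdiff.2 ⟨h1, h⟩) h2).2
    · rintro (rfl | ⟨h1, h2⟩)
      · exact ⟨hu, huw.symm⟩
      · exact ⟨side_subset G S u w h1, h2⟩
  rw [this, card_insert_of_notMem]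
  simp only [mem_filter, not_and]
  intro h
  exact absurd h hun

/-- general form -/
theorem exists_RT_aux (G : SimpleGraph V) (hG : G.IsAcyclic) (p : V → ℝ) (n : ℕ) :
    ∀ (S : Finset V), S.card = n → ∀ (u : V), u ∈ S → Conn G S u → ∀ (g : V → ℕ),
    (∀ v ∈ S, p v = (1 / 2 : ℝ) ^ (dg G S v + g v)) →
    ∃ T : RT, T.hh = g u ∧ T.kids.length = dg G S u ∧ IS G p S = RT.A T ∧
      IS G p (S.erase u) = RT.B T ∧ IS G p (del G S u) = RT.N T ∧ ∑ v ∈ S, p v = RT.α T := by
  classical
  induction n using Nat.strong_induction_on with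
  | _ n ih =>
  intro S hn u hu hc g hp
  by_cases hex : ∃ w ∈ S, G.Adj u w
  · obtain ⟨w, hw, huw⟩ := hex
    set Sw := side G S u w with hSw
    set Su := S \ Sw with hSu
    have hun : u ∉ Sw := not_mem_side G hG S u w huw
    have huS : u ∈ Su := mem_sdiff.2 ⟨hu, hun⟩
    have hws : w ∈ Sw := mem_side_self G S u w hw
    have hsub : Sw ⊆ S := side_subset G S u w
    have hsub2 : Su ⊆ S := sdiff_subset
    have hunion : Su ∪ Sw = S := sdiff_union_of_subset hsub
    have hdisj : Disjoint Su Sw := sdiff_disjoint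
    have c1 : Su.card < n := by
      rw [← hn]
      apply card_lt_card
      refine ⟨hsub2, fun h => ?_⟩
      exact (mem_sdiff.1 (h hw)).2 hws
    have c2 : Sw.card < n := by
      rw [← hn]
      apply card_lt_card
      exact ⟨hsub, fun h => hun (h hu)⟩
    obtain ⟨Tu, u1, u2, u3, u4, u5, u6⟩ := ih Su.card c1 Su rfl u huS
      (conn_rest G hG S u w huw hc) (Function.update g u (g u + 1)) (by
        intro v hv
        rw [hp v (hsub2 hv)]
        by_cases hvu : v = u
        · rw [hvu, dg_rest_root G hG S u w huw hu hw, Function.update_self, ← hSw, ← hSu]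
          congr 1
          omega
        · rw [dg_rest_ne G hG S u w huw hv hvu, Function.update_of_ne hvu])
    obtain ⟨Tw, w1, w2, w3, w4, w5, w6⟩ := ih Sw.card c2 Sw rfl w hws
      (conn_side G S u w) (Function.update g w (g w + 1)) (by
        intro v hv
        rw [hp v (hsub hv)]
        by_cases hvw : v = w
        · rw [hvw, dg_side_root G hG S u w huw hu hw, Function.update_self, ← hSw]
          congr 1
          omega
        · rw [dg_side_ne G hG S u w huw hv hvw, Function.update_of_ne hvw])
    rw [Function.update_self] at u1 w1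
    have hTu : Tu = RT.node (g u + 1) Tu.kids := by rw [← u1, RT.eta]
    have hTw : Tw = RT.node (g w + 1) Tw.kids := by rw [← w1, RT.eta]
    have hHw : RT.H (RT.node (g w) Tw.kids) = RT.A Tw := by rw [← RT.A_succ, ← hTw]
    have hBw : RT.B (RT.node (g w) Tw.kids) = RT.B Tw := by
      rw [RT.B_hh (g w) (g w + 1), ← hTw]
    have hBu : RT.B (RT.node (g u) Tu.kids) = RT.B Tu := by
      rw [RT.B_hh (g u) (g u + 1), ← hTu]
    have hNu : RT.N (RT.node (g u) Tu.kids) = RT.N Tu := by
      rw [RT.N_hh (g u) (g u + 1), ← hTu]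
    have hno : ∀ x ∈ Su, ∀ y ∈ Sw, G.Adj x y → x = u ∧ y = w := by
      intro x hx y hy hxy
      have := side_edge G hG S u w huw hy hx hxy.symm
      exact ⟨this.2, this.1⟩
    have hB : IS G p (S.erase u) =
        RT.B (RT.node (g u) (RT.node (g w) Tw.kids :: Tu.kids)) := by
      rw [RT.B_cons, hHw, hBu, ← w3, ← u4]
      have e : S.erase u = Sw ∪ Su.erase u := by
        ext x
        rw [mem_erase, mem_union, mem_erase, ← hunion, mem_union]
        constructor
        · rintro ⟨h1, h2 | h2⟩
          · exact Or.inr ⟨h1, h2⟩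
          · exact Or.inl h2
        · rintro (h2 | ⟨h1, h2⟩)
          · exact ⟨fun h => hun (h ▸ h2), Or.inr h2⟩
          · exact ⟨h1, Or.inl h2⟩
      rw [e]
      apply IS_union
      · rw [disjoint_right]
        intro x hx hx'
        exact (disjoint_left.1 hdisj) (mem_of_mem_erase hx) hx'
      · intro x hx y hy hxy
        exact (mem_erase.1 hy).1 (hno y (mem_of_mem_erase hy) x hx hxy.symm).1
    have hN : IS G p (del G S u) =
        RT.N (RT.node (g u) (RT.node (g w) Tw.kids :: Tu.kids)) := by
      rw [RT.N_cons, hBw, hNu, ← w4, ← u5]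
      have e : del G S u = Sw.erase w ∪ del G Su u := by
        ext x
        rw [mem_del, mem_union, mem_erase, mem_del, ← hunion, mem_union]
        constructor
        · rintro ⟨h1, h2 | h2, h3⟩
          · exact Or.inr ⟨h1, h2, h3⟩
          · exact Or.inl ⟨fun h => h3 (h ▸ huw), h2⟩
        · rintro (⟨h1, h2⟩ | ⟨h1, h2, h3⟩)
          · exact ⟨fun h => hun (h ▸ h2), Or.inr h2, fun h => h1 (hno u huS x h2 h).2⟩
          · exact ⟨h1, Or.inl h2, h3⟩
      rw [e]
      apply IS_union
      · rw [disjoint_right]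
        intro x hx hx'
        exact (disjoint_left.1 hdisj) ((mem_del.1 hx).2.1) (mem_of_mem_erase hx')
      · intro x hx y hy hxy
        exact (mem_erase.1 hx).1 (hno y ((mem_del.1 hy).2.1) x (mem_of_mem_erase hx) hxy.symm).2
    have hlen : (RT.node (g w) Tw.kids :: Tu.kids).length = dg G S u := by
      rw [List.length_cons, u2, dg_rest_root G hG S u w huw hu hw]
    have ht : 2 * RT.t (RT.node (g u) (RT.node (g w) Tw.kids :: Tu.kids)) = p u := by
      rw [hp u hu]
      unfold RT.t
      rw [RT.hh_node, RT.kids_node, hlen, pow_succ]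
      rw [add_comm (g u)]
      ring
    refine ⟨RT.node (g u) (RT.node (g w) Tw.kids :: Tu.kids), rfl, by rw [RT.kids_node]; exact hlen,
      ?_, hB, hN, ?_⟩
    · rw [IS_delete G p S u hu]
      unfold RT.A
      rw [ht, hB, hN]
      ring
    · have hsum : ∑ v ∈ S, p v = ∑ v ∈ Su, p v + ∑ v ∈ Sw, p v := by
        rw [← hunion, sum_union hdisj]
      rw [hsum, u6, w6]
      unfold RT.α
      rw [ht, RT.β_cons]
      have e1 : RT.β (RT.node (g w) Tw.kids) = RT.β Tw := by
        rw [RT.β_hh (g w) (g w + 1), ← hTw]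
      have e2 : RT.β (RT.node (g u) Tu.kids) = RT.β Tu := by
        rw [RT.β_hh (g u) (g u + 1), ← hTu]
      have e3 : RT.t (RT.node (g w) Tw.kids) = 2 * RT.t Tw := by
        rw [← RT.t_succ, ← hTw]
      have e4 : p u = 2 * RT.t Tu := by
        rw [← RT.eta Tu, u1, ← ht]
        unfold RT.t
        rw [RT.hh_node, RT.kids_node, RT.hh_node, RT.kids_node, List.length_cons]
        congr 2
        omega
      rw [e1, e2, e3, e4]
      ring
  · have hS : S = {u} := by
      apply eq_singleton_iff_unique_mem.2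
      refine ⟨hu, fun x hx => ?_⟩
      have key : ∀ x, Relation.ReflTransGen (fun a b => G.Adj a b ∧ b ∈ S) u x → x = u := by
        intro x hx
        induction hx with
        | refl => rfl
        | tail _ hbc ih =>
          rename_i b c _
          rw [ih] at hbc
          exact absurd ⟨c, hbc.2, hbc.1⟩ hex
      exact key x (hc x hx)
    have hd : dg G S u = 0 := by
      rw [dg_eq_card, card_eq_zero, filter_eq_empty_iff]
      intro x hx h
      exact hex ⟨x, hx, h⟩
    have hBe : IS G p (S.erase u) = 1 := by rw [hS, erase_singleton, IS_empty]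
    have hNe : IS G p (del G S u) = 1 := by
      have : del G S u = ∅ := by
        rw [eq_empty_iff_forall_notMem]
        intro x hx
        rw [mem_del, hS, mem_singleton] at hx
        exact hx.1 hx.2.1
      rw [this, IS_empty]
    have ht : 2 * RT.t (RT.node (g u) []) = p u := by
      rw [hp u hu, hd]
      unfold RT.t
      rw [RT.hh_node, RT.kids_node, List.length_nil, pow_succ]
      ring
    refine ⟨RT.node (g u) [], rfl, ?_, ?_, ?_, ?_, ?_⟩
    · rw [hd]; rfl
    · rw [IS_delete G p S u hu]
      unfold RT.A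
      rw [ht, hBe, hNe, RT.B_nil, RT.N_nil]
      ring
    · rw [hBe, RT.B_nil]
    · rw [hNe, RT.N_nil]
    · unfold RT.α
      rw [ht, RT.β_nil, zero_add, hS, sum_singleton]

theorem exists_RT [Fintype V] (G : SimpleGraph V) (hG : G.IsTree) :
    ∃ T : RT, IS G (wt G) univ = RT.A T ∧ ∑ v, wt G v = RT.α T := by
  classical
  obtain ⟨u⟩ := hG.connected.nonempty
  obtain ⟨T, _, _, h3, _, _, h6⟩ := exists_RT_aux G hG.isAcyclic (wt G) _ univ rfl u (mem_univ u)
    (by
      intro x _
      have := (SimpleGraph.reachable_iff_reflTransGen u x).1 (hG.connected.preconnected u x)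
      have hle : G.Adj ≤ (fun a b => G.Adj a b ∧ b ∈ (univ : Finset V)) :=
        fun a b h => ⟨h, mem_univ b⟩
      exact Relation.ReflTransGen.mono hle _ _ this)
    (fun _ => 0)
    (by
      intro v _
      rw [dg_eq_card, add_zero]
      unfold wt
      congr 1
      rw [← SimpleGraph.card_neighborFinset_eq_degree]
      congr 1
      ext x
      simp)
  exact ⟨T, h3, h6⟩

/-- the final assembly -/
theorem unimodal_tree [Fintype V] (hgood : ∀ T : RT, RT.Good T) (G : SimpleGraph V)
    (hG : G.IsTree) : Unimodal (Fintype.card V) (prob G) := by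
  obtain ⟨T, h1, h2⟩ := exists_RT G hG
  apply unimodal_of_W G
  rw [h1, h2]
  exact hgood T

end Pool.Agent.Lib_helper36.SRC
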