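import Pool.Agent.Lib_helper36.SRC.StarLemma
import Pool.Agent.Lib_helper79.SRC.CaseIFinal

set_option autoImplicit false

/-! # Stars are good -/

namespace Pool.Agent.Lib_helper36.SRC

open PowerSeries RT Pool.Agent.Lib_helper79.SRC

/-- **Stars are good.** -/
theorem starBase : StarBase := by
  intro n _ c _ hc
  obtain ⟨g, ls, rfl⟩ := exists_node c
  rw [IsStar, kids_node] at hc
  have hls : ∀ d ∈ ls, IsLeaf d := hc.2
  have key := star_lemma (ls.map t) (2 * t (node g ls))
    (by
      intro s hs
      obtain ⟨d, hd, rfl⟩ := List.mem_map.1 hs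
      exact ⟨(t_pos d).le, t_le_half d⟩)
    (by have := t_pos (node g ls); linarith)
    (by rw [List.length_map]; exact two_t_le g ls)
  unfold Good
  refine key.congr ?_ ?_
  · unfold α
    rw [β_star g ls hls]
  · unfold A
    rw [N_star g ls hls, B_star g ls hls]
    unfold prodC
    rw [List.map_map, mul_one]
    rfl

end Pool.Agent.Lib_helper36.SRC
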