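import Pool.Agent.Lib_helper79.SRC.CaseIDone
import Pool.Agent.Lib_helper6.SRC.CaseII
import Pool.Agent.Lib_helper36.SRC.StarBase
import Pool.Agent.Lib_helper36.SRC.LinkRT

set_option autoImplicit false

/-! # All trees, from case III -/

namespace Pool.Agent.Lib_helper36.SRC

open RT

/-- All rooted trees are good, if case III holds. -/
theorem good_of_caseIII (h3 : CaseIII) (T : RT) : Good T :=
  good_all starBase Pool.Agent.Lib_helper79.SRC.caseI Pool.Agent.Lib_helper6.SRC.caseII h3 T

end Pool.Agent.Lib_helper36.SRC
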