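import Pool.Agent.Lib_helper36.SRC.IS

set_option autoImplicit false
set_option linter.unusedSectionVars false

/-! # From the cone to unimodality; positivity below the caps -/

namespace Pool.Agent.Lib_helper36.SRC

open Finset
open Pool.Agent.Lib_helper19.Src (prob Unimodal)

variable {V : Type} [Fintype V] [DecidableEq V]

lemma prob_eq_coeff (G : SimpleGraph V) (j : ℕ) :
    prob G j = PowerSeries.coeff j (IS G (wt G) univ) := by
  rw [prob_eq, ← coe_IP, Polynomial.coeff_coe]

/-- Darroch's rule implies unimodality -/
theorem unimodal_of_lower (G : SimpleGraph V)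
    (hlow : ∀ j : ℕ, (j : ℝ) + 1 ≤ ∑ v, wt G v → prob G j ≤ prob G (j + 1)) :
    Unimodal (Fintype.card V) (prob G) := by
  set μ := ∑ v, wt G v with hμ
  have hμ0 : 0 ≤ μ := sum_nonneg (fun v _ => by unfold wt; positivity)
  have hup : ∀ j : ℕ, μ ≤ j → prob G (j + 1) ≤ prob G j := by
    intro j hj
    have h1 := upper_half G j hj
    have h2 : μ * prob G j ≤ (j : ℝ) * prob G j := mul_le_mul_of_nonneg_right hj (prob_nonneg G j)
    have h3 : (0 : ℝ) ≤ j := Nat.cast_nonneg j
    have h4 := prob_nonneg G j
    have h5 : ((j : ℝ) + 1) * prob G (j + 1) ≤ ((j : ℝ) + 1) * prob G j := by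
      rw [← hμ] at h1; linarith
    exact le_of_mul_le_mul_left h5 (by linarith)
  set f := ⌊μ⌋₊ with hf
  have hfl : (f : ℝ) ≤ μ := Nat.floor_le hμ0
  have hfu : μ < (f : ℝ) + 1 := Nat.lt_floor_add_one μ
  have hinc : ∀ i < f, prob G i ≤ prob G (i + 1) := by
    intro i hi
    apply hlow
    have : (i : ℝ) + 1 ≤ f := by exact_mod_cast hi
    linarith
  have hdec : ∀ i, f + 1 ≤ i → prob G (i + 1) ≤ prob G i := by
    intro i hi
    apply hup
    have : (f : ℝ) + 1 ≤ i := by exact_mod_cast hi
    linarith
  have main : ∃ m, (∀ i < m, prob G i ≤ prob G (i + 1)) ∧ ∀ i, m ≤ i → prob G (i + 1) ≤ prob G i := by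
    rcases le_total (prob G f) (prob G (f + 1)) with h | h
    · refine ⟨f + 1, fun i hi => ?_, hdec⟩
      rcases Nat.lt_succ_iff_lt_or_eq.1 hi with h' | h'
      · exact hinc i h'
      · rw [h']; exact h
    · refine ⟨f, hinc, fun i hi => ?_⟩
      rcases Nat.lt_or_ge i (f + 1) with h' | h'
      · have : i = f := by omega
        rw [this]; exact h
      · exact hdec i h'
  obtain ⟨m, h1, h2⟩ := main
  refine ⟨min m (Fintype.card V), min_le_right _ _, fun i hi => ?_, fun i hi hin => ?_⟩
  · exact h1 i (lt_of_lt_of_le hi (min_le_left _ _))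
  · apply h2
    rcases min_le_iff.1 hi with h | h
    · exact h
    · omega

/-- the cone implies unimodality -/
theorem unimodal_of_W (G : SimpleGraph V) (h : InW (∑ v, wt G v) (IS G (wt G) univ)) :
    Unimodal (Fintype.card V) (prob G) := by
  apply unimodal_of_lower
  intro j hj
  rw [prob_eq_coeff, prob_eq_coeff]
  exact h.coeff_mono j hj

/-- edge step with one end point losing its weight: both parts have one vertex less -/
lemma IS_halves (G : SimpleGraph V) (p : V → ℝ) (S : Finset V) (u w : V) (huw : G.Adj u w)
    (hu : u ∈ S) (hw : w ∈ S) :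
    IS G p S = PowerSeries.C (1 / 2 : ℝ) * IS G (Function.update p u (2 * p u)) (S.erase w)
      + PowerSeries.C (1 / 2 : ℝ) * IS G (Function.update p w (2 * p w)) (S.erase u) := by
  classical
  unfold IS
  rw [mul_sum, mul_sum]
  have hne : u ≠ w := huw.ne
  -- every independent set misses `u` or `w`
  have key : ∀ (q : V → ℝ) (a : V), ∑ I ∈ (S.erase a).powerset.filter (fun I => Indep G I),
      PowerSeries.C (1 / 2 : ℝ) * (PowerSeries.C (∏ v ∈ I, q v) * (PowerSeries.X - 1) ^ I.card)
      = ∑ I ∈ S.powerset.filter (fun I => Indep G I), if a ∈ I then 0 else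
      PowerSeries.C (1 / 2 : ℝ) * (PowerSeries.C (∏ v ∈ I, q v) * (PowerSeries.X - 1) ^ I.card) := by
    intro q a
    rw [← sum_filter_not_add_sum_filter (S.powerset.filter (fun I => Indep G I)) (fun I => a ∈ I)]
    have h0 : ∑ I ∈ (S.powerset.filter (fun I => Indep G I)).filter (fun I => a ∈ I),
        (if a ∈ I then (0 : PowerSeries ℝ) else
      PowerSeries.C (1 / 2 : ℝ) * (PowerSeries.C (∏ v ∈ I, q v) * (PowerSeries.X - 1) ^ I.card)) = 0 := by
      apply sum_eq_zero
      intro I hI
      rw [if_pos (mem_filter.1 hI).2]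
    rw [h0, add_zero]
    apply sum_congr
    · ext I
      simp only [mem_filter, mem_powerset]
      constructor
      · rintro ⟨h1, h2⟩
        exact ⟨⟨h1.trans (erase_subset _ _), h2⟩, fun h => (mem_erase.1 (h1 h)).1 rfl⟩
      · rintro ⟨⟨h1, h2⟩, h3⟩
        exact ⟨fun x hx => mem_erase.2 ⟨fun h => h3 (h ▸ hx), h1 hx⟩, h2⟩
    · intro I hI
      simp only [mem_filter, mem_powerset] at hI
      rw [if_neg hI.2]
  rw [key, key, ← sum_add_distrib]
  apply sum_congr rfl
  intro I hI
  have hI' : Indep G I := (mem_filter.1 hI).2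
  have hprod : ∀ a : V, a ∉ I → ∀ c : ℝ, ∏ v ∈ I, Function.update p a c v = ∏ v ∈ I, p v := by
    intro a ha c
    apply prod_congr rfl
    intro v hv
    have hva : v ≠ a := fun h => ha (by rw [← h]; exact hv)
    rw [Function.update_of_ne hva]
  have hprod2 : ∀ a : V, a ∈ I → ∀ c : ℝ, ∏ v ∈ I, Function.update p a (c * p a) v
      = c * ∏ v ∈ I, p v := by
    intro a ha c
    rw [← mul_prod_erase I _ ha, ← mul_prod_erase I p ha, Function.update_self]
    have : ∏ v ∈ I.erase a, Function.update p a (c * p a) v = ∏ v ∈ I.erase a, p v := by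
      apply prod_congr rfl
      intro v hv
      rw [Function.update_of_ne (mem_erase.1 hv).1]
    rw [this]; ring
  by_cases h1 : u ∈ I
  · have h2 : w ∉ I := fun h => hI' u h1 w h huw
    rw [if_neg h2, if_pos h1, hprod2 u h1, add_zero, ← mul_assoc, ← map_mul]
    congr 2; ring
  · by_cases h2 : w ∈ I
    · rw [if_pos h2, if_neg h1, hprod2 w h2, zero_add, ← mul_assoc, ← map_mul]
      congr 2; ring
    · rw [if_neg h2, if_neg h1, hprod u h1, hprod w h2, ← add_mul, ← map_add]
      norm_num

/-- degree inside `S` -/
noncomputable def dg (G : SimpleGraph V) (S : Finset V) (v : V) : ℕ := by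
  classical exact (S.filter (fun w => G.Adj v w)).card

/-- without edges inside `S` -/
lemma IS_edgeless (G : SimpleGraph V) (p : V → ℝ) (S : Finset V)
    (h : ∀ u ∈ S, ∀ w ∈ S, ¬ G.Adj u w) :
    IS G p S = ∏ v ∈ S, (1 + PowerSeries.C (p v) * (PowerSeries.X - 1)) := by
  induction hn : S.card using Nat.strong_induction_on generalizing S with
  | _ n ih =>
  subst hn
  rcases S.eq_empty_or_nonempty with rfl | ⟨u, hu⟩
  · simp
  · have c1 : (S.erase u).card < S.card := card_erase_lt_of_mem hu
    rw [IS_delete G p S u hu, del_of_notMem G S u (fun w hw => h u hu w hw),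
      ih _ c1 (S.erase u) (fun a ha b hb => h a (erase_subset _ _ ha) b (erase_subset _ _ hb)) rfl,
      ← mul_prod_erase S _ hu]
    ring

/-- below the caps all coefficients are nonnegative -/
theorem IS_nonneg (G : SimpleGraph V) (p : V → ℝ) (S : Finset V) (h0 : ∀ v ∈ S, 0 ≤ p v)
    (h1 : ∀ v ∈ S, p v ≤ (1 / 2) ^ dg G S v) (j : ℕ) : 0 ≤ PowerSeries.coeff j (IS G p S) := by
  classical
  suffices H : ∀ j, 0 ≤ PowerSeries.coeff j (IS G p S) from H j
  induction hn : S.card using Nat.strong_induction_on generalizing S p with
  | _ n ih =>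
  subst hn
  by_cases he : ∃ u ∈ S, ∃ w ∈ S, G.Adj u w
  · obtain ⟨u, hu, w, hw, huw⟩ := he
    have hne : u ≠ w := huw.ne
    have main : ∀ a ∈ S, ∀ b ∈ S, G.Adj a b → ∀ j, 0 ≤ PowerSeries.coeff j
        (IS G (Function.update p a (2 * p a)) (S.erase b)) := by
      intro a ha b hb hab
      have hne : a ≠ b := hab.ne
      apply ih _ (card_erase_lt_of_mem hb) _ _ _ _ rfl
      · intro v hv
        by_cases hva : v = a
        · rw [hva, Function.update_self]; have := h0 a ha; linarith
        · rw [Function.update_of_ne hva]; exact h0 v (erase_subset _ _ hv)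
      · intro v hv
        have hdle : dg G (S.erase b) v ≤ dg G S v := by
          unfold dg
          exact card_le_card (filter_subset_filter _ (erase_subset _ _))
        by_cases hva : v = a
        · subst hva
          rw [Function.update_self]
          have hd : dg G S v = dg G (S.erase b) v + 1 := by
            unfold dg
            rw [filter_erase]
            have : b ∈ S.filter (fun w => G.Adj v w) := by simp [hb, hab]
            rw [card_erase_of_mem this]
            have : 0 < (S.filter (fun w => G.Adj v w)).card := card_pos.2 ⟨b, this⟩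
            omega
          have := h1 v ha
          rw [hd, pow_succ] at this
          linarith
        · rw [Function.update_of_ne hva]
          refine (h1 v (erase_subset _ _ hv)).trans ?_
          exact pow_le_pow_of_le_one (by norm_num) (by norm_num) hdle
    intro j
    rw [IS_halves G p S u w huw hu hw, map_add, PowerSeries.coeff_C_mul, PowerSeries.coeff_C_mul]
    have m1 := main u hu w hw huw j
    have m2 := main w hw u hu huw.symm j
    positivity
  · push Not at he
    rw [IS_edgeless G p S he]
    -- product of polynomials with nonnegative coefficients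
    have hd : ∀ v ∈ S, dg G S v = 0 := by
      intro v hv
      unfold dg
      rw [card_eq_zero, filter_eq_empty_iff]
      intro w hw
      exact he v hv w hw
    have : ∀ T ⊆ S, ∀ j, 0 ≤ PowerSeries.coeff j
        (∏ v ∈ T, (1 + PowerSeries.C (p v) * (PowerSeries.X - 1)) : PowerSeries ℝ) := by
      intro T
      induction T using Finset.induction_on with
      | empty =>
        intro _ j
        rw [prod_empty, PowerSeries.coeff_one]
        split_ifs <;> norm_num
      | insert v T hv ihT =>
        intro hT j
        rw [prod_insert hv, PowerSeries.coeff_mul]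
        apply sum_nonneg
        intro ij _
        apply mul_nonneg _ (ihT (fun x hx => hT (mem_insert_of_mem hx)) _)
        have hvS : v ∈ S := hT (mem_insert_self _ _)
        have e : (1 + PowerSeries.C (p v) * (PowerSeries.X - 1) : PowerSeries ℝ)
            = PowerSeries.C (1 - p v) + PowerSeries.C (p v) * PowerSeries.X := by
          rw [map_sub, map_one]; ring
        rw [e, map_add, PowerSeries.coeff_C, PowerSeries.coeff_C_mul, PowerSeries.coeff_X]
        have a1 := h0 v hvS
        have a2 := h1 v hvS
        rw [hd v hvS, pow_zero] at a2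
        apply add_nonneg
        · split_ifs
          · linarith
          · exact le_refl _
        · split_ifs
          · linarith
          · simp
    exact this S (Subset.refl _)

end Pool.Agent.Lib_helper36.SRC
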