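import Pool.Agent.Lib_helper36.SRC.Scheme
import Pool.Agent.Lib_helper36.SRC.Coef

set_option autoImplicit false

/-! # Case (IIIA): the algebra -/

namespace Pool.Agent.Lib_helper36.SRC

open PowerSeries

lemma exp_mul_pow_mono0 {a b : ℝ} (n : ℕ) (hab : a ≤ b) (hb : b ≤ 1) :
    Real.exp a * ((n : ℝ) + 1 - a) ^ n ≤ Real.exp b * ((n : ℝ) + 1 - b) ^ n := by
  rcases Nat.eq_zero_or_pos n with h0 | h0
  · subst h0
    simpa using hab
  have hn : (0 : ℝ) < n := by exact_mod_cast h0
  have hb1 : 0 < (n : ℝ) + 1 - b := by linarith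
  have ha1 : 0 < (n : ℝ) + 1 - a := by linarith
  have h1 : ((n : ℝ) + 1 - a) / ((n : ℝ) + 1 - b) ≤ Real.exp ((b - a) / ((n : ℝ) + 1 - b)) := by
    have h2 : ((n : ℝ) + 1 - a) / ((n : ℝ) + 1 - b) = (b - a) / ((n : ℝ) + 1 - b) + 1 := by
      field_simp; ring
    rw [h2]
    exact Real.add_one_le_exp _
  have h3 : (((n : ℝ) + 1 - a) / ((n : ℝ) + 1 - b)) ^ n ≤ Real.exp (b - a) := by
    calc (((n : ℝ) + 1 - a) / ((n : ℝ) + 1 - b)) ^ n
        ≤ (Real.exp ((b - a) / ((n : ℝ) + 1 - b))) ^ n := by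
          apply pow_le_pow_left₀ _ h1
          positivity
      _ = Real.exp (n * ((b - a) / ((n : ℝ) + 1 - b))) := by rw [← Real.exp_nat_mul]
      _ ≤ Real.exp (b - a) := by
          apply Real.exp_le_exp.2
          rw [← mul_div_assoc, div_le_iff₀ hb1]
          have : 0 ≤ b - a := by linarith
          nlinarith
  rw [div_pow, div_le_iff₀ (by positivity)] at h3
  calc Real.exp a * ((n : ℝ) + 1 - a) ^ n
      ≤ Real.exp a * (Real.exp (b - a) * ((n : ℝ) + 1 - b) ^ n) :=
        mul_le_mul_of_nonneg_left h3 (Real.exp_pos _).le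
    _ = Real.exp b * ((n : ℝ) + 1 - b) ^ n := by
        rw [← mul_assoc, ← Real.exp_add]; congr 2; ring

/-- `E(-a)/a` decreases in the cone order -/
theorem inW_E_neg_sub {a b : ℝ} (ha : 0 < a) (hab : a ≤ b) (hb : b ≤ 1) :
    InW 0 (E (-a) - C (a / b) * E (-b)) := by
  have hb0 : 0 < b := lt_of_lt_of_le ha hab
  apply InW.intro (τ := C (Real.exp a) * ab (-a) - C (a / b * Real.exp b) * ab (-b))
  · intro n
    rw [map_sub, coeff_C_mul, coeff_C_mul]
    rcases Nat.eq_zero_or_pos n with h | h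
    · subst h
      rw [coeff_ab_zero, coeff_ab_zero, mul_one, mul_one]
      have h1 : Real.log (a / b) ≤ a / b - 1 := Real.log_le_sub_one_of_pos (by positivity)
      have h2 : b - a ≤ - Real.log (a / b) := by
        have h3 : (b - a) * b ≤ (b - a) * 1 := mul_le_mul_of_nonneg_left hb (by linarith)
        have h4 : b - a ≤ (b - a) / b := by rw [le_div_iff₀ hb0]; linarith
        have h5 : (b - a) / b = 1 - a / b := by field_simp
        linarith
      have h3 : Real.exp (b - a) ≤ b / a := by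
        calc Real.exp (b - a) ≤ Real.exp (- Real.log (a / b)) := Real.exp_le_exp.2 h2
          _ = b / a := by rw [Real.exp_neg, Real.exp_log (by positivity), inv_div]
      have h4 : a / b * Real.exp b ≤ Real.exp a := by
        have e : Real.exp b = Real.exp (b - a) * Real.exp a := by
          rw [← Real.exp_add]; congr 1; ring
        rw [e]
        calc a / b * (Real.exp (b - a) * Real.exp a)
            ≤ a / b * (b / a * Real.exp a) := by
              apply mul_le_mul_of_nonneg_left _ (by positivity)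
              exact mul_le_mul_of_nonneg_right h3 (Real.exp_pos _).le
          _ = Real.exp a := by field_simp
      linarith
    · obtain ⟨m, rfl⟩ : ∃ m, n = m + 1 := ⟨n - 1, by omega⟩
      rw [coeff_ab_succ, coeff_ab_succ]
      have h1 := exp_mul_pow_mono0 m hab hb
      have e1 : (-a + ((m : ℝ) + 1)) = (m : ℝ) + 1 - a := by ring
      have e2 : (-b + ((m : ℝ) + 1)) = (m : ℝ) + 1 - b := by ring
      rw [e1, e2]
      have f : (0 : ℝ) < (m + 1).factorial := by exact_mod_cast (m + 1).factorial_pos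
      have e3 : Real.exp a * (-a * ((m : ℝ) + 1 - a) ^ m / ((m + 1).factorial : ℝ)) -
          a / b * Real.exp b * (-b * ((m : ℝ) + 1 - b) ^ m / ((m + 1).factorial : ℝ)) =
          a / ((m + 1).factorial : ℝ) * (Real.exp b * ((m : ℝ) + 1 - b) ^ m -
            Real.exp a * ((m : ℝ) + 1 - a) ^ m) := by
        field_simp
        ring
      rw [e3]
      apply mul_nonneg (by positivity)
      linarith
  · rw [Ex_zero, one_mul, map_sub, map_mul, map_mul, S_C, S_C, S_ab, S_ab, E_eq, E_eq, neg_neg,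
      neg_neg, map_mul]
    ring

namespace RT

/-- the tree `W` with one more leaf at its root -/
lemma good_leaf_add {n : ℕ} (hn : GoodUpTo n) (W : RT) (hW : size W + 1 ≤ n) :
    InW (β W + t W + 1 / 2) (C (1 / 2) * (X * B W + A W)) := by
  have h1 := hn (node W.hh (node 0 [] :: W.kids)) (by
    rw [size_node, sizeL_cons, size_node, sizeL_nil]
    have h2 : size W = sizeL W.kids + 1 := by conv_lhs => rw [← eta W, size_node]
    omega)
  rw [good_cons, eta] at h1
  unfold GoodJ J mJ at h1
  have ht : t (node 0 []) = 1 / 2 := by unfold t; norm_num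
  have hA : A (node 0 []) = X := by
    unfold A; rw [ht, B_nil, N_nil]
    norm_num
  rw [hA, B_nil, β_nil, ht] at h1
  refine h1.congr ?_ ?_
  · ring
  · ring

/-- the tree `W` with one more leaf of weight `2^-(k+1)` (`k` half-edges at the leaf) at its root -/
lemma good_thin_add {n : ℕ} (hn : GoodUpTo n) (W : RT) (hW : size W + 1 ≤ n) (k : ℕ) :
    InW (β W + t W + (1 / 2) ^ (k + 1))
      (C (1 / 2) * ((1 + C (2 * (1 / 2) ^ (k + 1)) * (X - 1)) * B W + 1 * A W)) := by
  have h1 := hn (node W.hh (node k [] :: W.kids)) (by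
    rw [size_node, sizeL_cons, size_node, sizeL_nil]
    have h2 : size W = sizeL W.kids + 1 := by conv_lhs => rw [← eta W, size_node]
    omega)
  rw [good_cons, eta] at h1
  unfold GoodJ J mJ at h1
  have ht : t (node k []) = (1 / 2) ^ (k + 1) := by unfold t; simp
  have hA : A (node k []) = 1 + C (2 * (1 / 2) ^ (k + 1)) * (X - 1) := by
    unfold A; rw [ht, B_nil, N_nil, mul_one]
  rw [hA, B_nil, β_nil, ht] at h1
  refine h1.congr ?_ ?_
  · ring
  · ring

/-- any good tree `V` attached to `w` -/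
lemma good_attach {n : ℕ} (hn : GoodUpTo n) (V W : RT) (hVW : size V + size W ≤ n) :
    InW (β V + β W + t V + t W) (C (1 / 2) * (A V * B W + B V * A W)) := by
  have h1 := hn (node W.hh (V :: W.kids)) (by
    rw [size_node, sizeL_cons]
    have h2 : size W = sizeL W.kids + 1 := by conv_lhs => rw [← eta W, size_node]
    omega)
  rw [good_cons, eta] at h1
  exact h1

/-- **The gadget lemma, abstract form.** `G i = (a i * B W + b i * A W) / 2` are known laws. -/
theorem goodJ_gadgets {n : ℕ} (hn : GoodUpTo n) (U W : RT) (hW : size W ≤ n)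
    {ι : Type*} (s : Finset ι) (a b F : ι → ℝ⟦X⟧) (m : ι → ℝ)
    (hG : ∀ i ∈ s, InW (m i) (C (1 / 2) * (a i * B W + b i * A W)))
    (hF : ∀ i ∈ s, InW (mJ U W - m i) (F i))
    (hA : InW (β U + t U - t W) (B U - ∑ i ∈ s, F i * b i))
    (hB : InW (β U + t U + t W) (A U - ∑ i ∈ s, F i * a i)) : GoodJ U W := by
  have key : J U W = ∑ i ∈ s, F i * (C (1 / 2) * (a i * B W + b i * A W)) +
      C (1 / 2) * ((B U - ∑ i ∈ s, F i * b i) * A W) +
      C (1 / 2) * ((A U - ∑ i ∈ s, F i * a i) * B W) := by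
    have e : ∑ i ∈ s, F i * (C (1 / 2) * (a i * B W + b i * A W)) =
        C (1 / 2) * ((∑ i ∈ s, F i * a i) * B W) + C (1 / 2) * ((∑ i ∈ s, F i * b i) * A W) := by
      rw [Finset.sum_mul, Finset.sum_mul, Finset.mul_sum, Finset.mul_sum, ← Finset.sum_add_distrib]
      apply Finset.sum_congr rfl
      intro i _
      ring
    rw [e]
    unfold J
    ring
  unfold GoodJ
  rw [key]
  refine ((InW.add ?_ ?_).add ?_)
  · apply InW.sum
    intro i hi
    exact ((hF i hi).mul (hG i hi)).congr (by ring) rfl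
  · apply InW.smul (by norm_num)
    refine (hA.mul (hn.A W hW)).congr ?_ rfl
    unfold mJ α; ring
  · apply InW.smul (by norm_num)
    refine (hB.mul (hn.B W (by omega))).congr ?_ rfl
    unfold mJ; ring

/-- **The gadget lemma** with leaves of weights `2^-(k+1)`, `k ∈ s`, attached to `w`:
`F k` in `W (β U + t U - 2^-(k+1))`, `C_A = B U - ∑ F k`, `C_B = A U - ∑ λ_k F k`,
`λ_k = 1 + 2^-k y`. -/
theorem goodJ_leaf_gadgets {n : ℕ} (hn : GoodUpTo n) (U W : RT) (hs : size U + size W ≤ n + 1)
    (hU : 2 ≤ size U) (s : Finset ℕ) (F : ℕ → ℝ⟦X⟧)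
    (hF : ∀ k ∈ s, InW (β U + t U - (1 / 2) ^ (k + 1)) (F k))
    (hA : InW (β U + t U - t W) (B U - ∑ k ∈ s, F k))
    (hB : InW (β U + t U + t W)
      (A U - ∑ k ∈ s, F k * (1 + C (2 * (1 / 2) ^ (k + 1)) * (X - 1)))) : GoodJ U W := by
  apply goodJ_gadgets hn U W (by omega) s (fun k => 1 + C (2 * (1 / 2) ^ (k + 1)) * (X - 1))
    (fun _ => 1) F (fun k => β W + t W + (1 / 2) ^ (k + 1))
  · intro k _
    exact good_thin_add hn W (by omega) k
  · intro k hk
    refine (hF k hk).congr ?_ rfl
    unfold mJ; ring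
  · simpa using hA
  · exact hB

/-- The gadget lemma with arbitrary smaller trees `V i` attached to `w`. -/
theorem goodJ_tree_gadgets {n : ℕ} (hn : GoodUpTo n) (U W : RT) (hW : size W ≤ n)
    {ι : Type*} (s : Finset ι) (V : ι → RT) (F : ι → ℝ⟦X⟧)
    (hV : ∀ i ∈ s, size (V i) + size W ≤ n)
    (hF : ∀ i ∈ s, InW (β U + t U - β (V i) - t (V i)) (F i))
    (hA : InW (β U + t U - t W) (B U - ∑ i ∈ s, F i * B (V i)))
    (hB : InW (β U + t U + t W) (A U - ∑ i ∈ s, F i * A (V i))) : GoodJ U W := by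
  apply goodJ_gadgets hn U W hW s (fun i => A (V i)) (fun i => B (V i)) F
    (fun i => β (V i) + β W + t (V i) + t W)
  · intro i hi
    exact good_attach hn (V i) W (hV i hi)
  · intro i hi
    refine (hF i hi).congr ?_ rfl
    unfold mJ; ring
  · exact hA
  · exact hB

/-- **(IIIA), the algebra.** `φ = ε / s`, `ε = t U - t W`, `s = 1/2 - t W`. -/
theorem goodJ_IIIA {n : ℕ} (hn : GoodUpTo n) (U W : RT) (hs : size U + size W ≤ n + 1)
    (hU : 2 ≤ size U) (ht : t W < t U)
    (hP : InW (β U + t U + t W) (A U - C ((t U - t W) / (1 / 2 - t W)) *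
      (X * (E (t U - 1 / 2) * B U)))) : GoodJ U W := by
  have htU := t_le_half U
  have hW0 := t_pos W
  have hWs := size_pos W
  set φ := (t U - t W) / (1 / 2 - t W) with hφ
  have hs0 : 0 < 1 / 2 - t W := by linarith
  have hφ0 : 0 ≤ φ := div_nonneg (by linarith) hs0.le
  have key : J U W = (C φ * (E (t U - 1 / 2) * B U)) * (C (1 / 2) * (X * B W + A W)) +
      C (1 / 2) * ((E (-(t U - t W)) - C φ * E (-(1 / 2 - t W))) *
        (E (t U - t W) * (B U * A W))) +
      C (1 / 2) * ((A U - C φ * (X * (E (t U - 1 / 2) * B U))) * B W) := by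
    have e1 : E (-(t U - t W)) * E (t U - t W) = 1 := by
      rw [← E_add, neg_add_cancel, E_zero]
    have e2 : E (-(1 / 2 - t W)) * E (t U - t W) = E (t U - 1 / 2) := by
      rw [← E_add]; congr 1; ring
    unfold J
    linear_combination (- C (1 / 2) * B U * A W) * e1 + (C (1 / 2) * C φ * B U * A W) * e2
  unfold GoodJ
  rw [key]
  have hB := hn.B U (by omega)
  have hBW := hn.B W (by omega)
  have hAW := hn.A W (by omega)
  refine ((InW.add ?_ ?_).add ?_)
  · refine ((InW.smul hφ0 (hB.mul_E (t U - 1 / 2))).mul (good_leaf_add hn W (by omega))).congr ?_ rfl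
    unfold mJ; ring
  · apply InW.smul (by norm_num)
    have h1 := inW_E_neg_sub (a := t U - t W) (b := 1 / 2 - t W) (by linarith) (by linarith)
      (by linarith)
    refine (h1.mul ((hB.mul hAW).mul_E (t U - t W))).congr ?_ rfl
    unfold mJ α; ring
  · apply InW.smul (by norm_num)
    refine (hP.mul hBW).congr ?_ rfl
    unfold mJ; ring

end RT

end Pool.Agent.Lib_helper36.SRC
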