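import Pool.Agent.Lib_helper36.SRC.IIIAH
import Pool.Agent.Lib_helper1.SRCH.Base
import Pool.Agent.Lib_helper91.SRCH.Large
import Pool.Agent.Lib_helper26.SRC.Scheme3
import Pool.Agent.Lib_helper36.SRC.Final

set_option autoImplicit false

/-! # Case (IIIA) is finished; what is left is case (IIIB) -/

namespace Pool.Agent.Lib_helper36.SRC

open PowerSeries RT Pool.Agent.Lib_helper13.GC6
open Pool.Agent.Lib_helper55.M1 (Base1)

/-- one star, no half-edge: all `l` -/
theorem base1_all : ∀ l : ℕ, 2 ≤ l → Base1 l := by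
  intro l hl
  rcases Nat.lt_or_ge 20 l with h | h
  · exact fun n c W hn hc hs hW =>
      Pool.Agent.Lib_helper91.SRCH.goodJ_honest_large h hn c W hc hs hW
  · exact Pool.Agent.Lib_helper1.SRCH.base1_small l hl h

/-- **Case (IIIA), honest stars.** -/
theorem goodJ_IIIA_hon {n : ℕ} (hn : GoodUpTo n) (h : ℕ) (ls : List ℕ)
    (W : RT) (hs : size (node h (ls.map hon)) + size W ≤ n + 1) (hne : ls ≠ [])
    (hls : ∀ l ∈ ls, 2 * RT.t (hon l) ≤ RT.t (node h (ls.map hon)))
    (ht : 2 * RT.t W ≤ RT.t (node h (ls.map hon))) : GoodJ (node h (ls.map hon)) W :=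
  goodJ_IIIAH base1_all hn h ls W hs hne hls ht

/-- case (IIIB), honest stars -/
def IIIBH : Prop := ∀ n : ℕ, GoodUpTo n → ∀ (h : ℕ) (ls : List ℕ) (W : RT), ls ≠ [] →
  (∀ l ∈ ls, 2 * RT.t (hon l) ≤ RT.t (node h (ls.map hon))) →
  size (node h (ls.map hon)) + size W ≤ n + 1 → ¬ IsLeaf W →
  2 * RT.t (node h (ls.map hon)) ≤ RT.t W → GoodJ (node h (ls.map hon)) W

lemma hon_eq : Pool.Agent.Lib_helper26.SRC.hon = hon := rfl

theorem caseIIIH_of_IIIBH (hB : IIIBH) : Pool.Agent.Lib_helper26.SRC.CaseIIIH := by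
  intro n hn h ls W hne hls hs hW ht
  rw [hon_eq] at *
  rcases t_cmp (node h (ls.map hon)) W with h1 | h1 | h1
  · exact absurd h1.symm ht
  · exact hB n hn h ls W hne hls hs hW h1
  · exact goodJ_IIIA_hon hn h ls W hs hne hls h1

/-- case (IIIB), honest stars with `4 t_c ≤ t_u`, at least two of them -/
def IIIBH4 : Prop := ∀ n : ℕ, GoodUpTo n → ∀ (h : ℕ) (ls : List ℕ) (W : RT), ls ≠ [] →
  (∀ l ∈ ls, 4 * RT.t (hon l) ≤ RT.t (node h (ls.map hon))) →
  size (node h (ls.map hon)) + size W ≤ n + 1 → ¬ IsLeaf W →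
  2 * RT.t (node h (ls.map hon)) ≤ RT.t W → GoodJ (node h (ls.map hon)) W

theorem caseIIIH4_of_IIIBH4 (hB : IIIBH4) : Pool.Agent.Lib_helper26.SRC.CaseIIIH4 := by
  intro n hn h ls W hne hls hs hW ht
  rw [hon_eq] at *
  rcases t_cmp (node h (ls.map hon)) W with h1 | h1 | h1
  · exact absurd h1.symm ht
  · exact hB n hn h ls W hne hls hs hW h1
  · exact goodJ_IIIA_hon hn h ls W hs hne
      (fun l hl => by have := hls l hl; have := t_pos (hon l); linarith) h1

/-- **All rooted trees are good**, if case (IIIB) holds for honest stars with `4 t_c ≤ t_u`. -/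
theorem good_of_IIIBH4 (hB : IIIBH4) (T : RT) : Good T :=
  good_of_caseIII (Pool.Agent.Lib_helper26.SRC.caseIII_of_H4 Pool.Agent.Lib_helper79.SRC.caseI
    (caseIIIH4_of_IIIBH4 hB)) T

/-- **All rooted trees are good**, if case (IIIB) holds for honest stars. -/
theorem good_of_IIIBH (hB : IIIBH) (T : RT) : Good T :=
  good_of_caseIII (Pool.Agent.Lib_helper26.SRC.caseIII_of_H Pool.Agent.Lib_helper79.SRC.caseI
    (caseIIIH_of_IIIBH hB)) T

end Pool.Agent.Lib_helper36.SRC
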