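import Pool.Agent.Lib_helper36.SRC.XRec
import Pool.Agent.Lib_helper6.SRC.K9
import Pool.Agent.Lib_helper55.M1.IIIA1

set_option autoImplicit false

/-! # Case (IIIA) for honest stars -/

namespace Pool.Agent.Lib_helper36.SRC

open PowerSeries RT Pool.Agent.Lib_helper13.GC6 Pool.Agent.Lib_helper6.SRC
open Pool.Agent.Lib_helper55.M1 (Honest Base1 goodJ_IIIA_m1)

/-- **(X)** -/
theorem statX : StatX :=
  statX_of_K9 (fun a h0 h1 => inW_K9a a h0 h1) (fun a b h0 h1 h2 h3 => inW_K9b a b h0 h1 h2 h3)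

/-- **Case (IIIA), honest stars**, from the statement for one star and no half-edge. -/
theorem goodJ_IIIAH (hB : ∀ l, 2 ≤ l → Base1 l) {n : ℕ} (hn : GoodUpTo n) (h : ℕ) (ls : List ℕ)
    (W : RT) (hs : size (node h (ls.map hon)) + size W ≤ n + 1) (hne : ls ≠ [])
    (hls : ∀ l ∈ ls, 2 * RT.t (hon l) ≤ RT.t (node h (ls.map hon)))
    (ht : 2 * RT.t W ≤ RT.t (node h (ls.map hon))) : GoodJ (node h (ls.map hon)) W := by
  rcases Nat.lt_or_ge ls.length 2 with h2 | h2
  · have h1 : ls.length = 1 := by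
      have := List.length_pos_iff.2 hne
      omega
    obtain ⟨l, rfl⟩ := List.length_eq_one_iff.1 h1
    exact goodJ_IIIA_m1 hB hn h (hon l) W (l := l) rfl hs (hls l (by simp)) ht
  · exact goodJ_A4 statX hn h ls W hs h2 hls ht

end Pool.Agent.Lib_helper36.SRC
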