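import Pool.Agent.Lib_helper36.SRC.StarCore

set_option autoImplicit false

/-! # The star lemma -/

namespace Pool.Agent.Lib_helper36.SRC

open Finset PowerSeries Pool.Agent.Lib_helper79.SRC Pool.Agent.Lib_helper35.SRC

lemma sum_le_half {as : List ℝ} (h : Lv as) : as.sum ≤ as.length / 2 := by
  have h1 := DD_nonneg h
  rw [DD_eq] at h1
  linarith

lemma half_pow_mul_two_pow (l : ℕ) : ((1 : ℝ) / 2) ^ l * 2 ^ l = 1 := by
  rw [← mul_pow]; norm_num

lemma pi_ge {as : List ℝ} (h : Lv as) : (1 / 2) ^ as.length * (1 + DD as) ≤ Pi0 as := by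
  have h1 := bernoulli_Pi h
  have h2 : (0 : ℝ) < (1 / 2) ^ as.length := by positivity
  calc (1 / 2) ^ as.length * (1 + DD as) ≤ (1 / 2) ^ as.length * (2 ^ as.length * Pi0 as) :=
        mul_le_mul_of_nonneg_left h1 h2.le
    _ = ((1 / 2) ^ as.length * 2 ^ as.length) * Pi0 as := by ring
    _ = Pi0 as := by rw [half_pow_mul_two_pow, one_mul]

lemma KK_ge {as : List ℝ} (h : Lv as) (N : ℕ) (hN : 3 ≤ N) :
    (1 / 2) ^ as.length * as.sum ^ N ≤ N.factorial * coeff N (KK as) := by
  have h1 := P2_ge h N hN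
  unfold P2 at h1
  rw [coeff_C_mul] at h1
  have f : (0 : ℝ) < (N.factorial : ℕ) := by exact_mod_cast Nat.factorial_pos _
  rw [div_le_iff₀ f] at h1
  have h2 : (0 : ℝ) < (1 / 2) ^ as.length := by positivity
  calc (1 / 2) ^ as.length * as.sum ^ N
      ≤ (1 / 2) ^ as.length * (2 ^ as.length * coeff N (KK as) * (N.factorial : ℕ)) :=
        mul_le_mul_of_nonneg_left h1 h2.le
    _ = ((1 / 2) ^ as.length * 2 ^ as.length) * ((N.factorial : ℕ) * coeff N (KK as)) := by ring
    _ = _ := by rw [half_pow_mul_two_pow, one_mul]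

/-- small means -/
lemma star_small {w : ℝ} {as : List ℝ} (h : Lv as) (hw : 0 ≤ w) (hPi : w ≤ Pi0 as)
    (hν : as.sum + w ≤ 1) : InW (as.sum + w) (prodC as + C w * (X - 1)) := by
  have := small_Q as w 0 (fun s hs => ⟨(h s hs).1, by linarith [(h s hs).2]⟩) hw (le_refl _) hν
    (Or.inl rfl) (by rw [← Pi0_eq]; linarith)
  refine this.congr rfl ?_
  rw [map_zero]; ring

/-- no centre -/
lemma star_zero {as : List ℝ} (h : Lv as) : InW (as.sum + 0) (prodC as + C (0 : ℝ) * (X - 1)) := by
  refine (inW_prodC as (fun s hs => by linarith [(h s hs).2])).congr (by ring) ?_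
  rw [map_zero]; ring

/-- powers of `1/2` against linear and quadratic functions -/
lemma pow_lin {k : ℕ} (hk : 1 ≤ k) : ∀ l : ℕ, k ≤ l → (l : ℝ) * (1 / 2) ^ l ≤ k * (1 / 2) ^ k := by
  intro l hl
  induction l, hl using Nat.le_induction with
  | base => exact le_refl _
  | succ l hl ih =>
    refine le_trans ?_ ih
    rw [pow_succ]
    have hl1 : (1 : ℝ) ≤ l := by exact_mod_cast hk.trans hl
    have h2 : (0 : ℝ) < (1 / 2) ^ l := by positivity
    push_cast
    nlinarith

lemma pow_anti {k l : ℕ} (h : k ≤ l) : ((1 : ℝ) / 2) ^ l ≤ (1 / 2) ^ k :=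
  pow_le_pow_of_le_one (by norm_num) (by norm_num) h

lemma pow_quad : ∀ l : ℕ, 4 ≤ l → (l : ℝ) * (l + 4) * (1 / 2) ^ l ≤ 2 := by
  intro l hl
  induction l, hl using Nat.le_induction with
  | base => norm_num
  | succ l hl ih =>
    refine le_trans ?_ ih
    rw [pow_succ]
    have hl1 : (4 : ℝ) ≤ l := by exact_mod_cast hl
    have h2 : (0 : ℝ) < (1 / 2) ^ l := by positivity
    push_cast
    have h3 : ((l : ℝ) + 1) * (l + 1 + 4) * (1 / 2) ≤ l * (l + 4) := by nlinarith
    calc ((l : ℝ) + 1) * (l + 1 + 4) * ((1 / 2) ^ l * (1 / 2))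
        = (((l : ℝ) + 1) * (l + 1 + 4) * (1 / 2)) * (1 / 2) ^ l := by ring
      _ ≤ _ := mul_le_mul_of_nonneg_right h3 h2.le

lemma cube_aux {σ ρ w θ : ℝ} (hρ : 0 ≤ ρ) (hσ : ρ ≤ σ) (h : ρ ≤ (1 - 3 * w) * θ * σ) :
    ρ ^ 3 ≤ (1 - 3 * w) * (θ * σ ^ 3) := by
  have h1 : ρ ^ 2 ≤ σ ^ 2 := pow_le_pow_left₀ hρ hσ 2
  calc ρ ^ 3 = ρ * ρ ^ 2 := by ring
    _ ≤ ρ * σ ^ 2 := mul_le_mul_of_nonneg_left h1 hρ
    _ ≤ ((1 - 3 * w) * θ * σ) * σ ^ 2 := mul_le_mul_of_nonneg_right h (by positivity)
    _ = _ := by ring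

/-- **Star lemma A**: at least four leaves, the centre may be slightly too heavy. -/
theorem starA (as : List ℝ) (w δ : ℝ) (h : Lv as) (hl : 4 ≤ as.length) (hw : 0 ≤ w)
    (hPi : w ≤ Pi0 as) (hδ0 : 0 ≤ δ) (hw1 : w ≤ (1 / 2) ^ as.length * (1 + δ))
    (hδ : δ * (1 - 2 * (1 / 2) ^ as.length) ≤ (1 / 2) ^ as.length) :
    InW (as.sum + w) (prodC as + C w * (X - 1)) := by
  rcases le_or_gt (as.sum + w) 1 with hν | hν
  · exact star_small h hw hPi hν
  rcases hw.eq_or_lt with h0 | hw0
  · rw [← h0]; exact star_zero h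
  set p : ℝ := (1 / 2) ^ as.length with hp
  have hp0 : 0 < p := by rw [hp]; positivity
  have hp16 : p ≤ 1 / 16 := by
    have := pow_anti hl
    rw [← hp] at this
    norm_num at this ⊢
    exact this
  have hδ1 : δ ≤ 8 / 7 * p := by nlinarith
  have hδ2 : δ ≤ 1 / 14 := by linarith
  have hw15 : w ≤ 15 / 14 * p := by nlinarith
  set η := 1 / (1 + δ) with hη
  have hη1 : η ≤ 1 := by rw [hη, div_le_one (by linarith)]; linarith
  have hη2 : 14 / 15 ≤ η := by
    rw [hη, le_div_iff₀ (by linarith)]; linarith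
  have hηw : η * w ≤ p := by
    rw [hη, one_div, inv_mul_le_iff₀ (by linarith)]; linarith
  have hη3 : 1 - η ≤ δ := by
    rw [hη]
    have : (1 : ℝ) - 1 / (1 + δ) = δ / (1 + δ) := by field_simp; ring
    rw [this]
    exact div_le_self hδ0 (by linarith)
  have hD := DD_nonneg h
  have hσl := sum_le_half h
  have hσ0 := sum_nonneg' h
  have hq := pow_quad as.length hl
  have hlin := pow_lin (k := 4) (by norm_num) as.length hl
  rw [← hp] at hq hlin
  have hl4 : (4 : ℝ) ≤ as.length := by exact_mod_cast hl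
  set σ := as.sum with hσ
  set l : ℝ := (as.length : ℝ) with hlR
  have hpl : p * l ≤ 1 / 4 := by norm_num at hlin; linarith
  apply star_core h hw0 hν hPi (η := η) (θ := η) (σ₁ := σ) _ hη2 hη1 _ (Or.inr (by linarith))
  · intro hρ
    have h6 : 6 ≤ as.length := by
      by_contra h'
      push Not at h'
      have : l ≤ 5 := by rw [hlR]; exact_mod_cast (by omega : as.length ≤ 5)
      linarith
    have hp64 : p ≤ 1 / 64 := by
      have := pow_anti h6
      rw [← hp] at this
      norm_num at this ⊢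
      exact this
    refine ⟨by nlinarith, by linarith, ?_, ?_⟩
    · apply cube_aux (by linarith) (by linarith)
      -- `σ + w - 1 ≤ (1 - 3 w) η σ`
      have e1 : p * σ ≤ 1 / 8 := by nlinarith
      have e2 : δ * σ ≤ 1 / 7 := by nlinarith
      have e3 : w * σ ≤ 15 / 112 := by nlinarith
      have e4 : (1 - 3 * w) * η ≥ 1 - 3 * w - δ := by nlinarith
      nlinarith
    · intro N hN
      refine le_trans ?_ (KK_ge h N hN)
      rw [← hp, ← hσ, ← mul_assoc]
      apply mul_le_mul_of_nonneg_right _ (pow_nonneg hσ0 _)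
      linarith
  · calc η * (w * (1 + DD as)) = (η * w) * (1 + DD as) := by ring
      _ ≤ p * (1 + DD as) := mul_le_mul_of_nonneg_right hηw (by linarith)
      _ ≤ Pi0 as := pi_ge h
  · -- level one
    have hσ9 : 9 / 10 ≤ σ := by linarith
    have e1 : 4 / (2 + σ) = 2 - 2 * σ / (2 + σ) := by field_simp; ring
    rw [e1]
    suffices hs : (1 - η) * σ ^ 2 + 2 * σ * w + w ^ 2 ≤ 2 * σ / (2 + σ) by linarith
    rw [le_div_iff₀ (by linarith)]
    have c1 : δ * σ * (2 + σ) ≤ 4 / 7 := by
      have : σ * (2 + σ) ≤ l / 2 * (2 + l / 2) := by nlinarith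
      calc δ * σ * (2 + σ) = δ * (σ * (2 + σ)) := by ring
        _ ≤ (8 / 7 * p) * (l / 2 * (2 + l / 2)) := by
            apply mul_le_mul hδ1 this (by positivity) (by positivity)
        _ = 2 / 7 * (l * (l + 4) * p) := by ring
        _ ≤ 4 / 7 := by linarith
    have c2 : w * (2 + σ) ≤ 15 / 14 * (1 / 4) := by
      have : p * (2 + σ) ≤ 1 / 4 := by nlinarith
      nlinarith
    have c3 : (1 - η) * σ ^ 2 * (2 + σ) ≤ 4 / 7 * σ := by
      calc (1 - η) * σ ^ 2 * (2 + σ) ≤ δ * σ ^ 2 * (2 + σ) := by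
            apply mul_le_mul_of_nonneg_right _ (by linarith)
            exact mul_le_mul_of_nonneg_right hη3 (sq_nonneg _)
        _ = (δ * σ * (2 + σ)) * σ := by ring
        _ ≤ _ := mul_le_mul_of_nonneg_right c1 hσ0
    have c4 : w ^ 2 * (2 + σ) ≤ (1 / 10) * σ := by
      calc w ^ 2 * (2 + σ) = w * (w * (2 + σ)) := by ring
        _ ≤ w * (15 / 14 * (1 / 4)) := mul_le_mul_of_nonneg_left c2 hw
        _ ≤ (1 / 10) * σ := by linarith
    have c5 : 2 * σ * w * (2 + σ) ≤ 15 / 28 * σ := by
      calc 2 * σ * w * (2 + σ) = 2 * σ * (w * (2 + σ)) := by ring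
        _ ≤ 2 * σ * (15 / 14 * (1 / 4)) := mul_le_mul_of_nonneg_left c2 (by positivity)
        _ = _ := by ring
    nlinarith

/-- the condition at level one for `η = 1` -/
lemma level_one {σ w : ℝ} (hσ : 0 ≤ σ) (hw : 0 ≤ w) (h1 : w * (2 + σ) ≤ 7 / 16) (h2 : w ≤ σ / 7) :
    (1 - (1 : ℝ)) * σ ^ 2 + 2 * σ * w + w ^ 2 + 4 / (2 + σ) ≤ 2 := by
  have e1 : 4 / (2 + σ) = 2 - 2 * σ / (2 + σ) := by field_simp; ring
  rw [e1]
  suffices hs : (1 - (1 : ℝ)) * σ ^ 2 + 2 * σ * w + w ^ 2 ≤ 2 * σ / (2 + σ) by linarith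
  rw [le_div_iff₀ (by linarith)]
  have c4 : w ^ 2 * (2 + σ) ≤ (1 / 16) * σ := by
    calc w ^ 2 * (2 + σ) = w * (w * (2 + σ)) := by ring
      _ ≤ w * (7 / 16) := mul_le_mul_of_nonneg_left h1 hw
      _ ≤ (1 / 16) * σ := by linarith
  have c5 : 2 * σ * w * (2 + σ) ≤ 7 / 8 * σ := by
    calc 2 * σ * w * (2 + σ) = 2 * σ * (w * (2 + σ)) := by ring
      _ ≤ 2 * σ * (7 / 16) := mul_le_mul_of_nonneg_left h1 (by positivity)
      _ = _ := by ring
  nlinarith

/-- leaves of weight at most `1/4` -/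
lemma pi_ge_thin {as : List ℝ} (h : ∀ s ∈ as, 0 ≤ s ∧ s ≤ 1 / 4) :
    (3 / 2) ^ as.length * (1 + 2 / 3 * (DD as - as.length / 2)) ≤ 2 ^ as.length * Pi0 as ∧
      (as.length : ℝ) / 2 ≤ DD as := by
  induction as with
  | nil => rw [DD, Pi0]; simp
  | cons s as ih =>
    obtain ⟨h1, h2⟩ := ih (fun t ht => h t (by simp [ht]))
    obtain ⟨hs0, hs1⟩ := h s (by simp)
    rw [DD, Pi0, List.length_cons, pow_succ, pow_succ]
    push_cast
    constructor
    · have e : (2 : ℝ) ^ as.length * 2 * ((1 - s) * Pi0 as) = (2 * (1 - s)) * (2 ^ as.length * Pi0 as) := by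
        ring
      rw [e]
      set E := DD as - as.length / 2 with hE
      have hE0 : 0 ≤ E := by rw [hE]; linarith
      have e2 : 1 - 2 * s + DD as - ((as.length : ℝ) + 1) / 2 = E + (1 / 2 - 2 * s) := by
        rw [hE]; ring
      rw [e2]
      have h3 : (0 : ℝ) < (3 / 2) ^ as.length := by positivity
      calc (3 / 2 : ℝ) ^ as.length * (3 / 2) * (1 + 2 / 3 * (E + (1 / 2 - 2 * s)))
          = (3 / 2) ^ as.length * ((3 / 2) * (1 + 2 / 3 * (E + (1 / 2 - 2 * s)))) := by ring
        _ ≤ (3 / 2) ^ as.length * ((2 * (1 - s)) * (1 + 2 / 3 * E)) := by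
            apply mul_le_mul_of_nonneg_left _ h3.le
            nlinarith
        _ = (2 * (1 - s)) * ((3 / 2) ^ as.length * (1 + 2 / 3 * E)) := by ring
        _ ≤ _ := mul_le_mul_of_nonneg_left h1 (by linarith)
    · linarith

lemma pow_three_half : ∀ l : ℕ, 4 ≤ l → 3 / 2 * (1 + (l : ℝ) / 2) ≤ (3 / 2) ^ l ∧ (9 : ℝ) / 4 ≤ (3 / 2) ^ l := by
  intro l hl
  induction l, hl using Nat.le_induction with
  | base => norm_num
  | succ l hl ih =>
    obtain ⟨h1, h2⟩ := ih
    rw [pow_succ]
    have hl1 : (4 : ℝ) ≤ l := by exact_mod_cast hl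
    push_cast
    constructor <;> nlinarith

/-- **Star lemma B**: all leaves of weight at most `1/4`. -/
theorem starB (as : List ℝ) (w : ℝ) (h : ∀ s ∈ as, 0 ≤ s ∧ s ≤ 1 / 4) (hl : 1 ≤ as.length)
    (hw : 0 ≤ w) (hw1 : w ≤ 3 / 2 * (1 / 2) ^ as.length) :
    InW (as.sum + w) (prodC as + C w * (X - 1)) := by
  have hv : Lv as := fun s hs => ⟨(h s hs).1, by linarith [(h s hs).2]⟩
  obtain ⟨hthin, hDl⟩ := pi_ge_thin h
  set p : ℝ := (1 / 2) ^ as.length with hp
  have hp0 : 0 < p := by rw [hp]; positivity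
  have hσl : as.sum ≤ as.length / 4 := by
    have := DD_eq as
    linarith
  have hσ0 := sum_nonneg' hv
  have h2p : p * 2 ^ as.length = 1 := half_pow_mul_two_pow _
  have hPi' : p * ((3 / 2) ^ as.length * (1 + 2 / 3 * (DD as - as.length / 2))) ≤ Pi0 as := by
    calc p * ((3 / 2) ^ as.length * (1 + 2 / 3 * (DD as - as.length / 2)))
        ≤ p * (2 ^ as.length * Pi0 as) := mul_le_mul_of_nonneg_left hthin hp0.le
      _ = (p * 2 ^ as.length) * Pi0 as := by ring
      _ = Pi0 as := by rw [h2p, one_mul]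
  have h32 : (3 / 2 : ℝ) ≤ (3 / 2) ^ as.length := by
    calc (3 / 2 : ℝ) = (3 / 2) ^ 1 := by norm_num
      _ ≤ (3 / 2) ^ as.length := pow_le_pow_right₀ (by norm_num) hl
  have hPi : w ≤ Pi0 as := by
    refine hw1.trans (le_trans ?_ hPi')
    have : 3 / 2 * p = p * ((3 / 2) * 1) := by ring
    rw [this]
    apply mul_le_mul_of_nonneg_left _ hp0.le
    apply mul_le_mul h32 (by linarith) (by norm_num) (by positivity)
  rcases le_or_gt (as.sum + w) 1 with hν | hν
  · exact star_small hv hw hPi hν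
  rcases hw.eq_or_lt with h0 | hw0
  · rw [← h0]; exact star_zero hv
  have h4 : 4 ≤ as.length := by
    by_contra h'
    push Not at h'
    have h3 : as.length = 1 ∨ as.length = 2 ∨ as.length = 3 := by omega
    rcases h3 with h3 | h3 | h3
    · rw [hp, h3] at hw1; rw [h3] at hσl; norm_num at hw1 hσl; linarith
    · rw [hp, h3] at hw1; rw [h3] at hσl; norm_num at hw1 hσl; linarith
    · rw [hp, h3] at hw1; rw [h3] at hσl; norm_num at hw1 hσl; linarith
  have hp16 : p ≤ 1 / 16 := by
    have := pow_anti h4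
    rw [← hp] at this
    norm_num at this ⊢
    exact this
  have hlin := pow_lin (k := 4) (by norm_num) as.length h4
  rw [← hp] at hlin
  have hl4 : (4 : ℝ) ≤ as.length := by exact_mod_cast h4
  obtain ⟨t1, t2⟩ := pow_three_half as.length h4
  set σ := as.sum with hσ
  set l : ℝ := (as.length : ℝ) with hlR
  have hpl : p * l ≤ 1 / 4 := by norm_num at hlin; linarith
  have hw32 : w ≤ 3 / 32 := by linarith
  have hσ9 : 9 / 10 ≤ σ := by linarith
  have hD := DD_nonneg hv
  apply star_core hv hw0 hν hPi (η := 1) (θ := 1) (σ₁ := σ - 1 / 4) _ (by norm_num) (le_refl _) _ _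
  · -- region `ρ ≥ 2`
    intro hρ
    have h12 : 12 ≤ as.length := by
      by_contra h'
      push Not at h'
      have : l ≤ 11 := by rw [hlR]; exact_mod_cast (by omega : as.length ≤ 11)
      linarith
    have hp64 : p ≤ 1 / 4096 := by
      have := pow_anti h12
      rw [← hp] at this
      norm_num at this ⊢
      exact this
    refine ⟨by linarith, by linarith, ?_, ?_⟩
    · apply cube_aux (by linarith) (by linarith)
      have e3 : w * σ ≤ 3 / 32 := by nlinarith
      nlinarith
    · intro N hN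
      obtain ⟨s, as', rfl⟩ : ∃ s as', as = s :: as' := by
        cases as with
        | nil => simp at hl
        | cons s as' => exact ⟨s, as', rfl⟩
      have hs := h s (by simp)
      have g1 := KK_ge hv.tail N hN
      rw [KK_cons]
      have g2 := coeff_mul_ge_zero (NN.kc (s := s) (by linarith)) (NN_KK hv.tail) N
      rw [coeff_kc_zero] at g2
      have f : (0 : ℝ) < (N.factorial : ℕ) := by exact_mod_cast Nat.factorial_pos _
      have g3 : 3 / 4 * ((N.factorial : ℕ) * coeff N (KK as')) ≤ (N.factorial : ℕ) * coeff N (kc s * KK as') := by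
        have k0 := NN_KK hv.tail N
        calc 3 / 4 * ((N.factorial : ℕ) * coeff N (KK as'))
            = (N.factorial : ℕ) * (3 / 4 * coeff N (KK as')) := by ring
          _ ≤ (N.factorial : ℕ) * ((1 - s) * coeff N (KK as')) := by
              apply mul_le_mul_of_nonneg_left _ f.le
              apply mul_le_mul_of_nonneg_right _ k0
              linarith [hs.2]
          _ ≤ _ := mul_le_mul_of_nonneg_left g2 f.le
      refine le_trans ?_ g3
      have e : σ = s + as'.sum := by rw [hσ, List.sum_cons]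
      have hp' : p = (1 / 2) ^ as'.length * (1 / 2) := by rw [hp, List.length_cons, pow_succ]
      have g4 : σ - 1 / 4 ≤ as'.sum := by linarith [hs.2]
      have g5 : (σ - 1 / 4) ^ N ≤ as'.sum ^ N := pow_le_pow_left₀ (by linarith) g4 N
      have g6 : 0 ≤ (σ - 1 / 4) ^ N := pow_nonneg (by linarith) _
      calc w * (1 * (σ - 1 / 4) ^ N) = w * (σ - 1 / 4) ^ N := by ring
        _ ≤ (3 / 2 * p) * as'.sum ^ N := mul_le_mul hw1 g5 g6 (by positivity)
        _ = 3 / 4 * ((1 / 2) ^ as'.length * as'.sum ^ N) := by rw [hp']; ring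
        _ ≤ _ := mul_le_mul_of_nonneg_left g1 (by norm_num)
  · rw [one_mul]
    -- `w (1 + D) ≤ Π`
    refine le_trans ?_ hPi'
    calc w * (1 + DD as) ≤ (3 / 2 * p) * (1 + DD as) := mul_le_mul_of_nonneg_right hw1 (by linarith)
      _ = p * (3 / 2 * (1 + l / 2) + 3 / 2 * (DD as - l / 2)) := by ring
      _ ≤ p * ((3 / 2) ^ as.length * (1 + 2 / 3 * (DD as - l / 2))) := by
          apply mul_le_mul_of_nonneg_left _ hp0.le
          nlinarith
  · apply level_one hσ0 hw _ (by linarith)
    have : p * (2 + σ) ≤ 3 / 16 := by nlinarith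
    nlinarith
  · rcases Nat.lt_or_ge 4 as.length with h5 | h5
    · right
      have := pow_anti (show 5 ≤ as.length by omega)
      rw [← hp] at this
      norm_num at this
      linarith
    · left
      have h4' : as.length = 4 := by omega
      have : l = 4 := by rw [hlR, h4']; norm_num
      refine ⟨by linarith, rfl, by linarith⟩

/-- **The star lemma.** -/
theorem star_lemma (as : List ℝ) (w : ℝ) (h : Lv as) (hw : 0 ≤ w) (hw1 : w ≤ (1 / 2) ^ as.length) :
    InW (as.sum + w) (prodC as + C w * (X - 1)) := by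
  set p : ℝ := (1 / 2) ^ as.length with hp
  have hp0 : 0 < p := by rw [hp]; positivity
  have hD := DD_nonneg h
  have hPi : w ≤ Pi0 as := by
    have := pi_ge h
    rw [← hp] at this
    nlinarith
  rcases le_or_gt (as.sum + w) 1 with hν | hν
  · exact star_small h hw hPi hν
  rcases hw.eq_or_lt with h0 | hw0
  · rw [← h0]; exact star_zero h
  have hσl := sum_le_half h
  have hσ0 := sum_nonneg' h
  rcases Nat.lt_or_ge as.length 3 with hl | hl
  · have h3 : as.length = 0 ∨ as.length = 1 ∨ as.length = 2 := by omega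
    rcases h3 with h3 | h3 | h3
    · exfalso
      rw [h3] at hσl
      rw [hp, h3] at hw1
      norm_num at hσl hw1
      linarith
    · exfalso
      rw [h3] at hσl
      rw [hp, h3] at hw1
      norm_num at hσl hw1
      linarith
    · -- two leaves
      obtain ⟨a, b, rfl⟩ : ∃ a b, as = [a, b] := List.length_eq_two.1 h3
      rw [hp, h3] at hw1
      norm_num at hw1
      have ha := h a (by simp)
      have hb := h b (by simp)
      have hsum : ([a, b] : List ℝ).sum = a + b := by simp
      rw [hsum] at hν ⊢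
      have hP : Pi0 [a, b] = (1 - a) * (1 - b) := by rw [Pi0, Pi0, Pi0]; ring
      rw [hP] at hPi
      have hab : 0 ≤ (1 / 2 - a) * (1 / 2 - b) := mul_nonneg (by linarith) (by linarith)
      have key := quad (a + b + w) (a * b) (by nlinarith) (by nlinarith [sq_nonneg (a - b)])
        (by nlinarith [sq_nonneg (a - b), mul_nonneg ha.1 hb.1,
          mul_nonneg (mul_nonneg ha.1 hb.1) hw]) (by
          set ν := a + b + w with hν'
          have h1 : 1 / 2 * (ν - 3 / 4) ≤ a * b := by nlinarith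
          have h2 : 0 ≤ 3 * ν - 2 := by linarith
          have h3 : ν ≤ 5 / 4 := by linarith
          have h4 := mul_le_mul_of_nonneg_right h1 h2
          have h5 : ν ^ 2 * (ν - 1) ≤ 1 / 2 * (ν - 3 / 4) * (3 * ν - 2) := by
            nlinarith [mul_nonneg (by linarith : 0 ≤ ν - 1) (by linarith : 0 ≤ 5 / 4 - ν)]
          linarith)
      refine key.congr rfl ?_
      rw [prodC_cons, prodC_cons, prodC_nil]
      simp only [map_add, map_mul]
      ring
  · have hp8 : p ≤ 1 / 8 := by
      have := pow_anti hl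
      rw [← hp] at this
      norm_num at this ⊢
      exact this
    have hl3 : (3 : ℝ) ≤ as.length := by exact_mod_cast hl
    have hlin := pow_lin (k := 3) (by norm_num) as.length hl
    rw [← hp] at hlin
    set σ := as.sum with hσ
    set l : ℝ := (as.length : ℝ) with hlR
    have hpl : p * l ≤ 3 / 8 := by norm_num at hlin; linarith
    apply star_core h hw0 hν hPi (η := 1) (θ := 1) (σ₁ := σ) _ (by norm_num) (le_refl _) _ _
    · intro hρ
      have h6 : 6 ≤ as.length := by
        by_contra h'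
        push Not at h'
        have : l ≤ 5 := by rw [hlR]; exact_mod_cast (by omega : as.length ≤ 5)
        linarith
      have hp64 : p ≤ 1 / 64 := by
        have := pow_anti h6
        rw [← hp] at this
        norm_num at this ⊢
        exact this
      refine ⟨by linarith, by linarith, ?_, ?_⟩
      · apply cube_aux (by linarith) (by linarith)
        have e3 : w * σ ≤ 3 / 16 := by nlinarith
        nlinarith
      · intro N hN
        refine le_trans ?_ (KK_ge h N hN)
        rw [← hp, ← hσ, one_mul]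
        exact mul_le_mul_of_nonneg_right hw1 (pow_nonneg hσ0 _)
    · rw [one_mul]
      refine le_trans ?_ (pi_ge h)
      rw [← hp]
      exact mul_le_mul_of_nonneg_right hw1 (by linarith)
    · apply level_one hσ0 hw _ (by linarith)
      have : p * (2 + σ) ≤ 7 / 16 := by nlinarith
      nlinarith
    · rcases Nat.lt_or_ge 3 as.length with h5 | h5
      · right
        have := pow_anti (show 4 ≤ as.length by omega)
        rw [← hp] at this
        norm_num at this
        linarith
      · left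
        have h4' : as.length = 3 := by omega
        have : l = 3 := by rw [hlR, h4']; norm_num
        refine ⟨by linarith, rfl, by linarith⟩

end Pool.Agent.Lib_helper36.SRC
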