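import Pool.Agent.Lib_helper36.SRC.IIIADone
import Pool.Agent.Lib_helper13.GC6.Cert2
import Pool.Agent.Lib_helper83.SRC.ZHOne

set_option autoImplicit false

/-! # Case (IIIB) for honest stars, from parts (A) and (B) -/

namespace Pool.Agent.Lib_helper36.SRC

open PowerSeries RT Pool.Agent.Lib_helper13.GC6

/-- one star, helper83's `statZH_one` -/
theorem goodJ_IIIB_one {n : ℕ} (hn : GoodUpTo n) (h l : ℕ) (W : RT)
    (hs : size (node h ([l].map hon)) + size W ≤ n + 1)
    (hl : 2 * RT.t (hon l) ≤ RT.t (node h ([l].map hon))) (hW : ¬ IsLeaf W)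
    (ht : 2 * RT.t (node h ([l].map hon)) ≤ RT.t W) : GoodJ (node h ([l].map hon)) W := by
  apply goodJ_IIIB hn _ _ hs ht
  have htU : RT.t (node h ([l].map hon)) = (1 / 2) ^ (h + 2) := by
    have := t_honF h [l]
    simpa using this
  have h1 := Pool.Agent.Lib_helper83.SRC.statZH_one h l (RT.t (node h ([l].map hon))) (RT.t W)
    (by
      rw [Pool.Agent.Lib_helper13.GC6.t_hon, htU] at hl
      by_contra hcon
      push Not at hcon
      have h3 : (1 / 2 : ℝ) ^ (h + 2) ≤ (1 / 2) ^ (l + 1) :=
        pow_le_pow_of_le_one (by norm_num) (by norm_num) (by omega)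
      have h4 : (0 : ℝ) < (1 / 2) ^ (l + 1) := by positivity
      linarith)
    htU
    (by
      have : W.kids ≠ [] := hW
      obtain ⟨m, hm⟩ : ∃ m, W.kids.length = m + 1 :=
        ⟨W.kids.length - 1, by have := List.length_pos_of_ne_nil this; omega⟩
      exact ⟨W.hh + m, by unfold RT.t; rw [hm]; congr 1⟩)
    ht
  refine h1.congr ?_ ?_
  · rw [β_honF]
  · unfold ZH A
    rw [B_honF, N_honF]

/-- **Case (IIIB), honest stars with `4 t_c ≤ t_u`**, from parts (A) and (B). -/
theorem IIIBH4_of_parts (hA : PartA) (hB : PartB) : IIIBH4 := by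
  intro n hn h ls W hne hls hs hW ht
  match ls, hne with
  | [l], _ =>
    exact goodJ_IIIB_one hn h l W hs (by
      have h1 := hls l (by simp)
      have h2 := t_pos (hon l)
      linarith) hW ht
  | l :: l' :: rest, _ =>
    exact goodJ_IIIBH_two hA hB hn h _ W hs (by simp) hls hW ht

/-- **All rooted trees are good**, from parts (A) and (B). -/
theorem good_of_parts (hA : PartA) (hB : PartB) (T : RT) : Good T :=
  good_of_IIIBH4 (IIIBH4_of_parts hA hB) T

end Pool.Agent.Lib_helper36.SRC
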