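import Pool.Agent.Lib_helper36.SRC.Link

set_option autoImplicit false

/-! The mean of the number of sources, and positivity of `prob`. -/

namespace Pool.Agent.Lib_helper36.SRC

open Finset Polynomial
open Pool.Agent.Lib_helper19.Src (Orient numSources numOrient prob)

variable {V : Type} [Fintype V] [DecidableEq V]

lemma prob_nonneg (G : SimpleGraph V) (j : ℕ) : 0 ≤ prob G j := by
  unfold prob; positivity

lemma natDegree_IP (G : SimpleGraph V) (p : V → ℝ) :
    (IP G p (X - 1)).natDegree ≤ Fintype.card V := by
  classical
  unfold IP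
  apply natDegree_sum_le_of_forall_le
  intro I _
  apply natDegree_C_mul_le _ _ |>.trans
  rw [natDegree_pow]
  have : (X - 1 : ℝ[X]).natDegree = 1 := by
    have := natDegree_X_sub_C (1 : ℝ)
    simpa using this
  rw [this, mul_one]
  exact card_le_univ I

lemma deriv_IP (G : SimpleGraph V) (p : V → ℝ) :
    (derivative (IP G p (X - 1))).eval 1 = ∑ v, p v := by
  classical
  unfold IP
  rw [derivative_sum, eval_finsetSum]
  have h1 : ∀ I : Finset V, (derivative (C (∏ v ∈ I, p v) * (X - 1 : ℝ[X]) ^ I.card)).eval 1
      = if I.card = 1 then ∏ v ∈ I, p v else 0 := by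
    intro I
    rw [derivative_C_mul, derivative_pow]
    simp only [derivative_sub, derivative_X, derivative_one, sub_zero, mul_one, eval_mul, eval_C,
      eval_pow, eval_sub, eval_X, eval_one, sub_self, map_natCast, eval_natCast]
    by_cases h : I.card = 1
    · rw [if_pos h, h]; simp
    · rw [if_neg h]
      rcases Nat.eq_zero_or_pos I.card with h0 | h0
      · rw [h0]; simp
      · rw [zero_pow (by omega)]; ring
  rw [sum_congr rfl (fun I _ => h1 I), ← sum_filter, filter_filter]
  have h2 : (univ : Finset (Finset V)).filter (fun I => Indep G I ∧ I.card = 1)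
      = univ.image (fun v : V => ({v} : Finset V)) := by
    ext I
    simp only [mem_filter, mem_univ, true_and, mem_image]
    constructor
    · rintro ⟨_, h⟩
      obtain ⟨v, hv⟩ := card_eq_one.1 h
      exact ⟨v, hv.symm⟩
    · rintro ⟨v, rfl⟩
      refine ⟨?_, card_singleton v⟩
      intro u hu w hw h
      rw [mem_singleton] at hu hw
      subst hu; subst hw
      exact G.loopless.irrefl _ h
  rw [h2, sum_image (fun v _ w _ h => singleton_injective h)]
  simp

/-- the mean -/
theorem mean_eq (G : SimpleGraph V) :
    ∑ j ∈ range (Fintype.card V + 1), (j : ℝ) * prob G j = ∑ v, wt G v := by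
  rw [← deriv_IP G (wt G), derivative_eval]
  rw [sum_over_range' _ (by simp) (Fintype.card V + 1)
    (Nat.lt_succ_of_le (natDegree_IP G (wt G)))]
  apply sum_congr rfl
  intro j _
  rw [prob_eq, one_pow, mul_one, mul_comm]

end Pool.Agent.Lib_helper36.SRC
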