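import Pool.Agent.Lib_helper36.SRC.WCone
import Pool.Agent.Lib_helper36.SRC.Mean

set_option autoImplicit false

/-! # Weighted independence series on vertex subsets: deletion, product, derivative, the identity
`P' - μ P = (1 - x) R`. -/

namespace Pool.Agent.Lib_helper36.SRC

open Finset PowerSeries

set_option linter.unusedSectionVars false

variable {V : Type} [DecidableEq V]

open Classical in
/-- independence series of the induced subgraph on `S` -/
noncomputable def IS (G : SimpleGraph V) (p : V → ℝ) (S : Finset V) : ℝ⟦X⟧ :=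
  ∑ I ∈ S.powerset.filter (fun I => Indep G I), C (∏ v ∈ I, p v) * (X - 1) ^ I.card

open Classical in
/-- `S` without the closed neighbourhood of `u` -/
noncomputable def del (G : SimpleGraph V) (S : Finset V) (u : V) : Finset V :=
  (S.erase u).filter (fun w => ¬ G.Adj u w)

lemma mem_del {G : SimpleGraph V} {S : Finset V} {u w : V} :
    w ∈ del G S u ↔ w ≠ u ∧ w ∈ S ∧ ¬ G.Adj u w := by
  classical
  simp [del, and_assoc]

lemma del_subset (G : SimpleGraph V) (S : Finset V) (u : V) : del G S u ⊆ S.erase u := by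
  intro w hw
  rw [mem_del] at hw
  exact mem_erase.2 ⟨hw.1, hw.2.1⟩

@[simp] lemma IS_empty (G : SimpleGraph V) (p : V → ℝ) : IS G p ∅ = 1 := by
  classical
  unfold IS
  rw [powerset_empty, filter_singleton, if_pos]
  · simp
  · intro u hu; simp at hu

lemma indep_insert {G : SimpleGraph V} {I : Finset V} {u : V} :
    Indep G (insert u I) ↔ Indep G I ∧ ∀ w ∈ I, ¬ G.Adj u w := by
  constructor
  · intro h
    exact ⟨fun a ha b hb => h a (mem_insert_of_mem ha) b (mem_insert_of_mem hb),
      fun w hw => h u (mem_insert_self _ _) w (mem_insert_of_mem hw)⟩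
  · rintro ⟨h1, h2⟩ a ha b hb hab
    rcases mem_insert.1 ha with ha' | ha'
    · rcases mem_insert.1 hb with hb' | hb'
      · rw [ha', hb'] at hab; exact G.loopless.irrefl _ hab
      · rw [ha'] at hab; exact h2 b hb' hab
    · rcases mem_insert.1 hb with hb' | hb'
      · rw [hb'] at hab; exact h2 a ha' hab.symm
      · exact h1 a ha' b hb' hab

/-- deletion -/
lemma IS_delete (G : SimpleGraph V) (p : V → ℝ) (S : Finset V) (u : V) (hu : u ∈ S) :
    IS G p S = IS G p (S.erase u) + C (p u) * (X - 1) * IS G p (del G S u) := by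
  classical
  unfold IS
  obtain ⟨T, hT, rfl⟩ : ∃ T, u ∉ T ∧ S = insert u T := ⟨S.erase u, by simp, (insert_erase hu).symm⟩
  rw [erase_insert hT]
  rw [powerset_insert, filter_union, sum_union]
  · congr 1
    rw [mul_sum]
    have hdel : ∀ I, I ⊆ T → ((Indep G (insert u I)) ↔ (Indep G I ∧ I ⊆ del G (insert u T) u)) := by
      intro I hI
      rw [indep_insert]
      constructor
      · rintro ⟨h1, h2⟩
        refine ⟨h1, fun w hw => mem_del.2 ⟨?_, mem_insert_of_mem (hI hw), h2 w hw⟩⟩
        rintro rfl; exact hT (hI hw)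
      · rintro ⟨h1, h2⟩
        exact ⟨h1, fun w hw => (mem_del.1 (h2 hw)).2.2⟩
    symm
    apply sum_bij (fun I _ => insert u I)
    · intro I hI
      simp only [mem_filter, mem_powerset] at hI
      have hIT : I ⊆ T := fun w hw => by
        have := mem_del.1 (hI.1 hw)
        rcases mem_insert.1 this.2.1 with h | h
        · exact absurd h this.1
        · exact h
      simp only [mem_filter, mem_image, mem_powerset]
      exact ⟨⟨I, hIT, rfl⟩, (hdel I hIT).2 ⟨hI.2, hI.1⟩⟩
    · intro I hI J hJ h
      simp only [mem_filter, mem_powerset] at hI hJ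
      have h1 : u ∉ I := fun hu => (mem_del.1 (hI.1 hu)).1 rfl
      have h2 : u ∉ J := fun hu => (mem_del.1 (hJ.1 hu)).1 rfl
      rw [← erase_insert h1, ← erase_insert h2, h]
    · intro J hJ
      simp only [mem_filter, mem_image, mem_powerset] at hJ
      obtain ⟨⟨I, hI, rfl⟩, hJ2⟩ := hJ
      have := (hdel I hI).1 hJ2
      exact ⟨I, by simp only [mem_filter, mem_powerset]; exact ⟨this.2, this.1⟩, rfl⟩
    · intro I hI
      simp only [mem_filter, mem_powerset] at hI
      have h1 : u ∉ I := fun hu => (mem_del.1 (hI.1 hu)).1 rfl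
      rw [prod_insert h1, card_insert_of_notMem h1, map_mul, pow_succ]
      ring
  · rw [disjoint_left]
    intro I hI hI'
    simp only [mem_filter, mem_image, mem_powerset] at hI hI'
    obtain ⟨⟨J, hJ, rfl⟩, _⟩ := hI'
    exact hT (hI.1 (mem_insert_self _ _))

/-- deletion, trivial case -/
lemma del_of_notMem (G : SimpleGraph V) (S : Finset V) (u : V) (h : ∀ w ∈ S, ¬ G.Adj u w) :
    del G S u = S.erase u := by
  ext w
  rw [mem_del, mem_erase]
  constructor
  · rintro ⟨h1, h2, _⟩; exact ⟨h1, h2⟩
  · rintro ⟨h1, h2⟩; exact ⟨h1, h2, h w h2⟩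

/-- product over parts without edges between them -/
lemma IS_union (G : SimpleGraph V) (p : V → ℝ) (S T : Finset V) (hd : Disjoint S T)
    (h : ∀ u ∈ S, ∀ w ∈ T, ¬ G.Adj u w) : IS G p (S ∪ T) = IS G p S * IS G p T := by
  induction hn : T.card using Nat.strong_induction_on generalizing T with
  | _ n ih =>
  subst hn
  rcases T.eq_empty_or_nonempty with rfl | ⟨u, hu⟩
  · simp
  · have huS : u ∉ S := fun h' => (disjoint_left.1 hd) h' hu
    rw [IS_delete G p (S ∪ T) u (mem_union_right _ hu), IS_delete G p T u hu]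
    have e1 : (S ∪ T).erase u = S ∪ T.erase u := by
      ext w
      simp only [mem_erase, mem_union]
      constructor
      · rintro ⟨h1, h2 | h2⟩
        · exact Or.inl h2
        · exact Or.inr ⟨h1, h2⟩
      · rintro (h2 | ⟨h1, h2⟩)
        · exact ⟨fun h => huS (h ▸ h2), Or.inl h2⟩
        · exact ⟨h1, Or.inr h2⟩
    have e2 : del G (S ∪ T) u = S ∪ del G T u := by
      ext w
      simp only [mem_del, mem_union]
      constructor
      · rintro ⟨h1, h2 | h2, h3⟩
        · exact Or.inl h2
        · exact Or.inr ⟨h1, h2, h3⟩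
      · rintro (h2 | ⟨h1, h2, h3⟩)
        · exact ⟨fun h => huS (h ▸ h2), Or.inl h2, fun ha => h w h2 u hu ha.symm⟩
        · exact ⟨h1, Or.inr h2, h3⟩
    rw [e1, e2]
    have c1 : (T.erase u).card < T.card := card_erase_lt_of_mem hu
    have c2 : (del G T u).card < T.card :=
      lt_of_le_of_lt (card_le_card (del_subset G T u)) c1
    have s1 : T.erase u ⊆ T := erase_subset _ _
    have s2 : del G T u ⊆ T := (del_subset G T u).trans s1
    rw [ih _ c1 (T.erase u) (disjoint_of_subset_right s1 hd) (fun a ha b hb => h a ha b (s1 hb)) rfl,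
      ih _ c2 (del G T u) (disjoint_of_subset_right s2 hd) (fun a ha b hb => h a ha b (s2 hb)) rfl]
    ring

lemma del_erase_comm (G : SimpleGraph V) (S : Finset V) (u v : V) :
    del G (S.erase u) v = (del G S v).erase u := by
  ext w; simp only [mem_del, mem_erase]; tauto

lemma del_del_comm (G : SimpleGraph V) (S : Finset V) (u v : V) :
    del G (del G S u) v = del G (del G S v) u := by
  ext w; simp only [mem_del]; tauto

/-- derivative -/
lemma IS_deriv (G : SimpleGraph V) (p : V → ℝ) (S : Finset V) :
    d⁄dX ℝ (IS G p S) = ∑ v ∈ S, C (p v) * IS G p (del G S v) := by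
  classical
  induction hn : S.card using Nat.strong_induction_on generalizing S with
  | _ n ih =>
  subst hn
  rcases S.eq_empty_or_nonempty with rfl | ⟨u, hu⟩
  · simp
  · have c1 : (S.erase u).card < S.card := card_erase_lt_of_mem hu
    have c2 : (del G S u).card < S.card :=
      lt_of_le_of_lt (card_le_card (del_subset G S u)) c1
    rw [IS_delete G p S u hu, map_add, ih _ c1 _ rfl]
    have hX : (d⁄dX ℝ) (X - 1 : ℝ⟦X⟧) = 1 := by
      rw [map_sub, derivative_X, Derivation.map_one_eq_zero, sub_zero]
    rw [Derivation.leibniz, ih _ c2 _ rfl, Derivation.leibniz, derivative_C, hX]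
    simp only [smul_eq_mul, mul_zero, add_zero, mul_one]
    rw [← add_sum_erase S (fun v => C (p v) * IS G p (del G S v)) hu]
    have h1 : ∀ v ∈ S.erase u, C (p v) * IS G p (del G S v)
        = C (p v) * IS G p (del G (S.erase u) v)
          + C (p u) * (X - 1) * (if G.Adj u v then 0 else C (p v) * IS G p (del G (del G S u) v)) := by
      intro v hv
      have hvu : v ≠ u := (mem_erase.1 hv).1
      rw [del_erase_comm]
      by_cases ha : G.Adj u v
      · rw [if_pos ha, mul_zero, add_zero]
        congr 2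
        symm
        apply erase_eq_of_notMem
        intro h
        exact (mem_del.1 h).2.2 ha.symm
      · rw [if_neg ha]
        have hud : u ∈ del G S v := mem_del.2 ⟨hvu.symm, hu, fun h => ha h.symm⟩
        rw [IS_delete G p (del G S v) u hud, del_del_comm]
        ring
    rw [sum_congr rfl h1, sum_add_distrib, ← mul_sum]
    have h2 : ∑ v ∈ S.erase u, (if G.Adj u v then 0 else C (p v) * IS G p (del G (del G S u) v))
        = ∑ v ∈ del G S u, C (p v) * IS G p (del G (del G S u) v) := by
      classical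
      unfold del
      rw [sum_filter]
      apply sum_congr rfl
      intro v _
      split_ifs <;> simp_all
    rw [h2]
    ring

/-- telescoping sum along a list of vertices -/
noncomputable def tel (G : SimpleGraph V) (p : V → ℝ) : Finset V → List V → ℝ⟦X⟧
  | _, [] => 0
  | S, u :: l => C (p u) * IS G p (del G S u) + tel G p (S.erase u) l

lemma tel_spec (G : SimpleGraph V) (p : V → ℝ) (l : List V) (S : Finset V) (hl : l.Nodup)
    (hS : ∀ u ∈ l, u ∈ S) :
    IS G p S = IS G p (S \ l.toFinset) + (X - 1) * tel G p S l := by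
  induction l generalizing S with
  | nil => simp [tel]
  | cons u l ih =>
    rw [List.nodup_cons] at hl
    have hu : u ∈ S := hS u (by simp)
    rw [IS_delete G p S u hu, ih (S.erase u) hl.2 (fun w hw => mem_erase.2
      ⟨fun h => hl.1 (h ▸ hw), hS w (by simp [hw])⟩)]
    have e : (S.erase u) \ l.toFinset = S \ (u :: l).toFinset := by
      ext w
      simp only [mem_sdiff, mem_erase, List.mem_toFinset, List.mem_cons]
      tauto
    rw [e]
    simp only [tel]
    ring

/-- total weight -/
noncomputable def wsum (p : V → ℝ) (S : Finset V) : ℝ := ∑ v ∈ S, p v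

/-- an order of the closed neighbourhood of every vertex -/
def IsNbhd (G : SimpleGraph V) (S : Finset V) (L : V → List V) : Prop :=
  ∀ v ∈ S, (L v).Nodup ∧ (∀ u ∈ L v, u ∈ S) ∧ S \ (L v).toFinset = del G S v

/-- the remainder `R` -/
noncomputable def RR (G : SimpleGraph V) (p : V → ℝ) (S : Finset V) (L : V → List V) : ℝ⟦X⟧ :=
  ∑ v ∈ S, C (p v) * tel G p S (L v)

/-- **Identity.** `P' - μ P = (1 - x) R` -/
theorem RR_spec (G : SimpleGraph V) (p : V → ℝ) (S : Finset V) (L : V → List V)
    (hL : IsNbhd G S L) :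
    d⁄dX ℝ (IS G p S) - C (wsum p S) * IS G p S = (1 - X) * RR G p S L := by
  rw [IS_deriv]
  unfold wsum RR
  rw [map_sum, sum_mul, ← sum_sub_distrib, mul_sum]
  apply sum_congr rfl
  intro v hv
  obtain ⟨h1, h2, h3⟩ := hL v hv
  have := tel_spec G p (L v) S h1 h2
  rw [h3] at this
  calc C (p v) * IS G p (del G S v) - C (p v) * IS G p S
      = C (p v) * (IS G p (del G S v) - IS G p S) := by ring
    _ = C (p v) * (IS G p (del G S v) - (IS G p (del G S v) + (X - 1) * tel G p S (L v))) := by
        rw [← this]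
    _ = _ := by ring

/-- induction step: `R ∈ W (μ - 1)` gives `P ∈ W μ` -/
theorem InW_of_RR (G : SimpleGraph V) (p : V → ℝ) (S : Finset V) (L : V → List V)
    (hL : IsNbhd G S L) (h0 : 0 ≤ constantCoeff (IS G p S))
    (hR : InW (wsum p S - 1) (RR G p S L)) : InW (wsum p S) (IS G p S) :=
  InW.of_deriv h0 hR (RR_spec G p S L hL)

/-- coercion of the polynomial version -/
lemma coe_IP [Fintype V] (G : SimpleGraph V) (p : V → ℝ) :
    ((IP G p (Polynomial.X - 1) : Polynomial ℝ) : ℝ⟦X⟧) = IS G p univ := by
  classical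
  unfold IP IS
  rw [powerset_univ]
  have : ∀ (s : Finset (Finset V)) (f : Finset V → Polynomial ℝ),
      ((∑ I ∈ s, f I : Polynomial ℝ) : ℝ⟦X⟧) = ∑ I ∈ s, ((f I : Polynomial ℝ) : ℝ⟦X⟧) := by
    intro s f
    exact map_sum (Polynomial.coeToPowerSeries.ringHom (R := ℝ)) f s
  rw [this]
  apply sum_congr rfl
  intro I _
  rw [Polynomial.coe_mul, Polynomial.coe_pow, Polynomial.coe_sub, Polynomial.coe_X,
    Polynomial.coe_one, Polynomial.coe_C]

end Pool.Agent.Lib_helper36.SRC
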