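import Pool.Agent.Lib_helper36.SRC.Upper
import Pool.Agent.Lib_helper19.Src.Main

set_option autoImplicit false

/-! Number of sources of a random orientation and the weighted independence polynomial. -/

namespace Pool.Agent.Lib_helper36.SRC

open Finset Polynomial
open Pool.Agent.Lib_helper19.Src (Orient numSources numOrient prob)

variable {V : Type} [Fintype V] [DecidableEq V]

/-- `v` is a source -/
def IsSource {V : Type} (G : SimpleGraph V) (o : Orient G) (v : V) : Prop :=
  ∀ e : G.edgeSet, (o e : V) ≠ v

open Classical in
lemma numSources_eq (G : SimpleGraph V) (o : Orient G) :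
    numSources G o = (univ.filter (fun v => IsSource G o v)).card := by
  unfold numSources
  rw [Set.ncard_eq_toFinset_card']
  congr 1
  ext v
  simp [IsSource]

open Classical in
/-- the fair weight `2^(-deg v)` -/
noncomputable def wt (G : SimpleGraph V) (v : V) : ℝ := (1 / 2 : ℝ) ^ G.degree v

open Classical in
/-- number of admissible heads of an edge -/
lemma heads_card (G : SimpleGraph V) (I : Finset V) (hI : Indep G I) (e : G.edgeSet) :
    (((univ : Finset {v : V // v ∈ (e : Sym2 V)}).filter
      (fun x : {v : V // v ∈ (e : Sym2 V)} => x.1 ∉ I)).card : ℝ)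
      = 2 * ∏ v ∈ I, (if v ∈ (e : Sym2 V) then (1 / 2 : ℝ) else 1) := by
  obtain ⟨e, he⟩ := e
  induction e using Sym2.ind with
  | _ a b =>
  have hadj : G.Adj a b := he
  have hab : a ≠ b := hadj.ne
  have hcard : ((univ : Finset {v : V // v ∈ (s(a, b) : Sym2 V)}).filter
      (fun x : {v : V // v ∈ (s(a, b) : Sym2 V)} => x.1 ∉ I)).card
      = (({a, b} : Finset V).filter (fun x => x ∉ I)).card := by
    apply card_bij (fun (x : {v : V // v ∈ (s(a, b) : Sym2 V)}) _ => x.1)
    · intro x hx
      have := x.2
      rw [Sym2.mem_iff] at this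
      simp only [mem_filter, mem_univ, true_and] at hx
      simp [hx, this]
    · intro x _ y _ h; exact Subtype.ext h
    · intro y hy
      simp only [mem_filter, mem_insert, mem_singleton] at hy
      exact ⟨⟨y, by rw [Sym2.mem_iff]; exact hy.1⟩, by simp [hy.2], rfl⟩
  simp only
  rw [hcard]
  have hprod : ∏ v ∈ I, (if v ∈ (s(a, b) : Sym2 V) then (1 / 2 : ℝ) else 1)
      = (1 / 2 : ℝ) ^ (I.filter (fun v => v ∈ (s(a, b) : Sym2 V))).card := by
    rw [prod_ite, prod_const, prod_const_one, mul_one]
  rw [hprod]
  by_cases ha : a ∈ I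
  · have hb : b ∉ I := fun hb => hI a ha b hb hadj
    have h1 : I.filter (fun v => v ∈ (s(a, b) : Sym2 V)) = {a} := by
      ext x
      simp only [mem_filter, Sym2.mem_iff, mem_singleton]
      constructor
      · rintro ⟨hx, rfl | rfl⟩
        · rfl
        · exact absurd hx hb
      · rintro rfl; exact ⟨ha, Or.inl rfl⟩
    have h2 : ({a, b} : Finset V).filter (fun x => x ∉ I) = {b} := by
      ext x
      simp only [mem_filter, mem_insert, mem_singleton]
      constructor
      · rintro ⟨rfl | rfl, hx⟩
        · exact absurd ha hx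
        · rfl
      · rintro rfl; exact ⟨Or.inr rfl, hb⟩
    rw [h1, h2]; simp
  · by_cases hb : b ∈ I
    · have h1 : I.filter (fun v => v ∈ (s(a, b) : Sym2 V)) = {b} := by
        ext x
        simp only [mem_filter, Sym2.mem_iff, mem_singleton]
        constructor
        · rintro ⟨hx, rfl | rfl⟩
          · exact absurd hx ha
          · rfl
        · rintro rfl; exact ⟨hb, Or.inr rfl⟩
      have h2 : ({a, b} : Finset V).filter (fun x => x ∉ I) = {a} := by
        ext x
        simp only [mem_filter, mem_insert, mem_singleton]
        constructor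
        · rintro ⟨rfl | rfl, hx⟩
          · rfl
          · exact absurd hb hx
        · rintro rfl; exact ⟨Or.inl rfl, ha⟩
      rw [h1, h2]; simp
    · have h1 : I.filter (fun v => v ∈ (s(a, b) : Sym2 V)) = ∅ := by
        ext x
        simp only [mem_filter, Sym2.mem_iff, notMem_empty, iff_false, not_and]
        rintro hx (rfl | rfl)
        · exact ha hx
        · exact hb hx
      have h2 : ({a, b} : Finset V).filter (fun x => x ∉ I) = {a, b} := by
        ext x
        simp only [mem_filter, mem_insert, mem_singleton]
        constructor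
        · exact fun h => h.1
        · rintro (rfl | rfl)
          · exact ⟨Or.inl rfl, ha⟩
          · exact ⟨Or.inr rfl, hb⟩
      rw [h1, h2, card_pair hab]; simp

open Classical in
/-- number of orientations for which all vertices of `I` are sources -/
lemma count_sources (G : SimpleGraph V) (I : Finset V) :
    (((univ : Finset (Orient G)).filter (fun o => ∀ v ∈ I, IsSource G o v)).card : ℝ)
      = if Indep G I then 2 ^ (Fintype.card G.edgeSet) * ∏ v ∈ I, wt G v else 0 := by
  have h1 : (univ : Finset (Orient G)).filter (fun o => ∀ v ∈ I, IsSource G o v)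
      = Fintype.piFinset (fun e : G.edgeSet =>
        (univ : Finset {v : V // v ∈ (e : Sym2 V)}).filter
          (fun x : {v : V // v ∈ (e : Sym2 V)} => x.1 ∉ I)) := by
    ext o
    rw [mem_filter, Fintype.mem_piFinset]
    constructor
    · intro h e
      rw [mem_filter]
      exact ⟨mem_univ _, fun he => h.2 _ he e rfl⟩
    · intro h
      refine ⟨mem_univ _, fun v hv e he => ?_⟩
      have := (mem_filter.1 (h e)).2
      exact this (he ▸ hv)
  rw [h1, Fintype.card_piFinset]
  push_cast
  split_ifs with hI
  · rw [prod_congr rfl (fun e _ => heads_card G I hI e), prod_mul_distrib, prod_const,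
      prod_comm]
    congr 1
    apply prod_congr rfl
    intro v _
    rw [prod_ite, prod_const, prod_const_one, mul_one, wt]
    congr 1
    rw [← G.card_incidenceSet_eq_degree v]
    rw [Fintype.card_of_subtype (univ.filter (fun e : G.edgeSet => v ∈ (e : Sym2 V)) |>.map
      (Function.Embedding.subtype (fun e : Sym2 V => e ∈ G.edgeSet)))]
    · rw [card_map]
    · intro e
      simp only [mem_map, mem_filter, mem_univ, true_and, Function.Embedding.coe_subtype,
        Subtype.exists, exists_and_left, exists_prop, exists_eq_right_right]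
      constructor
      · rintro ⟨h1, h2⟩; exact ⟨h2, h1⟩
      · rintro ⟨h1, h2⟩; exact ⟨h2, h1⟩
  · unfold Indep at hI
    push Not at hI
    obtain ⟨u, hu, w, hw, huw⟩ := hI
    apply prod_eq_zero (mem_univ (⟨s(u, w), huw⟩ : G.edgeSet))
    rw [Nat.cast_eq_zero, card_eq_zero]
    ext x
    simp only [mem_filter, mem_univ, true_and, notMem_empty, iff_false, not_not]
    have := x.2
    rw [Sym2.mem_iff] at this
    rcases this with h | h
    · rw [h]; exact hu
    · rw [h]; exact hw

open Classical in
/-- generating function of the number of sources -/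
theorem gen_orient (G : SimpleGraph V) :
    ∑ o : Orient G, (X : ℝ[X]) ^ numSources G o
      = C (2 ^ (Fintype.card G.edgeSet)) * IP G (wt G) (X - 1) := by
  have h1 : ∀ o : Orient G, (X : ℝ[X]) ^ numSources G o
      = ∑ I : Finset V, if (∀ v ∈ I, IsSource G o v) then (X - 1 : ℝ[X]) ^ I.card else 0 := by
    intro o
    have e1 : (X : ℝ[X]) ^ numSources G o
        = ∏ v : V, (1 + (if IsSource G o v then (X - 1 : ℝ[X]) else 0)) := by
      have : ∀ v : V, (1 + (if IsSource G o v then (X - 1 : ℝ[X]) else 0))
          = if IsSource G o v then X else 1 := by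
        intro v; split_ifs <;> ring
      rw [prod_congr rfl (fun v _ => this v), prod_ite, prod_const, prod_const_one, mul_one,
        numSources_eq]
    rw [e1, Finset.prod_one_add, powerset_univ]
    apply sum_congr rfl
    intro I _
    split_ifs with h
    · rw [prod_congr rfl (fun v hv => if_pos (h v hv)), prod_const]
    · push Not at h
      obtain ⟨v, hv, hv'⟩ := h
      exact prod_eq_zero hv (if_neg hv')
  rw [sum_congr rfl (fun o _ => h1 o), sum_comm]
  have h2 : ∀ I : Finset V, ∑ o : Orient G, (if (∀ v ∈ I, IsSource G o v)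
      then (X - 1 : ℝ[X]) ^ I.card else 0)
      = C (((univ : Finset (Orient G)).filter (fun o => ∀ v ∈ I, IsSource G o v)).card : ℝ)
        * (X - 1) ^ I.card := by
    intro I
    rw [← sum_filter, sum_const, nsmul_eq_mul]
    simp
  rw [sum_congr rfl (fun I _ => h2 I)]
  unfold IP
  rw [mul_sum, sum_filter]
  apply sum_congr rfl
  intro I _
  rw [count_sources]
  split_ifs with h
  · rw [C_mul]; ring
  · simp

open Classical in
/-- the law of the number of sources is the weighted independence polynomial at `x - 1` -/
theorem prob_eq (G : SimpleGraph V) (j : ℕ) :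
    prob G j = (IP G (wt G) (X - 1)).coeff j := by
  have h := congrArg (fun f : ℝ[X] => f.coeff j) (gen_orient G)
  simp only [finsetSum_coeff, coeff_C_mul, coeff_X_pow] at h
  have h2 : ∑ o : Orient G, (if j = numSources G o then (1 : ℝ) else 0) = (numOrient G j : ℝ) := by
    rw [← sum_filter, sum_const, nsmul_eq_mul, mul_one]
    congr 1
    unfold numOrient
    rw [Set.ncard_eq_toFinset_card']
    congr 1
    ext o
    simp [eq_comm]
  rw [h2] at h
  unfold prob
  have h3 : G.edgeSet.ncard = Fintype.card G.edgeSet := by
    rw [Set.ncard_eq_toFinset_card', Set.toFinset_card]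
  rw [h, h3]
  have h4 : (2 : ℝ) ^ (Fintype.card G.edgeSet) * (1 / 2) ^ (Fintype.card G.edgeSet) = 1 := by
    rw [← mul_pow]; norm_num
  calc _ = ((2 : ℝ) ^ (Fintype.card G.edgeSet) * (1 / 2) ^ (Fintype.card G.edgeSet))
        * (IP G (wt G) (X - 1)).coeff j := by ring
    _ = _ := by rw [h4, one_mul]

/-- **Above the mean.** For every finite graph: `(j+1) P(Z = j+1) ≤ E Z · P(Z = j)`, `j ≥ E Z` -/
theorem upper_half (G : SimpleGraph V) (j : ℕ) (hj : ∑ v, wt G v ≤ j) :
    ((j : ℝ) + 1) * prob G (j + 1) ≤ (∑ v, wt G v) * prob G j := by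
  rw [prob_eq, prob_eq]
  exact upper_weights G (wt G) (fun v => by unfold wt; positivity) j hj

end Pool.Agent.Lib_helper36.SRC
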