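import Mathlib

set_option autoImplicit false

/-! Reduction of linear functionals of weighted independence polynomials to binomial powers. -/

namespace Pool.Agent.Lib_helper36.SRC

open Finset Polynomial

variable {V : Type} [Fintype V] [DecidableEq V]

/-- independence of a finite set of vertices -/
def Indep (G : SimpleGraph V) (I : Finset V) : Prop := ∀ u ∈ I, ∀ w ∈ I, ¬ G.Adj u w

open Classical in
/-- weighted independence polynomial, evaluated at the polynomial `Y` -/
noncomputable def IP (G : SimpleGraph V) (p : V → ℝ) (Y : ℝ[X]) : ℝ[X] :=
  ∑ I ∈ (univ : Finset (Finset V)).filter (fun I => Indep G I), C (∏ v ∈ I, p v) * Y ^ I.card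

/-- moving the weight along an edge -/
lemma IP_edge (G : SimpleGraph V) (p : V → ℝ) (Y : ℝ[X]) (u w : V) (huw : G.Adj u w)
    (hs : p u + p w ≠ 0) :
    IP G p Y = C (p u / (p u + p w)) * IP G (Function.update (Function.update p u (p u + p w)) w 0) Y
      + C (p w / (p u + p w)) * IP G (Function.update (Function.update p w (p u + p w)) u 0) Y := by
  classical
  have hne : u ≠ w := huw.ne
  unfold IP
  rw [mul_sum, mul_sum, ← sum_add_distrib]
  apply sum_congr rfl
  intro I hI
  have hI' : Indep G I := by simpa using hI
  rw [← mul_assoc, ← mul_assoc, ← C_mul, ← C_mul, ← add_mul, ← C_add]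
  congr 2
  by_cases hu : u ∈ I
  · have hw : w ∉ I := fun hw => hI' u hu w hw huw
    rw [← mul_prod_erase I p hu,
      ← mul_prod_erase I (Function.update (Function.update p u (p u + p w)) w 0) hu,
      ← mul_prod_erase I (Function.update (Function.update p w (p u + p w)) u 0) hu]
    have h1 : ∏ x ∈ I.erase u, Function.update (Function.update p u (p u + p w)) w 0 x
        = ∏ x ∈ I.erase u, p x := by
      apply prod_congr rfl
      intro x hx
      have hxu : x ≠ u := (mem_erase.1 hx).1
      have hxw : x ≠ w := fun h => hw (h ▸ (mem_erase.1 hx).2)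
      simp [Function.update_of_ne hxw, Function.update_of_ne hxu]
    rw [h1]
    simp only [Function.update_self, Function.update_of_ne hne, zero_mul, mul_zero, add_zero]
    field_simp
  · by_cases hw : w ∈ I
    · rw [← mul_prod_erase I p hw,
        ← mul_prod_erase I (Function.update (Function.update p u (p u + p w)) w 0) hw,
        ← mul_prod_erase I (Function.update (Function.update p w (p u + p w)) u 0) hw]
      have h1 : ∏ x ∈ I.erase w, Function.update (Function.update p w (p u + p w)) u 0 x
          = ∏ x ∈ I.erase w, p x := by
        apply prod_congr rfl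
        intro x hx
        have hxw : x ≠ w := (mem_erase.1 hx).1
        have hxu : x ≠ u := fun h => hu (h ▸ (mem_erase.1 hx).2)
        simp [Function.update_of_ne hxw, Function.update_of_ne hxu]
      rw [h1]
      simp only [Function.update_self, Function.update_of_ne hne.symm, zero_mul, mul_zero, zero_add]
      field_simp
    · have h1 : ∏ x ∈ I, Function.update (Function.update p w (p u + p w)) u 0 x
          = ∏ x ∈ I, p x := by
        apply prod_congr rfl
        intro x hx
        have hxw : x ≠ w := fun h => hw (h ▸ hx)
        have hxu : x ≠ u := fun h => hu (h ▸ hx)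
        simp [Function.update_of_ne hxw, Function.update_of_ne hxu]
      have h2 : ∏ x ∈ I, Function.update (Function.update p u (p u + p w)) w 0 x
          = ∏ x ∈ I, p x := by
        apply prod_congr rfl
        intro x hx
        have hxw : x ≠ w := fun h => hw (h ▸ hx)
        have hxu : x ≠ u := fun h => hu (h ▸ hx)
        simp [Function.update_of_ne hxw, Function.update_of_ne hxu]
      rw [h1, h2]
      field_simp

/-- no edge inside the support: product -/
lemma IP_edgeless (G : SimpleGraph V) (p : V → ℝ) (Y : ℝ[X])
    (h : ∀ u w, G.Adj u w → p u = 0 ∨ p w = 0) :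
    IP G p Y = ∏ v, (1 + C (p v) * Y) := by
  classical
  rw [Finset.prod_one_add]
  unfold IP
  rw [powerset_univ]
  rw [← sum_filter_add_sum_filter_not univ (fun I => Indep G I)
    (fun t : Finset V => ∏ i ∈ t, C (p i) * Y)]
  have h0 : ∑ I ∈ (univ : Finset (Finset V)).filter (fun I => ¬ Indep G I), ∏ i ∈ I, C (p i) * Y
      = 0 := by
    apply sum_eq_zero
    intro I hI
    have hI' : ¬ Indep G I := by simpa using hI
    unfold Indep at hI'
    push Not at hI'
    obtain ⟨u, hu, w, hw, huw⟩ := hI'
    rcases h u w huw with h | h
    · exact prod_eq_zero hu (by simp [h])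
    · exact prod_eq_zero hw (by simp [h])
  rw [h0, add_zero]
  apply sum_congr rfl
  intro I _
  rw [prod_mul_distrib, prod_const, map_prod]

lemma prod_two (p : V → ℝ) (Y : ℝ[X]) (a b : V) (hab : a ≠ b) :
    ∏ v, (1 + C (p v) * Y) = (1 + C (p a) * Y) * ((1 + C (p b) * Y) *
      ∏ v ∈ (univ.erase a).erase b, (1 + C (p v) * Y)) := by
  rw [mul_prod_erase (univ.erase a) (fun v => (1 + C (p v) * Y)) (by simp [hab.symm]),
    mul_prod_erase univ (fun v => (1 + C (p v) * Y)) (by simp)]

lemma prod_two_update (p : V → ℝ) (Y : ℝ[X]) (a b : V) (hab : a ≠ b) (s t : ℝ) :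
    ∏ v, (1 + C (Function.update (Function.update p a s) b t v) * Y)
      = (1 + C s * Y) * ((1 + C t * Y) *
      ∏ v ∈ (univ.erase a).erase b, (1 + C (p v) * Y)) := by
  rw [prod_two _ Y a b hab]
  congr 1
  · simp [Function.update_of_ne hab]
  · congr 1
    · simp
    · apply prod_congr rfl
      intro x hx
      simp only [mem_erase] at hx
      rw [Function.update_of_ne hx.1, Function.update_of_ne hx.2.1]

lemma L_two (L : ℝ[X] →ₗ[ℝ] ℝ) (Y R : ℝ[X]) (s t : ℝ) :
    L ((1 + C s * Y) * ((1 + C t * Y) * R))
      = L R + (s + t) * L (Y * R) + s * t * L (Y * (Y * R)) := by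
  have : (1 + C s * Y) * ((1 + C t * Y) * R)
      = R + (s + t) • (Y * R) + (s * t) • (Y * (Y * R)) := by
    simp only [smul_eq_C_mul, C_add, C_mul]
    ring
  rw [this, map_add, map_add, map_smul, map_smul]
  simp

/-- sum after moving weights inside a pair -/
lemma sum_update_two (p : V → ℝ) (a b : V) (hab : a ≠ b) (s t : ℝ) (h : s + t = p a + p b) :
    ∑ v, Function.update (Function.update p a s) b t v = ∑ v, p v := by
  rw [← add_sum_erase univ p (mem_univ a),
    ← add_sum_erase (univ.erase a) p (show b ∈ univ.erase a by simp [hab.symm]),
    ← add_sum_erase univ (Function.update (Function.update p a s) b t) (mem_univ a),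
    ← add_sum_erase (univ.erase a) (Function.update (Function.update p a s) b t)
      (show b ∈ univ.erase a by simp [hab.symm])]
  have h1 : ∑ x ∈ (univ.erase a).erase b, Function.update (Function.update p a s) b t x
      = ∑ x ∈ (univ.erase a).erase b, p x := by
    apply sum_congr rfl
    intro x hx
    simp only [mem_erase] at hx
    rw [Function.update_of_ne hx.1, Function.update_of_ne hx.2.1]
  rw [h1]
  simp only [Function.update_of_ne hab, Function.update_self]
  linarith

/-- equalization for products -/
lemma reduce_prod (L : ℝ[X] →ₗ[ℝ] ℝ) (Y : ℝ[X]) (μ : ℝ) (n : ℕ)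
    (hL : ∀ N : ℕ, N ≤ n → ∀ s : ℝ, 0 ≤ s → (N : ℝ) * s = μ → L ((1 + C s * Y) ^ N) ≤ 0)
    (hn : Fintype.card V = n) :
    ∀ m k : ℕ, ∀ p : V → ℝ, (∀ v, 0 ≤ p v) → ∑ v, p v = μ →
      (univ.filter (fun v => p v ≠ 0)).card = m →
      (univ.filter (fun v => p v ≠ 0 ∧ p v ≠ μ / m)).card = k →
      L (∏ v, (1 + C (p v) * Y)) ≤ 0 := by
  intro m
  induction m using Nat.strong_induction_on with
  | _ m ihm =>
  intro k
  induction k using Nat.strong_induction_on with
  | _ k ihk =>
  intro p hp hsum hm hk
  by_cases hbad : ∃ v, p v ≠ 0 ∧ p v ≠ μ / m
  · -- a pair around the mean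
    obtain ⟨v0, hv0, hv1⟩ := hbad
    set S := univ.filter (fun v => p v ≠ 0) with hS
    have hmpos : 0 < m := by
      rw [← hm]; exact card_pos.2 ⟨v0, by simp [hS, hv0]⟩
    have hmr : (0 : ℝ) < m := by exact_mod_cast hmpos
    have hsumS : ∑ v ∈ S, (p v - μ / m) = 0 := by
      rw [sum_sub_distrib, sum_const, hm, nsmul_eq_mul]
      have : ∑ v ∈ S, p v = μ := by
        rw [← hsum, hS, sum_filter_ne_zero]
      rw [this]
      field_simp
      ring
    have hμ : 0 ≤ μ / m := by
      apply div_nonneg _ hmr.le
      rw [← hsum]; exact sum_nonneg (fun v _ => hp v)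
    obtain ⟨b, hbS, hb⟩ := exists_pos_of_sum_zero_of_exists_nonzero (fun v => p v - μ / m) hsumS
      ⟨v0, by simp [hS, hv0], by simpa [sub_eq_zero] using hv1⟩
    have hsumS' : ∑ v ∈ S, -(p v - μ / m) = 0 := by rw [sum_neg_distrib, hsumS, neg_zero]
    obtain ⟨a, haS, ha⟩ := exists_pos_of_sum_zero_of_exists_nonzero (fun v => -(p v - μ / m)) hsumS'
      ⟨v0, by simp [hS, hv0], by
        intro h
        apply hv1
        have : -(p v0 - μ / m) = 0 := h
        linarith⟩
    have ha' : p a < μ / m := by linarith
    have hb' : μ / m < p b := by linarith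
    have ha0 : p a ≠ 0 := by simpa [hS] using haS
    have hb0 : p b ≠ 0 := by simpa [hS] using hbS
    have hab : a ≠ b := by rintro rfl; linarith
    have hap : 0 < p a := lt_of_le_of_ne (hp a) (Ne.symm ha0)
    have hbp : 0 < p b := lt_of_le_of_ne (hp b) (Ne.symm hb0)
    set R := ∏ v ∈ (univ.erase a).erase b, (1 + C (p v) * Y) with hR
    have hP : L (∏ v, (1 + C (p v) * Y))
        = L R + (p a + p b) * L (Y * R) + p a * p b * L (Y * (Y * R)) := by
      rw [prod_two p Y a b hab, L_two]
    by_cases hc : L (Y * (Y * R)) ≤ 0
    · -- move everything to b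
      set q := Function.update (Function.update p a 0) b (p a + p b) with hq
      have hqP : L (∏ v, (1 + C (q v) * Y)) = L R + (0 + (p a + p b)) * L (Y * R)
          + 0 * (p a + p b) * L (Y * (Y * R)) := by
        rw [hq, prod_two_update p Y a b hab, L_two]
      have hqle : L (∏ v, (1 + C (q v) * Y)) ≤ 0 := by
        have hcard : (univ.filter (fun v => q v ≠ 0)).card < m := by
          rw [← hm]
          apply card_lt_card
          refine ⟨?_, ?_⟩
          · intro x hx
            simp only [mem_filter, mem_univ, true_and, hq] at hx
            by_cases hxb : x = b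
            · rw [hxb]; exact hbS
            · by_cases hxa : x = a
              · exfalso
                rw [hxa] at hx
                rw [Function.update_of_ne hab, Function.update_self] at hx
                exact hx rfl
              · rw [Function.update_of_ne hxb, Function.update_of_ne hxa] at hx
                simp [hS, hx]
          · intro h
            have := h haS
            simp only [mem_filter, mem_univ, true_and, hq] at this
            rw [Function.update_of_ne hab, Function.update_self] at this
            exact this rfl
        refine ihm _ hcard _ q ?_ ?_ rfl rfl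
        · intro v
          rw [hq]
          by_cases hvb : v = b
          · rw [hvb, Function.update_self]; linarith
          · by_cases hva : v = a
            · rw [hva, Function.update_of_ne hab, Function.update_self]
            · rw [Function.update_of_ne hvb, Function.update_of_ne hva]; exact hp v
        · rw [hq, sum_update_two p a b hab _ _ (by ring), hsum]
      rw [hqP] at hqle
      rw [hP]
      nlinarith [mul_nonneg hap.le hbp.le]
    · -- put a at the mean
      push Not at hc
      set q := Function.update (Function.update p a (μ / m)) b (p a + p b - μ / m) with hq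
      have hqP : L (∏ v, (1 + C (q v) * Y)) = L R + (μ / m + (p a + p b - μ / m)) * L (Y * R)
          + (μ / m) * (p a + p b - μ / m) * L (Y * (Y * R)) := by
        rw [hq, prod_two_update p Y a b hab, L_two]
      have hmpos' : 0 < μ / m := lt_trans hap ha'
      have hqa : q a = μ / m := by rw [hq, Function.update_of_ne hab, Function.update_self]
      have hqb : q b = p a + p b - μ / m := by rw [hq, Function.update_self]
      have hqo : ∀ x, x ≠ a → x ≠ b → q x = p x := by
        intro x hxa hxb
        rw [hq, Function.update_of_ne hxb, Function.update_of_ne hxa]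
      have hsupp : univ.filter (fun v => q v ≠ 0) = S := by
        ext x
        simp only [mem_filter, mem_univ, true_and, hS]
        by_cases hxa : x = a
        · rw [hxa, hqa]; exact ⟨fun _ => ha0, fun _ => hmpos'.ne'⟩
        · by_cases hxb : x = b
          · rw [hxb, hqb]; exact ⟨fun _ => hb0, fun _ => by linarith⟩
          · rw [hqo x hxa hxb]
      have hqle : L (∏ v, (1 + C (q v) * Y)) ≤ 0 := by
        have hcard : (univ.filter (fun v => q v ≠ 0 ∧ q v ≠ μ / m)).card < k := by
          rw [← hk]
          apply card_lt_card
          refine ⟨?_, ?_⟩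
          · intro x hx
            simp only [mem_filter, mem_univ, true_and] at hx ⊢
            by_cases hxa : x = a
            · rw [hxa, hqa] at hx; exact absurd rfl hx.2
            · by_cases hxb : x = b
              · rw [hxb]; exact ⟨hb0, hb'.ne'⟩
              · rw [hqo x hxa hxb] at hx; exact hx
          · intro h
            have h1 : a ∈ univ.filter (fun v => p v ≠ 0 ∧ p v ≠ μ / m) := by
              simp [ha0, ha'.ne]
            have := h h1
            simp only [mem_filter, mem_univ, true_and] at this
            exact this.2 hqa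
        refine ihk _ hcard q ?_ ?_ (by rw [hsupp, hm]) rfl
        · intro v
          by_cases hva : v = a
          · rw [hva, hqa]; exact hμ
          · by_cases hvb : v = b
            · rw [hvb, hqb]; linarith
            · rw [hqo v hva hvb]; exact hp v
        · rw [hq, sum_update_two p a b hab _ _ (by ring), hsum]
      rw [hqP] at hqle
      rw [hP]
      have : p a * p b ≤ (μ / m) * (p a + p b - μ / m) := by nlinarith
      nlinarith
  · -- all equal
    push Not at hbad
    have h1 : ∏ v, (1 + C (p v) * Y) = (1 + C (μ / m) * Y) ^ m := by
      have h2 : ∏ v, (1 + C (p v) * Y)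
          = ∏ v ∈ univ.filter (fun v => p v ≠ 0), (1 + C (p v) * Y) := by
        symm
        apply prod_subset (filter_subset _ _)
        intro x _ hx
        have : p x = 0 := by
          by_contra hne
          exact hx (by simp [hne])
        simp [this]
      rw [h2]
      have h3 : ∏ v ∈ univ.filter (fun v => p v ≠ 0), (1 + C (p v) * Y)
          = ∏ v ∈ univ.filter (fun v => p v ≠ 0), (1 + C (μ / m) * Y) := by
        apply prod_congr rfl
        intro x hx
        have hx' : p x ≠ 0 := by simpa using hx
        rw [hbad x hx']
      rw [h3, prod_const, hm]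
    rw [h1]
    apply hL m
    · rw [← hm, ← hn]; exact card_filter_le _ _
    · apply div_nonneg _ (by positivity)
      rw [← hsum]; exact sum_nonneg (fun v _ => hp v)
    · rcases Nat.eq_zero_or_pos m with h0 | h0
      · subst h0
        have : μ = 0 := by
          rw [← hsum]
          apply sum_eq_zero
          intro v _
          by_contra hv
          have : v ∈ univ.filter (fun v => p v ≠ 0) := by simp [hv]
          rw [card_eq_zero.1 hm] at this
          simp at this
        simp [this]
      · have : (m : ℝ) ≠ 0 := by exact_mod_cast h0.ne'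
        field_simp

/-- **Reduction.** A linear functional which is nonpositive on the binomial powers with total
weight `μ` is nonpositive on all weighted independence polynomials with total weight `μ`. -/
theorem reduce (G : SimpleGraph V) (L : ℝ[X] →ₗ[ℝ] ℝ) (Y : ℝ[X]) (μ : ℝ)
    (hL : ∀ N : ℕ, N ≤ Fintype.card V → ∀ s : ℝ, 0 ≤ s → (N : ℝ) * s = μ →
      L ((1 + C s * Y) ^ N) ≤ 0)
    (p : V → ℝ) (hp : ∀ v, 0 ≤ p v) (hsum : ∑ v, p v = μ) : L (IP G p Y) ≤ 0 := by
  classical
  -- induction on the size of the support
  suffices h : ∀ m : ℕ, ∀ p : V → ℝ, (∀ v, 0 ≤ p v) → ∑ v, p v = μ →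
      (univ.filter (fun v => p v ≠ 0)).card = m → L (IP G p Y) ≤ 0 from h _ p hp hsum rfl
  intro m
  induction m using Nat.strong_induction_on with
  | _ m ih =>
  intro p hp hsum hm
  by_cases he : ∃ u w, G.Adj u w ∧ p u ≠ 0 ∧ p w ≠ 0
  · obtain ⟨u, w, huw, hu, hw⟩ := he
    have hne : u ≠ w := huw.ne
    have hup : 0 < p u := lt_of_le_of_ne (hp u) (Ne.symm hu)
    have hwp : 0 < p w := lt_of_le_of_ne (hp w) (Ne.symm hw)
    have hs : p u + p w ≠ 0 := by positivity
    -- one move
    have key : ∀ a b : V, a ≠ b → p a ≠ 0 → p b ≠ 0 →
        L (IP G (Function.update (Function.update p a (p a + p b)) b 0) Y) ≤ 0 := by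
      intro a b hab ha hb
      set q := Function.update (Function.update p a (p a + p b)) b 0 with hq
      have hqa : q a = p a + p b := by rw [hq, Function.update_of_ne hab, Function.update_self]
      have hqb : q b = 0 := by rw [hq, Function.update_self]
      have hqo : ∀ x, x ≠ a → x ≠ b → q x = p x := by
        intro x hxa hxb
        rw [hq, Function.update_of_ne hxb, Function.update_of_ne hxa]
      have hcard : (univ.filter (fun v => q v ≠ 0)).card < m := by
        rw [← hm]
        apply card_lt_card
        refine ⟨?_, ?_⟩
        · intro x hx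
          simp only [mem_filter, mem_univ, true_and] at hx ⊢
          by_cases hxa : x = a
          · rw [hxa]; exact ha
          · by_cases hxb : x = b
            · rw [hxb]; exact hb
            · rw [hqo x hxa hxb] at hx; exact hx
        · intro h
          have h1 : b ∈ univ.filter (fun v => p v ≠ 0) := by simp [hb]
          have := h h1
          simp only [mem_filter, mem_univ, true_and] at this
          exact this hqb
      refine ih _ hcard q ?_ ?_ rfl
      · intro v
        by_cases hva : v = a
        · rw [hva, hqa]; exact add_nonneg (hp a) (hp b)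
        · by_cases hvb : v = b
          · rw [hvb, hqb]
          · rw [hqo v hva hvb]; exact hp v
      · rw [hq, sum_update_two p a b hab _ _ (by ring), hsum]
    rw [IP_edge G p Y u w huw hs, map_add]
    have e1 : L (C (p u / (p u + p w)) *
        IP G (Function.update (Function.update p u (p u + p w)) w 0) Y)
        = (p u / (p u + p w)) * L (IP G (Function.update (Function.update p u (p u + p w)) w 0) Y) := by
      rw [← smul_eq_C_mul, map_smul, smul_eq_mul]
    have e2 : L (C (p w / (p u + p w)) *
        IP G (Function.update (Function.update p w (p u + p w)) u 0) Y)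
        = (p w / (p u + p w)) * L (IP G (Function.update (Function.update p w (p u + p w)) u 0) Y) := by
      rw [← smul_eq_C_mul, map_smul, smul_eq_mul]
    rw [e1, e2]
    have k1 := key u w hne hu hw
    have k2 := key w u hne.symm hw hu
    rw [add_comm (p w) (p u)] at k2
    have c1 : 0 ≤ p u / (p u + p w) := by positivity
    have c2 : 0 ≤ p w / (p u + p w) := by positivity
    nlinarith [mul_nonneg c1 (neg_nonneg.2 k1), mul_nonneg c2 (neg_nonneg.2 k2)]
  · push Not at he
    rw [IP_edgeless G p Y (by
      intro u w huw
      by_contra h
      push Not at h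
      exact h.2 (he u w huw h.1))]
    exact reduce_prod L Y μ _ hL rfl _ _ p hp hsum rfl rfl

end Pool.Agent.Lib_helper36.SRC
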