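import Pool.Agent.Lib_helper36.SRC.RT

set_option autoImplicit false

/-! # The induction scheme: all trees are good, from three cases at a vertex of depth two -/

namespace Pool.Agent.Lib_helper36.SRC

open PowerSeries

namespace RT

/-- a single vertex -/
def IsLeaf (c : RT) : Prop := c.kids = []

/-- a star, rooted at its centre -/
def IsStar (c : RT) : Prop := c.kids ≠ [] ∧ ∀ d ∈ c.kids, IsLeaf d

/-- stars are good -/
def StarBase : Prop := ∀ n : ℕ, GoodUpTo n → ∀ c : RT, size c ≤ n + 1 → IsStar c → Good c

/-- case I: a star whose centre is heavier than its neighbour `u` (the root of `R`) -/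
def CaseI : Prop := ∀ n : ℕ, GoodUpTo n → ∀ c R : RT, size c + size R ≤ n + 1 → IsStar c →
  (∀ d ∈ c.kids, 2 * t c ≤ t d) → 2 * t R ≤ t c → GoodJ c R

/-- case II: the centre is lighter than `u`, and `u` has a leaf `l` -/
def CaseII : Prop := ∀ n : ℕ, GoodUpTo n → ∀ (c l : RT) (h : ℕ) (cs : List RT),
  size c + size (node h (l :: cs)) ≤ n + 1 → IsStar c → IsLeaf l → (∀ d ∈ c.kids, 2 * t c ≤ t d) →
  2 * t c ≤ t (node h (l :: cs)) → 2 * t (node h (l :: cs)) ≤ t l → GoodJ c (node h (l :: cs))

/-- case III: `u` has the neighbour `w` (the root of `W`) and otherwise only lighter centres of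
stars -/
def CaseIII : Prop := ∀ n : ℕ, GoodUpTo n → ∀ (h : ℕ) (cs : List RT) (W : RT),
  size (node h cs) + size W ≤ n + 1 → cs ≠ [] →
  (∀ c ∈ cs, IsStar c ∧ (∀ d ∈ c.kids, 2 * t c ≤ t d) ∧ 2 * t c ≤ t (node h cs)) →
  ¬ IsLeaf W → t W ≠ t (node h cs) → GoodJ (node h cs) W

lemma t_cmp (U W : RT) : t U = t W ∨ 2 * t U ≤ t W ∨ 2 * t W ≤ t U := by
  unfold t
  set a := U.hh + U.kids.length + 1
  set b := W.hh + W.kids.length + 1
  have aux : ∀ m k : ℕ, m < k → 2 * ((1 : ℝ) / 2) ^ k ≤ (1 / 2) ^ m := by
    intro m k hmk
    obtain ⟨j, rfl⟩ : ∃ j, k = m + 1 + j := ⟨k - (m + 1), by omega⟩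
    rw [pow_add, pow_add]
    have h1 : ((1 : ℝ) / 2) ^ j ≤ 1 := pow_le_one₀ (by norm_num) (by norm_num)
    have h2 : 0 ≤ ((1 : ℝ) / 2) ^ m := by positivity
    nlinarith
  rcases lt_trichotomy a b with h | h | h
  · exact Or.inr (Or.inr (aux a b h))
  · exact Or.inl (by rw [h])
  · exact Or.inr (Or.inl (aux b a h))

lemma t_length (h : ℕ) {cs ds : List RT} (hl : cs.length = ds.length) :
    t (node h cs) = t (node h ds) := by
  unfold t; rw [hh_node, hh_node, kids_node, kids_node, hl]

/-- the vertex `u = node h ks`, looked at from its neighbour `c` -/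
lemma good_of_mem (h : ℕ) (c : RT) (ks rest : List RT) (hp : ks.Perm (c :: rest))
    (hg : GoodJ c (node h rest)) : Good (node h ks) :=
  (good_perm h hp).2 ((good_cons h c rest).2 hg)

lemma t_rest (h : ℕ) (c : RT) (rest : List RT) : t (node h rest) = 2 * t (node h (c :: rest)) :=
  (t_cons h c rest).symm

/-- a star child heavier than `u` -/
lemma good_of_star_heavy (h1 : CaseI) {n : ℕ} (hn : GoodUpTo n) (c R : RT)
    (hs : size c + size R ≤ n + 1) (hc : IsStar c) (ht : 2 * t R ≤ t c) : GoodJ c R := by
  by_cases hall : ∀ d ∈ c.kids, 2 * t c ≤ t d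
  · exact h1 n hn c R hs hc hall ht
  · push Not at hall
    obtain ⟨d, hd, hdt⟩ := hall
    obtain ⟨g, cs, rfl⟩ := exists_node c
    simp only [kids_node] at hd
    obtain ⟨l1, l2, rfl⟩ := List.append_of_mem hd
    have hp : (l1 ++ d :: l2).Perm (d :: (l1 ++ l2)) := List.perm_middle
    have hleaf : IsLeaf d := hc.2 d (by simp)
    have hdn : d = node d.hh [] := by
      have := eta d; rw [hleaf] at this; exact this.symm
    rw [goodJ_perm g hp, goodJ_move]
    have e1 : t (node g (R :: (l1 ++ l2))) = t (node g (l1 ++ d :: l2)) :=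
      t_length g (by simp; omega)
    have hle : t d ≤ t (node g (R :: (l1 ++ l2))) := by
      rw [e1]
      rcases t_cmp d (node g (l1 ++ d :: l2)) with h | h | h
      · exact h.le
      · have := t_pos d; linarith
      · linarith
    rw [hdn] at hle ⊢
    apply goodJ_thin_leaf hn _ _ _ hle
    rw [size_node] at hs ⊢
    rw [sizeL_perm hp, sizeL_cons] at hs
    rw [sizeL_cons]
    have := size_pos d
    omega

/-- **The vertex of depth two.** -/
theorem good_key (h1 : CaseI) (h2 : CaseII) (h3 : CaseIII) {n : ℕ} (hn : GoodUpTo n) (h : ℕ)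
    (W : RT) (cs : List RT) (hs : size W + sizeL cs ≤ n) (hcs : ∀ c ∈ cs, IsLeaf c ∨ IsStar c)
    (hex : ∃ c ∈ cs, IsStar c) : Good (node h (W :: cs)) := by
  -- the weight of `u`
  set u := t (node h cs) with hu
  -- look at `u` from the child `c`
  have look : ∀ c ∈ cs, ∃ rest : List RT, (W :: cs).Perm (c :: rest) ∧
      size c + size (node h rest) ≤ n + 1 ∧ t (node h rest) = u ∧ size (node h rest) ≤ n ∧
      size c ≤ n := by
    intro c hc
    obtain ⟨l1, l2, rfl⟩ := List.append_of_mem hc
    refine ⟨W :: (l1 ++ l2), ?_, ?_, ?_, ?_, ?_⟩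
    · exact (List.perm_middle.cons W).trans (List.Perm.swap _ _ _)
    · rw [size_node, sizeL_cons]
      rw [sizeL_perm (List.perm_middle), sizeL_cons] at hs
      omega
    · rw [hu]; exact t_length h (by simp; omega)
    · rw [size_node, sizeL_cons]
      rw [sizeL_perm (List.perm_middle), sizeL_cons] at hs
      have := size_pos c
      omega
    · have := size_lt_of_mem hc; omega
  -- equal weights
  by_cases heq : ∃ c ∈ cs, t c = u
  · obtain ⟨c, hc, hct⟩ := heq
    obtain ⟨rest, hp, _, ht, hsr, hsc⟩ := look c hc
    exact good_of_mem h c _ rest hp (goodJ_of_t_eq hn c _ hsc hsr (by rw [hct, ht]))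
  push Not at heq
  -- thin leaves
  by_cases hthin : ∃ c ∈ cs, IsLeaf c ∧ t c ≤ u
  · obtain ⟨c, hc, hl, hct⟩ := hthin
    obtain ⟨rest, hp, _, ht, hsr, _⟩ := look c hc
    have hcn : c = node c.hh [] := by
      have := eta c; rw [hl] at this; exact this.symm
    apply good_of_mem h c _ rest hp
    rw [hcn] at hct ⊢
    exact goodJ_thin_leaf hn _ _ hsr (by rw [ht]; exact hct)
  push Not at hthin
  -- heavy centres
  by_cases hheavy : ∃ c ∈ cs, IsStar c ∧ 2 * u ≤ t c
  · obtain ⟨c, hc, hst, hct⟩ := hheavy
    obtain ⟨rest, hp, hsz, ht, _, _⟩ := look c hc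
    exact good_of_mem h c _ rest hp (good_of_star_heavy h1 hn c _ hsz hst (by rw [ht]; exact hct))
  push Not at hheavy
  -- all centres are lighter than `u`
  have hlight : ∀ c ∈ cs, IsStar c → 2 * t c ≤ u := by
    intro c hc hst
    rcases t_cmp c (node h cs) with h' | h' | h'
    · exact absurd h' (heq c hc)
    · exact h'
    · exact absurd (hheavy c hc hst) (not_lt.2 h')
  -- thin leaves at a centre
  by_cases hall : ∃ c ∈ cs, IsStar c ∧ ∃ d ∈ c.kids, ¬ 2 * t c ≤ t d
  · obtain ⟨c, hc, hst, d, hd, hdt⟩ := hall
    obtain ⟨rest, hp, hsz, ht, hsr, hsc⟩ := look c hc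
    apply good_of_mem h c _ rest hp
    obtain ⟨g, ds, rfl⟩ := exists_node c
    simp only [kids_node] at hd
    obtain ⟨l1, l2, rfl⟩ := List.append_of_mem hd
    have hp2 : (l1 ++ d :: l2).Perm (d :: (l1 ++ l2)) := List.perm_middle
    have hleaf : IsLeaf d := hst.2 d (by simp)
    have hdn : d = node d.hh [] := by
      have := eta d; rw [hleaf] at this; exact this.symm
    rw [goodJ_perm g hp2, goodJ_move]
    have e1 : t (node g (node h rest :: (l1 ++ l2))) = t (node g (l1 ++ d :: l2)) :=
      t_length g (by simp; omega)
    have hle : t d ≤ t (node g (node h rest :: (l1 ++ l2))) := by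
      rw [e1]
      rcases t_cmp d (node g (l1 ++ d :: l2)) with h' | h' | h'
      · exact h'.le
      · have := t_pos d; linarith
      · exact absurd h' hdt
    rw [hdn] at hle ⊢
    apply goodJ_thin_leaf hn _ _ _ hle
    rw [size_node, sizeL_perm hp2, sizeL_cons] at hsz
    rw [size_node, sizeL_cons]
    have := size_pos d
    omega
  push Not at hall
  -- a leaf at `u`
  by_cases hW : IsLeaf W
  · -- `W` is a leaf
    obtain ⟨c, hc, hst⟩ := hex
    obtain ⟨l1, l2, rfl⟩ := List.append_of_mem hc
    have e0 : t (node h (l1 ++ c :: l2)) = t (node h (W :: (l1 ++ l2))) := t_length h (by simp; omega)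
    rcases t_cmp W (node h (l1 ++ c :: l2)) with h' | h' | h'
    · rw [good_cons]
      apply goodJ_of_t_eq hn _ _ (by omega) _ h'
      rw [size_node]
      have := size_pos W
      omega
    · have hWn : W = node W.hh [] := by
        have := eta W; rw [hW] at this; exact this.symm
      rw [good_cons]
      have hle : t W ≤ t (node h (l1 ++ c :: l2)) := by have := t_pos W; linarith
      have hsz : size (node h (l1 ++ c :: l2)) ≤ n := by
        rw [size_node]; have := size_pos W; omega
      rw [hWn] at hle ⊢
      exact goodJ_thin_leaf hn _ _ hsz hle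
    · have hp : (W :: (l1 ++ c :: l2)).Perm (c :: W :: (l1 ++ l2)) :=
        (List.perm_middle.cons W).trans (List.Perm.swap _ _ _)
      apply good_of_mem h c _ _ hp
      apply h2 n hn c W h (l1 ++ l2) _ hst hW (hall c hc hst) _ _
      · rw [size_node, sizeL_cons]
        rw [sizeL_perm (List.perm_middle), sizeL_cons] at hs
        omega
      · rw [← e0]; exact hlight c hc hst
      · rw [← e0]; exact h'
  by_cases hleaf : ∃ l ∈ cs, IsLeaf l
  · obtain ⟨l, hl, hll⟩ := hleaf
    obtain ⟨c, hc, hst⟩ := hex
    have hne : c ≠ l := by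
      rintro rfl; exact hst.1 hll
    obtain ⟨l1, l2, rfl⟩ := List.append_of_mem hl
    have hc' : c ∈ l1 ++ l2 := by
      rcases List.mem_append.1 hc with h' | h'
      · exact List.mem_append_left _ h'
      · rcases List.mem_cons.1 h' with h' | h'
        · exact absurd h' hne
        · exact List.mem_append_right _ h'
    obtain ⟨m1, m2, hm⟩ := List.append_of_mem hc'
    have hp : (W :: (l1 ++ l :: l2)).Perm (c :: l :: W :: (m1 ++ m2)) := by
      have p1 : (l1 ++ l :: l2).Perm (l :: (l1 ++ l2)) := List.perm_middle
      rw [hm] at p1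
      have p2 : (m1 ++ c :: m2).Perm (c :: (m1 ++ m2)) := List.perm_middle
      have p3 := p1.trans (p2.cons l)
      have p4 := p3.cons W
      exact p4.trans (((List.Perm.swap l W _).trans ((List.Perm.swap c W _).cons l)).trans
        (List.Perm.swap c l _))
    have hlen : (l1 ++ l :: l2).length = (l :: W :: (m1 ++ m2)).length := by
      have := hp.length_eq
      simp only [List.length_cons] at this ⊢
      omega
    apply good_of_mem h c _ _ hp
    have e0 : t (node h (l :: W :: (m1 ++ m2))) = u := (t_length h hlen).symm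
    apply h2 n hn c l h (W :: (m1 ++ m2)) _ hst hll (hall c hc hst) _ _
    · have := sizeL_perm hp
      rw [sizeL_cons, sizeL_cons c] at this
      rw [size_node]
      omega
    · rw [e0]; exact hlight c hc hst
    · rw [e0]
      rcases t_cmp l (node h (l1 ++ l :: l2)) with h' | h' | h'
      · exact absurd h' (heq l hl)
      · have h3' := hthin l hl hll
        have := t_pos l
        linarith
      · exact h'
  · push Not at hleaf
    rw [good_cons]
    apply GoodJ.comm
    by_cases hWt : t W = t (node h cs)
    · apply goodJ_of_t_eq hn _ _ _ (by omega) hWt.symm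
      rw [size_node]
      have := size_pos W
      omega
    · apply h3 n hn h cs W _ _ _ hW hWt
      · rw [size_node]; omega
      · obtain ⟨c, hc, _⟩ := hex
        exact List.ne_nil_of_mem hc
      · intro c hc
        have hst : IsStar c := (hcs c hc).resolve_left (hleaf c hc)
        exact ⟨hst, hall c hc hst, hlight c hc hst⟩

lemma depthL_zero_iff (cs : List RT) : depthL cs = 0 ↔ cs = [] := by
  constructor
  · intro h
    cases cs with
    | nil => rfl
    | cons c cs => rw [depthL] at h; omega
  · rintro rfl; rw [depthL]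

lemma depth_eq (T : RT) : depth T = depthL T.kids := by
  conv_lhs => rw [← eta T, depth_node]

lemma depth_lt_of_mem {c : RT} {cs : List RT} (hc : c ∈ cs) : depth c + 1 ≤ depthL cs := by
  induction cs with
  | nil => simp at hc
  | cons d ds ih =>
    rw [depthL]
    rcases List.mem_cons.1 hc with rfl | h
    · exact le_max_left _ _
    · exact (ih h).trans (le_max_right _ _)

lemma exists_deepest (cs : List RT) (h : cs ≠ []) : ∃ c ∈ cs, depth c + 1 = depthL cs := by
  induction cs with
  | nil => exact absurd rfl h
  | cons d ds ih =>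
    rw [depthL]
    by_cases hds : ds = []
    · subst hds
      refine ⟨d, by simp, ?_⟩
      rw [depthL]; simp
    · obtain ⟨c, hc, hcd⟩ := ih hds
      rcases le_total (depth d + 1) (depthL ds) with h' | h'
      · exact ⟨c, List.mem_cons_of_mem _ hc, by rw [max_eq_right h']; exact hcd⟩
      · exact ⟨d, by simp, by rw [max_eq_left h']⟩

lemma leaf_of_depth_zero {c : RT} (h : depth c = 0) : IsLeaf c := by
  rw [depth_eq, depthL_zero_iff] at h; exact h

lemma leaf_or_star_of_depth_le_one {c : RT} (h : depth c ≤ 1) : IsLeaf c ∨ IsStar c := by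
  by_cases hc : c.kids = []
  · exact Or.inl hc
  · refine Or.inr ⟨hc, fun d hd => leaf_of_depth_zero ?_⟩
    have := depth_lt_of_mem hd
    rw [← depth_eq] at this
    omega

lemma star_of_depth_one {c : RT} (h : depth c = 1) : IsStar c := by
  rcases leaf_or_star_of_depth_le_one h.le with h' | h'
  · rw [depth_eq, h', depthL] at h; omega
  · exact h'

/-- descent to depth two -/
lemma goodJ_of_depth (h1 : CaseI) (h2 : CaseII) (h3 : CaseIII) {n : ℕ} (hn : GoodUpTo n) :
    ∀ (k : ℕ) (U W : RT), depth U = k + 2 → size U + size W ≤ n + 1 → GoodJ U W := by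
  intro k
  induction k with
  | zero =>
    intro U W hd hs
    obtain ⟨g, cs, rfl⟩ := exists_node U
    rw [depth_node] at hd
    apply GoodJ.comm
    rw [← good_cons]
    apply good_key h1 h2 h3 hn g W cs
    · rw [size_node] at hs; omega
    · intro c hc
      have := depth_lt_of_mem hc
      exact leaf_or_star_of_depth_le_one (by omega)
    · obtain ⟨c, hc, hcd⟩ := exists_deepest cs (by
        rintro rfl; rw [depthL] at hd; omega)
      exact ⟨c, hc, star_of_depth_one (by omega)⟩
  | succ k ih =>
    intro U W hd hs
    obtain ⟨g, cs, rfl⟩ := exists_node U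
    rw [depth_node] at hd
    obtain ⟨c, hc, hcd⟩ := exists_deepest cs (by
        rintro rfl; rw [depthL] at hd; omega)
    obtain ⟨l1, l2, rfl⟩ := List.append_of_mem hc
    have hp : (l1 ++ c :: l2).Perm (c :: (l1 ++ l2)) := List.perm_middle
    rw [goodJ_perm g hp, goodJ_move]
    apply ih c _ (by omega)
    rw [size_node, sizeL_cons]
    rw [size_node, sizeL_perm hp, sizeL_cons] at hs
    omega

/-- **The scheme.** -/
theorem good_all (h0 : StarBase) (h1 : CaseI) (h2 : CaseII) (h3 : CaseIII) : ∀ T : RT, Good T := by
  have main : ∀ n : ℕ, GoodUpTo n := by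
    intro n
    induction n with
    | zero => intro T hT; have := size_pos T; omega
    | succ n hn =>
      intro T hT
      obtain ⟨g, cs, rfl⟩ := exists_node T
      by_cases hcs : cs = []
      · subst hcs
        unfold Good A
        rw [B_nil, N_nil, mul_one]
        refine (InW.coin (s := 2 * t (node g [])) ?_).congr ?_ rfl
        · have := t_le_half (node g []); linarith
        · unfold α; rw [β_nil]; ring
      obtain ⟨c, hc, hcd⟩ := exists_deepest cs hcs
      have hsz : sizeL cs ≤ n := by rw [size_node] at hT; omega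
      rcases Nat.lt_or_ge (depthL cs) 2 with hd | hd
      · -- a star
        apply h0 n hn _ hT
        rw [IsStar, kids_node]
        refine ⟨hcs, fun d hd' => leaf_of_depth_zero ?_⟩
        have := depth_lt_of_mem (cs := cs) hd'
        omega
      obtain ⟨l1, l2, rfl⟩ := List.append_of_mem hc
      have hp : (l1 ++ c :: l2).Perm (c :: (l1 ++ l2)) := List.perm_middle
      rcases Nat.lt_or_ge (depthL (l1 ++ c :: l2)) 3 with hd3 | hd3
      · -- depth two, the root is the vertex `u`
        have hcstar : IsStar c := star_of_depth_one (by omega)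
        rw [good_perm g hp]
        rcases List.eq_nil_or_concat (l1 ++ l2) with hnil | ⟨ds, d, hds⟩
        · -- a star in disguise
          rw [hnil, good_cons]
          apply GoodJ.comm
          rw [← eta c, ← good_cons]
          apply h0 n hn
          · rw [size_node, sizeL_cons]
            rw [size_node, sizeL_perm hp, sizeL_cons, hnil] at hT
            have e : size c = sizeL c.kids + 1 := by
              conv_lhs => rw [← eta c, size_node]
            have e2 : size (node g []) = 1 := by rw [size_node, sizeL_nil]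
            rw [sizeL_nil] at hT
            omega
          · refine ⟨by simp, ?_⟩
            intro d hd'
            rw [kids_node] at hd'
            rcases List.mem_cons.1 hd' with rfl | h'
            · rfl
            · exact hcstar.2 d h'
        · have hp2 : (c :: (l1 ++ l2)).Perm (d :: c :: ds) := by
            rw [hds, List.concat_eq_append]
            have : (ds ++ [d]).Perm (d :: ds) := List.perm_append_singleton d ds
            exact (this.cons c).trans (List.Perm.swap _ _ _)
          rw [good_perm g hp2]
          apply good_key h1 h2 h3 hn g d (c :: ds)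
          · rw [sizeL_perm hp, sizeL_perm hp2, sizeL_cons] at hsz; exact hsz
          · intro e he
            have hmem : e ∈ l1 ++ c :: l2 := by
              rw [(hp.trans hp2).mem_iff]
              exact List.mem_cons_of_mem _ he
            have := depth_lt_of_mem hmem
            exact leaf_or_star_of_depth_le_one (by omega)
          · exact ⟨c, by simp, hcstar⟩
      · rw [good_perm g hp, good_cons]
        apply goodJ_of_depth h1 h2 h3 hn (depth c - 2) c _ (by omega)
        rw [size_node]
        rw [sizeL_perm hp, sizeL_cons] at hsz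
        omega
  exact fun T => main (size T) T (le_refl _)

end RT

end Pool.Agent.Lib_helper36.SRC
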