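import Pool.Agent.Lib_helper36.SRC.StarM

set_option autoImplicit false

/-! # The star lemma, part 3: `2^l K ≥ exp (σ t)` in degrees `≥ 2` -/

namespace Pool.Agent.Lib_helper36.SRC

open Finset PowerSeries Pool.Agent.Lib_helper79.SRC Pool.Agent.Lib_helper35.SRC

/-- `∏ 2 (1 - s + s x) e^{-s x}` -/
noncomputable def P2 (as : List ℝ) : ℝ⟦X⟧ := C ((2 : ℝ) ^ as.length) * KK as

lemma P2_cons (s : ℝ) (as : List ℝ) : P2 (s :: as) = (C 2 * kc s) * P2 as := by
  unfold P2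
  rw [KK_cons, List.length_cons, pow_succ, map_mul]; ring

lemma NN_P2 {as : List ℝ} (h : Lv as) : NN (P2 as) := (NN.C (by positivity)).mul (NN_KK h)

lemma P2_zero {as : List ℝ} (h : Lv as) : 1 ≤ coeff 0 (P2 as) := by
  unfold P2
  rw [coeff_C_mul, coeff_KK_zero]
  have := bernoulli_Pi h
  have := DD_nonneg h
  linarith

lemma P2_one {as : List ℝ} (h : Lv as) : as.sum - 1 / 4 ≤ coeff 1 (P2 as) := by
  unfold P2
  rw [coeff_C_mul, coeff_KK_one h, ← mul_assoc]
  have h1 := bernoulli_Pi h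
  have h2 := LS_quarter h
  have h3 := mul_le_mul_of_nonneg_right h1 (LS_nonneg h)
  linarith

lemma P2_two {as : List ℝ} (h : Lv as) : as.sum ^ 2 / 2 ≤ coeff 2 (P2 as) := by
  unfold P2
  have e := coeff_KK_two h
  rw [coeff_C_mul]
  have h1 := bernoulli_Pi h
  have h2 := sig_sq_le h
  have h4 : 0 ≤ LS as ^ 2 + QQ as := add_nonneg (sq_nonneg _) (QQ_nonneg h)
  have h3 := mul_le_mul_of_nonneg_right h1 h4
  have : 2 * (2 ^ as.length * coeff 2 (KK as)) = 2 ^ as.length * Pi0 as * (LS as ^ 2 + QQ as) := by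
    rw [mul_left_comm, e]; ring
  linarith

lemma quad_nonneg_aux (s σ : ℝ) (N : ℕ) (hσ : 0 ≤ σ) (hN : 3 ≤ N) :
    0 ≤ coeff N ((1 - C s * X + C (s ^ 2 / 2) * X ^ 2) * Ex σ) := by
  obtain ⟨m, rfl⟩ : ∃ m, N = m + 3 := ⟨N - 3, by omega⟩
  have e : (1 - C s * X + C (s ^ 2 / 2) * X ^ 2) * Ex σ
      = Ex σ - C s * (X * Ex σ) + C (s ^ 2 / 2) * (X ^ 2 * Ex σ) := by ring
  rw [e, map_add, map_sub, coeff_C_mul, coeff_C_mul]
  rw [show m + 3 = (m + 2) + 1 by rfl, coeff_succ_X_mul, show (m + 2) + 1 = (m + 1) + 2 by rfl,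
    coeff_X_pow_mul, coeff_Ex, coeff_Ex, coeff_Ex]
  rw [show m + 1 + 2 = (m + 1 + 1) + 1 by rfl, Nat.factorial_succ (m + 1 + 1),
    Nat.factorial_succ (m + 1)]
  have f : (0 : ℝ) < ((m + 1).factorial : ℕ) := by exact_mod_cast (m + 1).factorial_pos
  push_cast
  have hm : (0 : ℝ) ≤ m := Nat.cast_nonneg m
  have e2 : σ ^ (m + 1 + 1 + 1) / (((m : ℝ) + 1 + 1 + 1) * (((m : ℝ) + 1 + 1) * ((m + 1).factorial : ℕ)))
      - s * (σ ^ (m + 2) / (((m : ℝ) + 1 + 1) * ((m + 1).factorial : ℕ)))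
      + s ^ 2 / 2 * (σ ^ (m + 1) / ((m + 1).factorial : ℕ))
      = σ ^ (m + 1) / (((m : ℝ) + 3) * (((m : ℝ) + 2) * ((m + 1).factorial : ℕ)))
        * (σ ^ 2 - (m + 3) * (s * σ) + (m + 3) * (m + 2) / 2 * s ^ 2) := by
    field_simp
    ring
  rw [e2]
  apply mul_nonneg (by positivity)
  -- discriminant
  have : σ ^ 2 - (m + 3) * (s * σ) + (m + 3) * (m + 2) / 2 * s ^ 2
      = (σ - (m + 3) / 2 * s) ^ 2 + (m + 3) * (m + 1) / 4 * s ^ 2 := by ring
  rw [this]
  positivity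

lemma phi_ineq (s : ℝ) (m : ℕ) (hs : 0 ≤ s) (hs1 : s ≤ 1 / 2) :
    s ^ (m + 3) + 1 / 4 * ((m + 3) * (2 * (s ^ 2 * (1 - s) * ((m : ℝ) + 2 - s) ^ m)))
      ≤ 2 * (s ^ 2 * (1 - s) * ((m : ℝ) + 1 + 2 - s) ^ (m + 1)) := by
  have hm : (0 : ℝ) ≤ m := Nat.cast_nonneg m
  set x := (m : ℝ) + 2 - s with hx
  have hx1 : 3 / 2 ≤ x := by rw [hx]; linarith
  have e : (m : ℝ) + 1 + 2 - s = x + 1 := by rw [hx]; ring
  rw [e]
  have h1 : (x + 1) * x ^ m ≤ (x + 1) ^ (m + 1) := by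
    rw [pow_succ, mul_comm]
    apply mul_le_mul_of_nonneg_right _ (by linarith)
    exact pow_le_pow_left₀ (by linarith) (by linarith) _
  have h2 : s ^ m ≤ x ^ m := pow_le_pow_left₀ hs (by linarith) _
  have h3 : 0 ≤ s ^ 2 * (1 - s) := mul_nonneg (sq_nonneg s) (by linarith)
  have h4 : s ^ (m + 3) ≤ s ^ 2 * (1 / 2) * x ^ m := by
    have : s ^ (m + 3) = s ^ 2 * s * s ^ m := by ring
    rw [this]
    apply mul_le_mul _ h2 (by positivity) (by positivity)
    exact mul_le_mul_of_nonneg_left hs1 (sq_nonneg s)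
  have h5 : 7 / 4 ≤ (x + 1) - 1 / 4 * (m + 3) := by rw [hx]; linarith
  have hxm : 0 ≤ x ^ m := by positivity
  calc s ^ (m + 3) + 1 / 4 * ((m + 3) * (2 * (s ^ 2 * (1 - s) * x ^ m)))
      ≤ s ^ 2 * (1 / 2) * x ^ m + 1 / 4 * ((m + 3) * (2 * (s ^ 2 * (1 - s) * x ^ m))) := by linarith
    _ ≤ 2 * (s ^ 2 * (1 - s) * ((x + 1) * x ^ m)) := by
        have h6 : s ^ 2 * (1 / 2) * x ^ m ≤ 2 * (s ^ 2 * (1 - s) * x ^ m) * (7 / 4) := by
          have : s ^ 2 * (1 / 2) ≤ 2 * (s ^ 2 * (1 - s)) * (7 / 4) := by nlinarith [sq_nonneg s]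
          calc s ^ 2 * (1 / 2) * x ^ m ≤ (2 * (s ^ 2 * (1 - s)) * (7 / 4)) * x ^ m :=
                mul_le_mul_of_nonneg_right this hxm
            _ = _ := by ring
        have h7 : 2 * (s ^ 2 * (1 - s) * x ^ m) * (7 / 4)
            ≤ 2 * (s ^ 2 * (1 - s) * x ^ m) * ((x + 1) - 1 / 4 * (m + 3)) :=
          mul_le_mul_of_nonneg_left h5 (by positivity)
        nlinarith
    _ ≤ 2 * (s ^ 2 * (1 - s) * (x + 1) ^ (m + 1)) := by
        have := mul_le_mul_of_nonneg_left h1 h3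
        linarith

/-- **`2^l K_N ≥ σ^N`** -/
theorem P2_ge {as : List ℝ} (h : Lv as) : ∀ N : ℕ, 3 ≤ N → as.sum ^ N / N.factorial ≤ coeff N (P2 as) := by
  induction as with
  | nil =>
    intro N hN
    unfold P2
    rw [KK_nil, List.sum_nil, mul_one, coeff_C, if_neg (by omega), zero_pow (by omega), zero_div]
  | cons s as ih =>
    intro N hN
    have IH := ih h.tail
    have hs := h.head
    set σ := as.sum with hσ
    have hσ0 : 0 ≤ σ := sum_nonneg' h.tail
    rw [P2_cons, List.sum_cons, ← hσ]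
    set P := P2 as with hP
    set φ : ℝ⟦X⟧ := C 2 * kc s with hφ
    have nφ : NN φ := (NN.C (by norm_num)).mul (NN.kc (by linarith))
    set ε := σ - coeff 1 P with hε
    have hε1 : ε ≤ 1 / 4 := by have := P2_one h.tail; rw [hε]; linarith
    -- `G = P - (exp (σ t) - ε t)`
    set G : ℝ⟦X⟧ := P - (Ex σ - C ε * X) with hG
    have nG : NN G := by
      intro k
      match k with
      | 0 =>
        rw [hG, map_sub, map_sub, coeff_Ex, coeff_C_mul, coeff_zero_X]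
        have := P2_zero h.tail
        rw [← hP] at this
        simp only [pow_zero, Nat.factorial_zero, Nat.cast_one, div_one, mul_zero]
        linarith
      | 1 =>
        rw [hG, map_sub, map_sub, coeff_Ex, coeff_C_mul, coeff_one_X, hε]
        simp
      | 2 =>
        rw [hG, map_sub, map_sub, coeff_Ex, coeff_C_mul, coeff_X, if_neg (by norm_num)]
        have := P2_two h.tail
        simp; linarith
      | k + 3 =>
        rw [hG, map_sub, map_sub, coeff_Ex, coeff_C_mul, coeff_X, if_neg (by omega)]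
        have := IH (k + 3) (by omega)
        simp; linarith
    set d := 1 - 2 * s with hd
    have hd0 : 0 ≤ d := by rw [hd]; linarith
    set χ : ℝ⟦X⟧ := φ - Ex s - C d * (1 - C s * X + C (s ^ 2 / 2) * X ^ 2) with hχ
    have cφ : ∀ k, coeff k φ = 2 * coeff k (kc s) := fun k => by rw [hφ, coeff_C_mul]
    have cq : ∀ k, 3 ≤ k → coeff k (1 - C s * X + C (s ^ 2 / 2) * X ^ 2 : ℝ⟦X⟧) = 0 := by
      intro k hk
      rw [map_add, map_sub, coeff_C_mul, coeff_C_mul, coeff_one, coeff_X, coeff_X_pow,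
        if_neg (by omega), if_neg (by omega), if_neg (by omega)]
      ring
    have cq0 : coeff 0 (1 - C s * X + C (s ^ 2 / 2) * X ^ 2 : ℝ⟦X⟧) = 1 := by
      rw [map_add, map_sub, coeff_C_mul, coeff_C_mul, coeff_one, coeff_X, coeff_X_pow]; simp
    have cq1 : coeff 1 (1 - C s * X + C (s ^ 2 / 2) * X ^ 2 : ℝ⟦X⟧) = -s := by
      rw [map_add, map_sub, coeff_C_mul, coeff_C_mul, coeff_one, coeff_X, coeff_X_pow]; simp
    have cq2 : coeff 2 (1 - C s * X + C (s ^ 2 / 2) * X ^ 2 : ℝ⟦X⟧) = s ^ 2 / 2 := by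
      rw [map_add, map_sub, coeff_C_mul, coeff_C_mul, coeff_one, coeff_X, coeff_X_pow]; simp
    have cχ' : ∀ k, coeff k χ = 2 * coeff k (kc s) - coeff k (Ex s)
        - d * coeff k (1 - C s * X + C (s ^ 2 / 2) * X ^ 2 : ℝ⟦X⟧) := by
      intro k
      have e1 : coeff k χ = coeff k φ - coeff k (Ex s)
          - coeff k (C d * (1 - C s * X + C (s ^ 2 / 2) * X ^ 2 : ℝ⟦X⟧)) := by
        rw [hχ, map_sub, map_sub]
      rw [e1, cφ, coeff_C_mul]
    have cχ : ∀ m : ℕ, coeff (m + 3) χ = (2 * (s ^ 2 * (1 - s) * ((m : ℝ) + 1 + 2 - s) ^ (m + 1))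
        - s ^ (m + 3)) / (m + 3).factorial := by
      intro m
      rw [cχ', cq _ (by omega), coeff_Ex, show m + 3 = (m + 1) + 2 by rfl, coeff_kc]
      push_cast
      ring
    have nχ : NN χ := by
      intro k
      match k with
      | 0 =>
        rw [cχ', cq0, coeff_kc_zero, coeff_Ex]
        simp [hd]; linarith
      | 1 =>
        rw [cχ', cq1, coeff_kc_one, coeff_Ex]
        simp [hd]; nlinarith
      | 2 =>
        rw [cχ', cq2, coeff_kc_two, coeff_Ex]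
        simp [hd]; nlinarith
      | m + 3 =>
        rw [cχ]
        apply div_nonneg _ (by positivity)
        have := phi_ineq s m hs.1 hs.2
        have hm : (0 : ℝ) ≤ m := Nat.cast_nonneg m
        have h2 : 0 ≤ 1 / 4 * (((m : ℝ) + 3) * (2 * (s ^ 2 * (1 - s) * ((m : ℝ) + 2 - s) ^ m))) := by
          have a1 : 0 ≤ 1 - s := by linarith
          have a2 : 0 ≤ (m : ℝ) + 2 - s := by linarith
          positivity
        linarith
    obtain ⟨m, rfl⟩ : ∃ m, N = m + 3 := ⟨N - 3, by omega⟩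
    -- the decomposition
    have e : φ * P = Ex (s + σ) + C d * ((1 - C s * X + C (s ^ 2 / 2) * X ^ 2) * Ex σ) + χ * Ex σ
        - C ε * (X * φ) + φ * G := by
      rw [hG, Ex_add, hχ]; ring
    rw [e, map_add, map_sub, map_add, map_add, coeff_Ex, coeff_C_mul, coeff_C_mul,
      show m + 3 = (m + 2) + 1 by rfl, coeff_succ_X_mul, show m + 2 + 1 = m + 3 by rfl]
    have a1 := quad_nonneg_aux s σ (m + 3) hσ0 (by omega)
    have a2 : coeff (m + 3) χ ≤ coeff (m + 3) (χ * Ex σ) := by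
      have nE : NN (Ex σ) := fun k => by rw [coeff_Ex]; positivity
      have := coeff_mul_ge_zero nE nχ (m + 3)
      rw [coeff_Ex] at this
      rw [mul_comm]
      simpa using this
    have a3 : 0 ≤ coeff (m + 3) (φ * G) := (nφ.mul nG) _
    have a4 : ε * coeff (m + 2) φ ≤ coeff (m + 3) χ := by
      have b1 : 0 ≤ coeff (m + 2) φ := nφ _
      have b2 : ε * coeff (m + 2) φ ≤ 1 / 4 * coeff (m + 2) φ := mul_le_mul_of_nonneg_right hε1 b1
      refine b2.trans ?_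
      rw [cχ, cφ, coeff_kc, Nat.factorial_succ (m + 2)]
      have f : (0 : ℝ) < ((m + 2).factorial : ℕ) := by exact_mod_cast (m + 2).factorial_pos
      have hm : (0 : ℝ) ≤ m := Nat.cast_nonneg m
      rw [le_div_iff₀ (by positivity)]
      push_cast
      have := phi_ineq s m hs.1 hs.2
      have e3 : 1 / 4 * (2 * (s ^ 2 * (1 - s) * ((m : ℝ) + 2 - s) ^ m / ((m + 2).factorial : ℕ)))
          * (((m : ℝ) + 2 + 1) * ((m + 2).factorial : ℕ))
          = 1 / 4 * ((m + 3) * (2 * (s ^ 2 * (1 - s) * ((m : ℝ) + 2 - s) ^ m))) := by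
        field_simp
        ring
      rw [e3]
      linarith
    have a5 : 0 ≤ d * coeff (m + 3) ((1 - C s * X + C (s ^ 2 / 2) * X ^ 2) * Ex σ) :=
      mul_nonneg hd0 a1
    linarith

end Pool.Agent.Lib_helper36.SRC
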