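import Pool.Agent.Lib_helper36.SRC.StarT
import Pool.Agent.Lib_helper35.SRC.StarNum

set_option autoImplicit false

/-! # The star lemma, part 5: all levels -/

namespace Pool.Agent.Lib_helper36.SRC

open Finset PowerSeries Pool.Agent.Lib_helper79.SRC Pool.Agent.Lib_helper35.SRC

lemma mT_zero_coeff {as : List ℝ} (w : ℝ) : coeff 0 (mT w as) = coeff 1 (KK as) := by
  induction as with
  | nil => rw [mT, KK_nil, coeff_one]; simp
  | cons s as ih =>
    rw [mT, KK_cons, map_add, mul_assoc, coeff_C_mul, coeff_mul_zero', coeff_mul_zero', coeff_ab_zero,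
      coeff_mul_one', ih, coeff_kc_one, coeff_kc_zero]
    ring

lemma mT_one_coeff {as : List ℝ} (w : ℝ) :
    coeff 1 (mT w as) = 2 * coeff 2 (KK as) - w * coeff 1 (KK as) := by
  induction as with
  | nil => rw [mT, KK_nil, coeff_one, coeff_one]; simp
  | cons s as ih =>
    rw [mT, KK_cons, map_add, mul_assoc, coeff_C_mul, coeff_mul_one', coeff_mul_one',
      coeff_ab_zero, ab_one', coeff_mul_one', coeff_mul_two', ih, mT_zero_coeff, coeff_kc_one,
      coeff_kc_zero, coeff_kc_two]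
    ring

lemma tT_coeff_ext (ρ : ℝ) (as : List ℝ) (n j : ℕ) : coeff n (tT ρ as)
    = ∑ k ∈ range (as.length + j), coeff k (quC as) * coeff n (xk k ρ) := by
  unfold tT
  rw [map_sum, sum_range_add]
  have : ∑ x ∈ range j, coeff (as.length + x) (quC as) * coeff n (xk (as.length + x) ρ) = 0 := by
    apply sum_eq_zero
    intro x _
    rw [quC_deg as _ (by omega), zero_mul]
  rw [this, add_zero]
  apply sum_congr rfl
  intro k _
  rw [coeff_C_mul]

lemma xk0_one (ρ : ℝ) : coeff 1 (xk 0 ρ) = -ρ := by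
  rw [coeff_xk_of_lt (by omega)]; simp

lemma tT_one (ρ : ℝ) (as : List ℝ) :
    coeff 1 (tT ρ as) = -ρ * coeff 0 (quC as) + coeff 1 (quC as) := by
  rw [tT_coeff_ext ρ as 1 2, sum_range_succ', show as.length + 1 = as.length + 1 by rfl,
    sum_range_succ']
  have : ∑ k ∈ range as.length, coeff (k + 1 + 1) (quC as) * coeff 1 (xk (k + 1 + 1) ρ) = 0 := by
    apply sum_eq_zero
    intro x _
    rw [coeff_xk_lt _ _ _ (by omega), mul_zero]
  rw [this, xk0_one, show (0 : ℕ) + 1 = 1 by rfl, coeff_xk_self]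
  ring

lemma tT_zero (ρ : ℝ) (as : List ℝ) : coeff 0 (tT ρ as) = coeff 0 (quC as) := by
  rw [tT_coeff_ext ρ as 0 1, sum_range_succ']
  have : ∑ k ∈ range as.length, coeff (k + 1) (quC as) * coeff 0 (xk (k + 1) ρ) = 0 := by
    apply sum_eq_zero
    intro x _
    rw [coeff_xk_lt _ _ _ (by omega), mul_zero]
  rw [this, coeff_xk_self]
  ring

/-- level `0` -/
lemma rS_zero {w : ℝ} {as : List ℝ} (h : Lv as) (hw : 0 ≤ w) : 0 ≤ coeff 0 (rS w as) := by
  unfold rS
  rw [map_add, map_add, coeff_C_mul, coeff_C_mul, mT_zero_coeff, tT_zero, coeff_xk_self]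
  have h1 := NN_KK h 1
  have h2 := NN_quC h 0
  have h3 := sum_nonneg' h
  have h4 := mul_nonneg hw h2
  have h5 : 0 ≤ w * (as.sum + w) * 1 := by positivity
  linarith

/-- level `1` -/
lemma rS_one {w η : ℝ} {as : List ℝ} (h : Lv as) (hw : 0 ≤ w)
    (H1 : η * (w * (1 + DD as)) ≤ Pi0 as) (hη : 0 ≤ η)
    (Hn1 : (1 - η) * as.sum ^ 2 + 2 * as.sum * w + w ^ 2 + 4 / (2 + as.sum) ≤ 2) :
    0 ≤ coeff 1 (rS w as) := by
  unfold rS
  rw [map_add, map_add, coeff_C_mul, coeff_C_mul, mT_one_coeff, tT_one, xk0_one, coeff_KK_two h,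
    coeff_KK_one h, quC_zero, show (1 : ℕ) = 0 + 1 by rfl, quC_succ, quC_zero, zero_add,
    coeff_prodC_zero, coeff_prodC_one h]
  have hσ := sum_nonneg' h
  have hL := LS_nonneg h
  have hQ := QQ_nonneg h
  have hP := Pi0_pos h
  set σ := as.sum
  set L := LS as
  set P := Pi0 as
  have h1 : η * (w * σ ^ 2) ≤ P * (L ^ 2 + QQ as) := by
    have a1 := sig_sq_le h
    have a2 : 0 ≤ L ^ 2 + QQ as := by positivity
    calc η * (w * σ ^ 2) ≤ η * (w * ((1 + DD as) * (L ^ 2 + QQ as))) := by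
          apply mul_le_mul_of_nonneg_left _ hη
          exact mul_le_mul_of_nonneg_left a1 hw
      _ = (η * (w * (1 + DD as))) * (L ^ 2 + QQ as) := by ring
      _ ≤ P * (L ^ 2 + QQ as) := mul_le_mul_of_nonneg_right H1 a2
  have h2 : P * (1 + L) ≤ 2 / (2 + σ) := by
    rw [le_div_iff₀ (by linarith)]
    exact Pi_one_add_LS h
  have h3 : w * (2 * (P * (1 + L))) ≤ w * (4 / (2 + σ)) := by
    apply mul_le_mul_of_nonneg_left _ hw
    have : (4 : ℝ) / (2 + σ) = 2 * (2 / (2 + σ)) := by ring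
    rw [this]; linarith
  have h4 := mul_le_mul_of_nonneg_left Hn1 hw
  have h5 : 0 ≤ w * w * P := by positivity
  nlinarith

/-- the main part, in units of `w` -/
lemma main_ge {w η : ℝ} {as : List ℝ} (h : Lv as) (hw0 : 0 ≤ w) (hw : w ≤ 1 / 2) (hη : 0 ≤ η)
    (H1 : η * (w * (1 + DD as)) ≤ Pi0 as) (κ : ℝ) (hκ : κ ≤ (1 + DD as) * LS as) (m : ℕ) :
    w * (η * (κ * ((1 / 2 - w) * ((m : ℝ) + 2 + (1 / 2 - w)) ^ (m + 1)
        - ((m : ℝ) + 2) * (1 / 2 - w) * ((m : ℝ) + 1 + (1 / 2 - w)) ^ m / 2)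
        + as.sum ^ 2 * (((m : ℝ) + 2) * (1 / 2 - w) * ((m : ℝ) + 1 + (1 / 2 - w)) ^ m)))
      ≤ (m + 2).factorial * coeff (m + 2) (mT w as) := by
  have key := mT_ge_two hw h (m + 1)
  rw [show m + 1 + 1 = m + 2 by rfl] at key
  set a := 1 / 2 - w with ha
  have ha0 : 0 ≤ a := by rw [ha]; linarith
  have hm : (0 : ℝ) ≤ m := Nat.cast_nonneg m
  set Z := a * ((m : ℝ) + 2 + a) ^ (m + 1) with hZ
  set Y := ((m : ℝ) + 2) * a * ((m : ℝ) + 1 + a) ^ m with hY
  have f1 : (0 : ℝ) < ((m + 1).factorial : ℕ) := by exact_mod_cast Nat.factorial_pos _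
  have f2 : (0 : ℝ) < ((m + 2).factorial : ℕ) := by exact_mod_cast Nat.factorial_pos _
  have cZ : ((m + 2).factorial : ℕ) * coeff (m + 2) (ab a) = Z := by
    rw [show m + 2 = (m + 1) + 1 by rfl, coeff_ab_succ, mul_div_cancel₀ _ f2.ne', hZ]
    push_cast
    ring_nf
  have cY : ((m + 2).factorial : ℕ) * coeff (m + 1) (ab a) = Y := by
    rw [coeff_ab_succ, Nat.factorial_succ (m + 1), hY]
    push_cast
    field_simp
    ring_nf
  have hY0 : 0 ≤ Y := by rw [hY]; positivity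
  have hZY : 0 ≤ Z - Y / 2 := by
    have e : ((m : ℝ) + 1 + a) ^ m ≤ ((m : ℝ) + 2 + a) ^ m :=
      pow_le_pow_left₀ (by positivity) (by linarith) m
    rw [hZ, hY, pow_succ]
    have e2 : 0 ≤ a * ((m : ℝ) + 2) / 2 * (((m : ℝ) + 2 + a) ^ m - ((m : ℝ) + 1 + a) ^ m) :=
      mul_nonneg (by positivity) (by linarith)
    have e3 : 0 ≤ a * ((m : ℝ) + 2 + a) ^ m * ((m : ℝ) / 2 + 1 + a) := by positivity
    nlinarith
  -- `K₁ ≥ η w κ`, `2 K₂ ≥ η w σ²`
  have hP := Pi0_pos h
  have hL := LS_nonneg h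
  have hQ := QQ_nonneg h
  have k1 : η * (w * κ) ≤ coeff 1 (KK as) := by
    rw [coeff_KK_one h]
    calc η * (w * κ) ≤ η * (w * ((1 + DD as) * LS as)) := by
          apply mul_le_mul_of_nonneg_left _ hη
          exact mul_le_mul_of_nonneg_left hκ hw0
      _ = (η * (w * (1 + DD as))) * LS as := by ring
      _ ≤ Pi0 as * LS as := mul_le_mul_of_nonneg_right H1 hL
  have k2 : η * (w * as.sum ^ 2) ≤ 2 * coeff 2 (KK as) := by
    rw [coeff_KK_two h]
    have a1 := sig_sq_le h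
    have a2 : 0 ≤ LS as ^ 2 + QQ as := by positivity
    calc η * (w * as.sum ^ 2) ≤ η * (w * ((1 + DD as) * (LS as ^ 2 + QQ as))) := by
          apply mul_le_mul_of_nonneg_left _ hη
          exact mul_le_mul_of_nonneg_left a1 hw0
      _ = (η * (w * (1 + DD as))) * (LS as ^ 2 + QQ as) := by ring
      _ ≤ _ := mul_le_mul_of_nonneg_right H1 a2
  have key2 := mul_le_mul_of_nonneg_left key f2.le
  have e1 : ((m + 2).factorial : ℕ) * ((coeff (m + 2) (ab a) - coeff (m + 1) (ab a) / 2)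
      * coeff 1 (KK as) + coeff (m + 1) (ab a) * (2 * coeff 2 (KK as)))
      = (Z - Y / 2) * coeff 1 (KK as) + Y * (2 * coeff 2 (KK as)) := by
    rw [← cZ, ← cY]; ring
  rw [e1] at key2
  refine le_trans ?_ key2
  have b1 := mul_le_mul_of_nonneg_left k1 hZY
  have b2 := mul_le_mul_of_nonneg_left k2 hY0
  nlinarith

/-- **The star lemma, general form.** -/
theorem star_core {w η θ σ₁ : ℝ} {as : List ℝ} (h : Lv as) (hw0 : 0 < w) (hν : 1 < as.sum + w)
    (hPi : w ≤ Pi0 as) (H1 : η * (w * (1 + DD as)) ≤ Pi0 as) (hη : 14 / 15 ≤ η) (hη1 : η ≤ 1)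
    (Hn1 : (1 - η) * as.sum ^ 2 + 2 * as.sum * w + w ^ 2 + 4 / (2 + as.sum) ≤ 2)
    (hc : (w ≤ 1 / 8 ∧ η = 1 ∧ as.sum + w - 1 ≤ 5 / 8) ∨ w ≤ 15 / 224)
    (hR : 2 ≤ as.sum + w - 1 → w ≤ 1 / 56 ∧ as.sum + w - 1 ≤ σ₁ ∧
      (as.sum + w - 1) ^ 3 ≤ (1 - 3 * w) * (θ * σ₁ ^ 3) ∧
      ∀ N : ℕ, 3 ≤ N → w * (θ * σ₁ ^ N) ≤ N.factorial * coeff N (KK as)) :
    InW (as.sum + w) (prodC as + C w * (X - 1)) := by
  have hη0 : 0 ≤ η := by linarith
  apply inW_of_rS hPi
  intro n
  match n with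
  | 0 => exact rS_zero h hw0.le
  | 1 => exact rS_one h hw0.le H1 hη0 Hn1
  | m + 2 =>
    set σ := as.sum with hσ
    set ρ := σ + w - 1 with hρ
    have hσρ : σ = ρ + 1 - w := by rw [hρ]; ring
    have hρ0 : 0 < ρ := by rw [hρ]; linarith
    have hw8 : w ≤ 1 / 8 := by rcases hc with h' | h'; exact h'.1; linarith
    have hm : (0 : ℝ) ≤ m := Nat.cast_nonneg m
    have f2 : (0 : ℝ) < ((m + 2).factorial : ℕ) := by exact_mod_cast Nat.factorial_pos _
    have hnum : (w ≤ 1 / 8 ∧ η = 1 ∧ ρ ≤ 5 / 8) ∨ (w ≤ 15 / 224 ∧ 14 / 15 ≤ η ∧ η ≤ 1) := by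
      rcases hc with h' | h'
      · exact Or.inl h'
      · exact Or.inr ⟨h', hη, hη1⟩
    -- reduce to an inequality with factorials
    have expand : (m + 2).factorial * coeff (m + 2) (rS w as)
        = (m + 2).factorial * coeff (m + 2) (mT w as)
          + w * ((m + 2).factorial * coeff (m + 2) (tT ρ as))
          - w * ((σ + w) * (ρ * ((m : ℝ) + 2 - ρ) ^ (m + 1))) := by
      unfold rS
      rw [map_add, map_add, coeff_C_mul, coeff_C_mul, coeff_xk_of_lt (by omega : 0 < m + 2),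
        ← hσ, ← hρ]
      rw [Nat.sub_zero, show m + 2 - 1 = m + 1 by omega]
      push_cast
      field_simp
      ring
    have tail := mul_le_mul_of_nonneg_left (tT_ge h ρ (m + 2)) f2.le
    have tail2 := mul_le_mul_of_nonneg_left tail hw0.le
    suffices hmain : w * ((m + 2).factorial * ∑ k ∈ range (m + 2), Bd ρ (m + 2) k
        + (σ + w) * (ρ * ((m : ℝ) + 2 - ρ) ^ (m + 1))) ≤ (m + 2).factorial * coeff (m + 2) (mT w as) by
      have : 0 ≤ ((m + 2).factorial : ℕ) * coeff (m + 2) (rS w as) := by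
        rw [expand]
        nlinarith
      exact nonneg_of_mul_nonneg_right this f2
    have hνρ : σ + w = ρ + 1 := by rw [hρ]; ring
    rw [hνρ]
    by_cases hcase : (m : ℝ) + 2 ≤ ρ
    · -- `n ≤ ρ`
      obtain ⟨hw56, hσ1, hcube, hK⟩ := hR (by linarith)
      have b1 : ((m + 2).factorial : ℕ) * ∑ k ∈ range (m + 2), Bd ρ (m + 2) k ≤ ρ ^ (m + 2) := by
        have := sum_Bd_le (ρ := ρ) (N := m + 1) (by push_cast; linarith)
        exact this
      have b2 : ρ * ((m : ℝ) + 2 - ρ) ^ (m + 1) ≤ ρ ^ (m + 1) * (ρ - 2) := by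
        have c1 : ((m : ℝ) + 2 - ρ) ^ (m + 1) ≤ (ρ - 2) * ρ ^ m := by
          calc ((m : ℝ) + 2 - ρ) ^ (m + 1) ≤ |((m : ℝ) + 2 - ρ) ^ (m + 1)| := le_abs_self _
            _ = (ρ - ((m : ℝ) + 2)) ^ (m + 1) := by
                rw [abs_pow, abs_of_nonpos (by linarith)]; ring
            _ = (ρ - ((m : ℝ) + 2)) * (ρ - ((m : ℝ) + 2)) ^ m := pow_succ' _ _
            _ ≤ (ρ - 2) * ρ ^ m := by
                apply mul_le_mul (by linarith) _ (pow_nonneg (by linarith) _) (by linarith)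
                exact pow_le_pow_left₀ (by linarith) (by linarith) m
        calc ρ * ((m : ℝ) + 2 - ρ) ^ (m + 1) ≤ ρ * ((ρ - 2) * ρ ^ m) :=
              mul_le_mul_of_nonneg_left c1 hρ0.le
          _ = _ := by ring
      have b3 : ρ ^ (m + 3) ≤ (1 - 3 * w) * (θ * σ₁ ^ (m + 3)) := by
        have c1 : ρ ^ m ≤ σ₁ ^ m := pow_le_pow_left₀ hρ0.le hσ1 m
        have c2 : 0 ≤ ρ ^ 3 := by positivity
        calc ρ ^ (m + 3) = ρ ^ 3 * ρ ^ m := by ring
          _ ≤ ρ ^ 3 * σ₁ ^ m := mul_le_mul_of_nonneg_left c1 c2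
          _ ≤ ((1 - 3 * w) * (θ * σ₁ ^ 3)) * σ₁ ^ m := by
              apply mul_le_mul_of_nonneg_right hcube
              exact pow_nonneg (by linarith) _
          _ = _ := by ring
      have b4 := mT_ge_next hw0.le (by linarith : w ≤ 1 / 3) h (m + 2)
      have b5 := hK (m + 3) (by omega)
      have b6 : (1 - 3 * w) * (w * (θ * σ₁ ^ (m + 3))) ≤ (m + 2).factorial * coeff (m + 2) (mT w as) := by
        calc (1 - 3 * w) * (w * (θ * σ₁ ^ (m + 3)))
            ≤ (1 - 3 * w) * (((m + 3).factorial : ℕ) * coeff (m + 3) (KK as)) :=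
              mul_le_mul_of_nonneg_left b5 (by linarith)
          _ = ((m + 2).factorial : ℕ) * ((1 - 3 * w) * (coeff (m + 2 + 1) (KK as)
                * (((m + 2 : ℕ) : ℝ) + 1))) := by
              rw [show m + 3 = (m + 2) + 1 by rfl, Nat.factorial_succ (m + 2)]
              push_cast; ring
          _ ≤ _ := mul_le_mul_of_nonneg_left b4 f2.le
      have b7 : w * ρ ^ (m + 3) ≤ w * ((1 - 3 * w) * (θ * σ₁ ^ (m + 3))) :=
        mul_le_mul_of_nonneg_left b3 hw0.le
      have b8 : ((m + 2).factorial : ℕ) * ∑ k ∈ range (m + 2), Bd ρ (m + 2) k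
          + (ρ + 1) * (ρ * ((m : ℝ) + 2 - ρ) ^ (m + 1)) ≤ ρ ^ (m + 3) := by
        have c1 : (ρ + 1) * (ρ * ((m : ℝ) + 2 - ρ) ^ (m + 1)) ≤ (ρ + 1) * (ρ ^ (m + 1) * (ρ - 2)) :=
          mul_le_mul_of_nonneg_left b2 (by linarith)
        have c2 : 0 ≤ ρ ^ (m + 1) := by positivity
        have e1 : ρ ^ (m + 2) = ρ ^ (m + 1) * ρ := pow_succ _ _
        have e2 : ρ ^ (m + 3) = ρ ^ (m + 1) * ρ ^ 2 := by ring
        rw [e1] at b1
        rw [e2]
        nlinarith
      have b9 := mul_le_mul_of_nonneg_left b8 hw0.le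
      linarith
    · -- `n > ρ`
      push Not at hcase
      by_cases hσ1' : 1 ≤ σ
      · have main := main_ge h hw0.le (by linarith) hη0 H1 σ (LS_ge_of_one_le h hσ1') m
        refine le_trans ?_ main
        apply mul_le_mul_of_nonneg_left _ hw0.le
        rw [← hσ, hσρ]
        rcases le_total ρ 1 with hρ1 | hρ1
        · have b1 := sum_Bd_one (ρ := ρ) (N := m + 1) hρ0.le hρ1
          have b2 := num_a1 ρ w η m hρ0.le hρ1 hw0.le (by linarith) hnum
          rw [show m + 1 + 1 = m + 2 by rfl] at b1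
          rw [b1]
          push_cast
          have e : (m : ℝ) + 1 + 1 - ρ = m + 2 - ρ := by ring
          rw [e]
          refine le_trans (le_of_eq ?_) b2
          ring
        · have hw224 : w ≤ 15 / 224 := by
            rcases hc with h' | h'
            · exfalso; linarith [h'.2.2]
            · exact h'
          rcases le_total ρ 2 with hρ2 | hρ2
          · have b1 := sum_Bd_two (ρ := ρ) (N := m) hρ1 hρ2
            have b2 := num_b ρ w η m hρ1 hρ2 hw0.le hw224 hη hη1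
            rw [b1]
            refine le_trans (le_of_eq ?_) b2
            ring
          · obtain ⟨hw56, _, _, _⟩ := hR hρ2
            have b1 := sum_Bd_gt (ρ := ρ) (N := m + 1) hρ1 (by push_cast; linarith)
            have b2 := num_c ρ w η m hρ2 hcase hw0.le hw56 hη hη1
            rw [show m + 1 + 1 = m + 2 by rfl] at b1
            push_cast at b1
            have e : (m : ℝ) + 1 + 1 - ρ = m + 2 - ρ := by ring
            have e' : (m : ℝ) + 1 + 1 = m + 2 := by ring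
            rw [e, e'] at b1
            refine le_trans ?_ b2
            nlinarith
      · push Not at hσ1'
        have hκ := LS_ge_of_le_one h hσ1'.le
        have main := main_ge h hw0.le (by linarith) hη0 H1 (σ ^ 2) hκ m
        refine le_trans ?_ main
        apply mul_le_mul_of_nonneg_left _ hw0.le
        have b1 := sum_Bd_one (ρ := ρ) (N := m + 1) hρ0.le (by linarith)
        have b2 := num_a2 ρ w η m hρ0.le (by linarith) hw0 (by
          rcases hc with h' | h'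
          · exact Or.inl ⟨h'.1, h'.2.1⟩
          · exact Or.inr ⟨h', hη, hη1⟩)
        rw [show m + 1 + 1 = m + 2 by rfl] at b1
        rw [b1, ← hσ, hσρ]
        push_cast
        have e : (m : ℝ) + 1 + 1 - ρ = m + 2 - ρ := by ring
        rw [e]
        refine le_trans (le_of_eq ?_) (b2.trans (le_of_eq ?_))
        · ring
        · ring

end Pool.Agent.Lib_helper36.SRC
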