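import Pool.Agent.Lib_helper35.SRC.GenCoef

set_option autoImplicit false

/-! # The star lemma, part 1: products of normalized coins -/

namespace Pool.Agent.Lib_helper36.SRC

open Finset PowerSeries Pool.Agent.Lib_helper79.SRC Pool.Agent.Lib_helper35.SRC

/-- product of the normalized coins -/
noncomputable def KK (as : List ℝ) : ℝ⟦X⟧ := (as.map kc).prod

/-- `∏ (1 - s)` -/
noncomputable def Pi0 : List ℝ → ℝ
  | [] => 1
  | s :: as => (1 - s) * Pi0 as

/-- `∑ s² / (1 - s)` -/
noncomputable def LS : List ℝ → ℝ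
  | [] => 0
  | s :: as => s ^ 2 / (1 - s) + LS as

/-- `∑ (1 - 2 s)` -/
noncomputable def DD : List ℝ → ℝ
  | [] => 0
  | s :: as => (1 - 2 * s) + DD as

/-- `∑ (1 - 2 s) (s / (1 - s))²` -/
noncomputable def QQ : List ℝ → ℝ
  | [] => 0
  | s :: as => (1 - 2 * s) * (s / (1 - s)) ^ 2 + QQ as

/-- leaf weights -/
def Lv (as : List ℝ) : Prop := ∀ s ∈ as, 0 ≤ s ∧ s ≤ 1 / 2

lemma Lv.head {s : ℝ} {as : List ℝ} (h : Lv (s :: as)) : 0 ≤ s ∧ s ≤ 1 / 2 := h s (by simp)
lemma Lv.tail {s : ℝ} {as : List ℝ} (h : Lv (s :: as)) : Lv as := fun t ht => h t (by simp [ht])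

lemma KK_nil : KK [] = 1 := by unfold KK; simp
lemma KK_cons (s : ℝ) (as : List ℝ) : KK (s :: as) = kc s * KK as := by unfold KK; simp

lemma NN_KK {as : List ℝ} (h : Lv as) : NN (KK as) := by
  induction as with
  | nil => rw [KK_nil]; exact NN.one
  | cons s as ih =>
    rw [KK_cons]
    exact (NN.kc (by have := h.head.2; linarith)).mul (ih h.tail)

lemma Pi0_pos {as : List ℝ} (h : Lv as) : 0 < Pi0 as := by
  induction as with
  | nil => rw [Pi0]; norm_num
  | cons s as ih =>
    rw [Pi0]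
    have := h.head.2
    exact mul_pos (by linarith) (ih h.tail)

lemma Pi0_eq (as : List ℝ) : Pi0 as = (as.map (fun s => 1 - s)).prod := by
  induction as with
  | nil => rw [Pi0]; simp
  | cons s as ih => rw [Pi0, ih, List.map_cons, List.prod_cons]

lemma LS_nonneg {as : List ℝ} (h : Lv as) : 0 ≤ LS as := by
  induction as with
  | nil => rw [LS]
  | cons s as ih =>
    rw [LS]
    have h1 := h.head.2
    have : 0 ≤ s ^ 2 / (1 - s) := div_nonneg (sq_nonneg _) (by linarith)
    have := ih h.tail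
    linarith

lemma DD_nonneg {as : List ℝ} (h : Lv as) : 0 ≤ DD as := by
  induction as with
  | nil => rw [DD]
  | cons s as ih =>
    rw [DD]
    have h1 := h.head.2
    have := ih h.tail
    linarith

lemma QQ_nonneg {as : List ℝ} (h : Lv as) : 0 ≤ QQ as := by
  induction as with
  | nil => rw [QQ]
  | cons s as ih =>
    rw [QQ]
    have h1 := h.head.2
    have : 0 ≤ (1 - 2 * s) * (s / (1 - s)) ^ 2 := mul_nonneg (by linarith) (sq_nonneg _)
    have := ih h.tail
    linarith

lemma sum_nonneg' {as : List ℝ} (h : Lv as) : 0 ≤ as.sum := List.sum_nonneg (fun s hs => (h s hs).1)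

lemma DD_eq (as : List ℝ) : DD as = as.length - 2 * as.sum := by
  induction as with
  | nil => rw [DD]; simp
  | cons s as ih => rw [DD, ih, List.length_cons, List.sum_cons]; push_cast; ring

lemma coeff_mul_zero' (f g : ℝ⟦X⟧) : coeff 0 (f * g) = coeff 0 f * coeff 0 g := by
  rw [coeff_mul, Finset.Nat.antidiagonal_zero, sum_singleton]

lemma coeff_mul_one' (f g : ℝ⟦X⟧) : coeff 1 (f * g) = coeff 0 f * coeff 1 g + coeff 1 f * coeff 0 g := by
  rw [coeff_mul, Finset.Nat.antidiagonal_succ, sum_cons]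
  simp

lemma coeff_mul_two' (f g : ℝ⟦X⟧) : coeff 2 (f * g)
    = coeff 0 f * coeff 2 g + coeff 1 f * coeff 1 g + coeff 2 f * coeff 0 g := by
  rw [coeff_mul, Finset.Nat.antidiagonal_succ, sum_cons, sum_map, Finset.Nat.antidiagonal_succ, sum_cons]
  simp
  ring

lemma coeff_KK_zero (as : List ℝ) : coeff 0 (KK as) = Pi0 as := by
  induction as with
  | nil => rw [KK_nil, Pi0]; simp
  | cons s as ih => rw [KK_cons, coeff_mul_zero', ih, coeff_kc_zero, Pi0]

lemma coeff_KK_one {as : List ℝ} (h : Lv as) : coeff 1 (KK as) = Pi0 as * LS as := by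
  induction as with
  | nil => rw [KK_nil, Pi0, LS, coeff_one]; simp
  | cons s as ih =>
    have h1 : 1 - s ≠ 0 := by have := h.head.2; intro h'; linarith
    rw [KK_cons, coeff_mul_one', ih h.tail, coeff_kc_zero, coeff_kc_one, coeff_KK_zero, Pi0, LS]
    field_simp
    ring

lemma coeff_kc_two (s : ℝ) : coeff 2 (kc s) = s ^ 2 * (1 - s) / 2 := by
  have := coeff_kc s 0
  rw [show 0 + 2 = 2 by rfl] at this
  rw [this]; simp

lemma coeff_KK_two {as : List ℝ} (h : Lv as) : 2 * coeff 2 (KK as) = Pi0 as * (LS as ^ 2 + QQ as) := by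
  induction as with
  | nil => rw [KK_nil, Pi0, LS, QQ, coeff_one]; simp
  | cons s as ih =>
    have h1 : 1 - s ≠ 0 := by have := h.head.2; intro h'; linarith
    have e := ih h.tail
    rw [KK_cons, coeff_mul_two', coeff_KK_one h.tail, coeff_kc_zero, coeff_kc_one, coeff_KK_zero,
      coeff_kc_two, Pi0, LS, QQ]
    have : 2 * ((1 - s) * coeff 2 (KK as) + s ^ 2 * (Pi0 as * LS as) + s ^ 2 * (1 - s) / 2 * Pi0 as)
      = (1 - s) * (Pi0 as * (LS as ^ 2 + QQ as)) + 2 * s ^ 2 * (Pi0 as * LS as)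
        + s ^ 2 * (1 - s) * Pi0 as := by rw [← e]; ring
    rw [this]
    field_simp
    ring

/-- AM-GM in the form needed for the Cauchy inequalities -/
lemma cs_aux {P D Q v : ℝ} (hD : 0 ≤ D) (hQ : 0 ≤ Q) (h : P ^ 2 ≤ D * Q) : 2 * (P * v) ≤ D * v ^ 2 + Q := by
  have h1 : 0 ≤ D * v ^ 2 + Q := by positivity
  apply le_of_abs_le
  apply abs_le_of_sq_le_sq _ h1
  nlinarith [sq_nonneg (D * v ^ 2 - Q), mul_le_mul_of_nonneg_right h (sq_nonneg v)]

lemma P_sq_le {as : List ℝ} (h : Lv as) : (as.sum - LS as) ^ 2 ≤ DD as * QQ as := by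
  induction as with
  | nil => rw [LS, DD, QQ]; simp
  | cons s as ih =>
    have hs := h.head
    have h1 : 1 - s ≠ 0 := by intro h'; linarith
    have e : s - s ^ 2 / (1 - s) = (1 - 2 * s) * (s / (1 - s)) := by field_simp; ring
    rw [List.sum_cons, LS, DD, QQ]
    set v := s / (1 - s)
    set d := 1 - 2 * s
    have hd : 0 ≤ d := by simp only [d]; linarith
    have e2 : s + as.sum - (s ^ 2 / (1 - s) + LS as) = d * v + (as.sum - LS as) := by
      rw [← e]; ring
    rw [e2]
    have h2 := ih h.tail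
    have h3 := cs_aux (v := v) (DD_nonneg h.tail) (QQ_nonneg h.tail) h2
    nlinarith [mul_le_mul_of_nonneg_left h3 hd]

lemma sig_sq_le {as : List ℝ} (h : Lv as) : as.sum ^ 2 ≤ (1 + DD as) * (LS as ^ 2 + QQ as) := by
  have h1 := P_sq_le h
  have h2 := cs_aux (v := LS as) (DD_nonneg h) (QQ_nonneg h) h1
  nlinarith

lemma LS_lower {as : List ℝ} (h : Lv as) : as.sum ^ 2 ≤ LS as * (as.sum + DD as) := by
  induction as with
  | nil => rw [LS, DD]; simp
  | cons s as ih =>
    have hs := h.head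
    have h1 : 1 - s ≠ 0 := by intro h'; linarith
    rw [List.sum_cons, LS, DD]
    have h2 := ih h.tail
    have h3 : 0 ≤ as.sum + DD as := add_nonneg (sum_nonneg' h.tail) (DD_nonneg h.tail)
    have h4 := LS_nonneg h.tail
    have h5 : 0 < 1 - s := by linarith
    -- `2 s σ ≤ β (σ + D) + L (1 - s)`
    have h6 : 2 * (as.sum * (s / (1 - s))) ≤ (as.sum + DD as) * (s / (1 - s)) ^ 2 + LS as := by
      apply cs_aux h3 h4
      linarith
    have h7 : (s / (1 - s)) ^ 2 * (1 - s) = s ^ 2 / (1 - s) := by field_simp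
    have h9 := mul_le_mul_of_nonneg_right h6 h5.le
    have e9l : 2 * (as.sum * (s / (1 - s))) * (1 - s) = 2 * (as.sum * s) := by field_simp
    have e9r : ((as.sum + DD as) * (s / (1 - s)) ^ 2 + LS as) * (1 - s)
        = (as.sum + DD as) * (s ^ 2 / (1 - s)) + LS as * (1 - s) := by
      rw [add_mul, mul_assoc, h7]
    rw [e9l, e9r] at h9
    have e : s ^ 2 / (1 - s) * (1 - s) = s ^ 2 := by field_simp
    have e10 : (s ^ 2 / (1 - s) + LS as) * (s + as.sum + (1 - 2 * s + DD as))
        = s ^ 2 / (1 - s) * (as.sum + DD as) + s ^ 2 / (1 - s) * (1 - s) + LS as * (as.sum + DD as)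
          + LS as * (1 - s) := by ring
    rw [e10, e]
    linarith

lemma bernoulli_Pi {as : List ℝ} (h : Lv as) : 1 + DD as ≤ 2 ^ as.length * Pi0 as := by
  induction as with
  | nil => rw [DD, Pi0]; simp
  | cons s as ih =>
    rw [DD, Pi0, List.length_cons, pow_succ]
    have h1 := ih h.tail
    have hs := h.head
    have h2 := DD_nonneg h.tail
    have e : (2 : ℝ) ^ as.length * 2 * ((1 - s) * Pi0 as)
        = (2 * (1 - s)) * (2 ^ as.length * Pi0 as) := by ring
    rw [e]
    have h3 : 1 ≤ 2 * (1 - s) := by linarith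
    calc 1 + (1 - 2 * s + DD as) ≤ (2 * (1 - s)) * (1 + DD as) := by nlinarith
      _ ≤ _ := mul_le_mul_of_nonneg_left h1 (by linarith)

/-- `(1 + D) L ≥ σ` for `σ ≥ 1` -/
lemma LS_ge_of_one_le {as : List ℝ} (h : Lv as) (h1 : 1 ≤ as.sum) : as.sum ≤ (1 + DD as) * LS as := by
  have hD := DD_nonneg h
  have hL := LS_nonneg h
  have h2 := LS_lower h
  have h3 : 0 < as.sum + DD as := by linarith
  -- multiply by `σ + D`
  have h4 : as.sum * (as.sum + DD as) ≤ (1 + DD as) * LS as * (as.sum + DD as) := by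
    calc as.sum * (as.sum + DD as) ≤ (1 + DD as) * as.sum ^ 2 := by
          nlinarith [mul_nonneg (mul_nonneg hD (sum_nonneg' h)) (sub_nonneg.2 h1)]
      _ ≤ (1 + DD as) * (LS as * (as.sum + DD as)) := mul_le_mul_of_nonneg_left h2 (by linarith)
      _ = _ := by ring
  exact le_of_mul_le_mul_right h4 h3

/-- `(1 + D) L ≥ σ²` for `σ ≤ 1` -/
lemma LS_ge_of_le_one {as : List ℝ} (h : Lv as) (h1 : as.sum ≤ 1) :
    as.sum ^ 2 ≤ (1 + DD as) * LS as := by
  have hD := DD_nonneg h
  have hL := LS_nonneg h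
  have h2 := LS_lower h
  calc as.sum ^ 2 ≤ LS as * (as.sum + DD as) := h2
    _ ≤ LS as * (1 + DD as) := mul_le_mul_of_nonneg_left (by linarith) hL
    _ = _ := by ring

/-- `σ - (1 + D) L ≤ 1 / 4` -/
lemma LS_quarter {as : List ℝ} (h : Lv as) : as.sum - 1 / 4 ≤ (1 + DD as) * LS as := by
  rcases le_total 1 as.sum with h1 | h1
  · have := LS_ge_of_one_le h h1; linarith
  · have := LS_ge_of_le_one h h1
    nlinarith [sq_nonneg (as.sum - 1 / 2)]

/-- `Π (1 + L) ≤ 2 / (2 + σ)` -/
lemma Pi_one_add_LS {as : List ℝ} (h : Lv as) : Pi0 as * (1 + LS as) * (2 + as.sum) ≤ 2 := by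
  have key : Pi0 as * (1 + LS as) * (2 + as.sum) ≤ 2 ∧ Pi0 as ≤ 1 := by
    induction as with
    | nil => rw [Pi0, LS]; simp
    | cons s as ih =>
      obtain ⟨h1, h2⟩ := ih h.tail
      have hs := h.head
      have h3 : 0 < 1 - s := by linarith
      have hP := Pi0_pos h.tail
      have hL := LS_nonneg h.tail
      have hS := sum_nonneg' h.tail
      rw [Pi0, LS, List.sum_cons]
      constructor
      · -- `(1-s)(1 + β + L) (2 + s + σ)`
        have e : (1 - s) * Pi0 as * (1 + (s ^ 2 / (1 - s) + LS as)) * (2 + (s + as.sum))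
            = Pi0 as * ((1 - s) * (1 + LS as) + s ^ 2) * (2 + (s + as.sum)) := by
          field_simp
          ring
        rw [e]
        have h4 : (1 - s) * (1 + LS as) + s ^ 2 ≤ (1 - s / 2) * (1 + LS as) := by nlinarith
        have h5 : (1 - s / 2) * (2 + (s + as.sum)) ≤ 2 + as.sum := by nlinarith
        calc Pi0 as * ((1 - s) * (1 + LS as) + s ^ 2) * (2 + (s + as.sum))
            ≤ Pi0 as * ((1 - s / 2) * (1 + LS as)) * (2 + (s + as.sum)) := by
              apply mul_le_mul_of_nonneg_right _ (by linarith)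
              exact mul_le_mul_of_nonneg_left h4 hP.le
          _ = Pi0 as * (1 + LS as) * ((1 - s / 2) * (2 + (s + as.sum))) := by ring
          _ ≤ Pi0 as * (1 + LS as) * (2 + as.sum) := by
              apply mul_le_mul_of_nonneg_left h5
              positivity
          _ ≤ 2 := h1
      · nlinarith
  exact key.1

end Pool.Agent.Lib_helper36.SRC
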