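import Pool.Agent.Lib_helper36.SRC.StarK

set_option autoImplicit false

/-! # The star lemma, part 2: lower bounds for the main part -/

namespace Pool.Agent.Lib_helper36.SRC

open Finset PowerSeries Pool.Agent.Lib_helper79.SRC Pool.Agent.Lib_helper35.SRC

/-- two terms of a product of series with nonnegative coefficients -/
lemma coeff_mul_ge_two {f g : ℝ⟦X⟧} (hf : NN f) (hg : NN g) (n : ℕ) :
    coeff 0 f * coeff (n + 1) g + coeff 1 f * coeff n g ≤ coeff (n + 1) (f * g) := by
  rw [coeff_mul, Finset.Nat.antidiagonal_succ, sum_cons, sum_map]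
  have h1 : coeff 1 f * coeff n g ≤ ∑ x ∈ antidiagonal n,
      coeff (x.1 + 1) f * coeff x.2 g := by
    have : coeff 1 f * coeff n g = coeff ((0, n) : ℕ × ℕ).1.succ f * coeff ((0, n) : ℕ × ℕ).2 g := rfl
    rw [this]
    exact single_le_sum (f := fun x : ℕ × ℕ => coeff (x.1 + 1) f * coeff x.2 g)
      (fun x _ => mul_nonneg (hf _) (hg _)) (by simp)
  simp only [Function.Embedding.prodMap, Function.Embedding.coeFn_mk, Prod.map_fst, Prod.map_snd,
    Function.Embedding.refl_apply] at *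
  linarith

lemma coeff_mul_ge_zero {f g : ℝ⟦X⟧} (hf : NN f) (hg : NN g) (n : ℕ) :
    coeff 0 f * coeff n g ≤ coeff n (f * g) := by
  rw [coeff_mul]
  have : coeff 0 f * coeff n g = coeff ((0, n) : ℕ × ℕ).1 f * coeff ((0, n) : ℕ × ℕ).2 g := rfl
  rw [this]
  exact single_le_sum (f := fun x : ℕ × ℕ => coeff x.1 f * coeff x.2 g)
    (fun x _ => mul_nonneg (hf _) (hg _)) (by simp)

/-- the main part of the `R`-series in the frame `σ + w - 1` -/
noncomputable def mT (w : ℝ) : List ℝ → ℝ⟦X⟧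
  | [] => 0
  | s :: as => C (s ^ 2) * KK as * ab (1 - s - w) + kc s * mT w as

lemma mT_eq (w : ℝ) (as : List ℝ) : mT w as = sqT as * ab (1 - w) := by
  induction as with
  | nil => rw [mT, sqT, zero_mul]
  | cons s as ih =>
    rw [mT, sqT, ih]
    have : (1 : ℝ) - s - w = -s + (1 - w) := by ring
    rw [this, ab_add]
    unfold KK
    ring

lemma S_mT (w : ℝ) (as : List ℝ) : S (mT w as) = sqC as * Ex (-(as.sum + w - 1)) := by
  rw [mT_eq, map_mul, S_sqT, S_ab, mul_assoc, ← Ex_add]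
  congr 2
  ring

lemma NN_mT {w : ℝ} (hw : w ≤ 1 / 2) {as : List ℝ} (h : Lv as) : NN (mT w as) := by
  induction as with
  | nil => rw [mT]; exact NN.zero
  | cons s as ih =>
    rw [mT]
    have hs := h.head
    exact (((NN.C (sq_nonneg s)).mul (NN_KK h.tail)).mul (NN.ab (by linarith))).add
      ((NN.kc (by linarith)).mul (ih h.tail))

lemma ab_one' (c : ℝ) : coeff 1 (ab c) = c := by
  have := coeff_ab_succ c 0
  simpa using this

/-- `n ≥ 0`: `coeff n (mT) ≥ coeff n (ab (1/2 - w)) * coeff 1 K` -/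
lemma mT_ge_one {w : ℝ} (hw : w ≤ 1 / 2) {as : List ℝ} (h : Lv as) (n : ℕ) :
    coeff n (ab (1 / 2 - w)) * coeff 1 (KK as) ≤ coeff n (mT w as) := by
  induction as with
  | nil => rw [mT, KK_nil, coeff_one]; simp
  | cons s as ih =>
    have hs := h.head
    have IH := ih h.tail
    rw [mT, KK_cons, map_add, coeff_mul_one', coeff_kc_zero, coeff_kc_one]
    have n1 : NN (C (s ^ 2) * KK as) := (NN.C (sq_nonneg s)).mul (NN_KK h.tail)
    have n2 : NN (ab (1 - s - w)) := NN.ab (by linarith)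
    have n3 : NN (kc s) := NN.kc (by linarith)
    have h1 := coeff_mul_ge_zero n1 n2 n
    have h2 := coeff_mul_ge_zero n3 (NN_mT hw h.tail) n
    rw [coeff_C_mul] at h1
    rw [coeff_kc_zero] at h2
    have h3 : coeff n (ab (1 / 2 - w)) ≤ coeff n (ab (1 - s - w)) := by
      have e : ab (1 - s - w) = ab (1 / 2 - s) * ab (1 / 2 - w) := by
        rw [← ab_add]; congr 1; ring
      rw [e]
      have := coeff_mul_ge_zero (NN.ab (c := 1 / 2 - s) (by linarith))
        (NN.ab (c := 1 / 2 - w) (by linarith)) n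
      rw [coeff_ab_zero, one_mul] at this
      exact this
    have hK0 : 0 ≤ coeff 0 (KK as) := NN_KK h.tail 0
    have h4 : s ^ 2 * coeff 0 (KK as) * coeff n (ab (1 / 2 - w))
        ≤ s ^ 2 * coeff 0 (KK as) * coeff n (ab (1 - s - w)) :=
      mul_le_mul_of_nonneg_left h3 (mul_nonneg (sq_nonneg s) hK0)
    have h5 := mul_le_mul_of_nonneg_left IH (by linarith : (0 : ℝ) ≤ 1 - s)
    nlinarith

/-- the main lower bound -/
lemma mT_ge_two {w : ℝ} (hw : w ≤ 1 / 2) {as : List ℝ} (h : Lv as) (n : ℕ) :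
    (coeff (n + 1) (ab (1 / 2 - w)) - coeff n (ab (1 / 2 - w)) / 2) * coeff 1 (KK as)
      + coeff n (ab (1 / 2 - w)) * (2 * coeff 2 (KK as)) ≤ coeff (n + 1) (mT w as) := by
  induction as with
  | nil => rw [mT, KK_nil, coeff_one, coeff_one]; simp
  | cons s as ih =>
    have hs := h.head
    have IH := ih h.tail
    rw [mT, KK_cons, map_add, coeff_mul_one', coeff_mul_two', coeff_kc_zero, coeff_kc_one,
      coeff_kc_two]
    have n1 : NN (C (s ^ 2) * KK as) := (NN.C (sq_nonneg s)).mul (NN_KK h.tail)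
    have n2 : NN (ab (1 - s - w)) := NN.ab (by linarith)
    have n3 : NN (kc s) := NN.kc (by linarith)
    have h1 := coeff_mul_ge_two n1 n2 n
    have h2 := coeff_mul_ge_two n3 (NN_mT hw h.tail) n
    rw [coeff_C_mul, coeff_C_mul] at h1
    rw [coeff_kc_zero, coeff_kc_one] at h2
    have e : ab (1 - s - w) = ab (1 / 2 - s) * ab (1 / 2 - w) := by
      rw [← ab_add]; congr 1; ring
    have m1 : NN (ab (1 / 2 - s)) := NN.ab (by linarith)
    have m2 : NN (ab (1 / 2 - w)) := NN.ab (by linarith)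
    have h3 : coeff n (ab (1 / 2 - w)) ≤ coeff n (ab (1 - s - w)) := by
      rw [e]
      have := coeff_mul_ge_zero m1 m2 n
      rw [coeff_ab_zero, one_mul] at this
      exact this
    have h4 : coeff (n + 1) (ab (1 / 2 - w)) + (1 / 2 - s) * coeff n (ab (1 / 2 - w))
        ≤ coeff (n + 1) (ab (1 - s - w)) := by
      rw [e]
      have := coeff_mul_ge_two m1 m2 n
      rw [coeff_ab_zero, one_mul, ab_one'] at this
      exact this
    have hK0 : 0 ≤ coeff 0 (KK as) := NN_KK h.tail 0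
    have hK1 : 0 ≤ coeff 1 (KK as) := NN_KK h.tail 1
    have h5 := mT_ge_one hw h.tail n
    have s2 := sq_nonneg s
    have k3 := mul_le_mul_of_nonneg_left h3 (mul_nonneg s2 hK1)
    have k4 := mul_le_mul_of_nonneg_left h4 (mul_nonneg s2 hK0)
    have k5 := mul_le_mul_of_nonneg_left h5 s2
    have k6 := mul_le_mul_of_nonneg_left IH (by linarith : (0 : ℝ) ≤ 1 - s)
    nlinarith

/-- derivative of a normalized coin -/
lemma deriv_kc (s : ℝ) : d⁄dX ℝ (kc s) = C (s ^ 2) * ab (1 - s) := by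
  ext n
  rw [coeff_derivative, coeff_C_mul]
  match n with
  | 0 => rw [coeff_ab_zero, coeff_kc_one]; simp
  | n + 1 =>
    rw [show n + 1 + 1 = n + 2 by rfl, coeff_kc, coeff_ab_succ, Nat.factorial_succ (n + 1)]
    have f : (((n + 1).factorial : ℕ) : ℝ) ≠ 0 := by exact_mod_cast (n + 1).factorial_ne_zero
    have g : (n : ℝ) + 1 + 1 ≠ 0 := by positivity
    push_cast
    have e : (1 - s + ((n : ℝ) + 1)) = (n : ℝ) + 2 - s := by ring
    rw [e]
    field_simp

lemma deriv_KK (as : List ℝ) : d⁄dX ℝ (KK as) = mT 0 as := by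
  induction as with
  | nil => rw [KK_nil, mT]; simp
  | cons s as ih =>
    rw [KK_cons, mT, Derivation.leibniz, deriv_kc, ih]
    simp only [smul_eq_mul, sub_zero]
    ring

/-- `(1 - 3 w) ab c ≤ ab (c - w)` coefficientwise for `c ≥ 1/2` -/
lemma ab_sub_ge {w c : ℝ} (hw0 : 0 ≤ w) (hw : w ≤ 1 / 3) (hc : 1 / 2 ≤ c) :
    LE (C (1 - 3 * w) * ab c) (ab (c - w)) := by
  intro n
  rw [coeff_C_mul]
  match n with
  | 0 => rw [coeff_ab_zero, coeff_ab_zero]; linarith
  | n + 1 =>
    rw [coeff_ab_succ, coeff_ab_succ, ← mul_div_assoc]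
    apply div_le_div_of_nonneg_right _ (by positivity)
    have hn : (0 : ℝ) ≤ n := Nat.cast_nonneg n
    set x := c + ((n : ℝ) + 1) with hx
    have hx1 : 3 / 2 + n ≤ x := by rw [hx]; linarith
    have hx0 : 0 < x := by linarith
    have e : c - w + ((n : ℝ) + 1) = x * (1 - w / x) := by rw [hx]; field_simp; ring
    have h1 : (1 - n * (w / x)) ≤ (1 - w / x) ^ n := by
      have := one_add_mul_le_pow (a := -(w / x)) (by
        have : w / x ≤ 1 := by rw [div_le_one hx0]; linarith
        linarith) n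
      have e2 : (1 : ℝ) + -(w / x) = 1 - w / x := by ring
      rw [e2] at this
      linarith
    have h2 : n * (w / x) ≤ w := by
      rw [← mul_div_assoc, div_le_iff₀ hx0]
      nlinarith
    have h3 : 1 - w ≤ (1 - w / x) ^ n := by linarith
    rw [e, mul_pow]
    have h4 : (1 - 3 * w) * c ≤ (c - w) * (1 - w) := by nlinarith
    calc (1 - 3 * w) * (c * x ^ n) = ((1 - 3 * w) * c) * x ^ n := by ring
      _ ≤ ((c - w) * (1 - w)) * x ^ n := mul_le_mul_of_nonneg_right h4 (by positivity)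
      _ = (c - w) * (x ^ n * (1 - w)) := by ring
      _ ≤ (c - w) * (x ^ n * (1 - w / x) ^ n) := by
          apply mul_le_mul_of_nonneg_left _ (by linarith)
          exact mul_le_mul_of_nonneg_left h3 (by positivity)

lemma mT_ge_deriv {w : ℝ} (hw0 : 0 ≤ w) (hw : w ≤ 1 / 3) {as : List ℝ} (h : Lv as) :
    LE (C (1 - 3 * w) * mT 0 as) (mT w as) := by
  induction as with
  | nil => rw [mT, mT, mul_zero]; exact LE.refl _
  | cons s as ih =>
    have hs := h.head
    rw [mT, mT]
    have e : C (1 - 3 * w) * (C (s ^ 2) * KK as * ab (1 - s - 0) + kc s * mT 0 as)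
        = (C (s ^ 2) * KK as) * (C (1 - 3 * w) * ab (1 - s)) + kc s * (C (1 - 3 * w) * mT 0 as) := by
      rw [sub_zero]; ring
    rw [e]
    have hw3 : 0 ≤ 1 - 3 * w := by linarith
    have n1 : NN (C (s ^ 2) * KK as) := (NN.C (sq_nonneg s)).mul (NN_KK h.tail)
    apply LE.add
    · exact (LE.refl _).mul (ab_sub_ge hw0 hw (by linarith)) n1
        ((NN.C hw3).mul (NN.ab (by linarith)))
    · exact (LE.refl _).mul (ih h.tail) (NN.kc (by linarith))
        ((NN.C hw3).mul (NN_mT (by norm_num) h.tail))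

/-- comparison with the next coefficient of `K` -/
lemma mT_ge_next {w : ℝ} (hw0 : 0 ≤ w) (hw : w ≤ 1 / 3) {as : List ℝ} (h : Lv as) (n : ℕ) :
    (1 - 3 * w) * (coeff (n + 1) (KK as) * (n + 1)) ≤ coeff n (mT w as) := by
  have h1 := mT_ge_deriv hw0 hw h n
  rw [coeff_C_mul, ← deriv_KK, coeff_derivative] at h1
  exact h1

end Pool.Agent.Lib_helper36.SRC
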