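import Pool.Agent.Lib_helper36.SRC.StarC

set_option autoImplicit false

/-! # The star lemma, part 4: the tail part -/

namespace Pool.Agent.Lib_helper36.SRC

open Finset PowerSeries Pool.Agent.Lib_helper79.SRC Pool.Agent.Lib_helper35.SRC

lemma NN_coin {s : ℝ} (h0 : 0 ≤ s) (h1 : s ≤ 1) : NN (1 + C s * (X - 1) : ℝ⟦X⟧) := by
  intro n
  have e : (1 + C s * (X - 1) : ℝ⟦X⟧) = C (1 - s) + C s * X := by
    rw [map_sub, map_one]; ring
  rw [e, map_add, coeff_C, coeff_C_mul, coeff_X]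
  split_ifs <;> simp <;> linarith

lemma NN_prodC {as : List ℝ} (h : Lv as) : NN (prodC as) := by
  induction as with
  | nil => rw [prodC_nil]; exact NN.one
  | cons s as ih =>
    rw [prodC_cons]
    have hs := h.head
    exact (NN_coin hs.1 (by linarith)).mul (ih h.tail)

lemma NN_quC {as : List ℝ} (h : Lv as) : NN (quC as) := by
  induction as with
  | nil => rw [quC]; exact NN.zero
  | cons s as ih =>
    rw [quC]
    have hs := h.head
    exact (ih h.tail).add ((NN.C hs.1).mul (NN_prodC h.tail))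

lemma coeff_coin_mul (s : ℝ) (f : ℝ⟦X⟧) (n : ℕ) : coeff (n + 1) ((1 + C s * (X - 1)) * f)
    = (1 - s) * coeff (n + 1) f + s * coeff n f := by
  have e : (1 + C s * (X - 1)) * f = C (1 - s) * f + C s * (X * f) := by
    rw [map_sub, map_one]; ring
  rw [e, map_add, coeff_C_mul, coeff_C_mul, coeff_succ_X_mul]

lemma prodC_deg (as : List ℝ) : ∀ k, as.length < k → coeff k (prodC as) = 0 := by
  induction as with
  | nil =>
    intro k hk
    rw [prodC_nil, coeff_one, if_neg (by simp at hk; omega)]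
  | cons s as ih =>
    intro k hk
    rw [List.length_cons] at hk
    obtain ⟨j, rfl⟩ : ∃ j, k = j + 1 := ⟨k - 1, by omega⟩
    rw [prodC_cons, coeff_coin_mul, ih _ (by omega), ih _ (by omega)]
    ring

lemma quC_deg (as : List ℝ) : ∀ k, as.length ≤ k → coeff k (quC as) = 0 := by
  induction as with
  | nil => intro k _; rw [quC]; simp
  | cons s as ih =>
    intro k hk
    rw [List.length_cons] at hk
    rw [quC, map_add, coeff_C_mul, ih k (by omega), prodC_deg as k (by omega)]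
    ring

lemma quC_zero (as : List ℝ) : coeff 0 (quC as) = 1 - coeff 0 (prodC as) := by
  have h := congrArg (coeff 0) (prodC_sub_one as)
  rw [map_sub, coeff_mul_zero', map_sub] at h
  simp at h
  have h2 : coeff 0 (quC as) = constantCoeff (quC as) := by simp
  have h3 : coeff 0 (prodC as) = constantCoeff (prodC as) := by simp
  rw [h2, h3]
  linarith

lemma quC_succ (as : List ℝ) (k : ℕ) : coeff (k + 1) (quC as)
    = coeff k (quC as) - coeff (k + 1) (prodC as) := by
  have h := congrArg (coeff (k + 1)) (prodC_sub_one as)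
  rw [map_sub, sub_mul, one_mul, map_sub, coeff_succ_X_mul, coeff_one, if_neg (by omega)] at h
  linarith

lemma quC_le_one {as : List ℝ} (h : Lv as) (k : ℕ) : coeff k (quC as) ≤ 1 := by
  induction k with
  | zero => rw [quC_zero]; have := NN_prodC h 0; linarith
  | succ k ih => rw [quC_succ]; have := NN_prodC h (k + 1); linarith

lemma coeff_prodC_zero (as : List ℝ) : coeff 0 (prodC as) = Pi0 as := by
  rw [Pi0_eq, ← constCoeff_prodC]; simp

lemma coeff_prodC_one {as : List ℝ} (h : Lv as) : coeff 1 (prodC as) = Pi0 as * (LS as + as.sum) := by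
  induction as with
  | nil => rw [prodC_nil, Pi0, LS, coeff_one]; simp
  | cons s as ih =>
    have h1 : 1 - s ≠ 0 := by have := h.head.2; intro h'; linarith
    rw [prodC_cons, show (1 : ℕ) = 0 + 1 by rfl, coeff_coin_mul, zero_add, ih h.tail,
      coeff_prodC_zero, Pi0, LS, List.sum_cons]
    field_simp
    ring

lemma quC_eq_sum (as : List ℝ) : quC as = ∑ k ∈ range as.length, C (coeff k (quC as)) * X ^ k := by
  ext n
  rw [map_sum]
  rcases Nat.lt_or_ge n as.length with h | h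
  · rw [sum_eq_single n]
    · rw [coeff_C_mul, coeff_X_pow, if_pos rfl, mul_one]
    · intro b _ hb
      rw [coeff_C_mul, coeff_X_pow, if_neg (Ne.symm hb), mul_zero]
    · intro h'; exact absurd (mem_range.2 h) h'
  · rw [quC_deg as n h]
    symm
    apply sum_eq_zero
    intro b hb
    rw [coeff_C_mul, coeff_X_pow, if_neg, mul_zero]
    have := mem_range.1 hb
    omega

/-- transform of `quC` -/
noncomputable def tT (ρ : ℝ) (as : List ℝ) : ℝ⟦X⟧ :=
  ∑ k ∈ range as.length, C (coeff k (quC as)) * xk k ρ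

lemma S_tT (ρ : ℝ) (as : List ℝ) : S (tT ρ as) = quC as * Ex (-ρ) := by
  unfold tT
  conv_rhs => rw [quC_eq_sum as]
  rw [map_sum, sum_mul]
  apply sum_congr rfl
  intro k _
  rw [map_mul, S_C, S_xk, mul_assoc]

/-- the `R`-series -/
noncomputable def rS (w : ℝ) (as : List ℝ) : ℝ⟦X⟧ :=
  mT w as + C w * tT (as.sum + w - 1) as + C (w * (as.sum + w)) * xk 0 (as.sum + w - 1)

theorem inW_of_rS {w : ℝ} {as : List ℝ} (h0 : w ≤ Pi0 as) (h : NN (rS w as)) :
    InW (as.sum + w) (prodC as + C w * (X - 1)) := by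
  have key := inW_star_of_R as w 0 (by rw [← Pi0_eq]; linarith) ?_
  · refine key.congr rfl ?_
    rw [map_zero]; ring
  · apply (inW_iff_NN (τ := rS w as) ?_).2 h
    unfold rS
    rw [map_add, map_add, map_mul, map_mul, S_mT, S_tT, S_xk, S_C, S_C]
    simp only [mul_zero, sub_zero, map_zero, zero_mul, add_zero, pow_zero, map_mul, one_mul]
    ring

/-- negative part of the coefficient of `x^k e^{-ρ x}` -/
noncomputable def Bd (ρ : ℝ) (n k : ℕ) : ℝ := max (-coeff n (xk k ρ)) 0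

lemma Bd_nonneg (ρ : ℝ) (n k : ℕ) : 0 ≤ Bd ρ n k := le_max_right _ _

lemma Bd_eq_zero {ρ : ℝ} {n k : ℕ} (h : n ≤ k) : Bd ρ n k = 0 := by
  unfold Bd
  rcases h.eq_or_lt with h | h
  · subst h; rw [coeff_xk_self]; norm_num
  · rw [coeff_xk_lt k n ρ h]; norm_num

lemma tT_ge {as : List ℝ} (h : Lv as) (ρ : ℝ) (n : ℕ) :
    -(∑ k ∈ range n, Bd ρ n k) ≤ coeff n (tT ρ as) := by
  unfold tT
  rw [map_sum]
  have h1 : -(∑ k ∈ range as.length, Bd ρ n k)
      ≤ ∑ k ∈ range as.length, coeff n (C (coeff k (quC as)) * xk k ρ) := by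
    rw [← sum_neg_distrib]
    apply sum_le_sum
    intro k _
    rw [coeff_C_mul]
    have a0 := NN_quC h k
    have a1 := quC_le_one h k
    unfold Bd
    rcases le_total 0 (coeff n (xk k ρ)) with hc | hc
    · rw [max_eq_right (by linarith)]
      have := mul_nonneg a0 hc
      linarith
    · rw [max_eq_left (by linarith)]
      nlinarith
  have h2 : ∑ k ∈ range as.length, Bd ρ n k ≤ ∑ k ∈ range n, Bd ρ n k := by
    have e : ∑ k ∈ range (n + as.length), Bd ρ n k = ∑ k ∈ range n, Bd ρ n k := by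
      rw [sum_range_add]
      have : ∑ x ∈ range as.length, Bd ρ n (n + x) = 0 :=
        sum_eq_zero (fun x _ => Bd_eq_zero (by omega))
      rw [this, add_zero]
    rw [← e]
    apply sum_le_sum_of_subset_of_nonneg
    · apply range_subset_range.2; omega
    · intro i _ _; exact Bd_nonneg _ _ _
  linarith

/-- explicit coefficients: `k < n` -/
lemma coeff_xk_of_lt {k n : ℕ} (h : k < n) (ρ : ℝ) :
    coeff n (xk k ρ) = ((k : ℝ) - ρ) * ((n : ℝ) - ρ) ^ (n - k - 1) / (n - k).factorial := by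
  obtain ⟨j, rfl⟩ : ∃ j, n = k + (j + 1) := ⟨n - k - 1, by omega⟩
  rw [coeff_xk k j ρ]
  have e1 : k + (j + 1) - k - 1 = j := by omega
  have e2 : k + (j + 1) - k = j + 1 := by omega
  rw [e1, e2]
  push_cast
  ring

lemma fact_le_pow (k : ℕ) : (k + 1).factorial ≤ (k + 1) ^ k := by
  induction k with
  | zero => simp
  | succ k ih =>
    rw [Nat.factorial_succ, pow_succ, mul_comm]
    apply Nat.mul_le_mul_right
    exact ih.trans (Nat.pow_le_pow_left (by omega) k)

/-- the tail part for `1 ≤ ρ < n` -/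
lemma sum_Bd_gt {ρ : ℝ} {N : ℕ} (h1 : 1 ≤ ρ) (h2 : ρ ≤ N + 1) :
    (N + 1).factorial * ∑ k ∈ range (N + 1), Bd ρ (N + 1) k
      ≤ ((N : ℝ) + 1) ^ N + (ρ - 1) * ((N : ℝ) + 1 - ρ) ^ N := by
  set r := (N : ℝ) + 1 - ρ with hr
  have hr0 : 0 ≤ r := by rw [hr]; linarith
  have key : ∀ k ∈ range (N + 1), (N + 1).factorial * Bd ρ (N + 1) k
      ≤ (if k = 0 then (ρ - 1) * r ^ N else 0) + ρ ^ k * r ^ (N - k) * (N.choose k) := by
    intro k hk
    have hkN : k ≤ N := Nat.lt_succ_iff.1 (mem_range.1 hk)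
    unfold Bd
    rw [coeff_xk_of_lt (by omega)]
    have e1 : N + 1 - k - 1 = N - k := by omega
    rw [e1]
    have e2 : ((N + 1 : ℕ) : ℝ) - ρ = r := by rw [hr]; push_cast; ring
    rw [e2]
    have f1 : (0 : ℝ) < ((N + 1 - k).factorial : ℕ) := by exact_mod_cast Nat.factorial_pos _
    by_cases hk0 : k = 0
    · subst hk0
      rw [if_pos rfl]
      simp only [Nat.cast_zero, zero_sub, Nat.sub_zero, pow_zero, one_mul, Nat.choose_zero_right,
        Nat.cast_one, mul_one]
      have f2 : (0 : ℝ) < ((N + 1).factorial : ℕ) := by exact_mod_cast Nat.factorial_pos _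
      have : -(-ρ * r ^ N / ((N + 1).factorial : ℕ)) = ρ * r ^ N / ((N + 1).factorial : ℕ) := by ring
      rw [this, max_eq_left (by positivity)]
      rw [mul_div_cancel₀ _ f2.ne']
      linarith
    · rw [if_neg hk0, zero_add]
      rcases le_total ρ k with hρ | hρ
      · rw [max_eq_right]
        · rw [mul_zero]; positivity
        · have : 0 ≤ ((k : ℝ) - ρ) * r ^ (N - k) / ((N + 1 - k).factorial : ℕ) := by
            apply div_nonneg (mul_nonneg (by linarith) (by positivity)) (by positivity)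
          linarith
      · rw [max_eq_left]
        · -- the binomial bound
          obtain ⟨j, rfl⟩ : ∃ j, k = j + 1 := ⟨k - 1, by omega⟩
          obtain ⟨i, rfl⟩ : ∃ i, N = i + (j + 1) := ⟨N - (j + 1), by omega⟩
          have e3 : i + (j + 1) + 1 - (j + 1) = i + 1 := by omega
          have e4 : i + (j + 1) - (j + 1) = i := by omega
          rw [e3, e4, Nat.cast_choose ℝ (by omega : j + 1 ≤ i + (j + 1)), e4,
            Nat.factorial_succ (i + (j + 1)), Nat.factorial_succ i]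
          have f3 : (0 : ℝ) < (i.factorial : ℕ) := by exact_mod_cast Nat.factorial_pos _
          have f4 : (0 : ℝ) < ((j + 1).factorial : ℕ) := by exact_mod_cast Nat.factorial_pos _
          have f5 : (0 : ℝ) < ((i + (j + 1)).factorial : ℕ) := by exact_mod_cast Nat.factorial_pos _
          have hi : (0 : ℝ) ≤ i := Nat.cast_nonneg i
          have hj : (0 : ℝ) ≤ j := Nat.cast_nonneg j
          push_cast at hρ h2 ⊢
          have e5 : ((i : ℝ) + (j + 1) + 1) * ((i + (j + 1)).factorial : ℕ)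
              * -(((j : ℝ) + 1 - ρ) * r ^ i / (((i : ℝ) + 1) * (i.factorial : ℕ)))
              = (r ^ i * ((i + (j + 1)).factorial : ℕ) / ((i : ℝ) + 1) / (i.factorial : ℕ))
                * (((i : ℝ) + (j + 1) + 1) * (ρ - (j + 1))) := by
            field_simp
            ring
          have e6 : ρ ^ (j + 1) * r ^ i * (((i + (j + 1)).factorial : ℕ)
              / (((j + 1).factorial : ℕ) * (i.factorial : ℕ)))
              = (r ^ i * ((i + (j + 1)).factorial : ℕ) / ((i : ℝ) + 1) / (i.factorial : ℕ))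
                * (((i : ℝ) + 1) * ρ ^ (j + 1) / ((j + 1).factorial : ℕ)) := by
            field_simp
          rw [e5, e6]
          apply mul_le_mul_of_nonneg_left _ (by positivity)
          rw [le_div_iff₀ f4]
          have h3 : ((i : ℝ) + (j + 1) + 1) * (ρ - (j + 1)) ≤ ((i : ℝ) + 1) * ρ := by nlinarith
          have h4 : (((j + 1).factorial : ℕ) : ℝ) ≤ ρ ^ j := by
            calc (((j + 1).factorial : ℕ) : ℝ) ≤ (((j + 1) ^ j : ℕ) : ℝ) := by
                  exact_mod_cast fact_le_pow j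
              _ = ((j : ℝ) + 1) ^ j := by push_cast; ring
              _ ≤ ρ ^ j := pow_le_pow_left₀ (by positivity) hρ j
          calc ((i : ℝ) + (j + 1) + 1) * (ρ - (j + 1)) * ((j + 1).factorial : ℕ)
              ≤ ((i : ℝ) + 1) * ρ * ρ ^ j := by
                apply mul_le_mul h3 h4 f4.le (by positivity)
            _ = ((i : ℝ) + 1) * ρ ^ (j + 1) := by ring
        · have : ((k : ℝ) - ρ) * r ^ (N - k) / ((N + 1 - k).factorial : ℕ) ≤ 0 := by
            apply div_nonpos_of_nonpos_of_nonneg (mul_nonpos_of_nonpos_of_nonneg (by linarith)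
              (by positivity)) (by positivity)
          linarith
  rw [mul_sum]
  refine (sum_le_sum key).trans ?_
  rw [sum_add_distrib, ← add_pow, sum_ite_eq' (range (N + 1)) 0, if_pos (by simp)]
  have : ρ + r = (N : ℝ) + 1 := by rw [hr]; ring
  rw [this]
  linarith

/-- the tail part for `n ≤ ρ` -/
lemma sum_Bd_le {ρ : ℝ} {N : ℕ} (h1 : (N : ℝ) + 1 ≤ ρ) :
    (N + 1).factorial * ∑ k ∈ range (N + 1), Bd ρ (N + 1) k ≤ ρ ^ (N + 1) := by
  have hN : (0 : ℝ) ≤ N := Nat.cast_nonneg N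
  have hρ0 : 0 ≤ ρ := by linarith
  set r := ρ - ((N : ℝ) + 1) with hr
  have hr0 : 0 ≤ r := by rw [hr]; linarith
  have key : ∀ k ∈ range (N + 1), (N + 1).factorial * Bd ρ (N + 1) k
      ≤ ρ * (((N : ℝ) + 1) ^ k * r ^ (N - k) * (N.choose k)) := by
    intro k hk
    have hkN : k ≤ N := Nat.lt_succ_iff.1 (mem_range.1 hk)
    have hk1 : (k : ℝ) ≤ N := by exact_mod_cast hkN
    have hb : Bd ρ (N + 1) k ≤ (ρ - k) * r ^ (N - k) / ((N + 1 - k).factorial : ℕ) := by
      unfold Bd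
      rw [coeff_xk_of_lt (by omega)]
      have e1 : N + 1 - k - 1 = N - k := by omega
      rw [e1]
      have e2 : ((N + 1 : ℕ) : ℝ) - ρ = -r := by rw [hr]; push_cast; ring
      rw [e2]
      have f1 : (0 : ℝ) < ((N + 1 - k).factorial : ℕ) := by exact_mod_cast Nat.factorial_pos _
      have hd : 0 ≤ (ρ - k) * r ^ (N - k) / ((N + 1 - k).factorial : ℕ) :=
        div_nonneg (mul_nonneg (by linarith) (by positivity)) (by positivity)
      apply max_le _ hd
      have e3 : -(((k : ℝ) - ρ) * (-r) ^ (N - k) / ((N + 1 - k).factorial : ℕ))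
          = (ρ - k) * (-r) ^ (N - k) / ((N + 1 - k).factorial : ℕ) := by ring
      rw [e3]
      apply div_le_div_of_nonneg_right _ f1.le
      apply mul_le_mul_of_nonneg_left _ (by linarith)
      calc (-r) ^ (N - k) ≤ |(-r) ^ (N - k)| := le_abs_self _
        _ = r ^ (N - k) := by rw [abs_pow, abs_neg, abs_of_nonneg hr0]
    refine (mul_le_mul_of_nonneg_left hb (by positivity)).trans ?_
    obtain ⟨i, rfl⟩ : ∃ i, N = i + k := ⟨N - k, by omega⟩
    have e3 : i + k + 1 - k = i + 1 := by omega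
    have e4 : i + k - k = i := by omega
    rw [e3, e4, Nat.cast_choose ℝ (by omega : k ≤ i + k), e4, Nat.factorial_succ (i + k),
      Nat.factorial_succ i]
    have f3 : (0 : ℝ) < (i.factorial : ℕ) := by exact_mod_cast Nat.factorial_pos _
    have f4 : (0 : ℝ) < (k.factorial : ℕ) := by exact_mod_cast Nat.factorial_pos _
    have f5 : (0 : ℝ) < ((i + k).factorial : ℕ) := by exact_mod_cast Nat.factorial_pos _
    have hi : (0 : ℝ) ≤ i := Nat.cast_nonneg i
    have hk0 : (0 : ℝ) ≤ k := Nat.cast_nonneg k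
    push_cast
    have e5 : ((i : ℝ) + k + 1) * ((i + k).factorial : ℕ)
        * ((ρ - k) * r ^ i / (((i : ℝ) + 1) * (i.factorial : ℕ)))
        = (r ^ i * ((i + k).factorial : ℕ) / ((i : ℝ) + 1) / (i.factorial : ℕ))
          * (((i : ℝ) + k + 1) * (ρ - k)) := by
      field_simp
    have e6 : ρ * (((i : ℝ) + k + 1) ^ k * r ^ i * (((i + k).factorial : ℕ)
        / ((k.factorial : ℕ) * (i.factorial : ℕ))))
        = (r ^ i * ((i + k).factorial : ℕ) / ((i : ℝ) + 1) / (i.factorial : ℕ))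
          * (ρ * ((i : ℝ) + 1) * ((i : ℝ) + k + 1) ^ k / (k.factorial : ℕ)) := by
      field_simp
    rw [e5, e6]
    apply mul_le_mul_of_nonneg_left _ (by positivity)
    rw [le_div_iff₀ f4]
    have h4 : ((i : ℝ) + k + 1) * (k.factorial : ℕ) ≤ ((i : ℝ) + 1) * ((i : ℝ) + k + 1) ^ k := by
      rcases Nat.eq_zero_or_pos k with h0 | h0
      · subst h0; simp
      · obtain ⟨j, rfl⟩ : ∃ j, k = j + 1 := ⟨k - 1, by omega⟩
        have h5 : (((j + 1).factorial : ℕ) : ℝ) ≤ ((i : ℝ) + ((j + 1 : ℕ) : ℝ) + 1) ^ j := by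
          calc (((j + 1).factorial : ℕ) : ℝ) ≤ (((j + 1) ^ j : ℕ) : ℝ) := by
                exact_mod_cast fact_le_pow j
            _ = ((j : ℝ) + 1) ^ j := by push_cast; ring
            _ ≤ _ := pow_le_pow_left₀ (by positivity) (by push_cast; linarith) j
        have h6 : 0 ≤ (i : ℝ) + ((j + 1 : ℕ) : ℝ) + 1 := by positivity
        calc ((i : ℝ) + ((j + 1 : ℕ) : ℝ) + 1) * ((j + 1).factorial : ℕ)
            ≤ ((i : ℝ) + ((j + 1 : ℕ) : ℝ) + 1) * ((i : ℝ) + ((j + 1 : ℕ) : ℝ) + 1) ^ j :=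
              mul_le_mul_of_nonneg_left h5 h6
          _ = 1 * ((i : ℝ) + ((j + 1 : ℕ) : ℝ) + 1) ^ (j + 1) := by ring
          _ ≤ ((i : ℝ) + 1) * ((i : ℝ) + ((j + 1 : ℕ) : ℝ) + 1) ^ (j + 1) := by
              apply mul_le_mul_of_nonneg_right _ (by positivity)
              linarith
    have h7 : 0 ≤ ((i : ℝ) + k + 1) * (k.factorial : ℕ) := by positivity
    calc ((i : ℝ) + k + 1) * (ρ - k) * (k.factorial : ℕ)
        = (((i : ℝ) + k + 1) * (k.factorial : ℕ)) * (ρ - k) := by ring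
      _ ≤ (((i : ℝ) + k + 1) * (k.factorial : ℕ)) * ρ := mul_le_mul_of_nonneg_left (by linarith) h7
      _ ≤ (((i : ℝ) + 1) * ((i : ℝ) + k + 1) ^ k) * ρ := mul_le_mul_of_nonneg_right h4 hρ0
      _ = ρ * ((i : ℝ) + 1) * ((i : ℝ) + k + 1) ^ k := by ring
  rw [mul_sum]
  refine (sum_le_sum key).trans ?_
  rw [← mul_sum, ← add_pow]
  have : (N : ℝ) + 1 + r = ρ := by rw [hr]; ring
  rw [this, pow_succ, mul_comm]

/-- the tail part for `ρ ≤ 1` -/
lemma sum_Bd_one {ρ : ℝ} {N : ℕ} (h0 : 0 ≤ ρ) (h1 : ρ ≤ 1) :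
    (N + 1).factorial * ∑ k ∈ range (N + 1), Bd ρ (N + 1) k = ρ * ((N : ℝ) + 1 - ρ) ^ N := by
  have hN : (0 : ℝ) ≤ N := Nat.cast_nonneg N
  rw [sum_range_succ']
  have hz : ∑ k ∈ range N, Bd ρ (N + 1) (k + 1) = 0 := by
    apply sum_eq_zero
    intro k hk
    have hk' := mem_range.1 hk
    unfold Bd
    rw [coeff_xk_of_lt (by omega), max_eq_right]
    have : 0 ≤ (((k + 1 : ℕ) : ℝ) - ρ) * (((N + 1 : ℕ) : ℝ) - ρ) ^ (N + 1 - (k + 1) - 1)
        / ((N + 1 - (k + 1)).factorial : ℕ) := by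
      have hk0 : (0 : ℝ) ≤ k := Nat.cast_nonneg k
      apply div_nonneg (mul_nonneg _ (pow_nonneg _ _)) (by positivity)
      · push_cast; linarith
      · push_cast; linarith
    linarith
  rw [hz, zero_add]
  unfold Bd
  rw [coeff_xk_of_lt (by omega)]
  have f2 : (0 : ℝ) < ((N + 1).factorial : ℕ) := by exact_mod_cast Nat.factorial_pos _
  have e : -((((0 : ℕ) : ℝ) - ρ) * (((N + 1 : ℕ) : ℝ) - ρ) ^ (N + 1 - 0 - 1) / ((N + 1 - 0).factorial : ℕ))
      = ρ * ((N : ℝ) + 1 - ρ) ^ N / ((N + 1).factorial : ℕ) := by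
    rw [Nat.sub_zero, Nat.add_sub_cancel]
    push_cast
    ring
  rw [e, max_eq_left]
  · rw [mul_div_cancel₀ _ f2.ne']
  · apply div_nonneg (mul_nonneg h0 (pow_nonneg (by linarith) _)) f2.le

/-- the tail part for `1 ≤ ρ ≤ 2` -/
lemma sum_Bd_two {ρ : ℝ} {N : ℕ} (h0 : 1 ≤ ρ) (h1 : ρ ≤ 2) :
    (N + 2).factorial * ∑ k ∈ range (N + 2), Bd ρ (N + 2) k
      = ρ * ((N : ℝ) + 2 - ρ) ^ (N + 1) + (ρ - 1) * ((N : ℝ) + 2) * ((N : ℝ) + 2 - ρ) ^ N := by
  have hN : (0 : ℝ) ≤ N := Nat.cast_nonneg N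
  rw [sum_range_succ', sum_range_succ']
  have hz : ∑ k ∈ range N, Bd ρ (N + 2) (k + 1 + 1) = 0 := by
    apply sum_eq_zero
    intro k hk
    have hk' := mem_range.1 hk
    unfold Bd
    rw [coeff_xk_of_lt (by omega), max_eq_right]
    have : 0 ≤ (((k + 1 + 1 : ℕ) : ℝ) - ρ) * (((N + 2 : ℕ) : ℝ) - ρ) ^ (N + 2 - (k + 1 + 1) - 1)
        / ((N + 2 - (k + 1 + 1)).factorial : ℕ) := by
      have hk0 : (0 : ℝ) ≤ k := Nat.cast_nonneg k
      apply div_nonneg (mul_nonneg _ (pow_nonneg _ _)) (by positivity)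
      · push_cast; linarith
      · push_cast; linarith
    linarith
  rw [hz, zero_add]
  have f2 : (0 : ℝ) < ((N + 2).factorial : ℕ) := by exact_mod_cast Nat.factorial_pos _
  have b0 : Bd ρ (N + 2) 0 = ρ * ((N : ℝ) + 2 - ρ) ^ (N + 1) / ((N + 2).factorial : ℕ) := by
    unfold Bd
    rw [coeff_xk_of_lt (by omega)]
    have e : -((((0 : ℕ) : ℝ) - ρ) * (((N + 2 : ℕ) : ℝ) - ρ) ^ (N + 2 - 0 - 1) / ((N + 2 - 0).factorial : ℕ))
        = ρ * ((N : ℝ) + 2 - ρ) ^ (N + 1) / ((N + 2).factorial : ℕ) := by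
      rw [Nat.sub_zero, show N + 2 - 1 = N + 1 by omega]
      push_cast
      ring
    rw [e, max_eq_left]
    apply div_nonneg (mul_nonneg (by linarith) (pow_nonneg (by linarith) _)) f2.le
  have b1 : Bd ρ (N + 2) (0 + 1)
      = (ρ - 1) * ((N : ℝ) + 2) * ((N : ℝ) + 2 - ρ) ^ N / ((N + 2).factorial : ℕ) := by
    unfold Bd
    rw [coeff_xk_of_lt (by omega)]
    have f3 : (0 : ℝ) < ((N + 1).factorial : ℕ) := by exact_mod_cast Nat.factorial_pos _
    have e : -((((0 + 1 : ℕ) : ℝ) - ρ) * (((N + 2 : ℕ) : ℝ) - ρ) ^ (N + 2 - (0 + 1) - 1)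
          / ((N + 2 - (0 + 1)).factorial : ℕ))
        = (ρ - 1) * ((N : ℝ) + 2) * ((N : ℝ) + 2 - ρ) ^ N / ((N + 2).factorial : ℕ) := by
      rw [show N + 2 - (0 + 1) - 1 = N by omega, show N + 2 - (0 + 1) = N + 1 by omega,
        Nat.factorial_succ (N + 1)]
      push_cast
      field_simp
      ring
    rw [e, max_eq_left]
    apply div_nonneg (mul_nonneg (mul_nonneg (by linarith) (by linarith)) (pow_nonneg (by linarith) _)) f2.le
  rw [b0, b1]
  field_simp
  ring

end Pool.Agent.Lib_helper36.SRC
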