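import Pool.Agent.Lib_helper36.SRC.Reduce

set_option autoImplicit false

/-! Above the mean the coefficients decrease. -/

namespace Pool.Agent.Lib_helper36.SRC

open Finset Polynomial

variable {V : Type} [Fintype V] [DecidableEq V]

/-- coefficients of a binomial power -/
lemma coeff_pow_binom (s : ℝ) (N k : ℕ) :
    ((1 + C s * (X - 1) : ℝ[X]) ^ N).coeff k = (N.choose k : ℝ) * s ^ k * (1 - s) ^ (N - k) := by
  have h : (1 + C s * (X - 1) : ℝ[X]) = C s * X + C (1 - s) := by
    rw [C_sub, C_1]; ring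
  rw [h, add_pow]
  rw [finsetSum_coeff]
  have : ∀ m ∈ range (N + 1), ((C s * X) ^ m * C (1 - s) ^ (N - m) * (N.choose m : ℝ[X])).coeff k
      = if m = k then (N.choose k : ℝ) * s ^ k * (1 - s) ^ (N - k) else 0 := by
    intro m _
    have e : (C s * X) ^ m * C (1 - s) ^ (N - m) * (N.choose m : ℝ[X])
        = C ((N.choose m : ℝ) * s ^ m * (1 - s) ^ (N - m)) * X ^ m := by
      rw [mul_pow]
      simp only [C_mul, C_pow, map_natCast]
      ring
    rw [e, coeff_C_mul, coeff_X_pow]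
    by_cases hmk : m = k
    · subst hmk; simp
    · simp [hmk, Ne.symm hmk]
  rw [sum_congr rfl this, sum_ite_eq']
  by_cases hk : k ∈ range (N + 1)
  · rw [if_pos hk]
  · rw [if_neg hk]
    have : N.choose k = 0 := Nat.choose_eq_zero_of_lt (by simpa using hk)
    simp [this]

/-- (U') for binomial powers -/
lemma binom_upper (N j : ℕ) (s μ : ℝ) (hs : 0 ≤ s) (hμ : (N : ℝ) * s = μ) (hj : μ ≤ j) :
    ((j : ℝ) + 1) * ((1 + C s * (X - 1) : ℝ[X]) ^ N).coeff (j + 1)
      ≤ μ * ((1 + C s * (X - 1) : ℝ[X]) ^ N).coeff j := by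
  rw [coeff_pow_binom, coeff_pow_binom]
  rcases lt_trichotomy N j with h | h | h
  · rw [Nat.choose_eq_zero_of_lt h, Nat.choose_eq_zero_of_lt (Nat.lt_succ_of_lt h)]; simp
  · subst h
    rw [Nat.choose_eq_zero_of_lt (Nat.lt_succ_self N)]
    simp only [Nat.cast_zero, zero_mul, mul_zero, Nat.choose_self, Nat.cast_one, one_mul,
      Nat.sub_self, pow_zero, mul_one]
    rw [← hμ]; positivity
  · have hN : (0 : ℝ) < N := by
      have : 0 < N := lt_of_le_of_lt (Nat.zero_le j) h
      exact_mod_cast this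
    have hjN : (j : ℝ) < N := by exact_mod_cast h
    have hs1 : s < 1 := by
      by_contra h1
      push Not at h1
      nlinarith
    have hc : ((N.choose (j + 1) : ℕ) : ℝ) * ((j : ℝ) + 1) = (N.choose j : ℝ) * ((N : ℝ) - j) := by
      have := Nat.choose_succ_right_eq N j
      have h2 : ((N.choose (j + 1) * (j + 1) : ℕ) : ℝ) = ((N.choose j * (N - j) : ℕ) : ℝ) := by
        rw [this]
      push_cast [Nat.cast_sub h.le] at h2
      exact h2
    have e : N - j = (N - (j + 1)) + 1 := by omega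
    rw [e, pow_succ (1 - s) (N - (j + 1)), pow_succ s j]
    have hD : 0 ≤ (N.choose j : ℝ) * s ^ j * (1 - s) ^ (N - (j + 1)) := by
      have : 0 ≤ 1 - s := by linarith
      positivity
    have e1 : ((j : ℝ) + 1) * ((N.choose (j + 1) : ℝ) * (s ^ j * s) * (1 - s) ^ (N - (j + 1)))
        = ((N : ℝ) - j) * s * ((N.choose j : ℝ) * s ^ j * (1 - s) ^ (N - (j + 1))) := by
      calc _ = ((N.choose (j + 1) : ℝ) * ((j : ℝ) + 1)) * (s ^ j * s * (1 - s) ^ (N - (j + 1))) := by
            ring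
        _ = _ := by rw [hc]; ring
    have e2 : μ * ((N.choose j : ℝ) * s ^ j * ((1 - s) ^ (N - (j + 1)) * (1 - s)))
        = (μ * (1 - s)) * ((N.choose j : ℝ) * s ^ j * (1 - s) ^ (N - (j + 1))) := by ring
    rw [e1, e2]
    apply mul_le_mul_of_nonneg_right _ hD
    rw [← hμ]
    nlinarith

/-- the functional `α [x^(j+1)] - β [x^j]` -/
noncomputable def LL (j : ℕ) (α β : ℝ) : ℝ[X] →ₗ[ℝ] ℝ :=
  α • lcoeff ℝ (j + 1) - β • lcoeff ℝ j

lemma LL_apply (j : ℕ) (α β : ℝ) (f : ℝ[X]) : LL j α β f = α * f.coeff (j + 1) - β * f.coeff j := by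
  simp [LL]

/-- (U') for every graph and every nonnegative weights -/
theorem upper_weights (G : SimpleGraph V) (p : V → ℝ) (hp : ∀ v, 0 ≤ p v) (j : ℕ)
    (hj : ∑ v, p v ≤ j) :
    ((j : ℝ) + 1) * (IP G p (X - 1)).coeff (j + 1) ≤ (∑ v, p v) * (IP G p (X - 1)).coeff j := by
  have := reduce G (LL j ((j : ℝ) + 1) (∑ v, p v)) (X - 1) (∑ v, p v) (by
    intro N _ s hs hN
    rw [LL_apply]
    have := binom_upper N j s _ hs hN hj
    linarith) p hp rfl
  rw [LL_apply] at this
  linarith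

end Pool.Agent.Lib_helper36.SRC
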