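import Mathlib

set_option autoImplicit false

/-! # The cone `W ν`

Power series in `x`; `E c` is `exp (c (x - 1))`; `W ν` is the set of the series
`∑ a, w a * x^a * E (ν - a)` with nonnegative coefficients `w`. -/

namespace Pool.Agent.Lib_helper36.SRC

open Finset PowerSeries

/-- `exp (c (x - 1))` -/
noncomputable def E (c : ℝ) : ℝ⟦X⟧ := C (Real.exp (-c)) * rescale c (exp ℝ)

lemma coeff_E (c : ℝ) (n : ℕ) : coeff n (E c) = Real.exp (-c) * c ^ n / n.factorial := by
  unfold E
  rw [coeff_C_mul, coeff_rescale, coeff_exp]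
  simp
  ring

lemma E_zero : E 0 = 1 := by
  unfold E
  simp

lemma E_add (c d : ℝ) : E (c + d) = E c * E d := by
  unfold E
  rw [← exp_mul_exp_eq_exp_add, neg_add, Real.exp_add, map_mul]
  ring

lemma E_deriv (c : ℝ) : d⁄dX ℝ (E c) = C c * E c := by
  ext n
  rw [coeff_derivative, coeff_C_mul, coeff_E, coeff_E, Nat.factorial_succ]
  push_cast
  have h1 : (n.factorial : ℝ) ≠ 0 := by exact_mod_cast n.factorial_ne_zero
  have h2 : ((n : ℝ) + 1) ≠ 0 := by positivity
  field_simp
  ring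

/-- the cone `W ν` -/
def InW (ν : ℝ) (F : ℝ⟦X⟧) : Prop :=
  ∃ w : ℕ → ℝ, (∀ a, 0 ≤ w a) ∧
    ∀ N : ℕ, (X : ℝ⟦X⟧) ^ N ∣ F - ∑ a ∈ range N, C (w a) * (X ^ a * E (ν - a))

lemma InW.congr {ν ν' : ℝ} {F F' : ℝ⟦X⟧} (h : InW ν F) (hν : ν = ν') (hF : F = F') : InW ν' F' := by
  subst hν; subst hF; exact h

lemma InW.zero (ν : ℝ) : InW ν 0 := ⟨fun _ => 0, fun _ => le_refl _, fun N => by simp⟩

lemma InW.add {ν : ℝ} {F G : ℝ⟦X⟧} (hF : InW ν F) (hG : InW ν G) : InW ν (F + G) := by
  obtain ⟨w, hw, hF⟩ := hF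
  obtain ⟨v, hv, hG⟩ := hG
  refine ⟨fun a => w a + v a, fun a => add_nonneg (hw a) (hv a), fun N => ?_⟩
  have := dvd_add (hF N) (hG N)
  convert this using 1
  simp only [map_add, add_mul, sum_add_distrib]
  ring

lemma InW.smul {ν : ℝ} {F : ℝ⟦X⟧} {c : ℝ} (hc : 0 ≤ c) (hF : InW ν F) : InW ν (C c * F) := by
  obtain ⟨w, hw, hF⟩ := hF
  refine ⟨fun a => c * w a, fun a => mul_nonneg hc (hw a), fun N => ?_⟩
  have := Dvd.dvd.mul_left (hF N) (C c)
  convert this using 1
  rw [mul_sub, mul_sum]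
  congr 1
  apply sum_congr rfl
  intro a _
  rw [map_mul]; ring

lemma InW.sum {ι : Type*} {ν : ℝ} (s : Finset ι) (F : ι → ℝ⟦X⟧) (h : ∀ i ∈ s, InW ν (F i)) :
    InW ν (∑ i ∈ s, F i) := by
  classical
  induction s using Finset.induction_on with
  | empty => simpa using InW.zero ν
  | insert i s hi ih =>
    rw [sum_insert hi]
    exact (h i (mem_insert_self _ _)).add (ih (fun j hj => h j (mem_insert_of_mem hj)))

/-- multiplication by `E c` shifts the parameter -/
lemma InW.mul_E {ν : ℝ} {F : ℝ⟦X⟧} (hF : InW ν F) (c : ℝ) : InW (ν + c) (E c * F) := by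
  obtain ⟨w, hw, hF⟩ := hF
  refine ⟨w, hw, fun N => ?_⟩
  have := Dvd.dvd.mul_left (hF N) (E c)
  convert this using 1
  rw [mul_sub, mul_sum]
  congr 1
  apply sum_congr rfl
  intro a _
  have : ν + c - a = c + (ν - a) := by ring
  rw [this, E_add]; ring

/-- the product -/
lemma InW.mul {ν ν' : ℝ} {F G : ℝ⟦X⟧} (hF : InW ν F) (hG : InW ν' G) : InW (ν + ν') (F * G) := by
  obtain ⟨w, hw, hF⟩ := hF
  obtain ⟨v, hv, hG⟩ := hG
  refine ⟨fun n => ∑ ij ∈ antidiagonal n, w ij.1 * v ij.2,
    fun n => sum_nonneg (fun ij _ => mul_nonneg (hw _) (hv _)), fun N => ?_⟩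
  set A := ∑ a ∈ range N, C (w a) * (X ^ a * E (ν - a)) with hA
  set B := ∑ a ∈ range N, C (v a) * (X ^ a * E (ν' - a)) with hB
  have h1 : (X : ℝ⟦X⟧) ^ N ∣ F * G - A * B := by
    have e : F * G - A * B = (F - A) * G + A * (G - B) := by ring
    rw [e]
    exact dvd_add (Dvd.dvd.mul_right (hF N) _) (Dvd.dvd.mul_left (hG N) _)
  let f : ℕ × ℕ → ℝ⟦X⟧ := fun ij => C (w ij.1 * v ij.2) *
    (X ^ (ij.1 + ij.2) * E (ν + ν' - ((ij.1 + ij.2 : ℕ) : ℝ)))
  have h2 : A * B = ∑ ij ∈ range N ×ˢ range N, f ij := by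
    rw [hA, hB, sum_mul_sum, sum_product]
    apply sum_congr rfl
    intro a _
    apply sum_congr rfl
    intro b _
    simp only [f]
    have : ν + ν' - ((a + b : ℕ) : ℝ) = (ν - a) + (ν' - b) := by push_cast; ring
    rw [this, E_add, map_mul, pow_add]
    ring
  have h3 : ∑ ij ∈ range N ×ˢ range N, f ij
      = ∑ ij ∈ (range N ×ˢ range N).filter (fun ij => ij.1 + ij.2 < N), f ij
        + ∑ ij ∈ (range N ×ˢ range N).filter (fun ij => ¬ ij.1 + ij.2 < N), f ij :=
    (sum_filter_add_sum_filter_not _ _ _).symm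
  have h4 : (X : ℝ⟦X⟧) ^ N ∣
      ∑ ij ∈ (range N ×ˢ range N).filter (fun ij => ¬ ij.1 + ij.2 < N), f ij := by
    apply dvd_sum
    intro ij hij
    have : N ≤ ij.1 + ij.2 := by
      have := (mem_filter.1 hij).2; omega
    exact Dvd.dvd.mul_left (Dvd.dvd.mul_right (pow_dvd_pow X this) _) _
  have h5 : ∑ ij ∈ (range N ×ˢ range N).filter (fun ij => ij.1 + ij.2 < N), f ij
      = ∑ n ∈ range N, ∑ ij ∈ antidiagonal n, f ij := by
    rw [sum_sigma']
    symm
    apply sum_bij (fun (x : Σ _ : ℕ, ℕ × ℕ) _ => x.2)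
    · rintro ⟨n, ij⟩ h
      simp only [mem_sigma, mem_range, HasAntidiagonal.mem_antidiagonal] at h
      simp only [mem_filter, mem_product, mem_range]
      omega
    · rintro ⟨n, ij⟩ h ⟨n', ij'⟩ h' e
      simp only [mem_sigma, mem_range, HasAntidiagonal.mem_antidiagonal] at h h'
      simp only at e
      subst e
      have : n = n' := by omega
      subst this
      rfl
    · intro ij h
      simp only [mem_filter, mem_product, mem_range] at h
      exact ⟨⟨ij.1 + ij.2, ij⟩, by simp [h.2], rfl⟩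
    · intro _ _; rfl
  have h6 : ∀ n ∈ range N, ∑ ij ∈ antidiagonal n, f ij
      = C (∑ ij ∈ antidiagonal n, w ij.1 * v ij.2) * (X ^ n * E (ν + ν' - n)) := by
    intro n _
    rw [map_sum, sum_mul]
    apply sum_congr rfl
    intro ij hij
    have : ij.1 + ij.2 = n := HasAntidiagonal.mem_antidiagonal.1 hij
    simp only [f]
    rw [this]
  have e : F * G - ∑ n ∈ range N, C (∑ ij ∈ antidiagonal n, w ij.1 * v ij.2)
        * (X ^ n * E (ν + ν' - n))
      = (F * G - A * B) + ∑ ij ∈ (range N ×ˢ range N).filter (fun ij => ¬ ij.1 + ij.2 < N), f ij := by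
    rw [h2, h3, h5, sum_congr rfl h6]; ring
  rw [e]
  exact dvd_add h1 h4

/-- finite difference of a power of low degree -/
lemma fd_pow (c : ℝ) (j n : ℕ) (h : j < n) :
    ∑ k ∈ range (n + 1), ((-1 : ℝ) ^ (n - k) * (n.choose k : ℝ)) * (c + k) ^ j = 0 := by
  have h1 := congrFun (fwdDiff_iter_pow_eq_zero_of_lt (R := ℝ) h) c
  rw [fwdDiff_iter_eq_sum_shift] at h1
  rw [Pi.zero_apply] at h1
  rw [← h1]
  apply sum_congr rfl
  intro k _
  simp [zsmul_eq_mul]

/-- Abel's identity -/
lemma abel (c : ℝ) (hc : 0 < c) (n : ℕ) :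
    ∑ a ∈ range (n + 1), (n.choose a : ℝ) * (c * ((a : ℝ) + c) ^ a / ((a : ℝ) + c))
      * (-(a : ℝ)) ^ (n - a) = c ^ n := by
  have hpos : ∀ a : ℕ, (a : ℝ) + c ≠ 0 := fun a => by positivity
  -- expand `(-a)^(n-a) = (c - (a + c))^(n-a)`
  have h1 : ∀ a ∈ range (n + 1), (n.choose a : ℝ) * (c * ((a : ℝ) + c) ^ a / ((a : ℝ) + c))
      * (-(a : ℝ)) ^ (n - a)
      = ∑ j ∈ range (n + 1), if j ≤ n - a then (n.choose j : ℝ) * c ^ (j + 1) *
          (((-1 : ℝ) ^ (n - j - a) * ((n - j).choose a : ℝ)) *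
            (((a : ℝ) + c) ^ (n - j) / ((a : ℝ) + c))) else 0 := by
    intro a ha
    have ha' : a ≤ n := Nat.lt_succ_iff.1 (mem_range.1 ha)
    have e1 : (-(a : ℝ)) ^ (n - a) = ∑ m ∈ range (n - a + 1), c ^ m *
        (-1 * ((a : ℝ) + c)) ^ (n - a - m) * ((n - a).choose m : ℝ) := by
      rw [← add_pow]; congr 1; ring
    rw [e1, mul_sum]
    rw [← sum_filter]
    have e2 : (range (n + 1)).filter (fun j => j ≤ n - a) = range (n - a + 1) := by
      ext j; simp only [mem_filter, mem_range]; omega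
    rw [e2]
    apply sum_congr rfl
    intro j hj
    have hj' : j ≤ n - a := Nat.lt_succ_iff.1 (mem_range.1 hj)
    have e3 : (n.choose a : ℝ) * ((n - a).choose j : ℝ) = (n.choose j : ℝ) * ((n - j).choose a : ℝ) := by
      have h := Nat.choose_mul (n := n) (k := j + a) (s := a) (by omega)
      have h' := Nat.choose_mul (n := n) (k := j + a) (s := j) (by omega)
      have e4 : (j + a).choose a = (j + a).choose j := by
        rw [← Nat.choose_symm_of_eq_add rfl]
      rw [e4] at h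
      have e5 : j + a - a = j := by omega
      have e6 : j + a - j = a := by omega
      rw [e5] at h
      rw [e6] at h'
      have : n.choose a * (n - a).choose j = n.choose j * (n - j).choose a := by
        rw [← h, ← h']
      exact_mod_cast this
    have e7 : n - a - j = n - j - a := by omega
    have e8 : ((a : ℝ) + c) ^ (n - j) = ((a : ℝ) + c) ^ a * ((a : ℝ) + c) ^ (n - j - a) := by
      rw [← pow_add]; congr 1; omega
    rw [mul_pow, e7, e8, pow_succ]
    field_simp
    linear_combination e3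
  rw [sum_congr rfl h1, sum_comm]
  rw [sum_eq_single n]
  · -- the term j = n
    rw [sum_eq_single 0]
    · simp
      field_simp
      ring
    · intro a ha ha0
      have ha' : a ≤ n := Nat.lt_succ_iff.1 (mem_range.1 ha)
      rw [if_neg]
      omega
    · intro h; simp at h
  · intro j hj hjn
    have hj' : j < n := lt_of_le_of_ne (Nat.lt_succ_iff.1 (mem_range.1 hj)) hjn
    have h2 : ∑ a ∈ range (n + 1), (if j ≤ n - a then (n.choose j : ℝ) * c ^ (j + 1) *
          (((-1 : ℝ) ^ (n - j - a) * ((n - j).choose a : ℝ)) *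
            (((a : ℝ) + c) ^ (n - j) / ((a : ℝ) + c))) else 0)
        = (n.choose j : ℝ) * c ^ (j + 1) * ∑ a ∈ range (n - j + 1),
          ((-1 : ℝ) ^ (n - j - a) * ((n - j).choose a : ℝ)) * (c + a) ^ (n - j - 1) := by
      rw [← sum_filter]
      have e2 : (range (n + 1)).filter (fun a => j ≤ n - a) = range (n - j + 1) := by
        ext a; simp only [mem_filter, mem_range]; omega
      rw [e2, mul_sum]
      apply sum_congr rfl
      intro a _
      have e9 : ((a : ℝ) + c) ^ (n - j) = ((a : ℝ) + c) ^ (n - j - 1) * ((a : ℝ) + c) := by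
        rw [← pow_succ]; congr 1; omega
      rw [e9, add_comm c (a : ℝ)]
      have := hpos a
      field_simp
    rw [h2, fd_pow c (n - j - 1) (n - j) (by omega), mul_zero]
  · intro h; simp at h

/-- `E c` is in `W 0` for `c ≥ 0` -/
lemma InW.E_nonneg {c : ℝ} (hc : 0 ≤ c) : InW 0 (E c) := by
  rcases hc.eq_or_lt with h0 | h0
  · subst h0
    refine ⟨fun a => if a = 0 then 1 else 0, fun a => by dsimp only; split_ifs <;> norm_num, fun N => ?_⟩
    rcases Nat.eq_zero_or_pos N with hN | hN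
    · subst hN; simp
    · have : ∑ a ∈ range N, C (if a = 0 then (1 : ℝ) else 0) * (X ^ a * E (0 - (a : ℝ)))
          = E 0 := by
        rw [sum_eq_single 0]
        · simp
        · intro a _ ha; simp [ha]
        · intro h; exact absurd (mem_range.2 hN) h
      rw [this, sub_self]
      exact dvd_zero _
  · refine ⟨fun a => Real.exp (-(a : ℝ)) * Real.exp (-c) *
      (c * ((a : ℝ) + c) ^ a / ((a : ℝ) + c)) / a.factorial, fun a => by positivity, fun N => ?_⟩
    rw [X_pow_dvd_iff]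
    intro n hn
    rw [map_sub, map_sum, sub_eq_zero]
    have h1 : ∀ a ∈ range N, coeff n (C (Real.exp (-(a : ℝ)) * Real.exp (-c) *
        (c * ((a : ℝ) + c) ^ a / ((a : ℝ) + c)) / a.factorial) * (X ^ a * E (0 - (a : ℝ))))
        = if a ≤ n then (Real.exp (-c) / n.factorial) * ((n.choose a : ℝ) *
          (c * ((a : ℝ) + c) ^ a / ((a : ℝ) + c)) * (-(a : ℝ)) ^ (n - a)) else 0 := by
      intro a _
      rw [coeff_C_mul, coeff_X_pow_mul']
      split_ifs with h
      · rw [coeff_E, zero_sub, neg_neg]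
        have e1 : Real.exp (-(a : ℝ)) * Real.exp (a : ℝ) = 1 := by
          rw [← Real.exp_add]; simp
        have e2 : (n.choose a : ℝ) = n.factorial / (a.factorial * (n - a).factorial) := by
          rw [Nat.cast_choose ℝ h]
        rw [e2]
        have f1 : (n.factorial : ℝ) ≠ 0 := by exact_mod_cast n.factorial_ne_zero
        have f2 : (a.factorial : ℝ) ≠ 0 := by exact_mod_cast a.factorial_ne_zero
        have f3 : ((n - a).factorial : ℝ) ≠ 0 := by exact_mod_cast (n - a).factorial_ne_zero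
        calc _ = (Real.exp (-(a : ℝ)) * Real.exp (a : ℝ)) * (Real.exp (-c) *
              (c * ((a : ℝ) + c) ^ a / ((a : ℝ) + c)) / a.factorial * ((-(a : ℝ)) ^ (n - a)
                / (n - a).factorial)) := by ring
          _ = _ := by rw [e1]; field_simp
      · simp
    rw [sum_congr rfl h1, ← sum_filter]
    have e3 : (range N).filter (fun a => a ≤ n) = range (n + 1) := by
      ext a; simp only [mem_filter, mem_range]; omega
    rw [e3, ← mul_sum, abel c h0 n, coeff_E]
    ring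

/-- decreasing in the parameter -/
lemma InW.mono {ν ν' : ℝ} {F : ℝ⟦X⟧} (hF : InW ν' F) (h : ν ≤ ν') : InW ν F := by
  have h1 := hF.mul_E (-(ν' - ν))
  have h2 := h1.mul (InW.E_nonneg (c := ν' - ν) (by linarith))
  refine h2.congr (by ring) ?_
  calc E (-(ν' - ν)) * F * E (ν' - ν) = (E (-(ν' - ν)) * E (ν' - ν)) * F := by ring
    _ = F := by rw [← E_add]; simp [E_zero]

lemma InW.one {ν : ℝ} (h : ν ≤ 0) : InW ν 1 := by
  have := InW.E_nonneg (c := 0) (le_refl _)
  rw [E_zero] at this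
  exact this.mono h

lemma InW.E (c : ℝ) : InW c (SRC.E c) := by
  have := (InW.one (le_refl (0 : ℝ))).mul_E c
  simpa using this

/-- `x ∈ W 1` -/
lemma InW.X : InW 1 (PowerSeries.X : ℝ⟦X⟧) := by
  refine ⟨fun a => if a = 1 then 1 else 0, fun a => by dsimp only; split_ifs <;> norm_num, fun N => ?_⟩
  rcases Nat.lt_or_ge 1 N with hN | hN
  · have : ∑ a ∈ range N, C (if a = 1 then (1 : ℝ) else 0) * (PowerSeries.X ^ a * SRC.E (1 - (a : ℝ)))
        = PowerSeries.X := by
      rw [sum_eq_single 1]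
      · simp [E_zero]
      · intro a _ ha; simp [ha]
      · intro h; exact absurd (mem_range.2 hN) h
    rw [this, sub_self]
    exact dvd_zero _
  · have : ∑ a ∈ range N, C (if a = 1 then (1 : ℝ) else 0) * (PowerSeries.X ^ a * SRC.E (1 - (a : ℝ)))
        = 0 := by
      apply sum_eq_zero
      intro a ha
      have : a ≠ 1 := by have := mem_range.1 ha; omega
      simp [this]
    rw [this, sub_zero]
    calc (PowerSeries.X : ℝ⟦X⟧) ^ N ∣ PowerSeries.X ^ 1 := pow_dvd_pow _ hN
      _ = PowerSeries.X := pow_one _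

/-- linear ODE: divisibility -/
lemma dvd_of_ode (μ : ℝ) (D : ℝ⟦X⟧) (N : ℕ) (h0 : constantCoeff D = 0)
    (h : (PowerSeries.X : ℝ⟦X⟧) ^ (N - 1) ∣ d⁄dX ℝ D - C μ * D) : (PowerSeries.X : ℝ⟦X⟧) ^ N ∣ D := by
  rw [X_pow_dvd_iff] at h ⊢
  intro n
  induction n with
  | zero => intro _; simpa using h0
  | succ n ih =>
    intro hn
    have h1 := h n (by omega)
    rw [map_sub, coeff_derivative, coeff_C_mul, ih (by omega), mul_zero, sub_zero] at h1
    have h2 : ((n : ℝ) + 1) ≠ 0 := by positivity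
    exact (mul_eq_zero.1 h1).resolve_right h2

/-- **Derivative criterion.** -/
theorem InW.of_deriv {μ : ℝ} {P R : ℝ⟦X⟧} (h0 : 0 ≤ constantCoeff P) (hR : InW (μ - 1) R)
    (hd : d⁄dX ℝ P - C μ * P = (1 - PowerSeries.X) * R) : InW μ P := by
  obtain ⟨r, hr, hR⟩ := hR
  refine ⟨fun a => if a = 0 then constantCoeff P * Real.exp μ else r (a - 1) / a,
    fun a => ?_, fun N => ?_⟩
  · dsimp only
    split_ifs
    · positivity
    · exact div_nonneg (hr _) (Nat.cast_nonneg a)
  · rcases Nat.eq_zero_or_pos N with hN | hN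
    · subst hN; simp
    · obtain ⟨M, rfl⟩ : ∃ M, N = M + 1 := ⟨N - 1, by omega⟩
      apply dvd_of_ode μ
      · rw [map_sub, map_sum, sum_range_succ']
        have : ∀ a ∈ range M, constantCoeff (C (if a + 1 = 0 then constantCoeff P * Real.exp μ
            else r (a + 1 - 1) / ((a + 1 : ℕ) : ℝ)) * (PowerSeries.X ^ (a + 1) *
              SRC.E (μ - ((a + 1 : ℕ) : ℝ)))) = 0 := by
          intro a _
          simp
        rw [sum_eq_zero this]
        have hE : constantCoeff (SRC.E μ) = Real.exp (-μ) := by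
          rw [← coeff_zero_eq_constantCoeff_apply, coeff_E]; simp
        simp only [if_true, pow_zero, one_mul, Nat.cast_zero, sub_zero, zero_add, map_mul, hE,
          constantCoeff_C]
        rw [mul_assoc, ← Real.exp_add]
        simp
      · have hM : (PowerSeries.X : ℝ⟦X⟧) ^ M ∣ (1 - PowerSeries.X) *
            (R - ∑ a ∈ range M, C (r a) * (PowerSeries.X ^ a * SRC.E (μ - 1 - a))) :=
          Dvd.dvd.mul_left (hR M) _
        have e : M + 1 - 1 = M := by omega
        rw [e]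
        convert hM using 1
        have key : ∀ S : ℝ⟦X⟧, (d⁄dX ℝ) (P - S) - C μ * (P - S)
            = ((d⁄dX ℝ) P - C μ * P) - ((d⁄dX ℝ) S - C μ * S) := by
          intro S
          rw [map_sub]; ring
        rw [key, hd, mul_sub (1 - PowerSeries.X : ℝ⟦X⟧) R]
        congr 1
        rw [map_sum, mul_sum, mul_sum]
        rw [sum_range_succ', sum_range_succ']
        have h1 : ∀ a ∈ range M, (d⁄dX ℝ) (C (if a + 1 = 0 then constantCoeff P * Real.exp μ
            else r (a + 1 - 1) / ((a + 1 : ℕ) : ℝ)) * (PowerSeries.X ^ (a + 1) *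
              SRC.E (μ - ((a + 1 : ℕ) : ℝ))))
            = C μ * (C (if a + 1 = 0 then constantCoeff P * Real.exp μ
            else r (a + 1 - 1) / ((a + 1 : ℕ) : ℝ)) * (PowerSeries.X ^ (a + 1) *
              SRC.E (μ - ((a + 1 : ℕ) : ℝ))))
              + (1 - PowerSeries.X) * (C (r a) * (PowerSeries.X ^ a * SRC.E (μ - 1 - a))) := by
          intro a _
          have ha : a + 1 ≠ 0 := by omega
          rw [if_neg ha]
          have hC : ∀ (t : ℝ) (G : ℝ⟦X⟧), (d⁄dX ℝ) (C t * G) = C t * (d⁄dX ℝ) G := by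
            intro t G
            rw [Derivation.leibniz, derivative_C, smul_zero, add_zero, smul_eq_mul]
          rw [hC, Derivation.leibniz, Derivation.leibniz_pow, E_deriv]
          have hE : SRC.E (μ - ((a + 1 : ℕ) : ℝ)) = SRC.E (μ - 1 - a) := by
            congr 1; push_cast; ring
          rw [hE]
          simp only [add_tsub_cancel_right, derivative_X, smul_eq_mul, nsmul_eq_mul]
          have hr' : C (r a / ((a + 1 : ℕ) : ℝ)) * ((a + 1 : ℕ) : ℝ⟦X⟧) = C (r a) := by
            rw [← map_natCast (C (R := ℝ)), ← map_mul]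
            congr 1
            have : ((a + 1 : ℕ) : ℝ) ≠ 0 := by positivity
            field_simp
          have hcc : C (μ - ((a + 1 : ℕ) : ℝ)) = C μ - ((a + 1 : ℕ) : ℝ⟦X⟧) := by
            rw [map_sub, map_natCast]
          rw [hcc, pow_succ]
          calc _ = C μ * (C (r a / ((a + 1 : ℕ) : ℝ)) * (PowerSeries.X ^ a * PowerSeries.X *
                SRC.E (μ - 1 - a))) + (1 - PowerSeries.X) * ((C (r a / ((a + 1 : ℕ) : ℝ)) *
                ((a + 1 : ℕ) : ℝ⟦X⟧)) * (PowerSeries.X ^ a * SRC.E (μ - 1 - a))) := by ring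
            _ = _ := by rw [hr']
        rw [sum_congr rfl h1, sum_add_distrib]
        have h0' : (d⁄dX ℝ) (C (if (0 : ℕ) = 0 then constantCoeff P * Real.exp μ
            else r (0 - 1) / ((0 : ℕ) : ℝ)) * (PowerSeries.X ^ 0 * SRC.E (μ - ((0 : ℕ) : ℝ))))
            = C μ * (C (if (0 : ℕ) = 0 then constantCoeff P * Real.exp μ
            else r (0 - 1) / ((0 : ℕ) : ℝ)) * (PowerSeries.X ^ 0 * SRC.E (μ - ((0 : ℕ) : ℝ)))) := by
          simp only [if_true, pow_zero, one_mul, Nat.cast_zero, sub_zero]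
          rw [Derivation.leibniz, derivative_C, smul_zero, add_zero, smul_eq_mul, E_deriv]
          ring
        rw [h0']
        ring

/-- coins -/
lemma InW.coin {s : ℝ} (hs : s ≤ 1) : InW s (1 + C s * (PowerSeries.X - 1)) := by
  apply InW.of_deriv (R := C (s ^ 2) * 1)
  · simp; linarith
  · exact (InW.one (by linarith)).smul (by positivity)
  · rw [map_add, Derivation.leibniz, map_sub, derivative_X, derivative_C]
    simp only [Derivation.map_one_eq_zero, smul_eq_mul, map_pow]
    ring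

/-- **Consequence.** Below the mean the coefficients increase. -/
theorem InW.coeff_mono {μ : ℝ} {P : ℝ⟦X⟧} (hP : InW μ P) (j : ℕ) (hj : ((j : ℝ) + 1) ≤ μ) :
    coeff j P ≤ coeff (j + 1) P := by
  obtain ⟨w, hw, h⟩ := hP
  have h1 := h (j + 2)
  rw [X_pow_dvd_iff] at h1
  have c0 := h1 j (by omega)
  have c1 := h1 (j + 1) (by omega)
  rw [map_sub, sub_eq_zero, map_sum] at c0 c1
  rw [c0, c1]
  apply sum_le_sum
  intro a ha
  rw [coeff_C_mul, coeff_C_mul]
  apply mul_le_mul_of_nonneg_left _ (hw a)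
  rw [coeff_X_pow_mul', coeff_X_pow_mul']
  by_cases h2 : a ≤ j
  · rw [if_pos h2, if_pos (by omega), coeff_E, coeff_E]
    have e : j + 1 - a = (j - a) + 1 := by omega
    rw [e, Nat.factorial_succ, pow_succ]
    have hja : ((j - a : ℕ) : ℝ) = (j : ℝ) - a := by rw [Nat.cast_sub h2]
    have hc : ((j - a : ℕ) : ℝ) + 1 ≤ μ - a := by rw [hja]; linarith
    have hpos : (0 : ℝ) ≤ μ - a := by
      have : (0 : ℝ) ≤ ((j - a : ℕ) : ℝ) := Nat.cast_nonneg _
      linarith
    push_cast
    have f1 : (0 : ℝ) < ((j - a).factorial : ℝ) := by exact_mod_cast Nat.factorial_pos _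
    have f2 : (0 : ℝ) < ((j - a : ℕ) : ℝ) + 1 := by positivity
    rw [div_le_div_iff₀ f1 (by positivity)]
    have hX : 0 ≤ Real.exp (-(μ - a)) * (μ - a) ^ (j - a) * ((j - a).factorial : ℝ) := by positivity
    calc Real.exp (-(μ - a)) * (μ - a) ^ (j - a) * ((((j - a : ℕ) : ℝ) + 1) * ((j - a).factorial : ℝ))
        = (Real.exp (-(μ - a)) * (μ - a) ^ (j - a) * ((j - a).factorial : ℝ)) *
          (((j - a : ℕ) : ℝ) + 1) := by ring
      _ ≤ (Real.exp (-(μ - a)) * (μ - a) ^ (j - a) * ((j - a).factorial : ℝ)) * (μ - a) :=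
          mul_le_mul_of_nonneg_left hc hX
      _ = _ := by ring
  · rw [if_neg h2]
    by_cases h3 : a ≤ j + 1
    · rw [if_pos h3, coeff_E]
      have : j + 1 - a = 0 := by omega
      rw [this]; simp; positivity
    · rw [if_neg h3]

end Pool.Agent.Lib_helper36.SRC
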