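import Pool.Agent.Lib_helper36.SRC.A4
import Pool.Agent.Lib_helper36.SRC.StarLemma

set_option autoImplicit false

/-! # The recursion `(X)` -/

namespace Pool.Agent.Lib_helper36.SRC

open PowerSeries RT Pool.Agent.Lib_helper13.GC6 Pool.Agent.Lib_helper6.SRC
open Pool.Agent.Lib_helper79.SRC (prodC)

/-- `(K9a)` -/
def K9a : Prop := ∀ a : ℝ, 0 ≤ a → a ≤ 1 / 4 →
  InW (3 / 2 + a) (kap ^ 3 * (C (3 / 4) * (1 + C a * (X - 1)) + C (a / 2) * (X - 1) ^ 2))

/-- `(K9b)` -/
def K9b : Prop := ∀ a b : ℝ, 0 ≤ b → b ≤ a → b ≤ 5 / 32 → a ≤ 1 / 4 →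
  InW (2 + a) (kap ^ 4 * (C (7 / 8) * (1 + C a * (X - 1)) + C b * (X - 1) ^ 2))

/-- the weight of the centre of an honest star -/
noncomputable def pw (l : ℕ) : ℝ := (1 / 2) ^ (l + 1)

lemma pw_pos (l : ℕ) : 0 < pw l := by unfold pw; positivity

lemma prodC_rep (l : ℕ) : prodC (List.replicate l (1 / 2 : ℝ)) = kap ^ l := by
  rw [← prodE_rep]; rfl

lemma inW_hon (l : ℕ) (w : ℝ) (h0 : 0 ≤ w) (h1 : w ≤ (1 / 2) ^ l) :
    InW ((l : ℝ) / 2 + w) (kap ^ l + C w * (X - 1)) := by
  have h := star_lemma (List.replicate l (1 / 2 : ℝ)) w (by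
    intro s hs
    rw [List.eq_of_mem_replicate hs]
    norm_num) h0 (by rw [List.length_replicate]; exact h1)
  rw [sum_rep, prodC_rep] at h
  exact h

lemma inW_S (l : ℕ) : InW ((l : ℝ) / 2 + pw l) (kap ^ l + C (pw l) * (X - 1)) := by
  apply inW_hon l _ (pw_pos l).le
  unfold pw
  rw [pow_succ]
  have : (0 : ℝ) < (1 / 2) ^ l := by positivity
  linarith

lemma inW_T (l : ℕ) : InW ((l : ℝ) / 2 + 2 * pw l) (kap ^ l + C (2 * pw l) * (X - 1)) := by
  apply inW_hon l _ (by have := pw_pos l; linarith)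
  unfold pw
  rw [pow_succ]
  linarith

lemma inW_kap (l : ℕ) : InW ((l : ℝ) / 2) (kap ^ l) := by
  have := inW_hon l 0 (le_refl _) (by positivity)
  refine this.congr (by ring) (by rw [map_zero]; ring)

lemma HM_cons (l : ℕ) (ls : List ℕ) : HM (l :: ls) = ((l : ℝ) / 2 + pw l) + HM ls := by
  unfold HM pw
  rw [List.map_cons, List.sum_cons]

lemma HD_cons (l : ℕ) (ls : List ℕ) :
    HD (l :: ls) = (kap ^ l + C (pw l) * (X - 1)) * HD ls := by
  unfold HD pw
  rw [List.map_cons, List.prod_cons]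

lemma HN_cons (l : ℕ) (ls : List ℕ) : HN (l :: ls) = kap ^ l * HN ls := by
  unfold HN
  rw [List.map_cons, List.prod_cons]

lemma inW_HD (ls : List ℕ) : InW (HM ls) (HD ls) := by
  induction ls with
  | nil => simpa [HM, HD] using InW.one (le_refl (0 : ℝ))
  | cons l ls ih => rw [HM_cons, HD_cons]; exact (inW_S l).mul ih

/-- sum of the weights of the centres -/
noncomputable def sg (ls : List ℕ) : ℝ := (ls.map pw).sum

lemma sg_cons (l : ℕ) (ls : List ℕ) : sg (l :: ls) = pw l + sg ls := by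
  unfold sg; rw [List.map_cons, List.sum_cons]

lemma sg_nonneg (ls : List ℕ) : 0 ≤ sg ls := by
  induction ls with
  | nil => simp [sg]
  | cons l ls ih => rw [sg_cons]; have := pw_pos l; linarith

/-- the small block `E (1 + a' y) + (p / 2) y²` -/
lemma inW_small {l : ℕ} (hl : 3 ≤ l) {a : ℝ} (ha0 : 0 ≤ a) (ha : a ≤ 1 / 4) :
    InW ((l : ℝ) / 2 + a)
      (C (4 * pw l) * (kap ^ l * (1 + C a * (X - 1))) + C (2 * pw l ^ 2) * (X - 1) ^ 2) := by
  have h := inW_K7 hl (p := pw l) (a := a) (c := 1 / 2) rfl ha0 ha (by norm_num) (by norm_num)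
  have h1 := InW.smul (show 0 ≤ 4 * pw l by have := pw_pos l; linarith) h
  refine h1.congr rfl ?_
  have e : C (2 * pw l ^ 2) = C (4 * pw l) * (C (1 / 2 * pw l) : ℝ⟦X⟧) := by
    rw [← map_mul]; congr 1; ring
  rw [e]
  change C (4 * pw l) * (kap ^ l * (1 + C a * (X - 1)) + C (1 / 2 * pw l) * (X - 1) ^ 2) = _
  ring

lemma two_C_half : (2 : ℝ⟦X⟧) * C (1 / 2 : ℝ) = 1 := by
  rw [← map_ofNat (C (R := ℝ)) 2, ← map_mul]; norm_num

/-- the block of one star -/
lemma inW_block {l : ℕ} (hl : 3 ≤ l) {a : ℝ} (ha0 : 0 ≤ a) (ha : a + pw l ≤ 1 / 4) :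
    InW ((l : ℝ) / 2 + pw l + a)
      (C (1 / 2) * ((kap ^ l + C (2 * pw l) * (X - 1)) * (1 + C (a - pw l) * (X - 1)))
        + C (1 / 2) * (C (4 * pw l) * (kap ^ l * (1 + C (a + pw l) * (X - 1)))
          + C (2 * pw l ^ 2) * (X - 1) ^ 2)) := by
  have hp := pw_pos l
  apply InW.add
  · apply InW.smul (by norm_num)
    exact ((inW_T l).mul (InW.coin (s := a - pw l) (by linarith))).congr (by ring) rfl
  · apply InW.smul (by norm_num)
    exact (inW_small hl (a := a + pw l) (by linarith) ha).congr (by ring) rfl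

/-- the recursion identity -/
lemma X_ident (a b p lam : ℝ) (hlam : lam = 1 - 4 * p) (hl0 : lam ≠ 0) (E D N : ℝ⟦X⟧) :
    (E + C p * (X - 1)) * D * (1 + C a * (X - 1)) + C b * ((X - 1) ^ 2 * (E * N))
    = C (lam / 2) * (E * (D * (1 + C (a + p) * (X - 1)) + C (2 * b / lam) * ((X - 1) ^ 2 * N)))
      + D * (C (1 / 2) * ((E + C (2 * p) * (X - 1)) * (1 + C (a - p) * (X - 1)))
        + C (1 / 2) * (C (4 * p) * (E * (1 + C (a + p) * (X - 1)))
          + C (2 * p ^ 2) * (X - 1) ^ 2)) := by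
  have e1 : C (lam / 2) * C (2 * b / lam) = (C b : ℝ⟦X⟧) := by
    rw [← map_mul]; congr 1; field_simp
  have e2 : C (lam / 2) = C (1 / 2) * (1 - 4 * C p : ℝ⟦X⟧) := by
    have : (4 : ℝ⟦X⟧) = C 4 := (map_ofNat C 4).symm
    rw [this, ← map_mul, ← map_one (C (R := ℝ)), ← map_sub, ← map_mul, hlam]; congr 1; ring
  have h2 := two_C_half
  rw [e2] at e1 ⊢
  simp only [map_sub, map_add, map_mul, map_pow, map_ofNat]
  linear_combination (-(X - 1) ^ 2 * E * N) * e1
    - (D * ((E + C p * (X - 1)) * (1 + C a * (X - 1)))) * h2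

/-- **The recursion.** -/
theorem X_gen (k9 : K9b) : ∀ ls : List ℕ, ls ≠ [] → (∀ j ∈ ls, 4 ≤ j) → ∀ a b : ℝ, 0 ≤ a → 0 ≤ b →
    a + sg ls ≤ 1 / 4 → 2 ^ ls.length * b ≤ (1 - 4 * sg ls) * (a + sg ls) →
    2 ^ ls.length * b ≤ (1 - 4 * sg ls) * (5 / 32) →
    InW (HM ls + a) (HD ls * (1 + C a * (X - 1)) + C b * ((X - 1) ^ 2 * HN ls)) := by
  intro ls
  induction ls with
  | nil => intro h; exact absurd rfl h
  | cons l ls ih =>
    intro _ hj a b ha0 hb0 hsum h1 h2
    have hl : 4 ≤ l := hj l (by simp)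
    have hp := pw_pos l
    have hp32 : pw l ≤ 1 / 32 := by
      unfold pw
      calc (1 / 2 : ℝ) ^ (l + 1) ≤ (1 / 2) ^ 5 :=
            pow_le_pow_of_le_one (by norm_num) (by norm_num) (by omega)
        _ = 1 / 32 := by norm_num
    rw [sg_cons] at hsum h1 h2
    have hsg := sg_nonneg ls
    obtain ⟨p, hpd⟩ : ∃ p, p = pw l := ⟨_, rfl⟩
    obtain ⟨lam, hlam⟩ : ∃ lam : ℝ, lam = 1 - 4 * p := ⟨_, rfl⟩
    rw [← hpd] at hp hp32 hsum h1 h2
    have hlam0 : 0 < lam := by rw [hlam]; linarith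
    have hblock := inW_block (l := l) (by omega) (a := a) ha0 (by rw [← hpd]; linarith)
    rw [← hpd] at hblock
    rw [HM_cons, HD_cons, HN_cons, ← hpd]
    rcases ls.eq_nil_or_concat with hnil | hcons
    · -- one star
      subst hnil
      have hM : HM [] = 0 := by simp [HM]
      have hD : HD [] = 1 := by simp [HD]
      have hN : HN [] = 1 := by simp [HN]
      have hs0 : sg [] = 0 := by simp [sg]
      rw [hs0, add_zero] at hsum h1 h2
      simp only [List.length_cons, List.length_nil, zero_add, pow_one] at h1 h2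
      rw [X_ident a b p lam hlam hlam0.ne']
      have h3 : InW ((l : ℝ) / 2 + (a + p)) (kap ^ l * (C lam * (1 + C (a + p) * (X - 1))
          + C (2 * b) * (X - 1) ^ 2)) := by
        obtain ⟨i, rfl⟩ : ∃ i, l = i + 4 := ⟨l - 4, by omega⟩
        have hb1 : 2 * b ≤ a + p := by nlinarith
        have hb2 : 2 * b ≤ 5 / 32 := by nlinarith
        have k := k9 (a + p) (2 * b) (by linarith) hb1 hb2 hsum
        have k1 := (inW_kap i).mul k
        have k2 := ((inW_kap (i + 4)).mul (InW.coin (s := a + p) (by linarith)))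
        have k3 := InW.smul (show 0 ≤ lam - 7 / 8 by rw [hlam]; linarith) k2
        refine ((k1.congr (show _ = ((i + 4 : ℕ) : ℝ) / 2 + (a + p) by push_cast; ring) rfl).add
          k3).congr rfl ?_
        rw [map_sub]
        ring
      rw [hM, hD, hN]
      apply InW.add
      · have h4 := InW.smul (show (0 : ℝ) ≤ 1 / 2 by norm_num) h3
        refine h4.congr (by ring) ?_
        have e1 : C (lam / 2) = C (1 / 2) * (C lam : ℝ⟦X⟧) := by rw [← map_mul]; congr 1; ring
        have e2 : C lam * C (2 * b / lam) = (C (2 * b) : ℝ⟦X⟧) := by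
          rw [← map_mul]; congr 1; field_simp
        rw [e1]
        linear_combination (-(C (1 / 2 : ℝ) * kap ^ l * (X - 1) ^ 2)) * e2
      · rw [one_mul]
        exact hblock.congr (by ring) rfl
    · have hne : ls ≠ [] := by
        rintro rfl
        obtain ⟨_, _, h⟩ := hcons
        simp at h
      rw [X_ident a b p lam hlam hlam0.ne']
      have hsum' : a + p + sg ls ≤ 1 / 4 := by linarith
      have hls : sg ls ≤ 1 / 4 := by linarith
      have hkey : (1 - 4 * (p + sg ls)) ≤ lam * (1 - 4 * sg ls) := by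
        rw [hlam]; nlinarith
      have hpow : (2 : ℝ) ^ (l :: ls).length * b = 2 ^ ls.length * (2 * b) := by
        rw [List.length_cons, pow_succ]; ring
      rw [hpow] at h1 h2
      have hb' : (2 : ℝ) ^ ls.length * (2 * b / lam) = (2 ^ ls.length * (2 * b)) / lam := by ring
      have ih' := ih hne (fun j hj' => hj j (by simp [hj'])) (a + p) (2 * b / lam) (by linarith)
        (by positivity) hsum'
        (by
          rw [hb', div_le_iff₀ hlam0]
          refine h1.trans ?_
          have : (1 - 4 * (p + sg ls)) * (a + (p + sg ls)) ≤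
              (lam * (1 - 4 * sg ls)) * (a + (p + sg ls)) :=
            mul_le_mul_of_nonneg_right hkey (by linarith)
          linarith)
        (by
          rw [hb', div_le_iff₀ hlam0]
          refine h2.trans ?_
          have : (1 - 4 * (p + sg ls)) * (5 / 32) ≤ (lam * (1 - 4 * sg ls)) * (5 / 32) :=
            mul_le_mul_of_nonneg_right hkey (by norm_num)
          linarith)
      apply InW.add
      · apply InW.smul (by linarith)
        exact ((inW_kap l).mul ih').congr (by ring) rfl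
      · exact ((inW_HD ls).mul hblock).congr (by ring) rfl

lemma pw_le {l j : ℕ} (h : l ≤ j) : pw j ≤ pw l := by
  unfold pw
  exact pow_le_pow_of_le_one (by norm_num) (by norm_num) (by omega)

lemma sg_le {l : ℕ} (ls : List ℕ) (h : ∀ j ∈ ls, l ≤ j) : sg ls ≤ ls.length * pw l := by
  induction ls with
  | nil => simp [sg]
  | cons a ls ih =>
    rw [sg_cons, List.length_cons]
    have h1 := pw_le (h a (by simp))
    have h2 := ih (fun j hj => h j (by simp [hj]))
    push_cast
    linarith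

lemma pow_lin2 (k : ℕ) : ((k : ℝ) + 2) * (1 / 2) ^ (k + 2) ≤ 1 / 2 := by
  induction k with
  | zero => norm_num
  | succ k ih =>
    have hk : (0 : ℝ) ≤ k := Nat.cast_nonneg k
    have h0 : (0 : ℝ) < (1 / 2) ^ (k + 2) := by positivity
    rw [show k + 1 + 2 = (k + 2) + 1 by omega, pow_succ]
    push_cast
    nlinarith

lemma pow_lin3 (k : ℕ) : (k : ℝ) * (1 / 2) ^ (k + 2) ≤ 1 / 8 := by
  have key : ∀ j : ℕ, ((j : ℝ) + 1) * (1 / 2) ^ (j + 3) ≤ 1 / 8 := by
    intro j
    induction j with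
    | zero => norm_num
    | succ j ih =>
      have hj : (0 : ℝ) ≤ j := Nat.cast_nonneg j
      have h0 : (0 : ℝ) < (1 / 2) ^ (j + 3) := by positivity
      rw [show j + 1 + 3 = (j + 3) + 1 by omega, pow_succ]
      push_cast
      nlinarith
  rcases Nat.eq_zero_or_pos k with h | h
  · subst h; norm_num
  · obtain ⟨j, rfl⟩ : ∃ j, k = j + 1 := ⟨k - 1, by omega⟩
    have := key j
    push_cast
    exact this

/-- **(X)** -/
theorem statX_of_K9 (k9a : K9a) (k9b : K9b) : StatX := by
  intro h l ls t ρ hne hl hmin ht hρ0 hρ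
  change InW (HM ls + (t - pw l + ρ)) (HD ls * (1 + C (t - pw l + ρ) * (X - 1)) +
      C (2 * t * (2 * (t - pw l) + ρ)) * ((X - 1) ^ 2 * HN ls))
  set k := ls.length with hk
  have hk1 : 1 ≤ k := List.length_pos_iff.2 hne
  have ht0 : 0 < t := by rw [ht]; positivity
  have hpt : 2 * pw l ≤ t := by
    rw [ht]; unfold pw
    have : (1 / 2 : ℝ) ^ (l + 1) ≤ (1 / 2) ^ (h + k + 2 + 1) :=
      pow_le_pow_of_le_one (by norm_num) (by norm_num) (by omega)
    rw [pow_succ _ (h + k + 2)] at this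
    linarith
  have hp := pw_pos l
  have hsg := sg_le ls hmin
  have hsg0 := sg_nonneg ls
  rw [← hk] at hsg
  have htk : t ≤ (1 / 2) ^ (k + 2) := by
    rw [ht]; exact pow_le_pow_of_le_one (by norm_num) (by norm_num) (by omega)
  have hk0 : (1 : ℝ) ≤ k := by exact_mod_cast hk1
  have hlin := pow_lin2 k
  have hkt : ((k : ℝ) + 2) * t ≤ 1 / 2 := by
    have := mul_le_mul_of_nonneg_left htk (show (0 : ℝ) ≤ (k : ℝ) + 2 by linarith)
    linarith
  -- the sum
  have hsum : t - pw l + ρ + sg ls ≤ 1 / 4 := by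
    have h1 : (k : ℝ) * pw l - pw l ≤ (k - 1) * (t / 2) := by nlinarith
    nlinarith
  have hpowb : (2 : ℝ) ^ k * (2 * t) ≤ 1 / 2 := by
    have h1 : (2 : ℝ) ^ k * (2 * t) ≤ 2 ^ k * (2 * (1 / 2) ^ (k + 2)) :=
      mul_le_mul_of_nonneg_left (by linarith) (by positivity)
    have h2 : (2 : ℝ) ^ k * (2 * (1 / 2) ^ (k + 2)) = (2 * (1 / 2)) ^ k * (1 / 2) := by
      rw [mul_pow, pow_add]; ring
    rw [h2] at h1
    norm_num at h1 ⊢
    linarith
  have hb : (2 : ℝ) ^ k * (2 * t * (2 * (t - pw l) + ρ)) ≤ (t - pw l) + ρ / 2 := by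
    have : (2 : ℝ) ^ k * (2 * t * (2 * (t - pw l) + ρ)) = (2 ^ k * (2 * t)) * (2 * (t - pw l) + ρ) := by
      ring
    rw [this]
    have := mul_le_mul_of_nonneg_right hpowb (show 0 ≤ 2 * (t - pw l) + ρ by linarith)
    linarith
  by_cases hall : ∀ j ∈ ls, 4 ≤ j
  · apply X_gen k9b ls hne hall _ _ (by linarith)
      (mul_nonneg (by linarith) (by linarith)) hsum
    · rw [← hk]
      refine hb.trans ?_
      have := mul_nonneg hsg0 (show 0 ≤ 1 / 4 - (t - pw l + ρ + sg ls) by linarith)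
      nlinarith
    · rw [← hk]
      refine hb.trans ?_
      rcases Nat.lt_or_ge k 2 with hk2 | hk2
      · -- one star
        have hk' : k = 1 := by omega
        have ht8 : t ≤ 1 / 8 := by rw [hk'] at htk; norm_num at htk; linarith
        have hsg1 : sg ls ≤ pw l := by
          rw [hk'] at hsg; norm_num at hsg; exact hsg
        nlinarith
      · have hk2' : (2 : ℝ) ≤ k := by exact_mod_cast hk2
        have ht16 : t ≤ 1 / 16 := by
          refine htk.trans ?_
          calc (1 / 2 : ℝ) ^ (k + 2) ≤ (1 / 2) ^ 4 :=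
                pow_le_pow_of_le_one (by norm_num) (by norm_num) (by omega)
            _ = 1 / 16 := by norm_num
        have hsg8 : sg ls ≤ 1 / 8 := by
          have h1 : (k : ℝ) * pw l ≤ k * (t / 2) := mul_le_mul_of_nonneg_left (by linarith) (by linarith)
          have h2 : (k : ℝ) * t ≤ k * (1 / 2) ^ (k + 2) := mul_le_mul_of_nonneg_left htk (by linarith)
          have h3 := pow_lin3 k
          linarith
        nlinarith
  · -- a star with three leaves
    push Not at hall
    obtain ⟨j, hj, hj4⟩ := hall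
    have hlj := hmin j hj
    have hk' : k = 1 := by omega
    have hh0 : h = 0 := by omega
    have hl3 : l = 3 := by omega
    have hj3 : j = 3 := by omega
    obtain ⟨i, hi⟩ := List.length_eq_one_iff.1 (hk.symm.trans hk')
    rw [hi, List.mem_singleton] at hj
    subst hj
    rw [hj3] at hi
    rw [hi, hl3]
    have ht8 : t = 1 / 8 := by rw [ht, hk', hh0]; norm_num
    have hp3 : pw 3 = 1 / 16 := by unfold pw; norm_num
    have hblock := inW_block (l := 3) (le_refl _) (a := 1 / 16 + ρ) (by linarith)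
      (by rw [hp3]; linarith)
    rw [hp3] at hblock
    have hM : HM [] = 0 := by simp [HM]
    have hD : HD [] = 1 := by simp [HD]
    have hN : HN [] = 1 := by simp [HN]
    rw [HM_cons, HD_cons, HN_cons, hM, hD, hN, hp3, ht8]
    have k := k9a (1 / 8 + ρ) (by linarith) (by linarith)
    have k1 := (InW.smul (show (0 : ℝ) ≤ 1 / 2 by norm_num) k).add
      (hblock.congr (show _ = 3 / 2 + (1 / 8 + ρ) by push_cast; ring) rfl)
    refine k1.congr (by push_cast; ring) ?_
    have e1 : (1 / 8 : ℝ) - 1 / 16 + ρ = 1 / 16 + ρ := by ring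
    have e2 : 2 * (1 / 8 : ℝ) * (2 * (1 / 8 - 1 / 16) + ρ) = 1 / 2 * ((1 / 8 + ρ) / 2) := by ring
    have e3 : C (3 / 4 : ℝ) = 1 - C (4 * (1 / 16) : ℝ) := by
      rw [← map_one (C (R := ℝ)), ← map_sub]; congr 1; norm_num
    have e4 : (1 / 8 : ℝ) + ρ = 1 / 16 + ρ + 1 / 16 := by ring
    rw [e1, e2, e3, e4]
    simp only [mul_one]
    have h2 := two_C_half
    have hq : C (4 * (1 / 16) : ℝ) = 4 * (C (1 / 16) : ℝ⟦X⟧) := by
      rw [map_mul, map_ofNat]
    rw [hq]
    simp only [map_sub, map_add, map_mul, map_pow, map_ofNat]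
    linear_combination ((kap ^ 3 + C (1 / 16) * (X - 1)) * (1 + (C (1 / 16) + C ρ) * (X - 1))) * h2

end Pool.Agent.Lib_helper36.SRC
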